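import Pool.Agent.H21.RHB.Stm

set_option autoImplicit false

namespace H21RHB.CARD

open Real Finset

theorem pow_diff_le (x : ℝ) (hx : 0 ≤ x) (n : ℕ) :
    (x + 1) ^ (n + 1) - x ^ (n + 1) ≤ (n + 1) * (x + 1) ^ n := by
  induction n with
  | zero => simp
  | succ n ih =>
    have h1 : x ^ (n + 1) ≤ (x + 1) ^ (n + 1) := pow_le_pow_left₀ hx (by linarith) _
    have e : (x + 1) ^ (n + 1 + 1) - x ^ (n + 1 + 1) =
        (x + 1) * ((x + 1) ^ (n + 1) - x ^ (n + 1)) + x ^ (n + 1) := by ring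
    have h2 := mul_le_mul_of_nonneg_left ih (by linarith : 0 ≤ x + 1)
    rw [e]
    push_cast
    calc (x + 1) * ((x + 1) ^ (n + 1) - x ^ (n + 1)) + x ^ (n + 1)
        ≤ (x + 1) * ((n + 1) * (x + 1) ^ n) + (x + 1) ^ (n + 1) := add_le_add h2 h1
      _ = ((n : ℝ) + 1 + 1) * (x + 1) ^ (n + 1) := by ring

end H21RHB.CARD

namespace H21RHB

open Real Finset

theorem card : S_CARD := by
  intro k hk
  obtain ⟨m, rfl⟩ : ∃ m, k = m + 1 := ⟨k - 1, by omega⟩
  set K : ℕ := m + 1 with hK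
  refine ⟨2 * K * 4 ^ K, by positivity, fun j hj => ?_⟩
  have hj0 : (0 : ℝ) < j := by exact_mod_cast hj
  have hj1 : (1 : ℝ) ≤ j := by exact_mod_cast hj
  have hK1 : (1 : ℝ) ≤ K := by rw [hK]; push_cast; linarith [(Nat.cast_nonneg m : (0 : ℝ) ≤ m)]
  have e2 : 2 * K - 1 = 2 * m + 1 := by omega
  have e2' : 2 * K = 2 * m + 1 + 1 := by omega
  have hle : (j : ℝ) + 1 ≤ 2 * j := by linarith
  -- the powers of j + 1
  have hp : ((j : ℝ) + 1) ^ (2 * K - 1) ≤ 4 ^ K * (j : ℝ) ^ (2 * K - 1) := by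
    calc ((j : ℝ) + 1) ^ (2 * K - 1) ≤ (2 * j) ^ (2 * K - 1) :=
          pow_le_pow_left₀ (by positivity) hle _
      _ = 2 ^ (2 * K - 1) * (j : ℝ) ^ (2 * K - 1) := mul_pow _ _ _
      _ ≤ 4 ^ K * (j : ℝ) ^ (2 * K - 1) := by
          refine mul_le_mul_of_nonneg_right ?_ (by positivity)
          calc (2 : ℝ) ^ (2 * K - 1) ≤ 2 ^ (2 * K) := pow_le_pow_right₀ (by norm_num) (by omega)
            _ = 4 ^ K := by rw [pow_mul]; norm_num
  have h1 : ((j : ℝ) + 1) ^ (2 * K) - (j : ℝ) ^ (2 * K) ≤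
      2 * K * 4 ^ K * (j : ℝ) ^ (2 * K - 1) := by
    have h := CARD.pow_diff_le j hj0.le (2 * m + 1)
    rw [← e2', ← e2] at h
    refine h.trans ?_
    have e3 : (((2 * K - 1 : ℕ) : ℝ) + 1) = 2 * K := by
      rw [e2, hK]
      push_cast
      ring
    rw [e3, mul_assoc (2 * (K : ℝ))]
    exact mul_le_mul_of_nonneg_left hp (by positivity)
  refine ⟨h1, ?_, ?_, ?_, ?_, ?_⟩
  · refine le_trans ?_ h1
    have h : (blk K j).card ≤ (j + 1) ^ (2 * K) - j ^ (2 * K) := by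
      calc (blk K j).card ≤ (Ioc (j ^ (2 * K)) ((j + 1) ^ (2 * K))).card := card_filter_le _ _
        _ = _ := Nat.card_Ioc _ _
    have h' : j ^ (2 * K) ≤ (j + 1) ^ (2 * K) := Nat.pow_le_pow_left (by omega) _
    calc ((blk K j).card : ℝ) ≤ (((j + 1) ^ (2 * K) - j ^ (2 * K) : ℕ) : ℝ) := by exact_mod_cast h
      _ = _ := by rw [Nat.cast_sub h']; push_cast; ring
  · have h : (sqb K j).card ≤ (j + 1) ^ K - j ^ K := by
      calc (sqb K j).card ≤ (Ioc (j ^ K) ((j + 1) ^ K)).card := card_filter_le _ _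
        _ = _ := Nat.card_Ioc _ _
    have h' : j ^ K ≤ (j + 1) ^ K := Nat.pow_le_pow_left (by omega) _
    have hr : ((sqb K j).card : ℝ) ≤ ((j : ℝ) + 1) ^ K - (j : ℝ) ^ K := by
      calc ((sqb K j).card : ℝ) ≤ (((j + 1) ^ K - j ^ K : ℕ) : ℝ) := by exact_mod_cast h
        _ = _ := by rw [Nat.cast_sub h']; push_cast; ring
    have hd := CARD.pow_diff_le j hj0.le m
    rw [← hK] at hd
    have e3 : ((m : ℝ) + 1) = K := by rw [hK]; push_cast; ring
    rw [e3] at hd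
    calc ∑ p ∈ sqb K j, (p : ℝ) ≤ ∑ _p ∈ sqb K j, ((j : ℝ) + 1) ^ K := by
          refine sum_le_sum fun p hp => ?_
          have := (mem_Ioc.1 (mem_filter.1 hp).1).2
          exact_mod_cast this
      _ = (sqb K j).card * ((j : ℝ) + 1) ^ K := by rw [sum_const, nsmul_eq_mul]
      _ ≤ (K * ((j : ℝ) + 1) ^ m) * ((j : ℝ) + 1) ^ K :=
          mul_le_mul_of_nonneg_right (hr.trans hd) (by positivity)
      _ = K * ((j : ℝ) + 1) ^ (2 * K - 1) := by
          rw [e2, hK]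
          ring
      _ ≤ 2 * K * 4 ^ K * (j : ℝ) ^ (2 * K - 1) := by
          rw [mul_assoc (2 * (K : ℝ))]
          refine mul_le_mul (by linarith) hp (by positivity) (by positivity)
  · calc ((j : ℝ) + 1) ^ (2 * K) ≤ (2 * j) ^ (2 * K) := pow_le_pow_left₀ (by positivity) hle _
      _ = 4 ^ K * (j : ℝ) ^ (2 * K) := by rw [mul_pow, pow_mul 2]; norm_num
      _ ≤ 2 * K * 4 ^ K * (j : ℝ) ^ (2 * K) := by
          refine mul_le_mul_of_nonneg_right ?_ (by positivity)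
          have : (0 : ℝ) < 4 ^ K := by positivity
          nlinarith
  · unfold ww
    refine mul_le_mul_of_nonneg_left (Real.log_le_log hj0 ?_) (by positivity)
    push_cast
    linarith
  · unfold ww
    have h : Real.log ((j + 1 : ℕ) : ℝ) - Real.log j ≤ 1 / j := by
      push_cast
      rw [← Real.log_div (by positivity) (by positivity)]
      have := Real.log_le_sub_one_of_pos (x := ((j : ℝ) + 1) / j) (by positivity)
      refine this.trans (le_of_eq ?_)
      field_simp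
      ring
    have h2 := mul_le_mul_of_nonneg_left h (by positivity : (0 : ℝ) ≤ 2 * K)
    rw [mul_sub] at h2
    refine h2.trans (le_of_eq ?_)
    ring

end H21RHB
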