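import Pool.Agent.H21.RHB.Fin2B
import Pool.Agent.H21.L.R_seed8.TH942.SL.Curve

set_option autoImplicit false

namespace H21RHB

open Real Finset MeasureTheory Filter Topology

open scoped Classical

/-- number of points -/
noncomputable def npts (A B : ℤ) (p : ℕ) : ℕ :=
  Nat.card {q : ZMod p × ZMod p // q.2 ^ 2 = q.1 ^ 3 + (A : ZMod p) * q.1 + (B : ZMod p)} + 1

def GoodP (A B : ℤ) (p : ℕ) : Prop := p.Prime ∧ ¬ ((p : ℤ) ∣ 2 * (-4 * A ^ 3 - 27 * B ^ 2))

noncomputable def trc (A B : ℤ) (p : ℕ) : ℤ := (p : ℤ) + 1 - npts A B p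

noncomputable def cprod (A B : ℤ) (a : ℕ → ℤ) (x : ℕ) : ℝ :=
  ∏ p ∈ (Finset.range (x + 1)).filter (GoodP A B), ((((p : ℤ) + 1 - a p : ℤ) : ℝ) / p)

noncomputable def etr (A B : ℤ) (p : ℕ) : ℤ := if GoodP A B p then trc A B p else 0

theorem etr_hasse (A B : ℤ) (p : ℕ) (_ : p.Prime) : |(etr A B p : ℝ)| ≤ 2 * √p := by
  unfold etr
  split_ifs with h
  · have h1 := Pool.Agent.TH942.SL.hasse_all (a := A) (b := B) (p := p) h
    have h2 : ((trc A B p : ℤ) : ℝ) = (p : ℝ) - Pool.Agent.W263.BSD.pointCount A B p := by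
      unfold trc npts Pool.Agent.W263.BSD.pointCount
      push_cast
      ring
    rw [h2]
    exact h1
  · simp

theorem prod_split (A B : ℤ) (a : ℕ → ℤ) (x : ℕ) :
    PP a x = cprod A B a x *
      ∏ p ∈ ((Finset.range (x + 1)).filter Nat.Prime).filter (fun p => ¬ GoodP A B p),
        (((p : ℝ) + 1 - a p) / p) := by
  unfold PP cprod
  rw [← Finset.prod_filter_mul_prod_filter_not ((Finset.range (x + 1)).filter Nat.Prime)
    (GoodP A B)]
  congr 1
  rw [Finset.filter_filter]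
  refine Finset.prod_congr ?_ ?_
  · ext p
    simp only [Finset.mem_filter, Finset.mem_range]
    constructor
    · rintro ⟨h1, h2, h3⟩
      exact ⟨h1, h3⟩
    · rintro ⟨h1, h2⟩
      exact ⟨h1, h2.1, h2⟩
  · intro p _
    push_cast
    ring

theorem curveB (hB : SeqB) (hE : S_EUL) : ∀ ε : ℝ, 0 < ε → ∃ δ c : ℝ, 0 < δ ∧ 0 < c ∧
    ∀ A B : ℤ, 4 * A ^ 3 + 27 * B ^ 2 ≠ 0 → ∀ F : ℂ → ℂ,
      (∀ s : ℂ, 3 / 2 < s.re → HasProd (fun p : ℕ => if GoodP A B p then
        (eul (trc A B) p s)⁻¹ else 1) (F s)) → ∀ r : ℕ, ∃ (a : ℕ → ℤ) (R : ℂ → ℂ),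
      (∀ p : ℕ, GoodP A B p → |(a p : ℝ) - trc A B p| ≤ (p : ℝ) ^ ε) ∧
      (∀ s : ℂ, 3 / 2 < s.re → HasProd (fun p : ℕ => if GoodP A B p then
        (eul a p s)⁻¹ else 1) (F s * R s)) ∧
      DifferentiableOn ℂ R {s | 1 - δ < s.re} ∧
      (∀ s : ℂ, 1 - δ < s.re → R s = 0 → s.re = 1) ∧
      (∀ s : ℂ, 1 - δ < s.re → R s = 0 → s ≠ 1 → deriv R s ≠ 0) ∧
      (∃ C : ℝ, ∀ T : ℝ, 2 ≤ T → {s : ℂ | 1 - δ < s.re ∧ R s = 0 ∧ |s.im| ≤ T}.Finite ∧
        ({s : ℂ | 1 - δ < s.re ∧ R s = 0 ∧ |s.im| ≤ T}.ncard : ℝ) ≤ C * T * Real.log T) ∧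
      analyticOrderAt R 1 = r ∧
      (∀ X : ℕ, ∃ x : ℕ, X ≤ x ∧ 0 < cprod A B (trc A B) x ∧
        (x : ℝ) ^ c ≤ cprod A B a x / cprod A B (trc A B) x) ∧
      (∀ X : ℕ, ∃ x : ℕ, X ≤ x ∧ 0 < cprod A B (trc A B) x ∧ 0 < cprod A B a x ∧
        cprod A B a x / cprod A B (trc A B) x ≤ (x : ℝ) ^ (-c)) := by
  intro ε hε
  obtain ⟨δ, c, hδ, hc, H⟩ := hB ε hε
  refine ⟨δ, c, hδ, hc, ?_⟩
  intro A B hΔ F hF r
  set P₀ : ℕ := (2 * (-4 * A ^ 3 - 27 * B ^ 2)).natAbs + 1 with hP₀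
  have hD0 : (2 * (-4 * A ^ 3 - 27 * B ^ 2) : ℤ) ≠ 0 := by
    intro h
    apply hΔ
    linarith
  obtain ⟨a, R, h1, h2, h3, h4, h5, h6, h7, h8, h9, h10⟩ := H r P₀ (etr A B) (etr_hasse A B)
  have hbad : ∀ p : ℕ, p.Prime → ¬ GoodP A B p → a p = etr A B p := by
    intro p hp hb
    apply h2 p hp
    have hdvd : (p : ℤ) ∣ 2 * (-4 * A ^ 3 - 27 * B ^ 2) := by
      by_contra hcon
      exact hb ⟨hp, hcon⟩
    have := Int.natAbs_dvd_natAbs.mpr hdvd
    have := Nat.le_of_dvd (Int.natAbs_pos.mpr hD0) this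
    rw [Int.natAbs_natCast] at this
    omega
  have hgood : ∀ p : ℕ, GoodP A B p → etr A B p = trc A B p := by
    intro p hp
    unfold etr
    rw [if_pos hp]
  -- products
  have hK : ∀ x : ℕ, ∏ p ∈ ((Finset.range (x + 1)).filter Nat.Prime).filter
      (fun p => ¬ GoodP A B p), (((p : ℝ) + 1 - a p) / p) =
      ∏ p ∈ ((Finset.range (x + 1)).filter Nat.Prime).filter
      (fun p => ¬ GoodP A B p), (((p : ℝ) + 1 - etr A B p) / p) := by
    intro x
    refine Finset.prod_congr rfl fun p hp => ?_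
    rw [Finset.mem_filter, Finset.mem_filter] at hp
    rw [hbad p hp.1.2 hp.2]
  have hKpos : ∀ x : ℕ, 0 < ∏ p ∈ ((Finset.range (x + 1)).filter Nat.Prime).filter
      (fun p => ¬ GoodP A B p), (((p : ℝ) + 1 - etr A B p) / p) := by
    intro x
    refine Finset.prod_pos fun p hp => ?_
    rw [Finset.mem_filter, Finset.mem_filter] at hp
    have hp0 : (0:ℝ) < p := by exact_mod_cast hp.1.2.pos
    unfold etr
    rw [if_neg hp.2, Int.cast_zero, sub_zero]
    positivity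
  have hce : ∀ x : ℕ, cprod A B (etr A B) x = cprod A B (trc A B) x := by
    intro x
    unfold cprod
    refine Finset.prod_congr rfl fun p hp => ?_
    rw [Finset.mem_filter] at hp
    rw [hgood p hp.2]
  have hPe : ∀ x : ℕ, PP (etr A B) x = cprod A B (trc A B) x *
      ∏ p ∈ ((Finset.range (x + 1)).filter Nat.Prime).filter
      (fun p => ¬ GoodP A B p), (((p : ℝ) + 1 - etr A B p) / p) := by
    intro x
    rw [prod_split A B (etr A B) x, hce]
  have hPa : ∀ x : ℕ, PP a x = cprod A B a x *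
      ∏ p ∈ ((Finset.range (x + 1)).filter Nat.Prime).filter
      (fun p => ¬ GoodP A B p), (((p : ℝ) + 1 - etr A B p) / p) := by
    intro x
    rw [prod_split A B a x, hK]
  have hrat : ∀ x : ℕ, PP a x / PP (etr A B) x = cprod A B a x / cprod A B (trc A B) x := by
    intro x
    rw [hPa, hPe]
    exact mul_div_mul_right _ _ (hKpos x).ne'
  have hpe : ∀ x : ℕ, 0 < PP (etr A B) x → 0 < cprod A B (trc A B) x := by
    intro x h
    rw [hPe] at h
    exact pos_of_mul_pos_left h (hKpos x).le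
  have hpa : ∀ x : ℕ, 0 < PP a x → 0 < cprod A B a x := by
    intro x h
    rw [hPa] at h
    exact pos_of_mul_pos_left h (hKpos x).le
  refine ⟨a, R, ?_, ?_, h4, h5, h6, h7, h8, ?_, ?_⟩
  · intro p hp
    have := h1 p hp.1
    rw [hgood p hp] at this
    exact this
  · intro s hs
    have hs' : 1 / 2 < s.re := by linarith
    have g1 := h3 s hs
    have g2 : HasProd (Set.mulIndicator {p : ℕ | p.Prime}
        (fun p : ℕ => eul (etr A B) p s / eul a p s)) (R s) :=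
      hasProd_subtype_iff_mulIndicator.mp g1
    have g3 := (hF s hs).mul g2
    refine g3.congr_fun ?_ |> fun h => h
    intro p
    by_cases hp : p.Prime
    · have hne : eul (etr A B) p s ≠ 0 := hE _ (etr_hasse A B) p s hp hs'
      rw [Set.mulIndicator_of_mem (show p ∈ {p : ℕ | p.Prime} from hp)]
      by_cases hg : GoodP A B p
      · rw [if_pos hg, if_pos hg]
        have : eul (trc A B) p s = eul (etr A B) p s := by
          unfold eul
          rw [hgood p hg]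
        rw [this, div_eq_mul_inv, ← mul_assoc, inv_mul_cancel₀ hne, one_mul]
      · rw [if_neg hg, if_neg hg, one_mul]
        have : eul a p s = eul (etr A B) p s := by
          unfold eul
          rw [hbad p hp hg]
        rw [this, div_self hne]
    · rw [Set.mulIndicator_of_notMem (show p ∉ {p : ℕ | p.Prime} from hp), mul_one]
      rw [if_neg (fun h => hp h.1), if_neg (fun h => hp h.1)]
  · intro X
    obtain ⟨x, hx, hx1, hx2⟩ := h9 X
    rw [hrat] at hx2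
    exact ⟨x, hx, hpe x hx1, hx2⟩
  · intro X
    obtain ⟨x, hx, hx1, hx2, hx3⟩ := h10 X
    rw [hrat] at hx3
    exact ⟨x, hx, hpe x hx1, hpa x hx2, hx3⟩

end H21RHB
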