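import Pool.Agent.H21.RHB.Stm

set_option autoImplicit false

namespace H21RHB

open Real Finset MeasureTheory Filter Topology

theorem dba : S_DBA := by
  intro hQNT hPAIR hSQ hSTQ k c j₀ hk hmany
  obtain ⟨C₁, hC₁, hSQ⟩ := hSQ
  obtain ⟨C₂, hC₂, hSTQ⟩ := hSTQ
  obtain ⟨hc, hj₀, hmany⟩ := hmany
  obtain ⟨j₁, hj₁⟩ : ∃ j₁ : ℕ, 1 / c ≤ j₁ := exists_nat_ge _
  refine ⟨C₁ + C₂ + 1, max j₀ (max 2 j₁), by positivity, fun j hj => ?_⟩
  have hjj₀ : j₀ ≤ j := le_trans (le_max_left _ _) hj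
  have hj2 : 2 ≤ j := le_trans ((le_max_left _ _).trans (le_max_right _ _)) hj
  have hjj₁ : j₁ ≤ j := le_trans ((le_max_right _ _).trans (le_max_right _ _)) hj
  have hjr : (2 : ℝ) ≤ j := by exact_mod_cast hj2
  have hj0 : (0 : ℝ) < j := by linarith
  have hlog : 0 < Real.log j := Real.log_pos (by linarith)
  obtain ⟨n, hn⟩ : ∃ n : ℕ, n = (blk k j).card := ⟨_, rfl⟩
  -- many primes
  have hcj : 1 ≤ c * j := by
    have h1 : 1 / c ≤ j := hj₁.trans (by exact_mod_cast hjj₁)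
    rw [div_le_iff₀ hc] at h1
    linarith
  have hnj : (j : ℝ) ≤ n := by
    rw [hn]
    refine le_trans ?_ (hmany j hjj₀)
    rw [le_div_iff₀ hlog]
    have h1 : Real.log j ≤ j := (Real.log_le_sub_one_of_pos hj0).trans (by linarith)
    have h2 : (j : ℝ) ^ 3 ≤ (j : ℝ) ^ (2 * k - 1) := pow_le_pow_right₀ (by linarith) (by omega)
    calc (j : ℝ) * Real.log j ≤ j * j := mul_le_mul_of_nonneg_left h1 hj0.le
      _ = 1 * (j : ℝ) ^ 2 := by ring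
      _ ≤ c * j * (j : ℝ) ^ 2 := mul_le_mul_of_nonneg_right hcj (by positivity)
      _ = c * (j : ℝ) ^ 3 := by ring
      _ ≤ c * (j : ℝ) ^ (2 * k - 1) := mul_le_mul_of_nonneg_left h2 hc.le
  have hnjn : j ≤ n := by exact_mod_cast hnj
  obtain ⟨t, ht, ht2, htx⟩ := hQNT (n / 2)
  obtain ⟨M, hM⟩ : ∃ M : ℝ, M = 2 * (j : ℝ) ^ k * (1 - 1 / j) := ⟨_, rfl⟩
  have hj1 : (0 : ℝ) ≤ 1 - 1 / j := by
    rw [sub_nonneg, div_le_one hj0]
    linarith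
  have hj1' : 1 - 1 / (j : ℝ) ≤ 1 := by
    have : 0 < 1 / (j : ℝ) := by positivity
    linarith
  have hM0 : 0 ≤ M := by
    rw [hM]
    positivity
  have hM1 : M ≤ 2 * (j : ℝ) ^ k := by
    rw [hM]
    exact mul_le_of_le_one_right (by positivity) hj1'
  have hβ : ∀ i, |((⌊2 * (j : ℝ) ^ k * (1 - 1 / j) * t i⌋ : ℤ) : ℝ)| ≤ M := by
    intro i
    rw [← hM]
    have h1 : 0 ≤ M * t i := mul_nonneg hM0 (ht i).1
    have h2 : (0 : ℝ) ≤ ((⌊M * t i⌋ : ℤ) : ℝ) := by exact_mod_cast Int.floor_nonneg.2 h1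
    rw [abs_of_nonneg h2]
    exact (Int.floor_le _).trans (mul_le_of_le_one_right hM0 (ht i).2)
  obtain ⟨b, hb1, hb2, hb3⟩ := hPAIR (blk k j) (j ^ (2 * k)) ((j + 1) ^ (2 * k))
    (Nat.pow_le_pow_left (by omega) _) (fun p hp => by
      unfold blk at hp
      rw [Finset.mem_filter, Finset.mem_Ioc] at hp
      exact ⟨hp.1.1.le, hp.1.2⟩)
    (fun i => ⌊2 * (j : ℝ) ^ k * (1 - 1 / j) * t i⌋) M hM0 hβ
  have hnr : (0 : ℝ) ≤ n := Nat.cast_nonneg _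
  refine ⟨b, ⟨?_, ?_, ?_, ?_⟩⟩
  · intro p _
    rw [← hM]
    exact hb1 p
  · intro ψ D hD hψ
    have h1 := hb2 ψ D hD hψ
    push_cast at h1
    refine h1.trans ?_
    have h2 : (0 : ℝ) ≤ ((j : ℝ) + 1) ^ (2 * k) - (j : ℝ) ^ (2 * k) := by
      rw [sub_nonneg]
      exact pow_le_pow_left₀ hj0.le (by linarith) _
    exact mul_le_mul_of_nonneg_right (mul_le_mul_of_nonneg_right hM1 hD) h2
  · have h1 := hb3 fun z => (z : ℝ) ^ 2
    have h2 := hSQ k j n (by omega) hj2 hnjn t ht ht2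
    have h3 : ∑ p ∈ blk k j, (b p : ℝ) ^ 2 =
        ∑ i ∈ Finset.range (n / 2), 2 * ((⌊2 * (j : ℝ) ^ k * (1 - 1 / j) * t i⌋ : ℤ) : ℝ) ^ 2 := by
      rw [h1, ← hn]
      simp only [Int.cast_zero, ne_eq, OfNat.ofNat_ne_zero, not_false_eq_true, zero_pow, ite_self,
        add_zero]
      refine Finset.sum_congr rfl fun i _ => ?_
      push_cast
      ring
    rw [h3, ← hn]
    refine h2.trans ?_
    have h4 : C₁ * (j : ℝ) ^ (2 * k) * n / j ≤ (C₁ + C₂ + 1) * (j : ℝ) ^ (2 * k) * n / j := by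
      have h5 : C₁ ≤ C₁ + C₂ + 1 := by linarith
      gcongr
    exact h4
  · intro x
    have h1 := hb3 fun z => if (z : ℝ) ≤ 2 * x * (j : ℝ) ^ k then 1 else 0
    have h2 := hSTQ k j n (by omega) hj2 hnjn t ht htx x
    have h3 : (((blk k j).filter (fun p => (b p : ℝ) ≤ 2 * x * (j : ℝ) ^ k)).card : ℝ) =
        ∑ p ∈ blk k j, if (b p : ℝ) ≤ 2 * x * (j : ℝ) ^ k then (1 : ℝ) else 0 := by
      rw [Finset.card_filter]
      push_cast
      rfl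
    have h4 : ∀ β : ℕ → ℝ, ((((Finset.range (n / 2)).filter (fun i => β i ≤ 2 * x * (j : ℝ) ^ k)).card
        : ℝ)) = ∑ i ∈ Finset.range (n / 2), if β i ≤ 2 * x * (j : ℝ) ^ k then (1 : ℝ) else 0 := by
      intro β
      rw [Finset.card_filter]
      push_cast
      rfl
    rw [h3, h1, ← hn]
    rw [h4, h4, ← Finset.sum_add_distrib] at h2
    simp only [Int.cast_neg]
    have h5 : |(if n % 2 = 1 then (if ((0 : ℤ) : ℝ) ≤ 2 * x * (j : ℝ) ^ k then (1 : ℝ) else 0)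
        else 0)| ≤ 1 := by
      split_ifs <;> simp
    have h6 : (1 : ℝ) ≤ n / j := by
      rw [le_div_iff₀ hj0]
      linarith
    have h7 : (C₁ + C₂ + 1) * (n : ℝ) / j = C₁ * (n / j) + C₂ * n / j + n / j := by ring
    have h8 : 0 ≤ C₁ * ((n : ℝ) / j) := by positivity
    rw [h7]
    obtain ⟨S, hS⟩ : ∃ S : ℝ, S = ∑ i ∈ Finset.range (n / 2),
      ((if ((⌊2 * (j : ℝ) ^ k * (1 - 1 / j) * t i⌋ : ℤ) : ℝ) ≤ 2 * x * (j : ℝ) ^ k then (1 : ℝ) else 0) +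
        (if -((⌊2 * (j : ℝ) ^ k * (1 - 1 / j) * t i⌋ : ℤ) : ℝ) ≤ 2 * x * (j : ℝ) ^ k then (1 : ℝ) else 0)) :=
      ⟨_, rfl⟩
    obtain ⟨e, he⟩ : ∃ e : ℝ, e = (if n % 2 = 1 then
      (if ((0 : ℤ) : ℝ) ≤ 2 * x * (j : ℝ) ^ k then (1 : ℝ) else 0) else 0) := ⟨_, rfl⟩
    rw [← hS] at h2
    rw [← he] at h5
    rw [← hS, ← he]
    have h9 := abs_le.1 h2
    have h10 := abs_le.1 h5
    rw [abs_le]
    constructor
    · linarith [h9.1, h10.1]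
    · linarith [h9.2, h10.2]

end H21RHB
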