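import Pool.Agent.H21.RHB.Stm

set_option autoImplicit false

namespace H21RHB

open Real Finset MeasureTheory Filter Topology

namespace DC

/-- an integer is distributed evenly -/
theorem distribute (S : Finset ℕ) (hS : 0 < S.card) (M : ℤ) : ∃ c : ℕ → ℤ,
    ∑ p ∈ S, c p = M ∧ ∀ p ∈ S, |(c p : ℝ)| ≤ |(M : ℝ)| / S.card + 1 := by
  classical
  have hn : (0 : ℤ) < (S.card : ℤ) := by exact_mod_cast hS
  have h1 : 0 ≤ M % (S.card : ℤ) := Int.emod_nonneg _ hn.ne'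
  have h2 : M % (S.card : ℤ) < S.card := Int.emod_lt_of_pos _ hn
  obtain ⟨T, hTS, hT⟩ := Finset.exists_subset_card_eq (s := S) (n := (M % (S.card : ℤ)).toNat)
    (by omega)
  refine ⟨fun p => M / (S.card : ℤ) + if p ∈ T then 1 else 0, ?_, ?_⟩
  · rw [Finset.sum_add_distrib, Finset.sum_const, Finset.sum_ite_mem,
      Finset.inter_eq_right.2 hTS, Finset.sum_const, hT]
    simp only [nsmul_eq_mul, mul_one]
    rw [Int.toNat_of_nonneg h1]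
    exact Int.mul_ediv_add_emod _ _
  · intro p _
    have hnr : (0 : ℝ) < S.card := by exact_mod_cast hS
    have h3 : ((M / (S.card : ℤ) : ℤ) : ℝ) ≤ (M : ℝ) / S.card := by
      rw [le_div_iff₀ hnr]
      have := Int.ediv_mul_le M hn.ne'
      exact_mod_cast this
    have h4 : (M : ℝ) / S.card < ((M / (S.card : ℤ) : ℤ) : ℝ) + 1 := by
      rw [div_lt_iff₀ hnr]
      have := Int.lt_ediv_add_one_mul_self M hn
      exact_mod_cast this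
    have h5 : -(|(M : ℝ)| / S.card) ≤ (M : ℝ) / S.card := by
      rw [← neg_div]
      exact div_le_div_of_nonneg_right (neg_abs_le _) hnr.le
    have h6 : (M : ℝ) / S.card ≤ |(M : ℝ)| / S.card :=
      div_le_div_of_nonneg_right (le_abs_self _) hnr.le
    rw [abs_le]
    push_cast
    split_ifs
    · constructor <;> linarith
    · constructor <;> linarith

end DC

theorem dc : S_DC := by
  intro hcard k c j₀ hk hmany C₀
  obtain ⟨C₁, hC₁, hc1⟩ := hcard k (by omega)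
  obtain ⟨hc, hj₀, hmany⟩ := hmany
  obtain ⟨A, hA⟩ : ∃ A : ℝ, A = 4 * (|C₀| + 2) / c + 1 := ⟨_, rfl⟩
  have hA1 : 1 ≤ A := by
    rw [hA]
    have : 0 ≤ 4 * (|C₀| + 2) / c := by positivity
    linarith
  obtain ⟨j₁, hj₁⟩ : ∃ j₁ : ℕ, A ^ 4 ≤ j₁ := exists_nat_ge _
  refine ⟨|C₀| + 2 + C₁, max j₀ (max 2 j₁), by positivity, fun j hj m hm => ?_⟩
  have hjj₀ : j₀ ≤ j := le_trans (le_max_left _ _) hj
  have hj2 : 2 ≤ j := le_trans ((le_max_left _ _).trans (le_max_right _ _)) hj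
  have hjj₁ : j₁ ≤ j := le_trans ((le_max_right _ _).trans (le_max_right _ _)) hj
  have hjr : (2 : ℝ) ≤ j := by exact_mod_cast hj2
  have hj0 : (0 : ℝ) < j := by linarith
  have hlog : 0 < Real.log j := Real.log_pos (by linarith)
  have hn := hmany j hjj₀
  have hpos : 0 < c * (j : ℝ) ^ (2 * k - 1) / Real.log j := by positivity
  have hnr : (0 : ℝ) < (blk k j).card := lt_of_lt_of_le hpos hn
  have hcn : 0 < (blk k j).card := by exact_mod_cast hnr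
  obtain ⟨cc, hsum, hsize⟩ := DC.distribute (blk k j) hcn ⌊m⌋
  have hM : |((⌊m⌋ : ℤ) : ℝ)| ≤ |m| + 1 := by
    have h1 := Int.floor_le m
    have h2 := Int.lt_floor_add_one m
    have h3 := neg_abs_le m
    have h4 := le_abs_self m
    rw [abs_le]
    constructor <;> linarith
  -- powers
  have hpw : (j : ℝ) ^ (2 * k - 1 / 2 : ℝ) = (j : ℝ) ^ (2 * k - 1) * (j : ℝ) ^ (1 / 2 : ℝ) := by
    rw [← Real.rpow_natCast, ← Real.rpow_add hj0]
    congr 1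
    rw [Nat.cast_sub (by omega)]
    push_cast
    ring
  have hp1 : (1 : ℝ) ≤ (j : ℝ) ^ (2 * k - 1) := one_le_pow₀ (by linarith)
  have hp2 : (1 : ℝ) ≤ (j : ℝ) ^ (1 / 2 : ℝ) := Real.one_le_rpow (by linarith) (by norm_num)
  have hmul : (1 : ℝ) ≤ (j : ℝ) ^ (2 * k - 1 / 2 : ℝ) := by
    rw [hpw]
    nlinarith
  have hMb : |((⌊m⌋ : ℤ) : ℝ)| ≤ (|C₀| + 1) * (j : ℝ) ^ (2 * k - 1 / 2 : ℝ) := by
    have h1 : C₀ * (j : ℝ) ^ (2 * k - 1 / 2 : ℝ) ≤ |C₀| * (j : ℝ) ^ (2 * k - 1 / 2 : ℝ) :=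
      mul_le_mul_of_nonneg_right (le_abs_self _) (by linarith)
    linarith
  have hsz : |((⌊m⌋ : ℤ) : ℝ)| / (blk k j).card + 1 ≤ j := by
    have h1 : |((⌊m⌋ : ℤ) : ℝ)| / (blk k j).card ≤
        (|C₀| + 1) * (j : ℝ) ^ (2 * k - 1 / 2 : ℝ) / (c * (j : ℝ) ^ (2 * k - 1) / Real.log j) := by
      gcongr
    have h2 : (|C₀| + 1) * (j : ℝ) ^ (2 * k - 1 / 2 : ℝ) / (c * (j : ℝ) ^ (2 * k - 1) / Real.log j) =
        (|C₀| + 1) / c * ((j : ℝ) ^ (1 / 2 : ℝ) * Real.log j) := by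
      rw [hpw]
      field_simp
    have h3 : Real.log j ≤ (j : ℝ) ^ (1 / 4 : ℝ) / (1 / 4) :=
      Real.log_le_rpow_div hj0.le (by norm_num)
    have h4 : (j : ℝ) ^ (1 / 2 : ℝ) * Real.log j ≤ 4 * (j : ℝ) ^ (3 / 4 : ℝ) := by
      have h5 : (j : ℝ) ^ (3 / 4 : ℝ) = (j : ℝ) ^ (1 / 2 : ℝ) * (j : ℝ) ^ (1 / 4 : ℝ) := by
        rw [← Real.rpow_add hj0]
        norm_num
      rw [h5]
      nlinarith
    have h5 : (1 : ℝ) ≤ (j : ℝ) ^ (3 / 4 : ℝ) := Real.one_le_rpow (by linarith) (by norm_num)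
    have h6 : A ≤ (j : ℝ) ^ (1 / 4 : ℝ) := by
      have h7 : A ^ 4 ≤ j := hj₁.trans (by exact_mod_cast hjj₁)
      have h8 : A = (A ^ 4) ^ (1 / 4 : ℝ) := by
        rw [← Real.rpow_natCast, ← Real.rpow_mul (by linarith)]
        norm_num
      rw [h8]
      exact Real.rpow_le_rpow (by positivity) h7 (by norm_num)
    have h7 : (j : ℝ) = (j : ℝ) ^ (1 / 4 : ℝ) * (j : ℝ) ^ (3 / 4 : ℝ) := by
      rw [← Real.rpow_add hj0]
      norm_num
    have h8 : A * (j : ℝ) ^ (3 / 4 : ℝ) ≤ j := by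
      conv_rhs => rw [h7]
      exact mul_le_mul_of_nonneg_right h6 (by linarith)
    have h9 : (|C₀| + 1) / c * ((j : ℝ) ^ (1 / 2 : ℝ) * Real.log j) ≤
        (|C₀| + 1) / c * (4 * (j : ℝ) ^ (3 / 4 : ℝ)) :=
      mul_le_mul_of_nonneg_left h4 (by positivity)
    have h10 : (|C₀| + 1) / c * (4 * (j : ℝ) ^ (3 / 4 : ℝ)) + 1 ≤ A * (j : ℝ) ^ (3 / 4 : ℝ) := by
      have h11 : A * (j : ℝ) ^ (3 / 4 : ℝ) = (|C₀| + 1) / c * (4 * (j : ℝ) ^ (3 / 4 : ℝ)) +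
          4 / c * (j : ℝ) ^ (3 / 4 : ℝ) + (j : ℝ) ^ (3 / 4 : ℝ) := by
        rw [hA]
        field_simp
        ring
      rw [h11]
      have h12 : 0 ≤ 4 / c * (j : ℝ) ^ (3 / 4 : ℝ) := by positivity
      linarith
    calc |((⌊m⌋ : ℤ) : ℝ)| / (blk k j).card + 1
        ≤ (|C₀| + 1) / c * ((j : ℝ) ^ (1 / 2 : ℝ) * Real.log j) + 1 := by rw [← h2]; linarith
      _ ≤ (|C₀| + 1) / c * (4 * (j : ℝ) ^ (3 / 4 : ℝ)) + 1 := by linarith
      _ ≤ A * (j : ℝ) ^ (3 / 4 : ℝ) := h10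
      _ ≤ j := h8
  refine ⟨cc, ⟨?_, ?_, ?_⟩⟩
  · have h1 : (∑ p ∈ blk k j, (cc p : ℝ)) = ((⌊m⌋ : ℤ) : ℝ) := by
      rw [← hsum]
      push_cast
      rfl
    rw [h1, abs_le]
    have h2 := Int.floor_le m
    have h3 := Int.lt_floor_add_one m
    constructor <;> linarith
  · intro p hp
    exact (hsize p hp).trans hsz
  · have h1 : ∑ p ∈ blk k j, |(cc p : ℝ)| ≤ ∑ p ∈ blk k j, (|((⌊m⌋ : ℤ) : ℝ)| / (blk k j).card + 1) :=
      Finset.sum_le_sum hsize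
    rw [Finset.sum_const, nsmul_eq_mul] at h1
    have h2 : ((blk k j).card : ℝ) * (|((⌊m⌋ : ℤ) : ℝ)| / (blk k j).card + 1) =
        |((⌊m⌋ : ℤ) : ℝ)| + (blk k j).card := by
      field_simp
    rw [h2] at h1
    have h3 := (hc1 j (by omega)).2.1
    have h4 : C₁ * (j : ℝ) ^ (2 * k - 1) ≤ C₁ * (j : ℝ) ^ (2 * k - 1 / 2 : ℝ) := by
      rw [hpw]
      have : (j : ℝ) ^ (2 * k - 1) ≤ (j : ℝ) ^ (2 * k - 1) * (j : ℝ) ^ (1 / 2 : ℝ) :=
        le_mul_of_one_le_right (by positivity) hp2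
      exact mul_le_mul_of_nonneg_left this hC₁.le
    have h5 : (|C₀| + 2 + C₁) * (j : ℝ) ^ (2 * k - 1 / 2 : ℝ) =
        (|C₀| + 1) * (j : ℝ) ^ (2 * k - 1 / 2 : ℝ) + (j : ℝ) ^ (2 * k - 1 / 2 : ℝ) +
          C₁ * (j : ℝ) ^ (2 * k - 1 / 2 : ℝ) := by ring
    rw [h5]
    linarith

end H21RHB
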