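import Pool.Agent.H21.RHB.Stm

/-! RHB-DIFF (helper94) -/

set_option autoImplicit false

namespace H21RHB

open Real Finset MeasureTheory Filter Topology

namespace DIFF

lemma cpow_diff {p : ℕ} (hp : p.Prime) {f : ℂ → ℂ} {s : ℂ} (hf : DifferentiableAt ℂ f s) :
    DifferentiableAt ℂ (fun s => (p : ℂ) ^ (f s)) s :=
  hf.const_cpow (Or.inl (by exact_mod_cast hp.ne_zero))

lemma ii_diff (k : ℕ) (g : ℝ → ℝ) (hg : Adm k g) (j : ℕ) (s₀ : ℂ) :
    DifferentiableAt ℂ (fun s => II k g j s) s₀ := by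
  obtain ⟨hgm, C, hC⟩ := hg
  obtain ⟨B, hB⟩ : ∃ B : ℝ, B = max (ww k j) (ww k (j + 1)) := ⟨_, rfl⟩
  have hw : ∀ i : ℕ, 0 ≤ ww k i := by
    intro i
    unfold ww
    have := Real.log_natCast_nonneg i
    positivity
  have hB0 : 0 ≤ B := by rw [hB]; exact le_max_of_le_left (hw j)
  obtain ⟨M, hM⟩ : ∃ M : ℝ, M = |C| * Real.exp (B / (4 * k)) := ⟨_, rfl⟩
  have hM0 : 0 ≤ M := by rw [hM]; positivity
  have hin : ∀ v ∈ Set.uIoc (ww k j) (ww k (j + 1)), 0 ≤ v ∧ v ≤ B := by
    intro v hv
    rw [Set.uIoc, Set.mem_Ioc] at hv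
    refine ⟨?_, ?_⟩
    · have : 0 ≤ min (ww k j) (ww k (j + 1)) := le_min (hw j) (by exact_mod_cast hw (j + 1))
      linarith [hv.1]
    · rw [hB]; exact hv.2
  have hgb : ∀ v ∈ Set.uIoc (ww k j) (ww k (j + 1)), |g v| ≤ M := by
    intro v hv
    obtain ⟨h1, h2⟩ := hin v hv
    refine (hC v h1).trans ?_
    rw [hM]
    have h3 : Real.exp (v / (4 * k)) ≤ Real.exp (B / (4 * k)) :=
      Real.exp_le_exp.2 (div_le_div_of_nonneg_right h2 (by positivity))
    calc C * Real.exp (v / (4 * k)) ≤ |C| * Real.exp (v / (4 * k)) :=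
          mul_le_mul_of_nonneg_right (le_abs_self C) (Real.exp_nonneg _)
      _ ≤ _ := mul_le_mul_of_nonneg_left h3 (abs_nonneg C)
  have hmeas : ∀ s : ℂ, Measurable (fun v : ℝ => Complex.exp (-((s - 1) * v)) * (g v : ℂ)) := by
    intro s
    have h1 : Measurable (fun v : ℝ => Complex.exp (-((s - 1) * v))) := by fun_prop
    exact h1.mul (Complex.measurable_ofReal.comp hgm)
  have hmeas' : ∀ s : ℂ, Measurable
      (fun v : ℝ => (-(v : ℂ)) * (Complex.exp (-((s - 1) * v)) * (g v : ℂ))) := by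
    intro s
    have h1 : Measurable (fun v : ℝ => -(v : ℂ)) := by fun_prop
    exact h1.mul (hmeas s)
  have hbd : ∀ s : ℂ, ∀ v ∈ Set.uIoc (ww k j) (ww k (j + 1)),
      ‖Complex.exp (-((s - 1) * v)) * (g v : ℂ)‖ ≤ Real.exp ((‖s‖ + 1) * B) * M := by
    intro s v hv
    obtain ⟨h1, h2⟩ := hin v hv
    rw [norm_mul, Complex.norm_exp, Complex.norm_real, Real.norm_eq_abs]
    refine mul_le_mul (Real.exp_le_exp.2 ?_) (hgb v hv) (abs_nonneg _) (Real.exp_nonneg _)
    have h3 : (-((s - 1) * (v : ℂ))).re = -((s.re - 1) * v) := by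
      simp
    rw [h3]
    have h4 : |s.re| ≤ ‖s‖ := Complex.abs_re_le_norm s
    have h5 : -s.re + 1 ≤ ‖s‖ + 1 := by linarith [neg_abs_le s.re]
    calc -((s.re - 1) * v) = (-s.re + 1) * v := by ring
      _ ≤ (‖s‖ + 1) * v := mul_le_mul_of_nonneg_right h5 h1
      _ ≤ (‖s‖ + 1) * B := mul_le_mul_of_nonneg_left h2 (by positivity)
  have key := intervalIntegral.hasDerivAt_integral_of_dominated_loc_of_deriv_le (μ := volume) (𝕜 := ℂ)
    (a := ww k j) (b := ww k (j + 1)) (x₀ := s₀) (s := Metric.ball s₀ 1)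
    (F := fun s v => Complex.exp (-((s - 1) * v)) * (g v : ℂ))
    (F' := fun s v => (-(v : ℂ)) * (Complex.exp (-((s - 1) * v)) * (g v : ℂ)))
    (bound := fun _ => B * (Real.exp ((‖s₀‖ + 1 + 1) * B) * M))
    (Metric.ball_mem_nhds s₀ one_pos)
    (Eventually.of_forall fun s => (hmeas s).aestronglyMeasurable)
    ?_ (hmeas' s₀).aestronglyMeasurable ?_ intervalIntegrable_const ?_
  · exact key.2.differentiableAt
  · rw [intervalIntegrable_iff]
    refine MeasureTheory.Integrable.mono' (g := fun _ => Real.exp ((‖s₀‖ + 1) * B) * M) ?_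
      (hmeas s₀).aestronglyMeasurable ?_
    · have h0 : IntervalIntegrable (fun _ : ℝ => Real.exp ((‖s₀‖ + 1) * B) * M) volume
          (ww k j) (ww k (j + 1)) := intervalIntegrable_const
      exact intervalIntegrable_iff.1 h0
    · exact (ae_restrict_iff' measurableSet_uIoc).2 (Eventually.of_forall fun v hv => hbd s₀ v hv)
  · refine Eventually.of_forall fun v hv s hs => ?_
    obtain ⟨h1, h2⟩ := hin v hv
    rw [norm_mul]
    have h3 : ‖-(v : ℂ)‖ ≤ B := by
      rw [norm_neg, Complex.norm_real, Real.norm_eq_abs, abs_of_nonneg h1]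
      exact h2
    have h4 : ‖s‖ ≤ ‖s₀‖ + 1 := by
      have h5 : ‖s - s₀‖ < 1 := by
        rw [← dist_eq_norm]
        exact hs
      have h6 : ‖s‖ ≤ ‖s₀‖ + ‖s - s₀‖ := by
        have := norm_add_le s₀ (s - s₀)
        rwa [add_sub_cancel] at this
      linarith
    refine mul_le_mul h3 ((hbd s v hv).trans ?_) (norm_nonneg _) hB0
    refine mul_le_mul_of_nonneg_right (Real.exp_le_exp.2 ?_) hM0
    exact mul_le_mul_of_nonneg_right (by linarith) hB0
  · refine Eventually.of_forall fun v _ s _ => ?_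
    have h1 : HasDerivAt (fun s : ℂ => -((s - 1) * (v : ℂ))) (-(v : ℂ)) s := by
      have := (((hasDerivAt_id s).sub_const 1).mul_const (v : ℂ)).fun_neg
      simpa using this
    have h2 := (h1.cexp).mul_const (g v : ℂ)
    refine h2.congr_deriv ?_
    ring

lemma eul_diff {p : ℕ} (hp : p.Prime) (a : ℕ → ℤ) (s : ℂ) : DifferentiableAt ℂ (eul a p) s := by
  unfold eul
  have h1 : DifferentiableAt ℂ (fun s => (p : ℂ) ^ (-s)) s := cpow_diff hp (by fun_prop)
  have h2 : DifferentiableAt ℂ (fun s => (p : ℂ) ^ (1 - 2 * s)) s := cpow_diff hp (by fun_prop)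
  exact ((differentiableAt_const _).sub ((differentiableAt_const _).mul h1)).add h2

end DIFF

open DIFF

theorem diff : S_DIFF := by
  intro hlog k g a hk hg ha j s hs
  obtain ⟨C, -, hlog⟩ := hlog
  refine DifferentiableAt.differentiableWithinAt ?_
  have hs' : (9 : ℝ) / 10 ≤ s.re := le_of_lt hs
  have hpr : ∀ p ∈ blk k j, p.Prime := fun p hp => (mem_filter.1 hp).2
  have hpr' : ∀ p ∈ sqb k j, p.Prime := fun p hp => (mem_filter.1 hp).2
  have hhd : DifferentiableAt ℂ (fun s => hh k g a j s) s := by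
    unfold hh
    refine DifferentiableAt.sub (DifferentiableAt.sub ?_ (ii_diff k g hg j s)) ?_
    · refine DifferentiableAt.fun_sum fun p hp => ?_
      exact (differentiableAt_const _).mul (cpow_diff (hpr p hp) (by fun_prop))
    · refine (differentiableAt_const _).mul (DifferentiableAt.fun_sum fun p hp => ?_)
      exact cpow_diff (hpr' p hp) (by fun_prop)
  have htd : DifferentiableAt ℂ (fun s => TT k a j s) s := by
    unfold TT
    refine (differentiableAt_const _).mul (DifferentiableAt.fun_sum fun p hp => ?_)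
    exact (differentiableAt_const _).mul (cpow_diff (hpr p hp) (by fun_prop))
  have hrd : DifferentiableAt ℂ (fun s => RB k a j s) s := by
    unfold RB
    refine DifferentiableAt.fun_sum fun p hp => ?_
    unfold RR
    have hslit : eul a p s ∈ Complex.slitPlane := by
      have h1 := (hlog a ha.hasse ha.small p s (hpr p hp) hs').1
      have h2 : ‖eul a p s - 1‖ < 1 := by linarith
      have h3 := Complex.mem_slitPlane_of_norm_lt_one h2
      rwa [add_sub_cancel] at h3
    have h1 : DifferentiableAt ℂ (fun s => Complex.log (eul a p s)) s :=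
      (eul_diff (hpr p hp) a s).clog hslit
    have h2 : DifferentiableAt ℂ (fun s => (p : ℂ) ^ (-s)) s := cpow_diff (hpr p hp) (by fun_prop)
    have h3 : DifferentiableAt ℂ (fun s => (p : ℂ) ^ (1 - 2 * s)) s :=
      cpow_diff (hpr p hp) (by fun_prop)
    have h4 : DifferentiableAt ℂ (fun s => (p : ℂ) ^ (-(2 * s))) s :=
      cpow_diff (hpr p hp) (by fun_prop)
    exact ((h1.neg.sub ((differentiableAt_const _).mul h2)).add ((differentiableAt_const _).mul h3)).sub
      ((differentiableAt_const _).mul h4)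
  exact (hhd.add htd).add hrd

end H21RHB
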