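import Pool.Agent.H21.RHB.StmB
import Pool.Agent.H21.RHB.DIFF

/-! RHB-DIFC (helper10), from helper94's DIFF -/

set_option autoImplicit false

namespace H21RHB

open Real Finset MeasureTheory Filter Topology

theorem difc : S_DIFC := by
  intro hlog heul k g P₀ e c hk hP he hg hc j s hs
  obtain ⟨C, -, hlog⟩ := hlog
  refine DifferentiableAt.differentiableWithinAt ?_
  have hs' : (9 : ℝ) / 10 ≤ s.re := le_of_lt hs
  have hs2 : (1 : ℝ) / 2 < s.re := by linarith
  have hpr : ∀ p ∈ blk k j, p.Prime := fun p hp => (mem_filter.1 hp).2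
  have hhd : DifferentiableAt ℂ (fun s => hhc k g c j s) s := by
    unfold hhc
    refine DifferentiableAt.sub ?_ (DIFF.ii_diff k g hg j s)
    refine DifferentiableAt.fun_sum fun p hp => ?_
    exact (differentiableAt_const _).mul (DIFF.cpow_diff (hpr p hp) (by fun_prop))
  have hrd : DifferentiableAt ℂ (fun s => RBC k e c j s) s := by
    unfold RBC
    refine DifferentiableAt.fun_sum fun p hp => ?_
    unfold RC
    have hne : eul e p s ≠ 0 := heul e he p s (hpr p hp) hs2
    have hslit : eul (e + c) p s / eul e p s ∈ Complex.slitPlane := by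
      have h1 := (hlog k e c hk he hc.size (fun p hp h => hc.small p hp (lt_of_lt_of_le h hP)) p s
        (hpr p hp) hs' hne).1
      have h2 : ‖eul (e + c) p s / eul e p s - 1‖ < 1 := by linarith
      have h3 := Complex.mem_slitPlane_of_norm_lt_one h2
      rwa [add_sub_cancel] at h3
    have h1 : DifferentiableAt ℂ (fun s => Complex.log (eul (e + c) p s / eul e p s)) s :=
      ((DIFF.eul_diff (hpr p hp) (e + c) s).div (DIFF.eul_diff (hpr p hp) e s) hne).clog hslit
    have h2 : DifferentiableAt ℂ (fun s => (p : ℂ) ^ (-s)) s :=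
      DIFF.cpow_diff (hpr p hp) (by fun_prop)
    exact h1.neg.sub ((differentiableAt_const _).mul h2)
  exact hhd.add hrd

end H21RHB
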