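import Mathlib

/-! Project RHB: model Euler products.  k: half of the block exponent. -/

set_option autoImplicit false

namespace H21RHB

open Real Finset MeasureTheory Filter Topology

noncomputable section

/-- the library statement `Pool.Agent.H469R10.HO.Hoheisel` (copied verbatim) -/
def Hoh : Prop := ∃ δ η : ℝ, 0 < δ ∧ δ < 1 ∧ 0 < η ∧ ∃ X₀ : ℕ, 2 ≤ X₀ ∧
  ∀ X Y : ℕ, X₀ ≤ X → (X : ℝ) ^ (1 - δ) ≤ Y → Y ≤ X →
    η * Y / Real.log X ≤ (((Ioc X (X + Y)).filter Nat.Prime).card : ℝ)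

/-- Distribution function of the Sato-Tate measure on [-1,1]. -/
def STF (x : ℝ) : ℝ := 1 / 2 + (1 / π) * (x * √(1 - x ^ 2) + arcsin x)

/-- a_p / (2 sqrt p) has the Sato-Tate distribution, with a power saving error term. -/
def SatoTate (a : ℕ → ℤ) : Prop := ∃ δ C : ℝ, 0 < δ ∧ ∀ X : ℕ, ∀ x ∈ Set.Icc (-1 : ℝ) 1,
  |((((Finset.range (X + 1)).filter (fun p => p.Prime ∧ (a p : ℝ) ≤ 2 * x * √p)).card : ℝ)) -
    STF x * (((Finset.range (X + 1)).filter Nat.Prime).card : ℝ)| ≤ C * (X : ℝ) ^ (1 - δ)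

/-- prod_{p <= x} N_p / p with N_p = p + 1 - a_p. -/
def PP (a : ℕ → ℤ) (X : ℕ) : ℝ :=
  ∏ p ∈ (Finset.range (X + 1)).filter Nat.Prime, (((p : ℝ) + 1 - a p) / p)

/-- the local Euler factor -/
def eul (a : ℕ → ℤ) (p : ℕ) (s : ℂ) : ℂ := 1 - (a p : ℂ) * (p : ℂ) ^ (-s) + (p : ℂ) ^ (1 - 2 * s)

/-! ### blocks -/

/-- primes in (j^(2k), (j+1)^(2k)] -/
def blk (k j : ℕ) : Finset ℕ := (Ioc (j ^ (2 * k)) ((j + 1) ^ (2 * k))).filter Nat.Prime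
/-- primes whose square is in (j^(2k), (j+1)^(2k)] -/
def sqb (k j : ℕ) : Finset ℕ := (Ioc (j ^ k) ((j + 1) ^ k)).filter Nat.Prime
/-- logarithm of the left end point of block j -/
def ww (k j : ℕ) : ℝ := 2 * k * Real.log j

/-- admissible densities -/
def Adm (k : ℕ) (g : ℝ → ℝ) : Prop :=
  Measurable g ∧ ∃ C : ℝ, ∀ v : ℝ, 0 ≤ v → |g v| ≤ C * Real.exp (v / (4 * k))

/-- mass of the target measure on block j -/
def mu (k : ℕ) (g : ℝ → ℝ) (j : ℕ) : ℝ :=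
  (∫ v in (ww k j)..(ww k (j + 1)), Real.exp v * g v) + (1 / 2) * ∑ p ∈ sqb k j, (p : ℝ)

/-- lower bound for the number of primes of a block -/
def Many (k : ℕ) (c : ℝ) (j₀ : ℕ) : Prop := 0 < c ∧ 2 ≤ j₀ ∧
  ∀ j : ℕ, j₀ ≤ j → c * (j : ℝ) ^ (2 * k - 1) / Real.log j ≤ ((blk k j).card : ℝ)

/-- first order estimate in block j with the target mass m -/
def FirstB (k j : ℕ) (C m : ℝ) (a : ℕ → ℤ) : Prop := ∀ s : ℂ, 1 / 2 ≤ s.re →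
  ‖∑ p ∈ blk k j, (a p : ℂ) * (p : ℂ) ^ (-s) - (m : ℂ) * ((j ^ (2 * k) : ℕ) : ℂ) ^ (-s)‖ ≤
    C * (1 + ‖s‖) * (j : ℝ) ^ (2 * k * (1 - s.re) - 3 / 2)

/-- second order estimate in block j -/
def SecondB (k j : ℕ) (C : ℝ) (a : ℕ → ℤ) : Prop := ∀ s : ℂ, 1 / 2 ≤ s.re →
  ‖∑ p ∈ blk k j, ((a p : ℂ) ^ 2 - p) * (p : ℂ) ^ (-(2 * s))‖ ≤
    C * (1 + ‖s‖) * (j : ℝ) ^ (4 * k * (1 - s.re) - 2)

/-- Sato-Tate in block j -/
def StB (k j : ℕ) (C : ℝ) (a : ℕ → ℤ) : Prop := ∀ x ∈ Set.Icc (-1 : ℝ) 1,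
  |(((blk k j).filter (fun p => (a p : ℝ) ≤ 2 * x * √p)).card : ℝ) -
    STF x * ((blk k j).card : ℝ)| ≤ C * ((blk k j).card : ℝ) / j

/-- what the sequence a has to satisfy -/
structure Good (k : ℕ) (g : ℝ → ℝ) (a : ℕ → ℤ) : Prop where
  hasse : ∀ p : ℕ, p.Prime → |(a p : ℝ)| ≤ 2 * √p
  small : ∀ p : ℕ, p.Prime → p < 10 ^ 6 → a p = 0
  first : ∃ C : ℝ, ∀ j : ℕ, 1 ≤ j → FirstB k j C (mu k g j) a
  second : ∃ C : ℝ, ∀ j : ℕ, 1 ≤ j → SecondB k j C a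
  st : SatoTate a

/-- the b-part of a block (Sato-Tate, cancelling in pairs) -/
structure DataB (k j : ℕ) (C : ℝ) (b : ℕ → ℤ) : Prop where
  size : ∀ p ∈ blk k j, |(b p : ℝ)| ≤ 2 * (j : ℝ) ^ k * (1 - 1 / j)
  pair : ∀ (ψ : ℕ → ℂ) (D : ℝ), 0 ≤ D →
    (∀ p ∈ blk k j, ∀ q ∈ blk k j, p ≤ q → ‖ψ p - ψ q‖ ≤ D * ((q : ℝ) - p)) →
    ‖∑ p ∈ blk k j, (b p : ℂ) * ψ p‖ ≤
      2 * (j : ℝ) ^ k * D * (((j : ℝ) + 1) ^ (2 * k) - (j : ℝ) ^ (2 * k))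
  sq : |∑ p ∈ blk k j, (b p : ℝ) ^ 2 - (j : ℝ) ^ (2 * k) * ((blk k j).card : ℝ)| ≤
    C * (j : ℝ) ^ (2 * k) * ((blk k j).card : ℝ) / j
  st : ∀ x : ℝ, |(((blk k j).filter (fun p => (b p : ℝ) ≤ 2 * x * (j : ℝ) ^ k)).card : ℝ) -
    STF (max (-1) (min 1 x)) * ((blk k j).card : ℝ)| ≤ C * ((blk k j).card : ℝ) / j

/-- the c-part of a block (correction of the sum) -/
structure DataC (k j : ℕ) (C m : ℝ) (c : ℕ → ℤ) : Prop where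
  sum : |(∑ p ∈ blk k j, (c p : ℝ)) - m| ≤ 1
  size : ∀ p ∈ blk k j, |(c p : ℝ)| ≤ j
  tot : ∑ p ∈ blk k j, |(c p : ℝ)| ≤ C * (j : ℝ) ^ (2 * k - 1 / 2 : ℝ)

/-! ### the Dirichlet series -/

/-- integral of block j -/
def II (k : ℕ) (g : ℝ → ℝ) (j : ℕ) (s : ℂ) : ℂ :=
  ∫ v in (ww k j)..(ww k (j + 1)), Complex.exp (-((s - 1) * v)) * (g v : ℂ)

def hh (k : ℕ) (g : ℝ → ℝ) (a : ℕ → ℤ) (j : ℕ) (s : ℂ) : ℂ :=
  ∑ p ∈ blk k j, (a p : ℂ) * (p : ℂ) ^ (-s) - II k g j s -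
    (1 / 2) * ∑ p ∈ sqb k j, (p : ℂ) ^ (1 - 2 * s)

def TT (k : ℕ) (a : ℕ → ℤ) (j : ℕ) (s : ℂ) : ℂ :=
  (1 / 2) * ∑ p ∈ blk k j, ((a p : ℂ) ^ 2 - p) * (p : ℂ) ^ (-(2 * s))

/-- third order remainder -/
def RR (a : ℕ → ℤ) (p : ℕ) (s : ℂ) : ℂ :=
  -Complex.log (eul a p s) - (a p : ℂ) * (p : ℂ) ^ (-s) + (1 / 2) * (p : ℂ) ^ (1 - 2 * s) -
    (1 / 2) * ((a p : ℂ) ^ 2 - p) * (p : ℂ) ^ (-(2 * s))

/-- the sum over the primes of block j of the remainders -/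
def RB (k : ℕ) (a : ℕ → ℤ) (j : ℕ) (s : ℂ) : ℂ := ∑ p ∈ blk k j, RR a p s

/-- the holomorphic correction -/
def HH (k : ℕ) (g : ℝ → ℝ) (a : ℕ → ℤ) (s : ℂ) : ℂ :=
  ∑' j : ℕ, (hh k g a j s + TT k a j s + RB k a j s)

/-! ### the function with the prescribed zeros -/

/-- phi(v) = (1 - e^(-v))/v -/
def ph (v : ℝ) : ℝ := (1 - Real.exp (-v)) / v

/-- scales (even numbers) -/
def NN (i : ℕ) : ℕ := 2 ^ (2 ^ ((i + 1) ^ 2 + 3))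
def UU (k i : ℕ) : ℝ := 32 * k * Real.log (NN i)
def VV (k i : ℕ) : ℝ := 16 * k * Real.log (NN i)
def phase (i : ℕ) : ℝ := if Even i then 1 / 4 else 3 / 4
/-- ordinates of the zeros -/
def gam (k i m : ℕ) : ℝ := 2 * π * (m + phase i) / UU k i
def ms (i : ℕ) : Finset ℕ := Ico (NN i) (NN i ^ 2)
def CC (k i : ℕ) (v : ℝ) : ℝ := ∑ m ∈ ms i, 2 * Real.cos (gam k i m * v)
/-- the density of the target -/
def gg (k r : ℕ) (v : ℝ) : ℝ :=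
  -ph v * (r + ∑ i ∈ Finset.range (⌊v⌋₊ + 1), if VV k i ≤ v then CC k i v else 0)

/-- Q_V(z) = z/(z+1) exp(int_0^V e^(-zv) phi(v) dv) -/
def QQ (V : ℝ) (z : ℂ) : ℂ :=
  z / (z + 1) * Complex.exp (∫ v in (0 : ℝ)..V, Complex.exp (-(z * v)) * (ph v : ℂ))

/-- factor of block i -/
def FB (k i : ℕ) (s : ℂ) : ℂ :=
  ∏ m ∈ ms i, (QQ (VV k i) (s - 1 - Complex.I * gam k i m) *
    QQ (VV k i) (s - 1 + Complex.I * gam k i m))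

/-- logarithmic derivative of the factor of block i -/
def JJ (k i : ℕ) (s : ℂ) : ℂ :=
  ∑ m ∈ ms i,
    ((Complex.exp (-((s - 1 - Complex.I * gam k i m) * VV k i)) / (s - 1 - Complex.I * gam k i m) -
      Complex.exp (-((s - Complex.I * gam k i m) * VV k i)) / (s - Complex.I * gam k i m)) +
     (Complex.exp (-((s - 1 + Complex.I * gam k i m) * VV k i)) / (s - 1 + Complex.I * gam k i m) -
      Complex.exp (-((s + Complex.I * gam k i m) * VV k i)) / (s + Complex.I * gam k i m)))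

def FF (k r : ℕ) (s : ℂ) : ℂ := QQ 0 (s - 1) ^ r * ∏' i : ℕ, FB k i s

end

end H21RHB
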