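import Pool.Agent.H21.RHB.StmB

/-! RHB-EUL (helper72): the Euler factors have no zeros to the right of `Re s = 1/2`. -/

set_option autoImplicit false

namespace H21RHB

open Real Finset MeasureTheory Filter Topology

namespace EUL

theorem norm_root (z : ℂ) (e p : ℝ) (h : z ^ 2 - e * z + p = 0) (he : e ^ 2 ≤ 4 * p) :
    z.re ^ 2 + z.im ^ 2 = p := by
  have h1 : z.re ^ 2 - z.im ^ 2 - e * z.re + p = 0 := by
    have := congrArg Complex.re h
    simp [pow_two] at this
    linarith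
  have h2 : z.im * (2 * z.re - e) = 0 := by
    have := congrArg Complex.im h
    simp [pow_two] at this
    linarith
  rcases mul_eq_zero.mp h2 with h3 | h3
  · rw [h3] at h1 ⊢
    have h4 : (z.re - e / 2) ^ 2 = e ^ 2 / 4 - p := by nlinarith
    have h5 : (z.re - e / 2) ^ 2 ≤ 0 := by rw [h4]; linarith
    have h6 : (z.re - e / 2) ^ 2 = 0 := le_antisymm h5 (sq_nonneg _)
    have h7 : z.re = e / 2 := by
      have := pow_eq_zero_iff (two_ne_zero) |>.1 h6
      linarith
    rw [h6] at h4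
    rw [h7]
    linarith
  · have h4 : e = 2 * z.re := by linarith
    rw [h4] at h1
    nlinarith

end EUL

theorem eul_main : S_EUL := by
  intro e he p s hp hs h
  have hp0 : (0 : ℝ) < p := by exact_mod_cast hp.pos
  have hp1 : (1 : ℝ) < p := by exact_mod_cast hp.one_lt
  have hpc : (p : ℂ) ≠ 0 := by exact_mod_cast hp.ne_zero
  set z : ℂ := (p : ℂ) ^ s with hz
  have hz0 : z ≠ 0 := by
    rw [hz, Ne, Complex.cpow_eq_zero_iff]
    exact fun h => hpc h.1
  have e1 : (p : ℂ) ^ (-s) = z⁻¹ := Complex.cpow_neg _ _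
  have e2 : (p : ℂ) ^ (1 - 2 * s) = p / z ^ 2 := by
    rw [Complex.cpow_sub _ _ hpc, Complex.cpow_one]
    congr 1
    have := Complex.cpow_nat_mul (p : ℂ) 2 s
    push_cast at this
    exact this
  unfold eul at h
  rw [e1, e2] at h
  have h1 : z ^ 2 - ((e p : ℝ) : ℂ) * z + ((p : ℝ) : ℂ) = 0 := by
    have h2 : z ^ 2 * (1 - (e p : ℂ) * z⁻¹ + p / z ^ 2) = z ^ 2 - (e p : ℂ) * z + p := by
      field_simp
    rw [h, mul_zero] at h2
    push_cast
    exact h2.symm
  have h3 : ((e p : ℝ)) ^ 2 ≤ 4 * p := by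
    have h4 := he p hp
    have h5 : |(e p : ℝ)| ^ 2 ≤ (2 * √p) ^ 2 := pow_le_pow_left₀ (abs_nonneg _) h4 2
    rw [sq_abs, mul_pow, Real.sq_sqrt hp0.le] at h5
    linarith
  have h4 := EUL.norm_root z (e p) p h1 h3
  have h5 : ‖z‖ = (p : ℝ) ^ s.re := by
    rw [hz]
    exact Complex.norm_natCast_cpow_of_pos hp.pos s
  have h6 : ‖z‖ ^ 2 = p := by
    rw [← Complex.normSq_eq_norm_sq, Complex.normSq_apply]
    linarith
  rw [h5, ← Real.rpow_natCast, ← Real.rpow_mul hp0.le] at h6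
  have h7 : (p : ℝ) ^ (1 : ℝ) < (p : ℝ) ^ (s.re * ((2 : ℕ) : ℝ)) := by
    apply Real.rpow_lt_rpow_of_exponent_lt hp1
    push_cast
    linarith
  rw [Real.rpow_one, h6] at h7
  exact lt_irrefl _ h7

end H21RHB
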