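import Pool.Agent.H21.RHB.Stm

/-!
# Stub RHB-FBB: the factors are close to 1
-/

set_option autoImplicit false

namespace H21RHB

namespace FBB

open Real Finset MeasureTheory Filter Topology

theorem le_NN (i : ℕ) : i ≤ NN i := by
  unfold NN
  have h1 : i ≤ (i + 1) ^ 2 + 3 := by nlinarith
  exact h1.trans ((Nat.lt_two_pow_self).le.trans (Nat.lt_two_pow_self).le)

theorem tendsto_NN : Tendsto (fun i : ℕ => ((NN i : ℕ) : ℝ) ^ (-(1 / 4) : ℝ)) atTop (𝓝 0) := by
  have h1 : Tendsto (fun i : ℕ => ((NN i : ℕ) : ℝ)) atTop atTop :=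
    tendsto_natCast_atTop_atTop.comp (tendsto_atTop_mono le_NN tendsto_id)
  exact (tendsto_rpow_neg_atTop (by norm_num : (0 : ℝ) < 1 / 4)).comp h1

theorem fbb : S_FBB := by
  intro h1 h2 hJ hD hI k R hk hR
  obtain ⟨i₁, hi₁⟩ := hJ k R hk
  obtain ⟨_, i₂, hi₂⟩ := hI h1 h2 k hk
  have h3 := (tendsto_NN.mul_const (R + 2))
  rw [zero_mul] at h3
  obtain ⟨i₃, hi₃⟩ := eventually_atTop.1 (h3.eventually (gt_mem_nhds (by norm_num : (0 : ℝ) < 1 / 2)))
  refine ⟨max i₁ (max i₂ i₃), 4 * (R + 2) + 1, by positivity, ?_⟩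
  intro i s hi hs hre
  have hia : i₁ ≤ i := (le_max_left _ _).trans hi
  have hib : i₂ ≤ i := (le_max_left _ _).trans ((le_max_right _ _).trans hi)
  have hic : i₃ ≤ i := (le_max_right _ _).trans ((le_max_right _ _).trans hi)
  have hk0 : (1 : ℝ) ≤ k := by exact_mod_cast hk
  have hk1 : 1 / (32 * (k : ℝ)) ≤ 1 / 32 := by
    apply one_div_le_one_div_of_le (by norm_num)
    linarith
  have hk2 : 0 < 1 / (32 * (k : ℝ)) := by positivity
  set e : ℝ := (NN i : ℝ) ^ (-(1 / 4) : ℝ) with he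
  have he0 : 0 ≤ e := by positivity
  have heR : e * (R + 2) < 1 / 2 := hi₃ i hic
  have he1 : e ≤ 1 := by nlinarith
  set K : Set ℂ := Metric.closedBall (0 : ℂ) R ∩ {z : ℂ | 1 - 1 / (32 * (k : ℝ)) ≤ z.re} with hK
  have hKmem : ∀ z : ℂ, z ∈ K ↔ ‖z‖ ≤ R ∧ 1 - 1 / (32 * (k : ℝ)) ≤ z.re := by
    intro z
    rw [hK, Set.mem_inter_iff, mem_closedBall_zero_iff, Set.mem_setOf_eq]
  have hKc : IsCompact K := (isCompact_closedBall (0 : ℂ) R).inter_right
    (isClosed_le continuous_const Complex.continuous_re)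
  have hKv : Convex ℝ K := (convex_closedBall (0 : ℂ) R).inter (convex_halfSpace_re_ge _)
  have h2K : (2 : ℂ) ∈ K := by
    rw [hKmem]
    constructor
    · rw [Complex.norm_ofNat]; linarith
    · rw [Complex.re_ofNat]; linarith
  have hsK : s ∈ K := (hKmem s).2 ⟨hs, hre⟩
  have hne : ∀ z ∈ K, FB k i z ≠ 0 := by
    intro z hz h
    rw [hKmem] at hz
    have hz0 : 0 < z.re := by linarith [hz.2]
    obtain ⟨m, hm, hm2⟩ := (hD h2 k i z hk hz0).2.1.1 h
    have hg := (hi₁ i z hia hz.1 hz.2).2 m hm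
    have hb := Complex.abs_im_le_norm z
    rcases hm2 with h4 | h4
    · have h5 : z.im = gam k i m := by rw [h4]; simp
      rw [h5] at hb
      exact absurd ((le_abs_self _).trans (hb.trans hz.1)) (not_le.2 hg)
    · have h5 : z.im = -gam k i m := by rw [h4]; simp
      rw [h5, abs_neg] at hb
      exact absurd ((le_abs_self _).trans (hb.trans hz.1)) (not_le.2 hg)
  have hder : ∀ z ∈ K, HasDerivAt (FB k i) (FB k i z * JJ k i z) z := by
    intro z hz
    have hz' := (hKmem z).1 hz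
    have hz0 : 0 < z.re := by linarith [hz'.2]
    exact (hD h2 k i z hk hz0).2.2 (hne z hz)
  have hcont : ContinuousOn (fun z => ‖FB k i z‖) K := fun z hz =>
    (hder z hz).continuousAt.norm.continuousWithinAt
  obtain ⟨z0, hz0, hmax⟩ := hKc.exists_isMaxOn ⟨2, h2K⟩ hcont
  set M : ℝ := ‖FB k i z0‖ with hM
  have hM0 : 0 ≤ M := norm_nonneg _
  have hMb : ∀ z ∈ K, ‖FB k i z‖ ≤ M := fun z hz => hmax hz
  have hb : ∀ z ∈ K, ‖FB k i z * JJ k i z‖ ≤ M * e := by
    intro z hz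
    have hz' := (hKmem z).1 hz
    rw [norm_mul]
    exact mul_le_mul (hMb z hz) (hi₁ i z hia hz'.1 hz'.2).1 (norm_nonneg _) hM0
  have hmv : ∀ z ∈ K, ‖FB k i z - FB k i 2‖ ≤ M * (e * (R + 2)) := by
    intro z hz
    have h4 := hKv.norm_image_sub_le_of_norm_hasDerivWithin_le
      (fun w hw => (hder w hw).hasDerivWithinAt) hb h2K hz
    refine h4.trans ?_
    rw [← mul_assoc]
    refine mul_le_mul_of_nonneg_left ?_ (mul_nonneg hM0 he0)
    refine (norm_sub_le _ _).trans ?_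
    rw [Complex.norm_ofNat]
    linarith [((hKmem z).1 hz).1]
  have h2b : ‖FB k i 2 - 1‖ ≤ e := hi₂ i hib
  have h2c : ‖FB k i 2‖ ≤ 1 + e := by
    have h5 : FB k i 2 = (FB k i 2 - 1) + 1 := by ring
    calc ‖FB k i 2‖ = ‖(FB k i 2 - 1) + 1‖ := by rw [← h5]
      _ ≤ ‖FB k i 2 - 1‖ + ‖(1 : ℂ)‖ := norm_add_le _ _
      _ ≤ 1 + e := by rw [norm_one]; linarith
  have hM4 : M ≤ 4 := by
    have h6 := hmv z0 hz0
    have h7 : M ≤ ‖FB k i z0 - FB k i 2‖ + ‖FB k i 2‖ := by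
      have h5 : FB k i z0 = (FB k i z0 - FB k i 2) + FB k i 2 := by ring
      calc M = ‖(FB k i z0 - FB k i 2) + FB k i 2‖ := by rw [← h5]
        _ ≤ _ := norm_add_le _ _
    have h8 : M * (e * (R + 2)) ≤ M * (1 / 2) := mul_le_mul_of_nonneg_left heR.le hM0
    linarith
  have h9 := hmv s hsK
  have h10 : M * (e * (R + 2)) ≤ 4 * (e * (R + 2)) :=
    mul_le_mul_of_nonneg_right hM4 (mul_nonneg he0 (by linarith))
  have h11 : FB k i s - 1 = (FB k i s - FB k i 2) + (FB k i 2 - 1) := by ring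
  rw [h11]
  refine (norm_add_le _ _).trans ?_
  have h12 : (4 * (R + 2) + 1) * e = 4 * (e * (R + 2)) + e := by ring
  rw [h12]
  linarith

end FBB

end H21RHB
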