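import Pool.Agent.H21.RHB.Stm

/-! # RHB-FBD (helper71) -/

set_option autoImplicit false

namespace H21RHB

open Real Finset MeasureTheory Filter Topology

namespace FBD

theorem prod_deriv {ι : Type} (A : Finset ι) (f : ι → ℂ → ℂ) (d : ι → ℂ) (s : ℂ)
    (h : ∀ m ∈ A, HasDerivAt (f m) (f m s * d m) s) :
    HasDerivAt (fun s => ∏ m ∈ A, f m s) ((∏ m ∈ A, f m s) * ∑ m ∈ A, d m) s := by
  classical
  induction A using Finset.induction_on with
  | empty => simpa using hasDerivAt_const s (1 : ℂ)
  | insert a A ha ih =>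
    have h1 := ih (fun m hm => h m (Finset.mem_insert_of_mem hm))
    have h2 := (h a (Finset.mem_insert_self a A)).mul h1
    have e1 : (fun s => ∏ m ∈ insert a A, f m s) = (f a) * fun s => ∏ m ∈ A, f m s := by
      funext t
      rw [Finset.prod_insert ha]
      rfl
    rw [e1]
    refine h2.congr_deriv ?_
    rw [Finset.prod_insert ha, Finset.sum_insert ha]
    ring

end FBD

theorem fbd : S_FBD := by
  intro hQ k i s hk hs
  have hV : 0 ≤ VV k i := by
    unfold VV
    have : (1 : ℝ) ≤ NN i := by
      have : 1 ≤ NN i := Nat.one_le_two_pow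
      exact_mod_cast this
    have := Real.log_nonneg this
    positivity
  have hre1 : ∀ m, -1 < (s - 1 - Complex.I * gam k i m).re := by
    intro m
    simp
    exact hs
  have hre2 : ∀ m, -1 < (s - 1 + Complex.I * gam k i m).re := by
    intro m
    simp
    exact hs
  have hz1 : ∀ m, s - 1 - Complex.I * gam k i m = 0 ↔ s = 1 + Complex.I * gam k i m := by
    intro m
    constructor
    · intro h; linear_combination h
    · intro h; rw [h]; ring
  have hz2 : ∀ m, s - 1 + Complex.I * gam k i m = 0 ↔ s = 1 - Complex.I * gam k i m := by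
    intro m
    constructor
    · intro h; linear_combination h
    · intro h; rw [h]; ring
  have hd1 : ∀ m, HasDerivAt (fun s : ℂ => s - 1 - Complex.I * gam k i m) 1 s := by
    intro m
    exact ((hasDerivAt_id s).sub_const 1).sub_const _
  have hd2 : ∀ m, HasDerivAt (fun s : ℂ => s - 1 + Complex.I * gam k i m) 1 s := by
    intro m
    exact ((hasDerivAt_id s).sub_const 1).add_const _
  have hzero : FB k i s = 0 ↔ ∃ m ∈ ms i, s = 1 + Complex.I * gam k i m ∨
      s = 1 - Complex.I * gam k i m := by
    unfold FB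
    rw [Finset.prod_eq_zero_iff]
    refine exists_congr fun m => and_congr_right fun _ => ?_
    rw [mul_eq_zero, (hQ _ hV _ (hre1 m)).2.1, (hQ _ hV _ (hre2 m)).2.1, hz1, hz2]
  refine ⟨?_, hzero, ?_⟩
  · unfold FB
    refine DifferentiableAt.fun_finsetProd fun m _ => ?_
    refine DifferentiableAt.mul ?_ ?_
    · exact DifferentiableAt.comp s (hQ _ hV _ (hre1 m)).1 (hd1 m).differentiableAt
    · exact DifferentiableAt.comp s (hQ _ hV _ (hre2 m)).1 (hd2 m).differentiableAt
  · intro hne
    unfold FB JJ
    refine FBD.prod_deriv (ms i) (fun m s => QQ (VV k i) (s - 1 - Complex.I * gam k i m) *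
      QQ (VV k i) (s - 1 + Complex.I * gam k i m)) _ s ?_
    intro m hm
    have hn1 : s - 1 - Complex.I * gam k i m ≠ 0 := fun h => hne (hzero.2 ⟨m, hm, Or.inl ((hz1 m).1 h)⟩)
    have hn2 : s - 1 + Complex.I * gam k i m ≠ 0 := fun h => hne (hzero.2 ⟨m, hm, Or.inr ((hz2 m).1 h)⟩)
    have g1 := (hQ _ hV _ (hre1 m)).2.2 hn1
    have g2 := (hQ _ hV _ (hre2 m)).2.2 hn2
    have g3 := HasDerivAt.comp s g1 (hd1 m)
    have g4 := HasDerivAt.comp s g2 (hd2 m)
    have g5 := g3.mul g4
    have e1 : s - 1 - Complex.I * gam k i m + 1 = s - Complex.I * gam k i m := by ring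
    have e2 : s - 1 + Complex.I * gam k i m + 1 = s + Complex.I * gam k i m := by ring
    rw [e1] at g5
    rw [e2] at g5
    refine g5.congr_deriv ?_
    simp only [Function.comp_apply]
    ring

end H21RHB
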