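import Pool.Agent.H21.RHB.Stm

/-! # Project RHB: the stub FBI (helper12) -/

set_option autoImplicit false

namespace H21RHB

open Real Finset MeasureTheory Filter Topology

namespace FBI

theorem ph_nonneg {v : ℝ} (hv : 0 < v) : 0 ≤ ph v := by
  unfold ph
  have : Real.exp (-v) ≤ 1 := Real.exp_le_one_iff.2 (by linarith)
  exact div_nonneg (by linarith) hv.le

theorem ph_le_one {v : ℝ} (hv : 0 < v) : ph v ≤ 1 := by
  unfold ph
  rw [div_le_one hv]
  have := Real.add_one_le_exp (-v)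
  linarith

theorem ph_meas : Measurable ph := by
  unfold ph
  fun_prop

/-- the integrability -/
theorem int_on {z : ℂ} (hz : 0 < z.re) {V : ℝ} (hV : 0 ≤ V) :
    IntegrableOn (fun v : ℝ => Complex.exp (-(z * v)) * (ph v : ℂ)) (Set.Ioi V) := by
  have h1 : IntegrableOn (fun v : ℝ => Real.exp (-z.re * v)) (Set.Ioi V) :=
    exp_neg_integrableOn_Ioi V hz
  refine h1.mono' ?_ ?_
  · have := ph_meas
    exact (by fun_prop : Measurable fun v : ℝ =>
      Complex.exp (-(z * v)) * (ph v : ℂ)).aestronglyMeasurable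
  · rw [ae_restrict_iff' measurableSet_Ioi]
    refine ae_of_all _ fun v hv => ?_
    have hv' : 0 < v := hV.trans_lt hv
    rw [norm_mul, Complex.norm_exp, Complex.norm_real, Real.norm_of_nonneg (ph_nonneg hv')]
    have h2 : (-(z * v)).re = -z.re * v := by simp
    rw [h2]
    exact mul_le_of_le_one_right (Real.exp_pos _).le (ph_le_one hv')

theorem NN_pos (i : ℕ) : 65536 ≤ NN i := by
  unfold NN
  have h1 : 2 ^ 4 ≤ 2 ^ ((i + 1) ^ 2 + 3) := Nat.pow_le_pow_right (by norm_num) (by nlinarith [Nat.zero_le i])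
  calc 65536 = 2 ^ (2 ^ 4) := by norm_num
    _ ≤ _ := Nat.pow_le_pow_right (by norm_num) h1

theorem NN_gt (i : ℕ) : (65536 : ℝ) ≤ NN i := by exact_mod_cast NN_pos i

theorem VV_nonneg (k i : ℕ) : 0 ≤ VV k i := by
  unfold VV
  have : 0 ≤ Real.log (NN i) := Real.log_nonneg (by have := NN_gt i; linarith)
  positivity

theorem cos_abs (k i : ℕ) (v : ℝ) : |CC k i v| ≤ 2 * (NN i : ℝ) ^ 2 := by
  unfold CC
  refine (Finset.abs_sum_le_sum_abs _ _).trans ?_
  calc ∑ m ∈ ms i, |2 * Real.cos (gam k i m * v)| ≤ ∑ _m ∈ ms i, (2 : ℝ) := by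
        refine Finset.sum_le_sum fun m _ => ?_
        rw [abs_mul, abs_two]
        have := Real.abs_cos_le_one (gam k i m * v)
        linarith
    _ ≤ 2 * (NN i : ℝ) ^ 2 := by
        rw [Finset.sum_const, nsmul_eq_mul, mul_comm]
        unfold ms
        rw [Nat.card_Ico]
        have : ((NN i ^ 2 - NN i : ℕ) : ℝ) ≤ (NN i : ℝ) ^ 2 := by
          calc ((NN i ^ 2 - NN i : ℕ) : ℝ) ≤ ((NN i ^ 2 : ℕ) : ℝ) := by exact_mod_cast Nat.sub_le _ _
            _ = _ := by push_cast; ring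
        linarith

/-- the first part -/
theorem part1 (h1 : ∀ V : ℝ, 0 ≤ V → ∀ z : ℂ, 0 < z.re →
    QQ V z = Complex.exp (-∫ v in Set.Ioi V, Complex.exp (-(z * v)) * (ph v : ℂ)))
    (k i : ℕ) (s : ℂ) (hs : 1 < s.re) : FB k i s =
    Complex.exp (-∫ v in Set.Ioi (VV k i),
      Complex.exp (-((s - 1) * v)) * ((CC k i v * ph v : ℝ) : ℂ)) := by
  unfold FB
  have hV := VV_nonneg k i
  have hre : ∀ γ : ℝ, 0 < (s - 1 - Complex.I * γ).re ∧ 0 < (s - 1 + Complex.I * γ).re := by
    intro γ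
    constructor
    · simp; linarith
    · simp; linarith
  have h2 : ∀ m ∈ ms i, QQ (VV k i) (s - 1 - Complex.I * gam k i m) *
      QQ (VV k i) (s - 1 + Complex.I * gam k i m) =
      Complex.exp (-∫ v in Set.Ioi (VV k i),
        Complex.exp (-((s - 1) * v)) * ((2 * Real.cos (gam k i m * v) * ph v : ℝ) : ℂ)) := by
    intro m _
    rw [h1 _ hV _ (hre _).1, h1 _ hV _ (hre _).2, ← Complex.exp_add, ← neg_add,
      ← integral_add (int_on (hre _).1 hV) (int_on (hre _).2 hV)]
    congr 2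
    refine setIntegral_congr_fun measurableSet_Ioi fun v _ => ?_
    have e1 : Complex.exp (-((s - 1 - Complex.I * (gam k i m : ℂ)) * v)) =
        Complex.exp (-((s - 1) * v)) * Complex.exp ((gam k i m * v : ℂ) * Complex.I) := by
      rw [← Complex.exp_add]
      congr 1
      ring
    have e2 : Complex.exp (-((s - 1 + Complex.I * (gam k i m : ℂ)) * v)) =
        Complex.exp (-((s - 1) * v)) * Complex.exp (-(gam k i m * v : ℂ) * Complex.I) := by
      rw [← Complex.exp_add]
      congr 1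
      ring
    have e3 : (2 : ℂ) * Complex.cos (gam k i m * v) = Complex.exp ((gam k i m * v : ℂ) * Complex.I) +
        Complex.exp (-(gam k i m * v : ℂ) * Complex.I) := by
      rw [Complex.cos]
      ring
    rw [e1, e2]
    push_cast
    rw [e3]
    ring
  rw [Finset.prod_congr rfl h2, ← Complex.exp_sum]
  congr 1
  rw [Finset.sum_neg_distrib]
  congr 1
  rw [← integral_finsetSum]
  · refine setIntegral_congr_fun measurableSet_Ioi fun v _ => ?_
    simp only [CC]
    push_cast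
    rw [Finset.sum_mul, Finset.mul_sum]
  · intro m _
    have h3 := (int_on (hre (gam k i m)).1 hV).add (int_on (hre (gam k i m)).2 hV)
    refine h3.congr ?_
    refine ae_of_all _ fun v => ?_
    have e1 : Complex.exp (-((s - 1 - Complex.I * (gam k i m : ℂ)) * v)) =
        Complex.exp (-((s - 1) * v)) * Complex.exp ((gam k i m * v : ℂ) * Complex.I) := by
      rw [← Complex.exp_add]
      congr 1
      ring
    have e2 : Complex.exp (-((s - 1 + Complex.I * (gam k i m : ℂ)) * v)) =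
        Complex.exp (-((s - 1) * v)) * Complex.exp (-(gam k i m * v : ℂ) * Complex.I) := by
      rw [← Complex.exp_add]
      congr 1
      ring
    have e3 : (2 : ℂ) * Complex.cos (gam k i m * v) = Complex.exp ((gam k i m * v : ℂ) * Complex.I) +
        Complex.exp (-(gam k i m * v : ℂ) * Complex.I) := by
      rw [Complex.cos]
      ring
    simp only [Pi.add_apply]
    rw [e1, e2]
    push_cast
    rw [e3]
    ring

/-- the bound at `2` -/
theorem bound2 (k i : ℕ) (hk : 1 ≤ k) :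
    ‖∫ v in Set.Ioi (VV k i), Complex.exp (-(((2 : ℂ) - 1) * v)) * ((CC k i v * ph v : ℝ) : ℂ)‖ ≤
      2 * (NN i : ℝ) ^ (-14 : ℝ) := by
  have hV := VV_nonneg k i
  have hN := NN_gt i
  have hN0 : (0 : ℝ) < NN i := by linarith
  have hint : IntegrableOn (fun v : ℝ => 2 * (NN i : ℝ) ^ 2 * Real.exp (-v)) (Set.Ioi (VV k i)) :=
    (integrableOn_exp_neg_Ioi _).const_mul _
  refine (norm_integral_le_of_norm_le hint ?_).trans ?_
  · rw [ae_restrict_iff' measurableSet_Ioi]
    refine ae_of_all _ fun v hv => ?_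
    have hv' : 0 < v := hV.trans_lt hv
    rw [norm_mul, Complex.norm_exp, Complex.norm_real, Real.norm_eq_abs, abs_mul,
      abs_of_nonneg (ph_nonneg hv')]
    have h2 : (-(((2 : ℂ) - 1) * v)).re = -v := by
      norm_num
    rw [h2, mul_comm]
    refine mul_le_mul_of_nonneg_right ?_ (Real.exp_pos _).le
    calc |CC k i v| * ph v ≤ |CC k i v| * 1 :=
          mul_le_mul_of_nonneg_left (ph_le_one hv') (abs_nonneg _)
      _ ≤ _ := by rw [mul_one]; exact cos_abs k i v
  · rw [integral_const_mul, integral_exp_neg_Ioi]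
    have h3 : Real.exp (-VV k i) ≤ (NN i : ℝ) ^ (-16 : ℝ) := by
      rw [Real.rpow_def_of_pos hN0]
      apply Real.exp_le_exp.2
      unfold VV
      have h4 : 0 ≤ Real.log (NN i) := Real.log_nonneg (by linarith)
      have h5 : (1 : ℝ) ≤ k := by exact_mod_cast hk
      nlinarith
    calc 2 * (NN i : ℝ) ^ 2 * Real.exp (-VV k i) ≤ 2 * (NN i : ℝ) ^ 2 * (NN i : ℝ) ^ (-16 : ℝ) :=
          mul_le_mul_of_nonneg_left h3 (by positivity)
      _ = 2 * (NN i : ℝ) ^ (-14 : ℝ) := by
          rw [mul_assoc, ← Real.rpow_natCast, ← Real.rpow_add hN0]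
          norm_num

end FBI

open FBI

theorem fbi : S_FBI := by
  intro hQ hQ2 k hk
  have h1 := hQ hQ2
  refine ⟨fun i s hs => part1 h1 k i s hs, 0, fun i _ => ?_⟩
  rw [part1 h1 k i 2 (by norm_num)]
  have h2 := bound2 k i hk
  have hN := NN_gt i
  have hN0 : (0 : ℝ) < NN i := by linarith
  have h14 : (NN i : ℝ) ^ (-14 : ℝ) ≤ 1 / 4 * (NN i : ℝ) ^ (-(1 / 4) : ℝ) := by
    have e : (NN i : ℝ) ^ (-14 : ℝ) = (NN i : ℝ) ^ (-(55 / 4) : ℝ) * (NN i : ℝ) ^ (-(1 / 4) : ℝ) := by
      rw [← Real.rpow_add hN0]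
      norm_num
    rw [e]
    refine mul_le_mul_of_nonneg_right ?_ (by positivity)
    calc (NN i : ℝ) ^ (-(55 / 4) : ℝ) ≤ (NN i : ℝ) ^ (-1 : ℝ) :=
          Real.rpow_le_rpow_of_exponent_le (by linarith) (by norm_num)
      _ ≤ 1 / 4 := by
          rw [Real.rpow_neg_one, one_div]
          exact inv_anti₀ (by norm_num) (by linarith)
  have h3 : (NN i : ℝ) ^ (-(1 / 4) : ℝ) ≤ 1 :=
    Real.rpow_le_one_of_one_le_of_nonpos (by linarith) (by norm_num)
  set w : ℂ := ∫ v in Set.Ioi (VV k i),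
    Complex.exp (-(((2 : ℂ) - 1) * v)) * ((CC k i v * ph v : ℝ) : ℂ) with hw
  have h4 : ‖-w‖ ≤ 1 := by
    rw [norm_neg]
    linarith
  have h5 := Complex.norm_exp_sub_one_le h4
  rw [norm_neg] at h5
  linarith

end H21RHB
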