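import Pool.Agent.H21.RHB.Stm

/-! # RHB-FFH: the function with the prescribed zeros -/

set_option autoImplicit false

namespace H21RHB.FFH

open Real Finset MeasureTheory Filter Topology

noncomputable section

theorem NN_large (i : ℕ) : 2 ^ (4 * i) ≤ NN i := by
  unfold NN
  apply Nat.pow_le_pow_right (by norm_num)
  have h1 : (i + 1) ^ 2 + 3 < 2 ^ ((i + 1) ^ 2 + 3) := Nat.lt_two_pow_self
  have h2 : 4 * i ≤ (i + 1) ^ 2 + 3 := by
    rcases Nat.lt_or_ge i 2 with h | h
    · interval_cases i <;> norm_num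
    · nlinarith
  omega

theorem summ : Summable (fun i : ℕ => (NN i : ℝ) ^ (-(1 / 4) : ℝ)) := by
  refine Summable.of_nonneg_of_le (fun i => by positivity) (fun i => ?_)
    (summable_geometric_of_lt_one (by norm_num : (0 : ℝ) ≤ 1 / 2) (by norm_num))
  have h1 : (2 : ℝ) ^ (4 * i) ≤ NN i := by exact_mod_cast NN_large i
  rw [Real.rpow_neg (by positivity), one_div (2 : ℝ), inv_pow]
  apply inv_anti₀ (by positivity)
  calc (2 : ℝ) ^ i = ((2 : ℝ) ^ (4 * i)) ^ (1 / 4 : ℝ) := by
        rw [← Real.rpow_natCast, ← Real.rpow_natCast, ← Real.rpow_mul (by norm_num)]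
        congr 1
        push_cast
        ring
    _ ≤ (NN i : ℝ) ^ (1 / 4 : ℝ) := Real.rpow_le_rpow (by positivity) h1 (by norm_num)

theorem gam_pos (k i m : ℕ) (hk : 1 ≤ k) : 0 < gam k i m := by
  have hk' : (0 : ℝ) < k := by exact_mod_cast hk
  have hN : 2 ≤ NN i := by
    unfold NN
    calc 2 = 2 ^ 1 := by norm_num
      _ ≤ 2 ^ (2 ^ ((i + 1) ^ 2 + 3)) := Nat.pow_le_pow_right (by norm_num) (Nat.one_le_two_pow)
  have hN' : (2 : ℝ) ≤ NN i := by exact_mod_cast hN
  have hL : 0 < Real.log (NN i) := Real.log_pos (by linarith)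
  have hph : 0 < phase i := by
    unfold phase
    split_ifs <;> norm_num
  have hpi := Real.pi_pos
  unfold gam UU
  positivity

theorem isOpen_reg (c : ℝ) : IsOpen {s : ℂ | c < s.re} :=
  isOpen_lt continuous_const Complex.continuous_re

theorem main : S_FFH := by
  intro hB hQ hD k r hk
  have hk' : (1 : ℝ) ≤ k := by exact_mod_cast hk
  have hreg : ∀ s : ℂ, 1 - 1 / (32 * (k : ℝ)) < s.re → 0 < s.re := by
    intro s hs
    have : 1 / (32 * (k : ℝ)) ≤ 1 := by
      rw [div_le_one (by positivity)]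
      linarith
    linarith
  have hFBD := hD hQ k
  have hdiff : ∀ (i : ℕ) (s : ℂ), 1 - 1 / (32 * (k : ℝ)) < s.re → DifferentiableAt ℂ (FB k i) s :=
    fun i s hs => (hFBD i s hk (hreg s hs)).1
  -- local bound
  have hsum : ∀ s : ℂ, 1 - 1 / (32 * (k : ℝ)) < s.re → Summable (fun i => ‖FB k i s - 1‖) := by
    intro s hs
    obtain ⟨i₀, C, hC, hb⟩ := hB k (‖s‖ + 4) hk (by linarith [norm_nonneg s])
    refine Summable.of_norm_bounded_eventually_nat (summ.mul_left C) ?_
    filter_upwards [eventually_ge_atTop i₀] with i hi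
    rw [norm_norm]
    exact hb i s hi (by linarith) hs.le
  have hG : DifferentiableOn ℂ (fun s => ∏' i, FB k i s) {s | 1 - 1 / (32 * (k : ℝ)) < s.re} := by
    intro s₀ hs₀
    obtain ⟨i₀, C, hC, hb⟩ := hB k (‖s₀‖ + 4) hk (by linarith [norm_nonneg s₀])
    set K : Set ℂ := {s | 1 - 1 / (32 * (k : ℝ)) < s.re} ∩ Metric.ball 0 (‖s₀‖ + 4) with hK
    have hKo : IsOpen K := (isOpen_reg _).inter Metric.isOpen_ball
    have hs₀K : s₀ ∈ K := ⟨hs₀, by simp⟩
    have hprod : HasProdLocallyUniformlyOn (fun (i : ℕ) s => 1 + (FB k i s - 1))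
        (fun s => ∏' i : ℕ, (1 + (FB k i s - 1))) K := by
      refine Summable.hasProdLocallyUniformlyOn_nat_one_add (f := fun i s => FB k i s - 1)
        hKo (summ.mul_left C) ?_ ?_
      · filter_upwards [eventually_ge_atTop i₀] with i hi s hs
        have hs2 := hs.2
        rw [mem_ball_zero_iff] at hs2
        exact hb i s hi hs2.le (le_of_lt hs.1)
      · intro i s hs
        exact ((hdiff i s hs.1).continuousAt.sub continuousAt_const).continuousWithinAt
    rw [hasProdLocallyUniformlyOn_iff_tendstoLocallyUniformlyOn] at hprod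
    have hd : DifferentiableOn ℂ (fun s => ∏' i : ℕ, (1 + (FB k i s - 1))) K := by
      refine hprod.differentiableOn (.of_forall fun F => ?_) hKo
      have : DifferentiableOn ℂ (fun s => ∏ i ∈ F, (1 + (FB k i s - 1))) K := by
        refine DifferentiableOn.fun_finsetProd fun i _ s hs => ?_
        exact (((hdiff i s hs.1).sub_const 1).const_add 1).differentiableWithinAt
      exact this
    have hd' : DifferentiableOn ℂ (fun s => ∏' i, FB k i s) K := by
      simpa only [add_sub_cancel] using hd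
    exact (hd'.differentiableAt (hKo.mem_nhds hs₀K)).differentiableWithinAt
  have hQd : ∀ s : ℂ, 1 - 1 / (32 * (k : ℝ)) < s.re →
      DifferentiableAt ℂ (fun s => QQ 0 (s - 1)) s := by
    intro s hs
    have h1 := (hQ 0 le_rfl (s - 1) (by simp; exact hreg s hs)).1
    exact h1.comp s (differentiableAt_id.sub_const 1)
  have hFF : DifferentiableOn ℂ (FF k r) {s | 1 - 1 / (32 * (k : ℝ)) < s.re} := by
    have h1 : DifferentiableOn ℂ (fun s => QQ 0 (s - 1) ^ r) {s | 1 - 1 / (32 * (k : ℝ)) < s.re} :=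
      fun s hs => ((hQd s hs).fun_pow r).differentiableWithinAt
    have h2 := h1.fun_mul hG
    exact h2
  have hGz : ∀ s : ℂ, 1 - 1 / (32 * (k : ℝ)) < s.re →
      ((∏' i, FB k i s) = 0 ↔ ∃ i, FB k i s = 0) := by
    intro s hs
    constructor
    · intro h
      by_contra hcon
      push Not at hcon
      have := tprod_one_add_ne_zero_of_summable (f := fun i => FB k i s - 1)
        (fun i => by simpa using hcon i) (hsum s hs)
      apply this
      simpa only [add_sub_cancel] using h
    · intro h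
      exact tprod_of_exists_eq_zero h
  have hzero : ∀ s : ℂ, 1 - 1 / (32 * (k : ℝ)) < s.re → (FF k r s = 0 ↔
      (s = 1 ∧ r ≠ 0) ∨ ∃ i : ℕ, ∃ m ∈ ms i, s = 1 + Complex.I * gam k i m ∨
        s = 1 - Complex.I * gam k i m) := by
    intro s hs
    have h0 := hreg s hs
    have h1 : FF k r s = QQ 0 (s - 1) ^ r * ∏' i, FB k i s := rfl
    rw [h1, mul_eq_zero, pow_eq_zero_iff', hGz s hs,
      (hQ 0 le_rfl (s - 1) (by simp; exact h0)).2.1, sub_eq_zero]
    refine or_congr Iff.rfl (exists_congr fun i => ?_)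
    exact (hFBD i s hk h0).2.1
  refine ⟨hFF, hzero, ?_⟩
  have h1reg : 1 - 1 / (32 * (k : ℝ)) < (1 : ℂ).re := by
    have : 0 < 1 / (32 * (k : ℝ)) := by positivity
    simp only [Complex.one_re]
    linarith
  have hnhds : {s : ℂ | 1 - 1 / (32 * (k : ℝ)) < s.re} ∈ 𝓝 (1 : ℂ) :=
    (isOpen_reg _).mem_nhds h1reg
  have hf : AnalyticAt ℂ (FF k r) 1 := hFF.analyticAt hnhds
  have hGa : AnalyticAt ℂ (fun s => ∏' i, FB k i s) 1 := hG.analyticAt hnhds
  rw [hf.analyticOrderAt_eq_natCast]
  refine ⟨fun s => (1 / s) ^ r * ∏' i, FB k i s, ?_, ?_, ?_⟩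
  · exact ((analyticAt_const.div analyticAt_id one_ne_zero).fun_pow r).fun_mul hGa
  · simp only [div_one, one_pow, one_mul]
    rw [Ne, hGz 1 h1reg]
    rintro ⟨i, hi⟩
    obtain ⟨m, hm, h⟩ := ((hFBD i 1 hk (by simp)).2.1).1 hi
    have hg := (gam_pos k i m hk).ne'
    rcases h with h | h
    · have : Complex.I * (gam k i m : ℂ) = 0 := by linear_combination -h
      rcases mul_eq_zero.1 this with h2 | h2
      · exact Complex.I_ne_zero h2
      · exact hg (by exact_mod_cast h2)
    · have : Complex.I * (gam k i m : ℂ) = 0 := by linear_combination h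
      rcases mul_eq_zero.1 this with h2 | h2
      · exact Complex.I_ne_zero h2
      · exact hg (by exact_mod_cast h2)
  · refine .of_forall fun z => ?_
    have h1 : FF k r z = QQ 0 (z - 1) ^ r * ∏' i, FB k i z := rfl
    have h2 : QQ 0 (z - 1) = (z - 1) * (1 / z) := by
      unfold QQ
      rw [intervalIntegral.integral_same, Complex.exp_zero, mul_one, sub_add_cancel]
      ring
    rw [h1, h2, smul_eq_mul, mul_pow]
    ring

end

end H21RHB.FFH
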