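import Pool.Agent.H21.RHB.Stm

/-! # RHB-FFI (helper63): the product formula for `FF` -/

set_option autoImplicit false

namespace H21RHB

open Real Finset MeasureTheory Filter Topology

noncomputable section

namespace FFI

lemma ph_meas : Measurable ph := by
  unfold ph
  exact (measurable_const.sub (Real.measurable_exp.comp measurable_neg)).div measurable_id

lemma ph_bd {v : ℝ} (hv : 0 < v) : |ph v| ≤ 1 := by
  unfold ph
  have h1 := Real.add_one_le_exp (-v)
  have h2 : Real.exp (-v) ≤ 1 := Real.exp_le_one_iff.2 (by linarith)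
  rw [abs_of_nonneg (div_nonneg (by linarith) hv.le), div_le_one hv]
  linarith

lemma NN_ge (i : ℕ) : 2 ^ (i + 1) ≤ NN i := by
  unfold NN
  refine Nat.pow_le_pow_right two_pos ?_
  have h1 : i + 1 < 2 ^ (i + 1) := Nat.lt_two_pow_self
  have h2 : 2 ^ (i + 1) ≤ 2 ^ ((i + 1) ^ 2 + 3) := Nat.pow_le_pow_right two_pos (by nlinarith)
  omega

lemma CC_bd (k i : ℕ) (v : ℝ) : |CC k i v| ≤ 2 * (NN i : ℝ) ^ 2 := by
  unfold CC
  refine (Finset.abs_sum_le_sum_abs _ _).trans ?_
  calc ∑ m ∈ ms i, |2 * Real.cos (gam k i m * v)| ≤ ∑ _m ∈ ms i, (2 : ℝ) := by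
        refine Finset.sum_le_sum fun m _ => ?_
        rw [abs_mul, abs_two]
        have := Real.abs_cos_le_one (gam k i m * v)
        linarith
    _ = (ms i).card * 2 := by rw [Finset.sum_const, nsmul_eq_mul]
    _ ≤ 2 * (NN i : ℝ) ^ 2 := by
        have h1 : (ms i).card ≤ NN i ^ 2 := by
          unfold ms
          rw [Nat.card_Ico]
          omega
        have h2 : ((ms i).card : ℝ) ≤ (NN i : ℝ) ^ 2 := by exact_mod_cast h1
        linarith

lemma CC_meas (k i : ℕ) : Measurable (CC k i) := by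
  unfold CC
  refine Finset.measurable_sum _ fun m _ => ?_
  fun_prop

lemma NN_pos (i : ℕ) : (0 : ℝ) < NN i := by
  have := NN_ge i
  have h2 : 0 < NN i := lt_of_lt_of_le (by positivity) this
  exact_mod_cast h2

lemma log_NN (i : ℕ) : ((i : ℝ) + 1) / 2 ≤ Real.log (NN i) := by
  have h1 : ((2 ^ (i + 1) : ℕ) : ℝ) ≤ NN i := by exact_mod_cast NN_ge i
  have h2 := Real.log_le_log (by positivity) h1
  push_cast at h2
  rw [Real.log_pow] at h2
  have h3 := Real.log_two_gt_d9
  push_cast at h2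
  nlinarith [Nat.cast_nonneg (α := ℝ) i]

lemma VV_gt {k : ℕ} (hk : 1 ≤ k) (i : ℕ) : (i : ℝ) + 1 ≤ VV k i := by
  unfold VV
  have h1 := log_NN i
  have h2 : (1 : ℝ) ≤ k := by exact_mod_cast hk
  have h3 : 0 ≤ Real.log (NN i) := by
    have := Nat.cast_nonneg (α := ℝ) i
    linarith
  have h4 : Real.log (NN i) ≤ k * Real.log (NN i) := le_mul_of_one_le_left h3 h2
  have := Nat.cast_nonneg (α := ℝ) i
  nlinarith

/-- the terms -/
def Fi (k : ℕ) (s : ℂ) (i : ℕ) (v : ℝ) : ℂ :=
  (Set.Ici (VV k i)).indicator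
    (fun v : ℝ => Complex.exp (-((s - 1) * v)) * ((CC k i v * ph v : ℝ) : ℂ)) v

lemma E_meas (s : ℂ) : Measurable (fun v : ℝ => Complex.exp (-((s - 1) * v))) := by
  fun_prop

lemma E_norm (s : ℂ) (v : ℝ) :
    ‖Complex.exp (-((s - 1) * v))‖ = Real.exp (-((s.re - 1) * v)) := by
  rw [Complex.norm_exp]
  congr 1
  simp

lemma Fi_meas (k : ℕ) (s : ℂ) (i : ℕ) : Measurable (Fi k s i) := by
  unfold Fi
  refine Measurable.indicator ?_ measurableSet_Ici
  exact (E_meas s).mul (Complex.measurable_ofReal.comp ((CC_meas k i).mul ph_meas))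

lemma Fi_bd {k : ℕ} (_hk : 1 ≤ k) {s : ℂ} (hs : 3 / 2 < s.re) (i : ℕ) {v : ℝ} (hv : 0 < v) :
    ‖Fi k s i v‖ ≤ (2 * (NN i : ℝ) ^ 2 * Real.exp (-(VV k i / 4))) * Real.exp (-(1 / 4) * v) := by
  unfold Fi
  by_cases h : v ∈ Set.Ici (VV k i)
  · rw [Set.indicator_of_mem h, norm_mul, E_norm, Complex.norm_real, Real.norm_eq_abs, abs_mul]
    have h1 : Real.exp (-((s.re - 1) * v)) ≤ Real.exp (-(VV k i / 4)) * Real.exp (-(1 / 4) * v) := by
      rw [← Real.exp_add, Real.exp_le_exp]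
      have h2 : VV k i ≤ v := h
      nlinarith
    have h3 : |CC k i v| * |ph v| ≤ 2 * (NN i : ℝ) ^ 2 * 1 :=
      mul_le_mul (CC_bd k i v) (ph_bd hv) (abs_nonneg _) (by positivity)
    calc Real.exp (-((s.re - 1) * v)) * (|CC k i v| * |ph v|) ≤
        (Real.exp (-(VV k i / 4)) * Real.exp (-(1 / 4) * v)) * (2 * (NN i : ℝ) ^ 2 * 1) :=
          mul_le_mul h1 h3 (by positivity) (by positivity)
      _ = _ := by ring
  · rw [Set.indicator_of_notMem h, norm_zero]
    positivity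

lemma coef_bd {k : ℕ} (hk : 1 ≤ k) (i : ℕ) :
    2 * (NN i : ℝ) ^ 2 * Real.exp (-(VV k i / 4)) ≤ 2 * (1 / 2) ^ i := by
  have hN := NN_pos i
  have h0 : 0 ≤ Real.log (NN i) := by
    have := log_NN i
    have := Nat.cast_nonneg (α := ℝ) i
    linarith
  have h1 : Real.exp (-(VV k i / 4)) ≤ ((NN i : ℝ) ^ 3)⁻¹ := by
    rw [← Real.exp_log (inv_pos.2 (pow_pos hN 3)), Real.exp_le_exp, Real.log_inv, Real.log_pow]
    unfold VV
    have h2 : (1 : ℝ) ≤ k := by exact_mod_cast hk
    have h4 : Real.log (NN i) ≤ k * Real.log (NN i) := le_mul_of_one_le_left h0 h2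
    push_cast
    nlinarith
  have h2 : ((2 : ℝ) ^ i) ≤ NN i := by
    have h3 := NN_ge i
    have h4 : 2 ^ i ≤ NN i := le_trans (Nat.pow_le_pow_right two_pos (by omega)) h3
    exact_mod_cast h4
  calc 2 * (NN i : ℝ) ^ 2 * Real.exp (-(VV k i / 4)) ≤ 2 * (NN i : ℝ) ^ 2 * ((NN i : ℝ) ^ 3)⁻¹ := by
        gcongr
    _ = 2 * (NN i : ℝ)⁻¹ := by field_simp
    _ ≤ 2 * ((2 : ℝ) ^ i)⁻¹ := by gcongr
    _ = 2 * (1 / 2) ^ i := by rw [one_div, inv_pow]

lemma Fi_tsum {k : ℕ} (hk : 1 ≤ k) (s : ℂ) {v : ℝ} (_hv : 0 < v) :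
    ∑' i, Fi k s i v = Complex.exp (-((s - 1) * v)) * ((ph v *
      ∑ i ∈ Finset.range (⌊v⌋₊ + 1), (if VV k i ≤ v then CC k i v else 0) : ℝ) : ℂ) := by
  rw [tsum_eq_sum (s := Finset.range (⌊v⌋₊ + 1))]
  · push_cast
    rw [Finset.mul_sum, Finset.mul_sum]
    refine Finset.sum_congr rfl fun i _ => ?_
    unfold Fi
    by_cases h : VV k i ≤ v
    · rw [Set.indicator_of_mem (show v ∈ Set.Ici (VV k i) from h), if_pos h]
      push_cast
      ring
    · rw [Set.indicator_of_notMem (show v ∉ Set.Ici (VV k i) from h), if_neg h]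
      simp
  · intro i hi
    rw [Finset.mem_range, not_lt] at hi
    unfold Fi
    refine Set.indicator_of_notMem ?_ _
    intro h
    have h1 : VV k i ≤ v := h
    have h2 := VV_gt hk i
    have h3 := Nat.lt_floor_add_one v
    have h4 : ((⌊v⌋₊ : ℝ) + 1) ≤ i := by exact_mod_cast hi
    linarith

end FFI

open FFI in
theorem ffi : S_FFI := by
  intro hQQ1 hQQ2 hFBI hGADM hGFIN k r hk s hs
  have hk1 : 1 ≤ k := by omega
  obtain ⟨hFB, -⟩ := hFBI hQQ1 hQQ2 k hk1
  obtain ⟨hgm, Cg, hCg⟩ := hGADM k r hk1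
  -- the dominating function
  have hdom : IntegrableOn (fun v : ℝ => Real.exp (-(1 / 4) * v)) (Set.Ioi 0) :=
    exp_neg_integrableOn_Ioi 0 (by norm_num)
  -- integrability
  have hFint : ∀ i, Integrable (Fi k s i) (volume.restrict (Set.Ioi 0)) := by
    intro i
    refine Integrable.mono' (hdom.const_mul (2 * (NN i : ℝ) ^ 2 * Real.exp (-(VV k i / 4))))
      (Fi_meas k s i).aestronglyMeasurable ?_
    filter_upwards [ae_restrict_mem measurableSet_Ioi] with v hv
    exact Fi_bd hk1 hs i hv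
  have hFsum : Summable fun i => ∫ v in Set.Ioi (0 : ℝ), ‖Fi k s i v‖ := by
    refine Summable.of_nonneg_of_le (fun i => integral_nonneg fun v => norm_nonneg _) (fun i => ?_)
      ((summable_geometric_of_lt_one (by norm_num : (0 : ℝ) ≤ 1 / 2) (by norm_num)).mul_left
        (2 * ∫ v in Set.Ioi (0 : ℝ), Real.exp (-(1 / 4) * v)))
    have hK0 : 0 ≤ ∫ v in Set.Ioi (0 : ℝ), Real.exp (-(1 / 4) * v) :=
      integral_nonneg fun v => (Real.exp_pos _).le
    calc ∫ v in Set.Ioi (0 : ℝ), ‖Fi k s i v‖ ≤ ∫ v in Set.Ioi (0 : ℝ),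
          (2 * (NN i : ℝ) ^ 2 * Real.exp (-(VV k i / 4))) * Real.exp (-(1 / 4) * v) := by
          refine setIntegral_mono_on (hFint i).norm (hdom.const_mul _) measurableSet_Ioi ?_
          intro v hv
          exact Fi_bd hk1 hs i hv
      _ = (2 * (NN i : ℝ) ^ 2 * Real.exp (-(VV k i / 4))) *
          ∫ v in Set.Ioi (0 : ℝ), Real.exp (-(1 / 4) * v) := integral_const_mul _ _
      _ ≤ (2 * (1 / 2) ^ i) * ∫ v in Set.Ioi (0 : ℝ), Real.exp (-(1 / 4) * v) :=
          mul_le_mul_of_nonneg_right (coef_bd hk1 i) hK0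
      _ = _ := by ring
  have hHS := hasSum_integral_of_summable_integral_norm hFint hFsum
  -- the integrals of the terms
  have hFi : ∀ i, ∫ v in Set.Ioi (0 : ℝ), Fi k s i v = ∫ v in Set.Ioi (VV k i),
      Complex.exp (-((s - 1) * v)) * ((CC k i v * ph v : ℝ) : ℂ) := by
    intro i
    have hV : 0 < VV k i := by
      have := VV_gt hk1 i
      have := Nat.cast_nonneg (α := ℝ) i
      linarith
    unfold Fi
    rw [setIntegral_indicator measurableSet_Ici]
    have h1 : Set.Ioi (0 : ℝ) ∩ Set.Ici (VV k i) = Set.Ici (VV k i) := by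
      apply Set.inter_eq_right.2
      intro x hx
      exact lt_of_lt_of_le hV hx
    rw [h1, integral_Ici_eq_integral_Ioi]
  -- the product
  have hprod : HasProd (fun i => FB k i s)
      (Complex.exp (-∫ v in Set.Ioi (0 : ℝ), ∑' i, Fi k s i v)) := by
    have h1 := hHS.neg.cexp
    convert h1 using 2 with i
    simp only [Function.comp]
    rw [hFB i s (by linarith), hFi i]
  -- the first factor
  have hQ : QQ 0 (s - 1) = Complex.exp (-∫ v in Set.Ioi (0 : ℝ),
      Complex.exp (-((s - 1) * v)) * (ph v : ℂ)) := by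
    refine hQQ1 hQQ2 0 le_rfl (s - 1) ?_
    rw [Complex.sub_re, Complex.one_re]
    linarith
  have hphint : Integrable (fun v : ℝ => Complex.exp (-((s - 1) * v)) * (ph v : ℂ))
      (volume.restrict (Set.Ioi 0)) := by
    refine Integrable.mono' hdom
      ((E_meas s).mul (Complex.measurable_ofReal.comp ph_meas)).aestronglyMeasurable ?_
    filter_upwards [ae_restrict_mem measurableSet_Ioi] with v hv
    rw [norm_mul, E_norm, Complex.norm_real, Real.norm_eq_abs]
    have h1 : Real.exp (-((s.re - 1) * v)) ≤ Real.exp (-(1 / 4) * v) := by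
      rw [Real.exp_le_exp]
      have : (0 : ℝ) < v := hv
      nlinarith
    calc Real.exp (-((s.re - 1) * v)) * |ph v| ≤ Real.exp (-(1 / 4) * v) * 1 :=
          mul_le_mul h1 (ph_bd hv) (abs_nonneg _) (by positivity)
      _ = _ := mul_one _
  have hggint : Integrable (fun v : ℝ => Complex.exp (-((s - 1) * v)) * (gg k r v : ℂ))
      (volume.restrict (Set.Ioi 0)) := by
    refine Integrable.mono' (hdom.const_mul |Cg|)
      ((E_meas s).mul (Complex.measurable_ofReal.comp hgm)).aestronglyMeasurable ?_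
    filter_upwards [ae_restrict_mem measurableSet_Ioi] with v hv
    have hv0 : (0 : ℝ) < v := hv
    rw [norm_mul, E_norm, Complex.norm_real, Real.norm_eq_abs]
    have h1 : |gg k r v| ≤ |Cg| * Real.exp (v / (4 * k)) :=
      (hCg v hv0.le).trans (mul_le_mul_of_nonneg_right (le_abs_self _) (Real.exp_pos _).le)
    have h2 : v / (4 * k) ≤ v / 16 := by
      have h4 : (4 : ℝ) ≤ k := by exact_mod_cast hk
      apply div_le_div_of_nonneg_left hv0.le (by norm_num)
      linarith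
    have h3 : Real.exp (-((s.re - 1) * v)) * Real.exp (v / (4 * k)) ≤ Real.exp (-(1 / 4) * v) := by
      rw [← Real.exp_add, Real.exp_le_exp]
      nlinarith
    calc Real.exp (-((s.re - 1) * v)) * |gg k r v| ≤
        Real.exp (-((s.re - 1) * v)) * (|Cg| * Real.exp (v / (4 * k))) := by gcongr
      _ = |Cg| * (Real.exp (-((s.re - 1) * v)) * Real.exp (v / (4 * k))) := by ring
      _ ≤ |Cg| * Real.exp (-(1 / 4) * v) := mul_le_mul_of_nonneg_left h3 (abs_nonneg _)
  have hkey : ∫ v in Set.Ioi (0 : ℝ), ∑' i, Fi k s i v =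
      -(r : ℂ) * (∫ v in Set.Ioi (0 : ℝ), Complex.exp (-((s - 1) * v)) * (ph v : ℂ)) -
        ∫ v in Set.Ioi (0 : ℝ), Complex.exp (-((s - 1) * v)) * (gg k r v : ℂ) := by
    rw [← integral_const_mul, ← integral_sub (hphint.const_mul _) hggint]
    refine setIntegral_congr_fun measurableSet_Ioi fun v hv => ?_
    rw [Fi_tsum hk1 s hv]
    unfold gg
    push_cast
    ring
  unfold FF
  rw [hprod.tprod_eq, hQ, ← Complex.exp_nat_mul, ← Complex.exp_add, hkey]
  congr 1
  ring

end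

end H21RHB
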