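import Pool.Agent.H21.RHB.Stm

set_option autoImplicit false

namespace H21RHB.FIN

open Real Finset MeasureTheory Filter Topology H21RHB

lemma NN_ge (i : ℕ) : 2 ^ i ≤ NN i := by
  unfold NN
  apply Nat.pow_le_pow_right (by norm_num)
  have h1 : i ≤ (i + 1) ^ 2 + 3 := by nlinarith
  have h2 : (i + 1) ^ 2 + 3 < 2 ^ ((i + 1) ^ 2 + 3) := Nat.lt_two_pow_self
  omega

lemma UU_ge (k i : ℕ) (hk : 1 ≤ k) : (i : ℝ) ≤ UU k i := by
  unfold UU
  have h1 : (i : ℝ) * Real.log 2 ≤ Real.log (NN i) := by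
    have h2 : ((2 : ℝ)) ^ i ≤ (NN i : ℝ) := by exact_mod_cast NN_ge i
    have h3 := Real.log_le_log (by positivity) h2
    rwa [Real.log_pow] at h3
  have h4 : (0.6931471803 : ℝ) < Real.log 2 := Real.log_two_gt_d9
  have hk' : (1 : ℝ) ≤ k := by exact_mod_cast hk
  have hi : (0 : ℝ) ≤ i := Nat.cast_nonneg i
  have h5 : 0 ≤ Real.log (NN i) := le_trans (by positivity) h1
  have h6 : (i : ℝ) ≤ 32 * Real.log (NN i) := by nlinarith
  nlinarith

/-- the scale: J = NN i ^ 16 -/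
lemma ww_eq (k i : ℕ) : ww k (NN i ^ 16) = UU k i := by
  unfold ww UU
  push_cast
  rw [Real.log_pow]
  push_cast
  ring

lemma log_x (k i : ℕ) : Real.log (((NN i ^ 16) ^ (2 * k) : ℕ) : ℝ) = UU k i := by
  unfold UU
  push_cast
  rw [Real.log_pow, Real.log_pow]
  push_cast
  ring

lemma NN_pos (i : ℕ) : 0 < NN i := by unfold NN; positivity

lemma two_le_NN (i : ℕ) : 2 ≤ NN i ^ 16 := by
  have h1 : 2 ≤ NN i := by
    unfold NN
    calc 2 = 2 ^ 1 := by norm_num
      _ ≤ _ := Nat.pow_le_pow_right (by norm_num) Nat.one_le_two_pow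
  calc 2 ≤ NN i := h1
    _ = NN i ^ 1 := (pow_one _).symm
    _ ≤ NN i ^ 16 := Nat.pow_le_pow_right (NN_pos i) (by norm_num)

lemma x_ge (k i : ℕ) (hk : 1 ≤ k) : i ≤ (NN i ^ 16) ^ (2 * k) := by
  have h1 : i < 2 ^ i := Nat.lt_two_pow_self
  have h2 := NN_ge i
  have h3 : NN i ≤ NN i ^ 16 := by
    calc NN i = NN i ^ 1 := (pow_one _).symm
      _ ≤ NN i ^ 16 := Nat.pow_le_pow_right (NN_pos i) (by norm_num)
  have h4 : NN i ^ 16 ≤ (NN i ^ 16) ^ (2 * k) := by
    calc NN i ^ 16 = (NN i ^ 16) ^ 1 := (pow_one _).symm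
      _ ≤ _ := Nat.pow_le_pow_right (by have := two_le_NN i; omega) (by omega)
  omega

theorem main : S_FIN := by
  intro k hk hgood hadm hhol hprod hpart hgrow hffh hffi r
  have hk1 : 1 ≤ k := by omega
  have hkR : (4 : ℝ) ≤ k := by exact_mod_cast hk
  obtain ⟨a, ha⟩ := hgood r
  obtain ⟨hF1, hF2, hF3⟩ := hffh r
  have hsub : {s : ℂ | 1 - 1 / (32 * (k : ℝ)) < s.re} ⊆ {s : ℂ | 1 - 1 / (8 * (k : ℝ)) < s.re} := by
    intro s hs
    simp only [Set.mem_ofPred_eq] at hs ⊢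
    have : 1 / (32 * (k : ℝ)) ≤ 1 / (8 * (k : ℝ)) := by
      apply one_div_le_one_div_of_le (by positivity)
      nlinarith
    linarith
  have hH : DifferentiableOn ℂ (HH k (gg k r) a) {s | 1 - 1 / (32 * (k : ℝ)) < s.re} :=
    (hhol (gg k r) a (hadm r) ha).mono hsub
  have hopen : IsOpen {s : ℂ | 1 - 1 / (32 * (k : ℝ)) < s.re} :=
    isOpen_lt continuous_const Complex.continuous_re
  have hmem1 : (1 : ℂ) ∈ {s : ℂ | 1 - 1 / (32 * (k : ℝ)) < s.re} := by
    simp only [Set.mem_ofPred_eq, Complex.one_re]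
    have : 0 < 1 / (32 * (k : ℝ)) := by positivity
    linarith
  obtain ⟨B, hB⟩ := hpart (gg k r) a (hadm r) ha
  obtain ⟨i₀, hi₀⟩ := hgrow r
  refine ⟨a, fun s => FF k r s * Complex.exp (HH k (gg k r) a s), HH k (gg k r) a, ha.hasse, ha.st,
    ?_, ?_, hH, fun s => rfl, ?_, ?_, ?_, ?_⟩
  · intro s hs
    have h1 := hprod (gg k r) a (hadm r) ha s hs
    rw [Complex.exp_add, ← hffi r s hs] at h1
    exact h1
  · exact hF1.mul hH.cexp
  · intro s hs h0
    have h0' : FF k r s = 0 := by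
      rcases mul_eq_zero.mp h0 with h | h
      · exact h
      · exact absurd h (Complex.exp_ne_zero _)
    rcases (hF2 s hs).mp h0' with ⟨h, _⟩ | ⟨i, m, _, h | h⟩
    · rw [h]; simp
    · rw [h]; simp
    · rw [h]; simp
  · have hA1 : AnalyticAt ℂ (FF k r) 1 := hF1.analyticAt (hopen.mem_nhds hmem1)
    have hA2 : AnalyticAt ℂ (fun s => Complex.exp (HH k (gg k r) a s)) 1 :=
      hH.cexp.analyticAt (hopen.mem_nhds hmem1)
    have h2 : analyticOrderAt (fun s => Complex.exp (HH k (gg k r) a s)) 1 = 0 :=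
      (hA2.analyticOrderAt_eq_zero).mpr (Complex.exp_ne_zero _)
    have h3 : (fun s => FF k r s * Complex.exp (HH k (gg k r) a s)) =
        FF k r * (fun s => Complex.exp (HH k (gg k r) a s)) := rfl
    rw [h3, analyticOrderAt_mul hA1 hA2, h2, hF3, add_zero]
  · intro X
    -- even i large
    obtain ⟨n, hn⟩ := exists_nat_ge (400 * (k : ℝ) * |B|)
    set i := 2 * (i₀ + X + n) with hi
    have hi1 : i₀ ≤ i := by omega
    have heven : Even i := ⟨i₀ + X + n, by omega⟩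
    obtain ⟨hp, hl⟩ := hB (NN i ^ 16) (two_le_NN i)
    rw [ww_eq] at hl
    have hg := (hi₀ i hi1).1 heven
    refine ⟨(NN i ^ 16) ^ (2 * k), le_trans (by omega) (x_ge k i hk1), ?_⟩
    have hxpos : (0 : ℝ) < (((NN i ^ 16) ^ (2 * k) : ℕ) : ℝ) := by
      have := NN_pos i
      positivity
    rw [Real.rpow_def_of_pos hxpos, log_x]
    rw [← Real.exp_log hp]
    apply Real.exp_le_exp.mpr
    have hU : (i : ℝ) ≤ UU k i := UU_ge k i hk1
    have hiB : 400 * (k : ℝ) * |B| ≤ UU k i := by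
      have : (n : ℝ) ≤ i := by exact_mod_cast (by omega : n ≤ i)
      linarith
    have h1 := (abs_le.mp hl).1
    have h2 : B ≤ |B| := le_abs_self B
    have h3 : |B| ≤ UU k i * (1 / (400 * (k : ℝ))) := by
      rw [mul_one_div, le_div_iff₀ (by positivity)]
      linarith
    have h4 : (1 / (200 * (k : ℝ))) * UU k i = 2 * (UU k i * (1 / (400 * (k : ℝ)))) := by
      field_simp
      ring
    linarith
  · intro X
    obtain ⟨n, hn⟩ := exists_nat_ge (400 * (k : ℝ) * |B|)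
    set i := 2 * (i₀ + X + n) + 1 with hi
    have hi1 : i₀ ≤ i := by omega
    have hodd : ¬ Even i := by
      rw [Nat.not_even_iff_odd]
      exact ⟨i₀ + X + n, by omega⟩
    obtain ⟨hp, hl⟩ := hB (NN i ^ 16) (two_le_NN i)
    rw [ww_eq] at hl
    have hg := (hi₀ i hi1).2 hodd
    refine ⟨(NN i ^ 16) ^ (2 * k), le_trans (by omega) (x_ge k i hk1), ?_⟩
    have hxpos : (0 : ℝ) < (((NN i ^ 16) ^ (2 * k) : ℕ) : ℝ) := by
      have := NN_pos i
      positivity
    rw [Real.rpow_def_of_pos hxpos, log_x]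
    rw [← Real.exp_log hp]
    apply Real.exp_le_exp.mpr
    have hU : (i : ℝ) ≤ UU k i := UU_ge k i hk1
    have hiB : 400 * (k : ℝ) * |B| ≤ UU k i := by
      have : (n : ℝ) ≤ i := by exact_mod_cast (by omega : n ≤ i)
      linarith
    have h1 := (abs_le.mp hl).2
    have h2 : B ≤ |B| := le_abs_self B
    have h3 : |B| ≤ UU k i * (1 / (400 * (k : ℝ))) := by
      rw [mul_one_div, le_div_iff₀ (by positivity)]
      linarith
    have h4 : (1 / (200 * (k : ℝ))) * UU k i = 2 * (UU k i * (1 / (400 * (k : ℝ)))) := by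
      field_simp
      ring
    have h5 : UU k i * (-(1 / (400 * (k : ℝ)))) = -(UU k i * (1 / (400 * (k : ℝ)))) := by ring
    rw [h5]
    linarith

end H21RHB.FIN

theorem H21RHB.fin : H21RHB.S_FIN := H21RHB.FIN.main
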