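import Pool.Agent.H21.RHB.Stm

/-! RHB-FO -/

set_option autoImplicit false

namespace H21RHB

open Real Finset MeasureTheory Filter Topology

theorem fo : S_FO := by
  classical
  intro hL hC k C₀ hk
  obtain ⟨C₁, hC₁, hcard⟩ := hC k (by omega)
  refine ⟨2 * C₁ + |C₀| * C₁ + 1, by positivity, fun j hj m b c hb hc s hs => ?_⟩
  obtain ⟨hlen, -, -, -, -, -⟩ := hcard j hj
  have hj1 : (1 : ℝ) ≤ j := by exact_mod_cast hj
  have hj0 : (0 : ℝ) < j := by linarith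
  have hk1 : (4 : ℝ) ≤ k := by exact_mod_cast hk
  set Y : ℝ := (j : ℝ) ^ (2 * k) with hY
  have hY0 : 0 < Y := by positivity
  have hYe : ∀ e : ℝ, Y ^ e = (j : ℝ) ^ (2 * (k : ℝ) * e) := by
    intro e
    rw [hY, ← Real.rpow_natCast, ← Real.rpow_mul hj0.le]
    push_cast
    rfl
  have hpk : (j : ℝ) ^ k = (j : ℝ) ^ (k : ℝ) := (Real.rpow_natCast _ _).symm
  have hpk1 : (j : ℝ) ^ (2 * k - 1) = (j : ℝ) ^ (2 * (k : ℝ) - 1) := by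
    rw [← Real.rpow_natCast, Nat.cast_sub (by omega)]
    push_cast
    rfl
  have hYC : (((j ^ (2 * k) : ℕ) : ℂ)) = ((Y : ℝ) : ℂ) := by
    rw [hY]
    push_cast
    rfl
  have hmemb : ∀ p ∈ blk k j, Y ≤ (p : ℝ) ∧ (p : ℝ) - Y ≤ ((j : ℝ) + 1) ^ (2 * k) - (j : ℝ) ^ (2 * k) := by
    intro p hp
    unfold blk at hp
    rw [Finset.mem_filter, Finset.mem_Ioc] at hp
    have h1 : ((j ^ (2 * k) : ℕ) : ℝ) ≤ p := by exact_mod_cast hp.1.1.le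
    have h2 : (p : ℝ) ≤ (((j + 1) ^ (2 * k) : ℕ) : ℝ) := by exact_mod_cast hp.1.2
    push_cast at h1 h2
    exact ⟨h1, by rw [hY]; linarith⟩
  have hs0 : 0 ≤ s.re := by linarith
  -- Lipschitz bound
  have hlip : ∀ (u v : ℝ), Y ≤ u → u ≤ v → ‖((v : ℂ)) ^ (-s) - ((u : ℂ)) ^ (-s)‖ ≤
      ‖s‖ * Y ^ (-s.re - 1) * (v - u) := by
    intro u v hu huv
    refine (hL s v u (by linarith) huv hs0).trans ?_
    refine mul_le_mul_of_nonneg_right ?_ (by linarith)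
    exact mul_le_mul_of_nonneg_left (Real.rpow_le_rpow_of_nonpos hY0 hu (by linarith)) (norm_nonneg s)
  set E : ℝ := (j : ℝ) ^ (2 * k * (1 - s.re) - 3 / 2) with hE
  have hE0 : 0 < E := Real.rpow_pos_of_pos hj0 _
  -- first term
  have t1 : ‖∑ p ∈ blk k j, (b p : ℂ) * (p : ℂ) ^ (-s)‖ ≤ 2 * C₁ * ‖s‖ * E := by
    have h1 := hb.pair (fun p => (p : ℂ) ^ (-s)) (‖s‖ * Y ^ (-s.re - 1)) (by positivity) (by
      intro p hp q hq hpq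
      rw [norm_sub_rev]
      have := hlip p q (hmemb p hp).1 (by exact_mod_cast hpq)
      simpa using this)
    refine h1.trans ?_
    have h2 : 2 * (j : ℝ) ^ k * (‖s‖ * Y ^ (-s.re - 1)) *
        (((j : ℝ) + 1) ^ (2 * k) - (j : ℝ) ^ (2 * k)) ≤
        2 * (j : ℝ) ^ k * (‖s‖ * Y ^ (-s.re - 1)) * (C₁ * (j : ℝ) ^ (2 * k - 1)) :=
      mul_le_mul_of_nonneg_left hlen (by positivity)
    refine h2.trans ?_
    rw [hpk, hpk1, hYe]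
    have h3 : 2 * (j : ℝ) ^ (k : ℝ) * (‖s‖ * (j : ℝ) ^ (2 * (k : ℝ) * (-s.re - 1))) *
        (C₁ * (j : ℝ) ^ (2 * (k : ℝ) - 1)) = 2 * C₁ * ‖s‖ * ((j : ℝ) ^ (k : ℝ) *
        (j : ℝ) ^ (2 * (k : ℝ) * (-s.re - 1)) * (j : ℝ) ^ (2 * (k : ℝ) - 1)) := by ring
    rw [h3]
    refine mul_le_mul_of_nonneg_left ?_ (by positivity)
    rw [← Real.rpow_add hj0, ← Real.rpow_add hj0, hE]
    refine Real.rpow_le_rpow_of_exponent_le hj1 ?_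
    nlinarith
  -- second term
  have t2 : ‖∑ p ∈ blk k j, (c p : ℂ) * ((p : ℂ) ^ (-s) - ((Y : ℝ) : ℂ) ^ (-s))‖ ≤
      |C₀| * C₁ * ‖s‖ * E := by
    have h1 : ‖∑ p ∈ blk k j, (c p : ℂ) * ((p : ℂ) ^ (-s) - ((Y : ℝ) : ℂ) ^ (-s))‖ ≤
        ∑ p ∈ blk k j, |(c p : ℝ)| * (‖s‖ * Y ^ (-s.re - 1) * (C₁ * (j : ℝ) ^ (2 * k - 1))) := by
      refine (norm_sum_le _ _).trans (Finset.sum_le_sum fun p hp => ?_)
      rw [norm_mul, Complex.norm_intCast]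
      refine mul_le_mul_of_nonneg_left ?_ (abs_nonneg _)
      have h2 := hlip Y p le_rfl (hmemb p hp).1
      have h3 : ((p : ℝ) : ℂ) = (p : ℂ) := by push_cast; rfl
      rw [h3] at h2
      refine h2.trans (mul_le_mul_of_nonneg_left ?_ (by positivity))
      exact (hmemb p hp).2.trans hlen
    refine h1.trans ?_
    rw [← Finset.sum_mul]
    have h4 : ∑ p ∈ blk k j, |(c p : ℝ)| ≤ |C₀| * (j : ℝ) ^ (2 * k - 1 / 2 : ℝ) :=
      hc.tot.trans (mul_le_mul_of_nonneg_right (le_abs_self _) (by positivity))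
    refine (mul_le_mul_of_nonneg_right h4 (by positivity)).trans ?_
    rw [hpk1, hYe]
    have h3 : |C₀| * (j : ℝ) ^ (2 * k - 1 / 2 : ℝ) * (‖s‖ * (j : ℝ) ^ (2 * (k : ℝ) * (-s.re - 1)) *
        (C₁ * (j : ℝ) ^ (2 * (k : ℝ) - 1))) = |C₀| * C₁ * ‖s‖ * ((j : ℝ) ^ (2 * k - 1 / 2 : ℝ) *
        (j : ℝ) ^ (2 * (k : ℝ) * (-s.re - 1)) * (j : ℝ) ^ (2 * (k : ℝ) - 1)) := by ring
    rw [h3]
    refine mul_le_mul_of_nonneg_left ?_ (by positivity)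
    rw [← Real.rpow_add hj0, ← Real.rpow_add hj0, hE]
    refine Real.rpow_le_rpow_of_exponent_le hj1 ?_
    nlinarith
  -- third term
  have t3 : ‖(((∑ p ∈ blk k j, (c p : ℝ)) - m : ℝ) : ℂ) * ((Y : ℝ) : ℂ) ^ (-s)‖ ≤ E := by
    rw [norm_mul, Complex.norm_real, Complex.norm_cpow_eq_rpow_re_of_pos hY0, Complex.neg_re, hYe]
    have h5 : ‖(∑ p ∈ blk k j, (c p : ℝ)) - m‖ ≤ 1 := hc.sum
    calc ‖(∑ p ∈ blk k j, (c p : ℝ)) - m‖ * (j : ℝ) ^ (2 * (k : ℝ) * -s.re)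
        ≤ 1 * (j : ℝ) ^ (2 * (k : ℝ) * -s.re) := mul_le_mul_of_nonneg_right h5 (by positivity)
      _ = (j : ℝ) ^ (2 * (k : ℝ) * -s.re) := one_mul _
      _ ≤ E := by
        rw [hE]
        refine Real.rpow_le_rpow_of_exponent_le hj1 ?_
        nlinarith
  have hsplit : ∑ p ∈ blk k j, (((fun p => b p + c p) p : ℤ) : ℂ) * (p : ℂ) ^ (-s) -
      (m : ℂ) * ((j ^ (2 * k) : ℕ) : ℂ) ^ (-s) =
      (∑ p ∈ blk k j, (b p : ℂ) * (p : ℂ) ^ (-s)) +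
      (∑ p ∈ blk k j, (c p : ℂ) * ((p : ℂ) ^ (-s) - ((Y : ℝ) : ℂ) ^ (-s))) +
      (((∑ p ∈ blk k j, (c p : ℝ)) - m : ℝ) : ℂ) * ((Y : ℝ) : ℂ) ^ (-s) := by
    rw [hYC]
    push_cast
    simp only [add_mul, mul_sub, Finset.sum_add_distrib, Finset.sum_sub_distrib, ← Finset.sum_mul,
      sub_mul]
    ring
  rw [hsplit]
  refine (norm_add₃_le).trans ?_
  have hn : 0 ≤ ‖s‖ := norm_nonneg s
  have h6 : 2 * C₁ * ‖s‖ * E + |C₀| * C₁ * ‖s‖ * E + E ≤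
      (2 * C₁ + |C₀| * C₁ + 1) * (1 + ‖s‖) * E := by
    have h7 : 0 ≤ |C₀| * C₁ := by positivity
    have h8 : 0 ≤ (2 * C₁ + |C₀| * C₁) * E := by positivity
    have h9 : 0 ≤ ‖s‖ * E := by positivity
    nlinarith
  linarith

end H21RHB
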