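import Pool.Agent.H21.RHB.Stm

set_option autoImplicit false

namespace H21RHB

open Real Finset MeasureTheory Filter Topology

/-- final statement (without the growth clauses changed) -/
def Main2 : Prop := ∃ δ c : ℝ, 0 < δ ∧ 0 < c ∧ ∀ r : ℕ, ∃ (a : ℕ → ℤ) (L : ℂ → ℂ),
  (∀ p : ℕ, p.Prime → |(a p : ℝ)| ≤ 2 * √p) ∧ SatoTate a ∧
  (∀ s : ℂ, 3 / 2 < s.re → HasProd (fun p : Nat.Primes => (eul a (p : ℕ) s)⁻¹) (L s)) ∧
  DifferentiableOn ℂ L {s | 1 - δ < s.re} ∧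
  (∀ s : ℂ, 1 - δ < s.re → L s = 0 → s.re = 1) ∧ analyticOrderAt L 1 = r ∧
  (∀ s : ℂ, 1 - δ < s.re → L s = 0 → s ≠ 1 → deriv L s ≠ 0) ∧
  (∃ C : ℝ, ∀ T : ℝ, 2 ≤ T → {s : ℂ | 1 - δ < s.re ∧ L s = 0 ∧ |s.im| ≤ T}.Finite ∧
    ({s : ℂ | 1 - δ < s.re ∧ L s = 0 ∧ |s.im| ≤ T}.ncard : ℝ) ≤ C * T * Real.log T) ∧
  (∀ X : ℕ, ∃ x : ℕ, X ≤ x ∧ (x : ℝ) ^ c ≤ PP a x) ∧
  (∀ X : ℕ, ∃ x : ℕ, X ≤ x ∧ PP a x ≤ (x : ℝ) ^ (-c))

theorem gam_pos (k i m : ℕ) (hk : 1 ≤ k) : 0 < gam k i m := by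
  unfold gam UU
  have h1 : (1:ℝ) < (NN i : ℝ) := by
    unfold NN
    have : 1 < 2 ^ (2 ^ ((i + 1) ^ 2 + 3)) := Nat.one_lt_pow (by positivity) (by norm_num)
    exact_mod_cast this
  have h2 := Real.log_pos h1
  have h3 : (0:ℝ) < k := by exact_mod_cast hk
  have h4 : 0 < phase i := by unfold phase; split_ifs <;> norm_num
  have h5 : (0:ℝ) ≤ m := by positivity
  have := Real.pi_pos
  positivity

theorem fin2 (k : ℕ) (hk : 4 ≤ k) (hM : MainK k)
    (hF : ∀ r : ℕ, DifferentiableOn ℂ (FF k r) {s | 1 - 1 / (32 * (k : ℝ)) < s.re} ∧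
    (∀ s : ℂ, 1 - 1 / (32 * (k : ℝ)) < s.re → (FF k r s = 0 ↔
      (s = 1 ∧ r ≠ 0) ∨ ∃ i : ℕ, ∃ m ∈ ms i, s = 1 + Complex.I * gam k i m ∨
        s = 1 - Complex.I * gam k i m)) ∧
    analyticOrderAt (FF k r) 1 = r)
    (hS : ∀ (r : ℕ) (s : ℂ), 1 - 1 / (32 * (k : ℝ)) < s.re → FF k r s = 0 → s ≠ 1 →
      deriv (FF k r) s ≠ 0)
    (hZ : ∃ C : ℝ, ∀ T : ℝ, 2 ≤ T →
      {q : ℕ × ℕ | q.2 ∈ ms q.1 ∧ gam k q.1 q.2 ≤ T}.Finite ∧
      (({q : ℕ × ℕ | q.2 ∈ ms q.1 ∧ gam k q.1 q.2 ≤ T}.ncard : ℝ)) ≤ C * T * Real.log T) :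
    Main2 := by
  have hk0 : (0:ℝ) < k := by exact_mod_cast (by omega : 0 < k)
  refine ⟨1 / (32 * (k : ℝ)), 1 / (400 * (k : ℝ)), by positivity, by positivity, ?_⟩
  intro r
  obtain ⟨a, L, H, h1, h2, h3, h4, h5, h6, h7, h8, h9, h10⟩ := hM r
  obtain ⟨f1, f2, f3⟩ := hF r
  have hL0 : ∀ s, L s = 0 → FF k r s = 0 := by
    intro s hs
    rw [h6 s] at hs
    rcases mul_eq_zero.mp hs with h | h
    · exact h
    · exact absurd h (Complex.exp_ne_zero _)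
  have hopen : IsOpen {s : ℂ | 1 - 1 / (32 * (k : ℝ)) < s.re} :=
    isOpen_lt continuous_const Complex.continuous_re
  refine ⟨a, L, h1, h2, h3, h4, h7, h8, ?_, ?_, h9, h10⟩
  · intro s hs hs0 hs1
    have hF0 := hL0 s hs0
    have hd := hS r s hs hF0 hs1
    have hLe : L = fun s => FF k r s * Complex.exp (H s) := funext h6
    have e1 : DifferentiableAt ℂ (FF k r) s := f1.differentiableAt (hopen.mem_nhds hs)
    have e2 : DifferentiableAt ℂ H s := h5.differentiableAt (hopen.mem_nhds hs)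
    have e3 : deriv L s = deriv (FF k r) s * Complex.exp (H s) +
        FF k r s * (Complex.exp (H s) * deriv H s) := by
      rw [hLe]
      exact (e1.hasDerivAt.mul (e2.hasDerivAt.cexp)).deriv
    rw [e3, hF0, zero_mul, add_zero]
    exact mul_ne_zero hd (Complex.exp_ne_zero _)
  · obtain ⟨C, hC⟩ := hZ
    refine ⟨1 + 2 * |C|, ?_⟩
    intro T hT
    obtain ⟨hfin, hcard⟩ := hC T hT
    set S := {q : ℕ × ℕ | q.2 ∈ ms q.1 ∧ gam k q.1 q.2 ≤ T} with hSdef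
    set Z := {s : ℂ | 1 - 1 / (32 * (k : ℝ)) < s.re ∧ L s = 0 ∧ |s.im| ≤ T} with hZdef
    have hsub : Z ⊆ ({1} ∪ (fun q : ℕ × ℕ => (1 : ℂ) + Complex.I * gam k q.1 q.2) '' S) ∪
        (fun q : ℕ × ℕ => (1 : ℂ) - Complex.I * gam k q.1 q.2) '' S := by
      rintro s ⟨hs1, hs2, hs3⟩
      rcases (f2 s hs1).mp (hL0 s hs2) with ⟨h, _⟩ | ⟨i, m, hm, h | h⟩
      · left; left; exact h
      · left; right
        refine ⟨(i, m), ⟨hm, ?_⟩, h.symm⟩
        have : s.im = gam k i m := by rw [h]; simp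
        rw [this] at hs3
        exact le_trans (le_abs_self _) hs3
      · right
        refine ⟨(i, m), ⟨hm, ?_⟩, h.symm⟩
        have : s.im = -gam k i m := by rw [h]; simp
        rw [this, abs_neg] at hs3
        exact le_trans (le_abs_self _) hs3
    have hfin2 : (({1} ∪ (fun q : ℕ × ℕ => (1 : ℂ) + Complex.I * gam k q.1 q.2) '' S) ∪
        (fun q : ℕ × ℕ => (1 : ℂ) - Complex.I * gam k q.1 q.2) '' S : Set ℂ).Finite :=
      ((Set.finite_singleton _).union (hfin.image _)).union (hfin.image _)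
    refine ⟨hfin2.subset hsub, ?_⟩
    have c1 : Z.ncard ≤ 1 + S.ncard + S.ncard := by
      calc Z.ncard ≤ _ := Set.ncard_le_ncard hsub hfin2
        _ ≤ ({1} ∪ (fun q : ℕ × ℕ => (1 : ℂ) + Complex.I * gam k q.1 q.2) '' S : Set ℂ).ncard +
            ((fun q : ℕ × ℕ => (1 : ℂ) - Complex.I * gam k q.1 q.2) '' S).ncard :=
          Set.ncard_union_le _ _
        _ ≤ (1 + S.ncard) + S.ncard := by
          gcongr
          · refine le_trans (Set.ncard_union_le _ _) ?_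
            rw [Set.ncard_singleton]
            gcongr
            exact Set.ncard_image_le hfin
          · exact Set.ncard_image_le hfin
    have c2 : (Z.ncard : ℝ) ≤ 1 + 2 * (C * T * Real.log T) := by
      have : (Z.ncard : ℝ) ≤ 1 + S.ncard + S.ncard := by exact_mod_cast c1
      linarith
    have hlog2 : 0.69 < Real.log 2 := by linarith [Real.log_two_gt_d9]
    have hlogT : Real.log 2 ≤ Real.log T := Real.log_le_log (by norm_num) hT
    have hTl : 1 ≤ T * Real.log T := by nlinarith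
    have hCa : C * T * Real.log T ≤ |C| * (T * Real.log T) := by
      have := mul_le_mul_of_nonneg_right (le_abs_self C) (by linarith : (0:ℝ) ≤ T * Real.log T)
      linarith [this, mul_assoc C T (Real.log T)]
    calc (Z.ncard : ℝ) ≤ 1 + 2 * (C * T * Real.log T) := c2
      _ ≤ T * Real.log T + 2 * (|C| * (T * Real.log T)) := by linarith
      _ = (1 + 2 * |C|) * T * Real.log T := by ring

end H21RHB
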