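import Pool.Agent.H21.RHB.Stm

/-! RHB-GADM (helper33): the density `gg k r` is admissible. -/

set_option autoImplicit false

namespace H21RHB

open Real Finset MeasureTheory Filter Topology

namespace GADM

lemma ph_abs_le {v : ℝ} (hv : 0 ≤ v) : |ph v| ≤ 1 := by
  unfold ph
  rcases hv.eq_or_lt with h | h
  · rw [← h]; simp
  · have h1 : 1 - v ≤ Real.exp (-v) := by
      have := Real.add_one_le_exp (-v)
      linarith
    have h2 : Real.exp (-v) ≤ 1 := Real.exp_le_one_iff.2 (by linarith)
    rw [abs_of_nonneg (div_nonneg (by linarith) hv), div_le_one h]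
    linarith

lemma CC_abs_le (k i : ℕ) (v : ℝ) : |CC k i v| ≤ 2 * (NN i : ℝ) ^ 2 := by
  unfold CC
  refine (Finset.abs_sum_le_sum_abs _ _).trans ?_
  calc ∑ m ∈ ms i, |2 * Real.cos (gam k i m * v)| ≤ ∑ _m ∈ ms i, (2 : ℝ) := by
        refine Finset.sum_le_sum fun m _ => ?_
        rw [abs_mul, abs_of_pos (by norm_num : (0 : ℝ) < 2)]
        have := Real.abs_cos_le_one (gam k i m * v)
        linarith
    _ = 2 * ((ms i).card : ℝ) := by
        rw [Finset.sum_const, nsmul_eq_mul, mul_comm]
    _ ≤ 2 * (NN i : ℝ) ^ 2 := by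
        have h : (ms i).card ≤ NN i ^ 2 := by
          unfold ms
          rw [Nat.card_Ico]
          exact Nat.sub_le _ _
        have h' : ((ms i).card : ℝ) ≤ (NN i : ℝ) ^ 2 := by exact_mod_cast h
        linarith

lemma NN_pos (i : ℕ) : 0 < NN i := by
  unfold NN; positivity

lemma NN_sq_le {k i : ℕ} {v : ℝ} (hk : 1 ≤ k) (h : VV k i ≤ v) :
    (NN i : ℝ) ^ 2 ≤ Real.exp (v / (8 * k)) := by
  have hN : (0 : ℝ) < NN i := by exact_mod_cast NN_pos i
  have hk' : (0 : ℝ) < k := by exact_mod_cast hk
  rw [← Real.exp_log (pow_pos hN 2), Real.exp_le_exp, Real.log_pow, le_div_iff₀ (by positivity)]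
  unfold VV at h
  push_cast
  linarith

lemma meas_sum (F : ℕ → ℝ → ℝ) (hF : ∀ i, Measurable (F i)) :
    Measurable (fun v : ℝ => ∑ i ∈ Finset.range (⌊v⌋₊ + 1), F i v) := by
  have h1 : Measurable (fun q : ℕ × ℝ => ∑ i ∈ Finset.range (q.1 + 1), F i q.2) := by
    apply measurable_from_prod_countable_right
    intro n
    exact Finset.measurable_fun_sum (Finset.range (n + 1)) fun i _ => hF i
  exact h1.comp (Nat.measurable_floor.prodMk measurable_id)

end GADM

open GADM in
theorem gadm : S_GADM := by
  intro k r hk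
  have hk' : (1 : ℝ) ≤ k := by exact_mod_cast hk
  refine ⟨?_, (r : ℝ) + 16 * k, ?_⟩
  · have hph : Measurable ph := by
      unfold ph
      fun_prop
    have hF : ∀ i, Measurable (fun v : ℝ => if VV k i ≤ v then CC k i v else 0) := by
      intro i
      refine Measurable.ite measurableSet_Ici ?_ measurable_const
      unfold CC
      fun_prop
    have h := meas_sum _ hF
    unfold gg
    exact hph.neg.mul (measurable_const.add h)
  · intro v hv
    have hE : 1 ≤ Real.exp (v / (8 * k)) := Real.one_le_exp (by positivity)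
    have hE2 : Real.exp (v / (8 * k)) * Real.exp (v / (8 * k)) = Real.exp (v / (4 * k)) := by
      rw [← Real.exp_add]
      congr 1
      field_simp
      ring
    have h1 : |∑ i ∈ Finset.range (⌊v⌋₊ + 1), (if VV k i ≤ v then CC k i v else 0)| ≤
        (v + 1) * (2 * Real.exp (v / (8 * k))) := by
      refine (Finset.abs_sum_le_sum_abs _ _).trans ?_
      calc ∑ i ∈ Finset.range (⌊v⌋₊ + 1), |if VV k i ≤ v then CC k i v else 0|
          ≤ ∑ _i ∈ Finset.range (⌊v⌋₊ + 1), 2 * Real.exp (v / (8 * k)) := by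
            refine Finset.sum_le_sum fun i _ => ?_
            split_ifs with h
            · exact (CC_abs_le k i v).trans (by linarith [NN_sq_le hk h])
            · rw [abs_zero]; positivity
        _ = ((⌊v⌋₊ : ℝ) + 1) * (2 * Real.exp (v / (8 * k))) := by
            rw [Finset.sum_const, Finset.card_range, nsmul_eq_mul]
            push_cast
            rfl
        _ ≤ (v + 1) * (2 * Real.exp (v / (8 * k))) := by
            have := Nat.floor_le hv
            gcongr
    have h2 : v + 1 ≤ 8 * k * Real.exp (v / (8 * k)) := by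
      have h3 := Real.add_one_le_exp (v / (8 * k))
      have h4 : 8 * (k : ℝ) * (v / (8 * k) + 1) = v + 8 * k := by
        field_simp
      have h5 : 8 * (k : ℝ) * (v / (8 * k) + 1) ≤ 8 * k * Real.exp (v / (8 * k)) := by
        gcongr
      linarith
    have h6 : (v + 1) * (2 * Real.exp (v / (8 * k))) ≤ 16 * k * Real.exp (v / (4 * k)) := by
      calc (v + 1) * (2 * Real.exp (v / (8 * k)))
          ≤ (8 * k * Real.exp (v / (8 * k))) * (2 * Real.exp (v / (8 * k))) := by gcongr
        _ = 16 * k * (Real.exp (v / (8 * k)) * Real.exp (v / (8 * k))) := by ring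
        _ = _ := by rw [hE2]
    unfold gg
    rw [abs_mul, abs_neg]
    have hr : (0 : ℝ) ≤ r := Nat.cast_nonneg r
    have hE4 : 1 ≤ Real.exp (v / (4 * k)) := Real.one_le_exp (by positivity)
    calc |ph v| * |(r : ℝ) + ∑ i ∈ Finset.range (⌊v⌋₊ + 1), (if VV k i ≤ v then CC k i v else 0)|
        ≤ 1 * (r + 16 * k * Real.exp (v / (4 * k))) := by
          refine mul_le_mul (ph_abs_le hv) ?_ (abs_nonneg _) zero_le_one
          refine (abs_add_le _ _).trans ?_
          rw [abs_of_nonneg hr]
          linarith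
      _ ≤ ((r : ℝ) + 16 * k) * Real.exp (v / (4 * k)) := by
          nlinarith

end H21RHB
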