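import Pool.Agent.H21.RHB.Stm

set_option autoImplicit false

namespace H21RHB

open Real Finset MeasureTheory Filter Topology

namespace GFIN

/-- the scales grow fast -/
theorem VV_gt (k i : ℕ) (hk : 1 ≤ k) : (i : ℝ) < VV k i := by
  have h1 : i < 2 ^ ((i + 1) ^ 2 + 3) := by
    calc i < 2 ^ i := Nat.lt_two_pow_self
      _ ≤ 2 ^ ((i + 1) ^ 2 + 3) := Nat.pow_le_pow_right (by norm_num) (by nlinarith)
  have h2 : (i : ℝ) < 2 ^ ((i + 1) ^ 2 + 3) := by exact_mod_cast h1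
  have h3 : Real.log (NN i) = 2 ^ ((i + 1) ^ 2 + 3) * Real.log 2 := by
    unfold NN
    push_cast
    rw [Real.log_pow]
    push_cast
    rfl
  have h4 : (1 : ℝ) / 2 < Real.log 2 := by
    have := Real.log_two_gt_d9
    linarith
  have hk' : (1 : ℝ) ≤ (k : ℝ) := by exact_mod_cast hk
  have h5 : (0 : ℝ) < 2 ^ ((i + 1) ^ 2 + 3) := by positivity
  unfold VV
  rw [h3]
  have h6 : (1 : ℝ) ≤ 16 * k * Real.log 2 := by nlinarith
  calc (i : ℝ) < 2 ^ ((i + 1) ^ 2 + 3) := h2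
    _ = 1 * 2 ^ ((i + 1) ^ 2 + 3) := (one_mul _).symm
    _ ≤ (16 * k * Real.log 2) * 2 ^ ((i + 1) ^ 2 + 3) := mul_le_mul_of_nonneg_right h6 h5.le
    _ = _ := by ring

end GFIN

theorem gfin : S_GFIN := by
  intro k r v I hk hv hI
  unfold gg
  congr 2
  have h1 : ∀ i : ℕ, ⌊v⌋₊ + 1 ≤ i → v < VV k i := by
    intro i hi
    have h2 : v < (⌊v⌋₊ : ℝ) + 1 := Nat.lt_floor_add_one v
    have h3 : (⌊v⌋₊ : ℝ) + 1 ≤ (i : ℝ) := by exact_mod_cast hi
    have h4 := GFIN.VV_gt k i hk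
    linarith
  have key : ∀ A B : ℕ, A ≤ B → (∀ i : ℕ, A ≤ i → v < VV k i) →
      ∑ i ∈ Finset.range A, (if VV k i ≤ v then CC k i v else 0) =
        ∑ i ∈ Finset.range B, (if VV k i ≤ v then CC k i v else 0) := by
    intro A B hAB hA
    refine Finset.sum_subset (Finset.range_mono hAB) ?_
    intro i _ hi
    rw [Finset.mem_range, not_lt] at hi
    rw [if_neg (not_le.2 (hA i hi))]
  rcases le_total (⌊v⌋₊ + 1) I with h | h
  · exact key _ _ h h1
  · exact (key _ _ h hI).symm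

end H21RHB
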