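import Pool.Agent.H21.RHB.Stm

/-! RHB-LIP -/

set_option autoImplicit false

namespace H21RHB

open Real Finset MeasureTheory Filter Topology

theorem lip : S_LIP := by
  intro s x y hy hyx hs
  have hder : ∀ u ∈ Set.Icc y x, HasDerivWithinAt (fun u : ℝ => ((u : ℂ)) ^ (-s))
      (-s * (u : ℂ) ^ (-s - 1)) (Set.Icc y x) u := by
    intro u hu
    have hu0 : 0 < u := lt_of_lt_of_le hy hu.1
    have h1 : HasDerivAt (fun z : ℂ => z ^ (-s)) (-s * (u : ℂ) ^ (-s - 1) * 1) (u : ℂ) :=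
      (hasDerivAt_id (u : ℂ)).cpow_const (Complex.ofReal_mem_slitPlane.2 hu0)
    rw [mul_one] at h1
    exact h1.comp_ofReal.hasDerivWithinAt
  have hbound : ∀ u ∈ Set.Icc y x, ‖-s * (u : ℂ) ^ (-s - 1)‖ ≤ ‖s‖ * y ^ (-s.re - 1) := by
    intro u hu
    have hu0 : 0 < u := lt_of_lt_of_le hy hu.1
    rw [norm_mul, norm_neg, Complex.norm_cpow_eq_rpow_re_of_pos hu0]
    refine mul_le_mul_of_nonneg_left ?_ (norm_nonneg s)
    have h2 : (-s - 1).re = -s.re - 1 := by simp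
    rw [h2]
    exact Real.rpow_le_rpow_of_nonpos hy hu.1 (by linarith)
  have h := (convex_Icc y x).norm_image_sub_le_of_norm_hasDerivWithin_le hder hbound
    (Set.left_mem_Icc.2 hyx) (Set.right_mem_Icc.2 hyx)
  rwa [Real.norm_of_nonneg (sub_nonneg.2 hyx)] at h

end H21RHB
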