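import Pool.Agent.H21.RHB.Stm
import Pool.Agent.H21.RHB.LIP

/-! RHB-GOODA (helper33): the sequence. -/

set_option autoImplicit false

namespace H21RHB

open Real Finset MeasureTheory Filter Topology

namespace GOODA

lemma blk_unique {k j j' p : ℕ} (h : p ∈ blk k j) (h' : p ∈ blk k j') : j = j' := by
  have key : ∀ {i i' : ℕ}, p ∈ blk k i → p ∈ blk k i' → ¬ i < i' := by
    intro i i' hi hi' hlt
    unfold blk at hi hi'
    rw [Finset.mem_filter, Finset.mem_Ioc] at hi hi'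
    have h1 : (i + 1) ^ (2 * k) ≤ i' ^ (2 * k) := Nat.pow_le_pow_left hlt _
    omega
  rcases lt_trichotomy j j' with h1 | h1 | h1
  · exact absurd h1 (key h h')
  · exact h1
  · exact absurd h1 (key h' h)

lemma FirstB_congr {k j : ℕ} {C m : ℝ} {a a' : ℕ → ℤ} (h : ∀ p ∈ blk k j, a p = a' p)
    (h1 : FirstB k j C m a') : FirstB k j C m a := by
  intro s hs
  rw [Finset.sum_congr rfl fun p hp => by rw [h p hp]]
  exact h1 s hs

lemma SecondB_congr {k j : ℕ} {C : ℝ} {a a' : ℕ → ℤ} (h : ∀ p ∈ blk k j, a p = a' p)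
    (h1 : SecondB k j C a') : SecondB k j C a := by
  intro s hs
  rw [Finset.sum_congr rfl fun p hp => by rw [h p hp]]
  exact h1 s hs

lemma StB_congr {k j : ℕ} {C : ℝ} {a a' : ℕ → ℤ} (h : ∀ p ∈ blk k j, a p = a' p)
    (h1 : StB k j C a') : StB k j C a := by
  intro x hx
  rw [Finset.filter_congr (q := fun p => (a' p : ℝ) ≤ 2 * x * √p)
    fun p hp => by rw [h p hp]]
  exact h1 x hx

lemma FirstB_mono {k j : ℕ} {C C' m : ℝ} {a : ℕ → ℤ} (hC : C ≤ C')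
    (h1 : FirstB k j C m a) : FirstB k j C' m a := by
  intro s hs
  refine (h1 s hs).trans ?_
  have : 0 ≤ (j : ℝ) ^ (2 * k * (1 - s.re) - 3 / 2) := by positivity
  have h2 : 0 ≤ 1 + ‖s‖ := by positivity
  gcongr

lemma SecondB_mono {k j : ℕ} {C C' : ℝ} {a : ℕ → ℤ} (hC : C ≤ C')
    (h1 : SecondB k j C a) : SecondB k j C' a := by
  intro s hs
  refine (h1 s hs).trans ?_
  have : 0 ≤ (j : ℝ) ^ (4 * k * (1 - s.re) - 2) := by positivity
  have h2 : 0 ≤ 1 + ‖s‖ := by positivity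
  gcongr

lemma DataB_mono {k j : ℕ} {C C' : ℝ} {b : ℕ → ℤ} (hC : C ≤ C') (h : DataB k j C b) :
    DataB k j C' b where
  size := h.size
  pair := h.pair
  sq := h.sq.trans (by gcongr)
  st := fun x => (h.st x).trans (by gcongr)

lemma DataC_mono {k j : ℕ} {C C' m : ℝ} {c : ℕ → ℤ} (hC : C ≤ C') (h : DataC k j C m c) :
    DataC k j C' m c where
  sum := h.sum
  size := h.size
  tot := h.tot.trans (by gcongr)

/-- the small blocks, first order -/
lemma small_first {k j : ℕ} (hk : 4 ≤ k) (hj : 1 ≤ j) (m : ℝ) {a : ℕ → ℤ}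
    (h : ∀ p ∈ blk k j, a p = 0) : FirstB k j |m| m a := by
  intro s hs
  have hj' : (1 : ℝ) ≤ j := by exact_mod_cast hj
  have hk' : (4 : ℝ) ≤ k := by exact_mod_cast hk
  have h1 : ∑ p ∈ blk k j, (a p : ℂ) * (p : ℂ) ^ (-s) = 0 := by
    refine Finset.sum_eq_zero fun p hp => ?_
    rw [h p hp]; simp
  rw [h1, zero_sub, norm_neg, norm_mul, Complex.norm_real, Real.norm_eq_abs,
    Complex.norm_natCast_cpow_of_pos (by positivity), Complex.neg_re]
  push_cast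
  rw [← Real.rpow_natCast, ← Real.rpow_mul (by positivity), mul_assoc]
  refine mul_le_mul_of_nonneg_left ?_ (abs_nonneg m)
  calc (j : ℝ) ^ (((2 * k : ℕ) : ℝ) * -s.re) ≤ (j : ℝ) ^ (2 * k * (1 - s.re) - 3 / 2) := by
        apply Real.rpow_le_rpow_of_exponent_le hj'
        push_cast
        nlinarith
    _ ≤ (1 + ‖s‖) * (j : ℝ) ^ (2 * k * (1 - s.re) - 3 / 2) := by
        have : 0 ≤ (j : ℝ) ^ (2 * k * (1 - s.re) - 3 / 2) := by positivity
        nlinarith [norm_nonneg s]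

/-- the small blocks, second order -/
lemma small_second {k j : ℕ} (hk : 4 ≤ k) (hj : 1 ≤ j) {a : ℕ → ℤ}
    (h : ∀ p ∈ blk k j, a p = 0) : SecondB k j ((blk k j).card : ℝ) a := by
  intro s hs
  have hj' : (1 : ℝ) ≤ j := by exact_mod_cast hj
  have hk' : (4 : ℝ) ≤ k := by exact_mod_cast hk
  have hb : ∀ p ∈ blk k j, ‖((a p : ℂ) ^ 2 - p) * (p : ℂ) ^ (-(2 * s))‖ ≤
      (1 + ‖s‖) * (j : ℝ) ^ (4 * k * (1 - s.re) - 2) := by
    intro p hp
    have hp' := hp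
    unfold blk at hp'
    rw [Finset.mem_filter, Finset.mem_Ioc] at hp'
    have hp0 : 0 < p := hp'.2.pos
    have hp1 : (0 : ℝ) < p := by exact_mod_cast hp0
    have hpy : (j : ℝ) ^ (2 * k) ≤ p := by exact_mod_cast hp'.1.1.le
    rw [h p hp]
    have e1 : (((0 : ℤ) : ℂ) ^ 2 - (p : ℂ)) = -(p : ℂ) := by simp
    rw [e1, norm_mul, norm_neg, Complex.norm_natCast, Complex.norm_natCast_cpow_of_pos hp0]
    have e2 : (-(2 * s)).re = -2 * s.re := by simp
    rw [e2]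
    calc (p : ℝ) * (p : ℝ) ^ (-2 * s.re) = (p : ℝ) ^ (1 - 2 * s.re) := by
          rw [show (1 : ℝ) - 2 * s.re = 1 + (-2 * s.re) by ring, Real.rpow_add hp1, Real.rpow_one]
      _ ≤ ((j : ℝ) ^ (2 * k)) ^ (1 - 2 * s.re) := by
          exact Real.rpow_le_rpow_of_nonpos (by positivity) hpy (by linarith)
      _ = (j : ℝ) ^ (((2 * k : ℕ) : ℝ) * (1 - 2 * s.re)) := by
          rw [← Real.rpow_natCast, ← Real.rpow_mul (by positivity)]
      _ ≤ (j : ℝ) ^ (4 * k * (1 - s.re) - 2) := by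
          apply Real.rpow_le_rpow_of_exponent_le hj'
          push_cast
          nlinarith
      _ ≤ (1 + ‖s‖) * (j : ℝ) ^ (4 * k * (1 - s.re) - 2) := by
          have : 0 ≤ (j : ℝ) ^ (4 * k * (1 - s.re) - 2) := by positivity
          nlinarith [norm_nonneg s]
  refine (norm_sum_le _ _).trans ((Finset.sum_le_sum hb).trans ?_)
  rw [Finset.sum_const, nsmul_eq_mul]
  exact (mul_assoc _ _ _).ge

/-- Hasse's inequality on a block -/
lemma hasse_blk {k j p : ℕ} {C C' m : ℝ} {b c : ℕ → ℤ} (hk : 4 ≤ k) (hj : 1 ≤ j)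
    (hb : DataB k j C b) (hc : DataC k j C' m c) (hp : p ∈ blk k j) :
    |((b p + c p : ℤ) : ℝ)| ≤ 2 * √p := by
  have hj' : (1 : ℝ) ≤ j := by exact_mod_cast hj
  have hpy : (j : ℝ) ^ (2 * k) ≤ p := by
    unfold blk at hp
    rw [Finset.mem_filter, Finset.mem_Ioc] at hp
    exact_mod_cast hp.1.1.le
  have h1 : (j : ℝ) ^ k ≤ √p := by
    apply Real.le_sqrt_of_sq_le
    rw [← pow_mul, mul_comm k 2]
    exact hpy
  have h2 := hb.size p hp
  have h3 := hc.size p hp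
  have h4 : (j : ℝ) ≤ (j : ℝ) ^ k * (1 / j) := by
    have : (j : ℝ) ^ k = (j : ℝ) ^ (k - 2) * j * j := by
      rw [mul_assoc, ← pow_two, ← pow_add]
      congr 1
      omega
    rw [this]
    have h5 : 1 ≤ (j : ℝ) ^ (k - 2) := one_le_pow₀ hj'
    have h6 : (j : ℝ) ^ (k - 2) * j * j * (1 / j) = (j : ℝ) ^ (k - 2) * j := by
      field_simp
    rw [h6]
    nlinarith
  push_cast
  calc |(b p : ℝ) + c p| ≤ |(b p : ℝ)| + |(c p : ℝ)| := abs_add_le _ _
    _ ≤ 2 * (j : ℝ) ^ k * (1 - 1 / j) + j := by linarith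
    _ ≤ 2 * (j : ℝ) ^ k := by nlinarith
    _ ≤ 2 * √p := by linarith

end GOODA

open GOODA in
theorem gooda : S_GOODA := by
  classical
  intro hCARD hMUB hDC hFO hSO hST1 hSTG hDB k c j₀ hk hM g hg
  obtain ⟨Cm, hCm0, hCm⟩ := hMUB hCARD k (by omega) g hg
  obtain ⟨CB, jB, hCB0, hCB⟩ := hDB k c j₀ hk hM
  obtain ⟨CD, jC, hCD0, hCD⟩ := hDC hCARD k c j₀ hk hM Cm
  obtain ⟨C1, hC1⟩ : ∃ C1, C1 = max CB CD := ⟨_, rfl⟩
  obtain ⟨CF, hCF0, hCF⟩ := hFO lip hCARD k C1 hk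
  obtain ⟨CS, hCS0, hCS⟩ := hSO lip hCARD k C1 hk
  obtain ⟨CT, hCT0, hCT⟩ := hST1 k C1 hk
  obtain ⟨j₁, hj₁⟩ : ∃ j₁, j₁ = max (max jB jC) 1000 := ⟨_, rfl⟩
  have hj1B : jB ≤ j₁ := by rw [hj₁]; exact (le_max_left _ _).trans (le_max_left _ _)
  have hj1C : jC ≤ j₁ := by rw [hj₁]; exact (le_max_right _ _).trans (le_max_left _ _)
  have hj1k : 1000 ≤ j₁ := by rw [hj₁]; exact le_max_right _ _
  have hex : ∀ j : ℕ, ∃ bc : (ℕ → ℤ) × (ℕ → ℤ), j₁ ≤ j →
      DataB k j C1 bc.1 ∧ DataC k j C1 (mu k g j) bc.2 := by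
    intro j
    by_cases hj : j₁ ≤ j
    · obtain ⟨b, hb⟩ := hCB j (hj1B.trans hj)
      obtain ⟨cc, hcc⟩ := hCD j (hj1C.trans hj) (mu k g j) (hCm j (by omega)).2
      exact ⟨(b, cc), fun _ => ⟨DataB_mono (by rw [hC1]; exact le_max_left _ _) hb,
        DataC_mono (by rw [hC1]; exact le_max_right _ _) hcc⟩⟩
    · exact ⟨(fun _ => 0, fun _ => 0), fun h => absurd h hj⟩
  choose bc hbc using hex
  obtain ⟨a, ha⟩ : ∃ a : ℕ → ℤ, ∀ p, a p = if h : ∃ j, j₁ ≤ j ∧ p ∈ blk k j then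
      (bc h.choose).1 p + (bc h.choose).2 p else 0 := ⟨_, fun _ => rfl⟩
  have ha1 : ∀ j, j₁ ≤ j → ∀ p ∈ blk k j, a p = (bc j).1 p + (bc j).2 p := by
    intro j hj p hp
    have h : ∃ j, j₁ ≤ j ∧ p ∈ blk k j := ⟨j, hj, hp⟩
    rw [ha, dif_pos h, blk_unique h.choose_spec.2 hp]
  have ha0 : ∀ j, j < j₁ → ∀ p ∈ blk k j, a p = 0 := by
    intro j hj p hp
    rw [ha, dif_neg]
    rintro ⟨j', hj', hp'⟩
    have := blk_unique hp hp'
    omega
  refine ⟨a, ?_, ?_, ⟨CF + ∑ j ∈ Finset.range j₁, |mu k g j|, ?_⟩,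
    ⟨CS + ∑ j ∈ Finset.range j₁, ((blk k j).card : ℝ), ?_⟩, ?_⟩
  · intro p _
    by_cases h : ∃ j, j₁ ≤ j ∧ p ∈ blk k j
    · obtain ⟨j, hj, hp⟩ := h
      rw [ha1 j hj p hp]
      exact hasse_blk hk (by omega) (hbc j hj).1 (hbc j hj).2 hp
    · rw [ha, dif_neg h]
      simp
  · intro p _ hp6
    rw [ha, dif_neg]
    rintro ⟨j, hj, hp⟩
    unfold blk at hp
    rw [Finset.mem_filter, Finset.mem_Ioc] at hp
    have h1 : 1000 ^ 2 ≤ j ^ (2 * k) := by
      calc 1000 ^ 2 ≤ 1000 ^ (2 * k) := Nat.pow_le_pow_right (by norm_num) (by omega)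
        _ ≤ j ^ (2 * k) := Nat.pow_le_pow_left (hj1k.trans hj) _
    have h2 := hp.1.1
    omega
  · intro j hj
    have hs0 : 0 ≤ ∑ j ∈ Finset.range j₁, |mu k g j| :=
      Finset.sum_nonneg fun _ _ => abs_nonneg _
    by_cases hjj : j₁ ≤ j
    · exact FirstB_mono (by linarith) (FirstB_congr (ha1 j hjj)
        (hCF j hj _ _ _ (hbc j hjj).1 (hbc j hjj).2))
    · have h1 : |mu k g j| ≤ ∑ j ∈ Finset.range j₁, |mu k g j| :=
        Finset.single_le_sum (f := fun j => |mu k g j|) (fun _ _ => abs_nonneg _)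
          (Finset.mem_range.2 (not_le.1 hjj))
      exact FirstB_mono (by linarith) (small_first hk hj _ (ha0 j (not_le.1 hjj)))
  · intro j hj
    have hs0 : 0 ≤ ∑ j ∈ Finset.range j₁, ((blk k j).card : ℝ) :=
      Finset.sum_nonneg fun _ _ => Nat.cast_nonneg _
    by_cases hjj : j₁ ≤ j
    · exact SecondB_mono (by linarith) (SecondB_congr (ha1 j hjj)
        (hCS j hj _ _ _ (hbc j hjj).1 (hbc j hjj).2))
    · have h1 : ((blk k j).card : ℝ) ≤ ∑ j ∈ Finset.range j₁, ((blk k j).card : ℝ) :=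
        Finset.single_le_sum (f := fun j => ((blk k j).card : ℝ)) (fun _ _ => Nat.cast_nonneg _)
          (Finset.mem_range.2 (not_le.1 hjj))
      exact SecondB_mono (by linarith) (small_second hk hj (ha0 j (not_le.1 hjj)))
  · refine hSTG hCARD k c j₀ hk hM a CT j₁ fun j hjj => ?_
    exact StB_congr (ha1 j hjj) (hCT j (by omega) _ _ _ (hbc j hjj).1 (hbc j hjj).2)

end H21RHB
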