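import Pool.Agent.H21.RHB.StmB

/-! RHB-GOODC (helper25): the perturbation (adapted from GOODA, helper33). -/

set_option autoImplicit false

namespace H21RHB

open Real Finset MeasureTheory Filter Topology

namespace GOODC

lemma blk_unique {k j j' p : ℕ} (h : p ∈ blk k j) (h' : p ∈ blk k j') : j = j' := by
  have key : ∀ {i i' : ℕ}, p ∈ blk k i → p ∈ blk k i' → ¬ i < i' := by
    intro i i' hi hi' hlt
    unfold blk at hi hi'
    rw [Finset.mem_filter, Finset.mem_Ioc] at hi hi'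
    have h1 : (i + 1) ^ (2 * k) ≤ i' ^ (2 * k) := Nat.pow_le_pow_left hlt _
    omega
  rcases lt_trichotomy j j' with h1 | h1 | h1
  · exact absurd h1 (key h h')
  · exact h1
  · exact absurd h1 (key h' h)

lemma FirstB_congr {k j : ℕ} {C m : ℝ} {a a' : ℕ → ℤ} (h : ∀ p ∈ blk k j, a p = a' p)
    (h1 : FirstB k j C m a') : FirstB k j C m a := by
  intro s hs
  rw [Finset.sum_congr rfl fun p hp => by rw [h p hp]]
  exact h1 s hs

lemma FirstB_mono {k j : ℕ} {C C' m : ℝ} {a : ℕ → ℤ} (hC : C ≤ C')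
    (h1 : FirstB k j C m a) : FirstB k j C' m a := by
  intro s hs
  refine (h1 s hs).trans ?_
  have : 0 ≤ (j : ℝ) ^ (2 * k * (1 - s.re) - 3 / 2) := by positivity
  have h2 : 0 ≤ 1 + ‖s‖ := by positivity
  gcongr

/-- the small blocks, first order -/
lemma small_first {k j : ℕ} (hk : 4 ≤ k) (hj : 1 ≤ j) (m : ℝ) {a : ℕ → ℤ}
    (h : ∀ p ∈ blk k j, a p = 0) : FirstB k j |m| m a := by
  intro s hs
  have hj' : (1 : ℝ) ≤ j := by exact_mod_cast hj
  have hk' : (4 : ℝ) ≤ k := by exact_mod_cast hk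
  have h1 : ∑ p ∈ blk k j, (a p : ℂ) * (p : ℂ) ^ (-s) = 0 := by
    refine Finset.sum_eq_zero fun p hp => ?_
    rw [h p hp]; simp
  rw [h1, zero_sub, norm_neg, norm_mul, Complex.norm_real, Real.norm_eq_abs,
    Complex.norm_natCast_cpow_of_pos (by positivity), Complex.neg_re]
  push_cast
  rw [← Real.rpow_natCast, ← Real.rpow_mul (by positivity), mul_assoc]
  refine mul_le_mul_of_nonneg_left ?_ (abs_nonneg m)
  calc (j : ℝ) ^ (((2 * k : ℕ) : ℝ) * -s.re) ≤ (j : ℝ) ^ (2 * k * (1 - s.re) - 3 / 2) := by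
        apply Real.rpow_le_rpow_of_exponent_le hj'
        push_cast
        nlinarith
    _ ≤ (1 + ‖s‖) * (j : ℝ) ^ (2 * k * (1 - s.re) - 3 / 2) := by
        have : 0 ≤ (j : ℝ) ^ (2 * k * (1 - s.re) - 3 / 2) := by positivity
        nlinarith [norm_nonneg s]

/-- the size of the perturbation -/
lemma size_blk {k j p : ℕ} {C m : ℝ} {c : ℕ → ℤ} (hk : 4 ≤ k)
    (hc : DataC k j C m c) (hp : p ∈ blk k j) :
    |(c p : ℝ)| ≤ (p : ℝ) ^ (1 / (2 * (k : ℝ))) := by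
  have hk' : (0 : ℝ) < k := by exact_mod_cast (by omega : 0 < k)
  have hpy : (j : ℝ) ^ (2 * k) ≤ p := by
    have hp' := hp
    unfold blk at hp'
    rw [Finset.mem_filter, Finset.mem_Ioc] at hp'
    exact_mod_cast hp'.1.1.le
  refine (hc.size p hp).trans ?_
  have h1 : (j : ℝ) = ((j : ℝ) ^ (2 * k)) ^ (1 / (2 * (k : ℝ))) := by
    rw [← Real.rpow_natCast, ← Real.rpow_mul (Nat.cast_nonneg j)]
    have : ((2 * k : ℕ) : ℝ) * (1 / (2 * (k : ℝ))) = 1 := by
      push_cast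
      field_simp
    rw [this, Real.rpow_one]
  calc (j : ℝ) = ((j : ℝ) ^ (2 * k)) ^ (1 / (2 * (k : ℝ))) := h1
    _ ≤ (p : ℝ) ^ (1 / (2 * (k : ℝ))) :=
        Real.rpow_le_rpow (by positivity) hpy (by positivity)

end GOODC

open GOODC in
theorem goodc : S_GOODC := by
  classical
  intro hLIP hCARD hMUB hDC hFOC k c j₀ hk hM g hg P₀
  obtain ⟨Cm, hCm0, hCm⟩ := hMUB hCARD k (by omega) g hg
  obtain ⟨CD, jC, hCD0, hCD⟩ := hDC hCARD k c j₀ hk hM Cm
  obtain ⟨CF, hCF0, hCF⟩ := hFOC hLIP hCARD k CD hk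
  obtain ⟨CC, hCC0, hCC⟩ := hCARD k (by omega)
  obtain ⟨j₁, hj₁⟩ : ∃ j₁, j₁ = max (max jC P₀) 1 := ⟨_, rfl⟩
  have hj1C : jC ≤ j₁ := by rw [hj₁]; exact (le_max_left _ _).trans (le_max_left _ _)
  have hj1P : P₀ ≤ j₁ := by rw [hj₁]; exact (le_max_right _ _).trans (le_max_left _ _)
  have hj1k : 1 ≤ j₁ := by rw [hj₁]; exact le_max_right _ _
  have hmuc : ∀ j : ℕ, 1 ≤ j → |muc k g j| ≤ Cm * (j : ℝ) ^ (2 * k - 1 / 2 : ℝ) := by
    intro j hj
    refine le_trans ?_ (hCm j hj).1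
    have hw := (hCC j hj).2.2.2.2.1
    unfold muc
    have h1 := intervalIntegral.norm_integral_le_integral_norm (μ := volume)
      (f := fun v => Real.exp v * g v) hw
    rw [Real.norm_eq_abs] at h1
    refine h1.trans (le_of_eq ?_)
    refine intervalIntegral.integral_congr fun v _ => ?_
    show ‖Real.exp v * g v‖ = Real.exp v * |g v|
    rw [norm_mul, Real.norm_eq_abs, Real.norm_eq_abs, abs_of_pos (Real.exp_pos v)]
  have hex : ∀ j : ℕ, ∃ cc : ℕ → ℤ, j₁ ≤ j → DataC k j CD (muc k g j) cc := by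
    intro j
    by_cases hj : j₁ ≤ j
    · obtain ⟨cc, hcc⟩ := hCD j (hj1C.trans hj) (muc k g j) (hmuc j (by omega))
      exact ⟨cc, fun _ => hcc⟩
    · exact ⟨fun _ => 0, fun h => absurd h hj⟩
  choose cc hcc using hex
  obtain ⟨a, ha⟩ : ∃ a : ℕ → ℤ, ∀ p, a p = if h : ∃ j, j₁ ≤ j ∧ p ∈ blk k j then
      (cc h.choose) p else 0 := ⟨_, fun _ => rfl⟩
  have ha1 : ∀ j, j₁ ≤ j → ∀ p ∈ blk k j, a p = (cc j) p := by
    intro j hj p hp
    have h : ∃ j, j₁ ≤ j ∧ p ∈ blk k j := ⟨j, hj, hp⟩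
    rw [ha, dif_pos h, blk_unique h.choose_spec.2 hp]
  have ha0 : ∀ j, j < j₁ → ∀ p ∈ blk k j, a p = 0 := by
    intro j hj p hp
    rw [ha, dif_neg]
    rintro ⟨j', hj', hp'⟩
    have := blk_unique hp hp'
    omega
  refine ⟨a, ?_, ?_, ⟨CF + ∑ j ∈ Finset.range j₁, |muc k g j|, ?_⟩⟩
  · intro p _
    by_cases h : ∃ j, j₁ ≤ j ∧ p ∈ blk k j
    · obtain ⟨j, hj, hp⟩ := h
      rw [ha1 j hj p hp]
      exact size_blk hk (hcc j hj) hp
    · rw [ha, dif_neg h]
      simp only [Int.cast_zero, abs_zero]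
      positivity
  · intro p _ hpP
    rw [ha, dif_neg]
    rintro ⟨j, hj, hp⟩
    unfold blk at hp
    rw [Finset.mem_filter, Finset.mem_Ioc] at hp
    have h1 : j ^ 1 ≤ j ^ (2 * k) := Nat.pow_le_pow_right (by omega) (by omega)
    rw [pow_one] at h1
    have h2 := hp.1.1
    omega
  · intro j hj
    have hs0 : 0 ≤ ∑ j ∈ Finset.range j₁, |muc k g j| :=
      Finset.sum_nonneg fun _ _ => abs_nonneg _
    by_cases hjj : j₁ ≤ j
    · exact FirstB_mono (by linarith) (FirstB_congr (ha1 j hjj)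
        (hCF j hj _ _ (hcc j hjj)))
    · have h1 : |muc k g j| ≤ ∑ j ∈ Finset.range j₁, |muc k g j| :=
        Finset.single_le_sum (f := fun j => |muc k g j|) (fun _ _ => abs_nonneg _)
          (Finset.mem_range.2 (not_le.1 hjj))
      exact FirstB_mono (by linarith) (small_first hk hj _ (ha0 j (not_le.1 hjj)))

end H21RHB
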