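import Pool.Agent.H21.RHB.Stm

/-! # RHB-GROW (helper82) -/

set_option autoImplicit false

namespace H21RHB

open Real Finset MeasureTheory Filter Topology

namespace GROW

lemma ph_bd {v : ℝ} (hv : 0 < v) : 0 ≤ ph v ∧ ph v ≤ 1 ∧ ph v ≤ 1 / v := by
  unfold ph
  have h1 : Real.exp (-v) ≤ 1 := Real.exp_le_one_iff.2 (by linarith)
  have h2 := Real.exp_pos (-v)
  have h3 := Real.add_one_le_exp (-v)
  refine ⟨div_nonneg (by linarith) hv.le, ?_, ?_⟩
  · rw [div_le_one hv]; linarith
  · gcongr; linarith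

lemma ph_meas : Measurable ph := by
  unfold ph
  fun_prop

lemma ph_int (U : ℝ) : IntegrableOn ph (Set.Ioc 0 U) := by
  refine Measure.integrableOn_of_bounded (M := 1) measure_Ioc_lt_top.ne
    ph_meas.aestronglyMeasurable ?_
  filter_upwards [ae_restrict_mem measurableSet_Ioc] with v hv
  obtain ⟨h1, h2, -⟩ := ph_bd hv.1
  rw [Real.norm_eq_abs, abs_of_nonneg h1]
  exact h2

lemma ph_integral {U : ℝ} (hU : 1 ≤ U) : 0 ≤ (∫ v in Set.Ioc 0 U, ph v) ∧
    (∫ v in Set.Ioc 0 U, ph v) ≤ 1 + Real.log U := by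
  constructor
  · refine setIntegral_nonneg measurableSet_Ioc fun v hv => (ph_bd hv.1).1
  · have hi : ∀ a b : ℝ, 0 ≤ a → a ≤ b → IntervalIntegrable ph volume a b := by
      intro a b ha hab
      rw [intervalIntegrable_iff_integrableOn_Ioc_of_le hab]
      exact (ph_int b).mono_set (Set.Ioc_subset_Ioc_left ha)
    rw [← intervalIntegral.integral_of_le (by linarith : (0 : ℝ) ≤ U),
      ← intervalIntegral.integral_add_adjacent_intervals (hi 0 1 le_rfl zero_le_one)
        (hi 1 U zero_le_one hU)]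
    refine add_le_add ?_ ?_
    · have h1 : ∫ v in (0 : ℝ)..1, ph v ≤ ∫ v in (0 : ℝ)..1, (1 : ℝ) := by
        refine intervalIntegral.integral_mono_on_of_le_Ioo zero_le_one (hi 0 1 le_rfl zero_le_one)
          intervalIntegrable_const fun v hv => (ph_bd hv.1).2.1
      simpa using h1
    · have h1 : ∫ v in (1 : ℝ)..U, ph v ≤ ∫ v in (1 : ℝ)..U, 1 / v := by
        refine intervalIntegral.integral_mono_on hU (hi 1 U zero_le_one hU) ?_ fun v hv =>
          (ph_bd (lt_of_lt_of_le one_pos hv.1)).2.2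
        apply ContinuousOn.intervalIntegrable
        rw [Set.uIcc_of_le hU]
        refine ContinuousOn.div continuousOn_const continuousOn_id fun v hv => ?_
        have := hv.1
        linarith
      rwa [integral_one_div_of_pos one_pos (by linarith), div_one] at h1

lemma NN_ge (i : ℕ) : 2 ≤ NN i := by
  unfold NN
  calc 2 = 2 ^ 1 := by norm_num
    _ ≤ 2 ^ (2 ^ ((i + 1) ^ 2 + 3)) := Nat.pow_le_pow_right (by norm_num) Nat.one_le_two_pow

lemma logN (i : ℕ) : Real.log (NN i) = 2 ^ ((i + 1) ^ 2 + 3) * Real.log 2 := by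
  unfold NN
  rw [Nat.cast_pow, Real.log_pow]
  push_cast
  rfl

lemma logN_pos (i : ℕ) : 0 < Real.log (NN i) := by
  rw [logN]
  have := Real.log_pos one_lt_two
  positivity

/-- the logarithms grow fast -/
lemma logN_lt {l i : ℕ} (h : l < i) : Real.log (NN l) * 2 ^ (2 * i + 1) ≤ Real.log (NN i) := by
  rw [logN, logN]
  have h2 := Real.log_pos one_lt_two
  have h3 : (l + 1) ^ 2 + 3 + (2 * i + 1) ≤ (i + 1) ^ 2 + 3 := by
    have : l + 1 ≤ i := h
    nlinarith
  calc 2 ^ ((l + 1) ^ 2 + 3) * Real.log 2 * 2 ^ (2 * i + 1) =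
      2 ^ ((l + 1) ^ 2 + 3 + (2 * i + 1)) * Real.log 2 := by rw [pow_add]; ring
    _ ≤ 2 ^ ((i + 1) ^ 2 + 3) * Real.log 2 := by
      refine mul_le_mul_of_nonneg_right ?_ h2.le
      exact pow_le_pow_right₀ one_le_two h3

lemma logN_tendsto : Tendsto (fun i : ℕ => Real.log (NN i)) atTop atTop := by
  have h1 : Tendsto (fun i : ℕ => (2 : ℝ) ^ i * Real.log 2) atTop atTop :=
    (tendsto_pow_atTop_atTop_of_one_lt one_lt_two).atTop_mul_const (Real.log_pos one_lt_two)
  refine tendsto_atTop_mono (fun i => ?_) h1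
  rw [logN]
  refine mul_le_mul_of_nonneg_right ?_ (Real.log_pos one_lt_two).le
  exact pow_le_pow_right₀ one_le_two (by nlinarith)

lemma UU_lt_VV {k i l : ℕ} (hk : 1 ≤ k) (h : i < l) : UU k i < VV k l := by
  have h1 := logN_lt h
  have h0 := logN_pos i
  have hk0 : (1 : ℝ) ≤ k := by exact_mod_cast hk
  have h2 : (8 : ℝ) ≤ 2 ^ (2 * l + 1) := by
    calc (8 : ℝ) = 2 ^ 3 := by norm_num
      _ ≤ _ := pow_le_pow_right₀ one_le_two (by omega)
  unfold UU VV
  have h3 : Real.log (NN i) * 8 ≤ Real.log (NN l) := (mul_le_mul_of_nonneg_left h2 h0.le).trans h1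
  have hkl : 0 < (k : ℝ) * Real.log (NN i) := by positivity
  nlinarith

lemma CCph_int (k i : ℕ) {V U : ℝ} (hV : 0 < V) :
    IntegrableOn (fun v => CC k i v * ph v) (Set.Icc V U) := by
  apply ContinuousOn.integrableOn_Icc
  unfold CC ph
  refine ContinuousOn.mul (by fun_prop) (ContinuousOn.div (by fun_prop) (by fun_prop) ?_)
  intro v hv
  have := hv.1
  linarith

lemma inter_eq {V U : ℝ} (hV : 0 < V) : Set.Ici V ∩ Set.Ioc 0 U = Set.Icc V U := by
  ext v
  simp only [Set.mem_inter_iff, Set.mem_Ici, Set.mem_Ioc, Set.mem_Icc]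
  constructor
  · rintro ⟨h1, -, h2⟩; exact ⟨h1, h2⟩
  · rintro ⟨h1, h2⟩; exact ⟨h1, by linarith, h2⟩

lemma part_int (k i : ℕ) {V U : ℝ} (hV : 0 < V) :
    IntegrableOn ((Set.Ici V).indicator fun v => CC k i v * ph v) (Set.Ioc 0 U) := by
  unfold IntegrableOn
  rw [integrable_indicator_iff measurableSet_Ici]
  unfold IntegrableOn
  rw [Measure.restrict_restrict measurableSet_Ici, inter_eq hV]
  exact CCph_int k i hV

lemma part_val (k i : ℕ) {V U : ℝ} (hV : 0 < V) (hVU : V ≤ U) :
    ∫ v in Set.Ioc 0 U, (Set.Ici V).indicator (fun v => CC k i v * ph v) v =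
      ∫ v in V..U, CC k i v * ph v := by
  rw [setIntegral_indicator measurableSet_Ici, Set.inter_comm, inter_eq hV,
    intervalIntegral.integral_of_le hVU, integral_Icc_eq_integral_Ioc]

/-- the integral of `gg` -/
lemma split (hG : S_GFIN) (k r i : ℕ) (hk : 1 ≤ k) :
    -∫ v in (0 : ℝ)..(UU k i), gg k r v = r * (∫ v in Set.Ioc 0 (UU k i), ph v) +
      ∑ l ∈ Finset.range (i + 1), ∫ v in (VV k l)..(UU k i), CC k l v * ph v := by
  have hk0 : (1 : ℝ) ≤ k := by exact_mod_cast hk
  have hVpos : ∀ l, 0 < VV k l := fun l => by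
    have := logN_pos l
    unfold VV; positivity
  have hU0 : 0 < UU k i := by
    have := logN_pos i
    unfold UU; positivity
  have hVU : ∀ l ∈ Finset.range (i + 1), VV k l ≤ UU k i := by
    intro l hl
    rw [Finset.mem_range] at hl
    rcases Nat.lt_or_ge l i with h | h
    · have h1 := logN_lt h
      have h0 := logN_pos l
      have h2 : (1 : ℝ) ≤ 2 ^ (2 * i + 1) := one_le_pow₀ one_le_two
      have h3 : Real.log (NN l) ≤ Real.log (NN i) := by nlinarith
      unfold VV UU
      have h4 := logN_pos i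
      have h5 : 16 * (k : ℝ) * Real.log (NN l) ≤ 16 * (k : ℝ) * Real.log (NN i) := by gcongr
      have h6 : 0 < (k : ℝ) * Real.log (NN i) := by positivity
      linarith
    · have : l = i := by omega
      rw [this]
      have h4 := logN_pos i
      have h6 : 0 < (k : ℝ) * Real.log (NN i) := by positivity
      unfold VV UU
      linarith
  rw [intervalIntegral.integral_of_le hU0.le]
  have h1 : ∫ v in Set.Ioc 0 (UU k i), gg k r v = ∫ v in Set.Ioc 0 (UU k i),
      -(r * ph v + ∑ l ∈ Finset.range (i + 1),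
        (Set.Ici (VV k l)).indicator (fun v => CC k l v * ph v) v) := by
    refine setIntegral_congr_fun measurableSet_Ioc fun v hv => ?_
    rw [hG k r v (i + 1) hk hv.1.le fun l hl => lt_of_le_of_lt hv.2 (UU_lt_VV hk (by omega))]
    rw [neg_mul, mul_add, mul_comm (ph v) (r : ℝ), Finset.mul_sum]
    congr 2
    refine Finset.sum_congr rfl fun l _ => ?_
    rw [Set.indicator_apply]
    simp only [Set.mem_Ici]
    split_ifs
    · ring
    · ring
  rw [h1, integral_neg, neg_neg, integral_add ((ph_int _).const_mul _)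
    (integrable_finsetSum _ fun l _ => part_int k l (hVpos l)), integral_const_mul,
    integral_finsetSum _ fun l _ => part_int k l (hVpos l)]
  congr 1
  exact Finset.sum_congr rfl fun l hl => part_val k l (hVpos l) (hVU l hl)

/-- the sum of the small logarithms -/
lemma sum_log (i : ℕ) : (∑ l ∈ Finset.range i, Real.log (NN l)) * 2 ^ i ≤ Real.log (NN i) := by
  have h1 : ∀ l ∈ Finset.range i, Real.log (NN l) ≤ Real.log (NN i) / 2 ^ (2 * i + 1) := by
    intro l hl
    rw [Finset.mem_range] at hl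
    rw [le_div_iff₀ (by positivity)]
    exact logN_lt hl
  have h2 := Finset.sum_le_sum h1
  rw [Finset.sum_const, Finset.card_range, nsmul_eq_mul] at h2
  have h0 := logN_pos i
  have h3 : (i : ℝ) ≤ 2 ^ i := by exact_mod_cast (Nat.lt_two_pow_self).le
  calc (∑ l ∈ Finset.range i, Real.log (NN l)) * 2 ^ i
      ≤ (i * (Real.log (NN i) / 2 ^ (2 * i + 1))) * 2 ^ i := by gcongr
    _ ≤ (2 ^ i * (Real.log (NN i) / 2 ^ (2 * i + 1))) * 2 ^ i := by gcongr
    _ = Real.log (NN i) / 2 := by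
      rw [show 2 * i + 1 = i + i + 1 by ring, pow_succ, pow_add]
      field_simp
    _ ≤ _ := by linarith

end GROW

open GROW in
theorem grow : S_GROW := by
  intro hG hO1 hO2 hO3 k r hk
  have hk0 : (1 : ℝ) ≤ k := by exact_mod_cast hk
  obtain ⟨C2, hC2⟩ := hO2 hO1
  obtain ⟨C3, hC3⟩ := hO3 hO1
  -- the error terms
  have hlim : Tendsto (fun x : ℝ => (r * (1 + (Real.log (32 * k) + Real.log x)) + C2) / x) atTop
      (𝓝 0) := by
    have h1 : Tendsto (fun x : ℝ => Real.log x / x) atTop (𝓝 0) :=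
      Real.isLittleO_log_id_atTop.tendsto_div_nhds_zero
    have h2 : Tendsto (fun x : ℝ => (r * (1 + Real.log (32 * k)) + C2) / x) atTop (𝓝 0) :=
      tendsto_const_nhds.div_atTop tendsto_id
    have h3 := (h1.const_mul (r : ℝ)).add h2
    rw [mul_zero, add_zero] at h3
    refine h3.congr fun x => ?_
    ring
  have hlim2 : Tendsto (fun i : ℕ => |C3| / 2 ^ i) atTop (𝓝 0) :=
    tendsto_const_nhds.div_atTop (tendsto_pow_atTop_atTop_of_one_lt one_lt_two)
  obtain ⟨i₀, hi₀⟩ := eventually_atTop.1 (((hlim.comp logN_tendsto).eventually_le_const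
    (show (0 : ℝ) < 1 / 20 by norm_num)).and ((hlim2.eventually_le_const
    (show (0 : ℝ) < 1 / 20 by norm_num)).and (logN_tendsto.eventually_ge_atTop 1)))
  refine ⟨i₀, fun i hi => ?_⟩
  obtain ⟨a1, a2, a3⟩ := hi₀ i hi
  obtain ⟨x, hx⟩ : ∃ x : ℝ, x = Real.log (NN i) := ⟨_, rfl⟩
  simp only [Function.comp] at a1
  have b1 := hC2 k i hk
  have b3 := sum_log i
  rw [split hG k r i hk, Finset.sum_range_succ]
  have hUx : UU k i = 32 * k * x := by rw [hx]; rfl
  rw [← hx] at a1 a3 b1 b3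
  have hx0 : 0 < x := by linarith
  rw [div_le_iff₀ hx0] at a1
  have hU1 : 1 ≤ UU k i := by
    rw [hUx]
    have : (1 : ℝ) * 1 ≤ k * x := by gcongr
    linarith
  obtain ⟨p1, p2⟩ := ph_integral hU1
  have hlogU : Real.log (UU k i) = Real.log (32 * k) + Real.log x := by
    rw [hUx, Real.log_mul (by positivity) hx0.ne']
  rw [hlogU] at p2
  obtain ⟨I, hI⟩ : ∃ I : ℝ, I = ∫ v in Set.Ioc 0 (UU k i), ph v := ⟨_, rfl⟩
  rw [← hI] at p1 p2 ⊢
  have c1 : |∑ l ∈ Finset.range i, ∫ v in (VV k l)..(UU k i), CC k l v * ph v| ≤ 1 / 20 * x := by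
    refine (Finset.abs_sum_le_sum_abs _ _).trans ?_
    have d1 : ∀ l ∈ Finset.range i, |∫ v in (VV k l)..(UU k i), CC k l v * ph v| ≤
        |C3| * Real.log (NN l) := by
      intro l hl
      rw [Finset.mem_range] at hl
      have h0 := logN_pos l
      have hle : VV k l ≤ UU k i := by
        have h1 := logN_lt hl
        have h2 : (1 : ℝ) ≤ 2 ^ (2 * i + 1) := one_le_pow₀ one_le_two
        have h3 : Real.log (NN l) ≤ Real.log (NN i) := by nlinarith
        have h4 := logN_pos i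
        have h5 : 16 * (k : ℝ) * Real.log (NN l) ≤ 16 * (k : ℝ) * Real.log (NN i) := by gcongr
        have h6 : 0 < (k : ℝ) * Real.log (NN i) := by positivity
        unfold VV UU
        linarith
      refine (hC3 k l _ hk hle).trans ?_
      exact mul_le_mul_of_nonneg_right (le_abs_self _) h0.le
    refine (Finset.sum_le_sum d1).trans ?_
    rw [← Finset.mul_sum]
    have h2i : (0 : ℝ) < 2 ^ i := by positivity
    calc |C3| * ∑ l ∈ Finset.range i, Real.log (NN l) =
        |C3| / 2 ^ i * ((∑ l ∈ Finset.range i, Real.log (NN l)) * 2 ^ i) := by field_simp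
      _ ≤ |C3| / 2 ^ i * x := by gcongr
      _ ≤ 1 / 20 * x := by gcongr
  have c2 : 0 ≤ r * I ∧ r * I + C2 ≤ 1 / 20 * x := by
    have hr : (0 : ℝ) ≤ r := Nat.cast_nonneg r
    refine ⟨by positivity, ?_⟩
    have : (r : ℝ) * I ≤ r * (1 + (Real.log (32 * k) + Real.log x)) :=
      mul_le_mul_of_nonneg_left p2 hr
    linarith
  have hπ1 : 31 / 100 ≤ 1 / π := by
    rw [le_div_iff₀ Real.pi_pos]
    have := Real.pi_lt_d2
    linarith
  have hπx : 31 / 100 * x ≤ 1 / π * x := by gcongr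
  have hfac : 1 / (200 * (k : ℝ)) * UU k i = 16 / 100 * x := by
    rw [hUx]; field_simp; norm_num
  rw [hfac]
  rw [abs_le] at c1 b1
  constructor
  · intro he
    rw [if_pos he] at b1
    linarith [b1.1, b1.2, c1.1, c1.2, c2.1, c2.2]
  · intro he
    rw [if_neg he] at b1
    linarith [b1.1, b1.2, c1.1, c1.2, c2.1, c2.2]

end H21RHB
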