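import Pool.Agent.H21.RHB.StmB

set_option autoImplicit false

namespace H21RHB.HB2

open Real Finset

theorem pow_diff_ge (x : ℝ) (hx : 0 ≤ x) (n : ℕ) :
    (n + 1) * x ^ n ≤ (x + 1) ^ (n + 1) - x ^ (n + 1) := by
  induction n with
  | zero => simp
  | succ n ih =>
    have e : (x + 1) ^ (n + 1 + 1) - x ^ (n + 1 + 1) =
        (x + 1) * ((x + 1) ^ (n + 1) - x ^ (n + 1)) + x ^ (n + 1) := by ring
    have h2 := mul_le_mul_of_nonneg_left ih hx
    have h3 : 0 ≤ (n + 1) * x ^ n := by positivity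
    rw [e]
    push_cast
    have e2 : ((n : ℝ) + 1 + 1) * x ^ (n + 1) = x * ((n + 1) * x ^ n) + x ^ (n + 1) := by ring
    rw [e2]
    nlinarith

end H21RHB.HB2

namespace H21RHB

open Real Finset

theorem hb2 : S_HB2 := by
  rintro ⟨δ, η, hδ, hδ1, hη, X₀, hX₀, H⟩ K₀
  obtain ⟨k₀, hk₀⟩ := exists_nat_ge (1 / (2 * δ))
  set k : ℕ := max 4 (max k₀ K₀) with hk
  have hk4 : 4 ≤ k := le_max_left _ _
  have hkK : K₀ ≤ k := (le_max_right k₀ K₀).trans (le_max_right _ _)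
  have hkδ : 1 ≤ 2 * k * δ := by
    have h1 : (k₀ : ℝ) ≤ k := by
      exact_mod_cast (le_max_left k₀ K₀).trans (le_max_right 4 (max k₀ K₀))
    have h2 : 1 / (2 * δ) ≤ k := hk₀.trans h1
    rw [div_le_iff₀ (by positivity)] at h2
    linarith
  have hk0 : (0 : ℝ) < k := by exact_mod_cast (by omega : 0 < k)
  refine ⟨k, η, max X₀ (4 * k), hkK, hk4, hη, le_trans hX₀ (le_max_left _ _), fun j hj => ?_⟩
  have hjX : X₀ ≤ j := le_trans (le_max_left _ _) hj
  have hjk : 4 * k ≤ j := le_trans (le_max_right _ _) hj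
  have hj2 : 2 ≤ j := by omega
  have hj0 : (0 : ℝ) < j := by exact_mod_cast (by omega : 0 < j)
  have hj1 : (1 : ℝ) ≤ j := by exact_mod_cast (by omega : 1 ≤ j)
  have hlog : 0 < Real.log j := Real.log_pos (by exact_mod_cast (by omega : 1 < j))
  have hle : j ^ (2 * k) ≤ (j + 1) ^ (2 * k) := Nat.pow_le_pow_left (by omega) _
  set X : ℕ := j ^ (2 * k) with hX
  set Y : ℕ := (j + 1) ^ (2 * k) - j ^ (2 * k) with hY
  have hXY : X + Y = (j + 1) ^ (2 * k) := by omega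
  have hYr : (Y : ℝ) = ((j : ℝ) + 1) ^ (2 * k) - (j : ℝ) ^ (2 * k) := by
    rw [hY, Nat.cast_sub hle, hX]
    push_cast
    ring
  have hXr : (X : ℝ) = (j : ℝ) ^ (2 * k) := by rw [hX]; push_cast; ring
  have hYge : 2 * k * (j : ℝ) ^ (2 * k - 1) ≤ Y := by
    obtain ⟨m, hm⟩ : ∃ m, 2 * k = m + 1 := ⟨2 * k - 1, by omega⟩
    have h := HB2.pow_diff_ge j hj0.le m
    rw [hYr, hm]
    have e : (2 * (k : ℝ)) = m + 1 := by exact_mod_cast hm
    rw [e]
    simpa using h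
  have h1 : X₀ ≤ X := by
    calc X₀ ≤ j := hjX
      _ ≤ j ^ (2 * k) := Nat.le_self_pow (by omega) j
  have h2 : (X : ℝ) ^ (1 - δ) ≤ Y := by
    refine le_trans ?_ hYge
    have e : (X : ℝ) ^ (1 - δ) = (j : ℝ) ^ (((2 * k : ℕ) : ℝ) * (1 - δ)) := by
      rw [hXr, ← Real.rpow_natCast, ← Real.rpow_mul hj0.le]
    rw [e]
    calc (j : ℝ) ^ (((2 * k : ℕ) : ℝ) * (1 - δ)) ≤ (j : ℝ) ^ (((2 * k - 1 : ℕ)) : ℝ) := by
          refine Real.rpow_le_rpow_of_exponent_le hj1 ?_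
          rw [Nat.cast_sub (by omega)]
          push_cast
          linarith
      _ = (j : ℝ) ^ (2 * k - 1) := Real.rpow_natCast _ _
      _ ≤ 2 * k * (j : ℝ) ^ (2 * k - 1) := by
          refine le_mul_of_one_le_left (by positivity) ?_
          have : (4 : ℝ) ≤ k := by exact_mod_cast hk4
          linarith
  have h3 : Y ≤ X := by
    have hb := one_add_mul_le_pow (a := -(1 / ((j : ℝ) + 1))) (by
      have : 1 / ((j : ℝ) + 1) ≤ 1 := by
        rw [div_le_one (by positivity)]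
        linarith
      linarith) (2 * k)
    have e : 1 + -(1 / ((j : ℝ) + 1)) = j / (j + 1) := by
      field_simp
      ring
    rw [e, div_pow] at hb
    have h4 : (1 : ℝ) / 2 ≤ 1 + ((2 * k : ℕ) : ℝ) * -(1 / ((j : ℝ) + 1)) := by
      have hjk' : (4 : ℝ) * k ≤ j := by exact_mod_cast hjk
      have : ((2 * k : ℕ) : ℝ) * (1 / ((j : ℝ) + 1)) ≤ 1 / 2 := by
        rw [mul_one_div, div_le_iff₀ (by positivity)]
        push_cast
        linarith
      linarith
    have h5 := h4.trans hb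
    rw [le_div_iff₀ (by positivity)] at h5
    have h6 : (Y : ℝ) ≤ X := by
      rw [hYr, hXr]
      linarith
    exact_mod_cast h6
  have h := H X Y h1 h2 h3
  rw [hXY] at h
  refine le_trans ?_ h
  have hlX : Real.log X = 2 * k * Real.log j := by
    rw [hXr, Real.log_pow]
    push_cast
    ring
  rw [hlX, div_le_div_iff₀ hlog (by positivity)]
  have h7 : η * (2 * k * (j : ℝ) ^ (2 * k - 1)) ≤ η * Y := mul_le_mul_of_nonneg_left hYge hη.le
  calc η * (j : ℝ) ^ (2 * k - 1) * (2 * k * Real.log j) =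
        η * (2 * k * (j : ℝ) ^ (2 * k - 1)) * Real.log j := by ring
    _ ≤ η * Y * Real.log j := mul_le_mul_of_nonneg_right h7 hlog.le

end H21RHB
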