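import Pool.Agent.H21.RHB.Stm

set_option autoImplicit false

namespace H21RHB.HHB

open Real Finset MeasureTheory Filter Topology H21RHB

lemma rcpow (x : ℝ) (hx : 0 < x) (z : ℂ) :
    ((x : ℝ) : ℂ) ^ z = Complex.exp ((Real.log x : ℂ) * z) := by
  rw [Complex.cpow_def_of_ne_zero (by exact_mod_cast hx.ne'), Complex.ofReal_log hx.le]

lemma g_int (k j : ℕ) (hj : 1 ≤ j) (hw : ww k j ≤ ww k (j + 1)) (g : ℝ → ℝ) (hg : Adm k g) :
    IntervalIntegrable g volume (ww k j) (ww k (j + 1)) := by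
  obtain ⟨hm, C, hC⟩ := hg
  rw [intervalIntegrable_iff_integrableOn_Ioc_of_le hw]
  refine Measure.integrableOn_of_bounded (M := |C| * Real.exp (ww k (j + 1) / (4 * k))) ?_
    hm.aestronglyMeasurable ?_
  · rw [Real.volume_Ioc]
    exact ENNReal.ofReal_ne_top
  · refine (ae_restrict_iff' measurableSet_Ioc).mpr (ae_of_all _ ?_)
    intro v hv
    have hw0 : 0 ≤ ww k j := by
      unfold ww
      have : 0 ≤ Real.log j := Real.log_nonneg (by exact_mod_cast hj)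
      positivity
    have hv0 : 0 ≤ v := le_trans hw0 hv.1.le
    rw [Real.norm_eq_abs]
    calc |g v| ≤ C * Real.exp (v / (4 * k)) := hC v hv0
      _ ≤ |C| * Real.exp (v / (4 * k)) :=
          mul_le_mul_of_nonneg_right (le_abs_self C) (Real.exp_pos _).le
      _ ≤ |C| * Real.exp (ww k (j + 1) / (4 * k)) := by
          apply mul_le_mul_of_nonneg_left _ (abs_nonneg _)
          apply Real.exp_le_exp.mpr
          exact div_le_div_of_nonneg_right hv.2 (by positivity)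

lemma y_cpow (k j : ℕ) (hj : 1 ≤ j) (s : ℂ) :
    ((j ^ (2 * k) : ℕ) : ℂ) ^ (-s) = Complex.exp (-(s * (ww k j : ℝ))) := by
  have hj0 : (0 : ℝ) < ((j ^ (2 * k) : ℕ) : ℝ) := by positivity
  have h := rcpow _ hj0 (-s)
  have h2 : Real.log ((j ^ (2 * k) : ℕ) : ℝ) = ww k j := by
    unfold ww
    push_cast
    rw [Real.log_pow]
    push_cast
    ring
  rw [h2] at h
  have h3 : (((j ^ (2 * k) : ℕ) : ℝ) : ℂ) = ((j ^ (2 * k) : ℕ) : ℂ) := by push_cast; rfl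
  rw [h3] at h
  rw [h]
  congr 1
  ring

/-- second part: the integral -/
lemma second (hliq : S_LIQ) (k j : ℕ) (hj : 1 ≤ j) (hw : ww k j ≤ ww k (j + 1)) (g : ℝ → ℝ)
    (hg : Adm k g) (s : ℂ) (hs : 0 ≤ s.re) :
    ‖II k g j s - ((j ^ (2 * k) : ℕ) : ℂ) ^ (-s) *
      ((∫ v in (ww k j)..(ww k (j + 1)), Real.exp v * g v : ℝ) : ℂ)‖ ≤
    ‖s‖ * Real.exp (-(s.re * ww k j)) * (ww k (j + 1) - ww k j) *
      ∫ v in (ww k j)..(ww k (j + 1)), Real.exp v * |g v| := by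
  have hgi := g_int k j hj hw g hg
  rw [← intervalIntegral.integral_ofReal, ← intervalIntegral.integral_const_mul]
  unfold II
  have hgc : IntervalIntegrable (fun v => (g v : ℂ)) volume (ww k j) (ww k (j + 1)) :=
    ⟨hgi.1.ofReal, hgi.2.ofReal⟩
  rw [← intervalIntegral.integral_sub]
  · rw [← intervalIntegral.integral_const_mul]
    apply intervalIntegral.norm_integral_le_of_norm_le hw
    · refine ae_of_all _ ?_
      intro v hv
      have e1 : Complex.exp (-((s - 1) * v)) * (g v : ℂ) -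
          ((j ^ (2 * k) : ℕ) : ℂ) ^ (-s) * ((Real.exp v * g v : ℝ) : ℂ) =
          (Complex.exp (-(s * v)) - Complex.exp (-(s * (ww k j : ℝ)))) *
            ((Real.exp v * g v : ℝ) : ℂ) := by
        rw [y_cpow k j hj]
        have : Complex.exp (-((s - 1) * v)) = Complex.exp (-(s * v)) * Complex.exp (v : ℂ) := by
          rw [← Complex.exp_add]
          congr 1
          ring
        rw [this]
        push_cast
        ring
      rw [e1, norm_mul, Complex.norm_real, Real.norm_eq_abs, abs_mul, abs_of_pos (Real.exp_pos v)]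
      apply mul_le_mul_of_nonneg_right _ (by positivity)
      refine le_trans (hliq s v (ww k j) hv.1.le hs) ?_
      apply mul_le_mul_of_nonneg_left _ (by positivity)
      linarith [hv.2]
    · apply IntervalIntegrable.const_mul
      exact hgi.abs.continuousOn_mul (Real.continuous_exp.continuousOn)
  · refine hgc.continuousOn_mul ?_
    apply Continuous.continuousOn
    fun_prop
  · apply IntervalIntegrable.const_mul
    have : IntervalIntegrable (fun v => Real.exp v * g v) volume (ww k j) (ww k (j + 1)) :=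
      hgi.continuousOn_mul (Real.continuous_exp.continuousOn)
    exact ⟨this.1.ofReal, this.2.ofReal⟩

lemma third (hlip : S_LIP) (k j : ℕ) (hj : 1 ≤ j) (C : ℝ) (hC : 0 < C)
    (h1 : ((j : ℝ) + 1) ^ (2 * k) - (j : ℝ) ^ (2 * k) ≤ C * (j : ℝ) ^ (2 * k - 1))
    (h3 : ∑ p ∈ sqb k j, (p : ℝ) ≤ C * (j : ℝ) ^ (2 * k - 1))
    (s : ℂ) (hs : 0 ≤ s.re) :
    ‖∑ p ∈ sqb k j, ((p : ℂ) ^ (1 - 2 * s) - (p : ℂ) * ((j ^ (2 * k) : ℕ) : ℂ) ^ (-s))‖ ≤
      C ^ 2 * ‖s‖ * ((j : ℝ) ^ (2 * k)) ^ (-s.re - 1) * ((j : ℝ) ^ (2 * k - 1)) ^ 2 := by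
  have hjR : (0 : ℝ) < j := by exact_mod_cast hj
  have hy : (0 : ℝ) < (j : ℝ) ^ (2 * k) := by positivity
  have hterm : ∀ p ∈ sqb k j,
      ‖(p : ℂ) ^ (1 - 2 * s) - (p : ℂ) * ((j ^ (2 * k) : ℕ) : ℂ) ^ (-s)‖ ≤
        (p : ℝ) * (‖s‖ * ((j : ℝ) ^ (2 * k)) ^ (-s.re - 1) * (C * (j : ℝ) ^ (2 * k - 1))) := by
    intro p hp
    unfold sqb at hp
    rw [Finset.mem_filter, Finset.mem_Ioc] at hp
    obtain ⟨⟨hp1, hp2⟩, hpp⟩ := hp
    have hp0 : (0 : ℝ) < p := by exact_mod_cast hpp.pos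
    have e1 : (p : ℂ) ^ (1 - 2 * s) = (p : ℂ) * ((((p : ℝ) ^ 2 : ℝ)) : ℂ) ^ (-s) := by
      have a1 := rcpow (p : ℝ) hp0 (1 - 2 * s)
      have a2 := rcpow ((p : ℝ) ^ 2) (by positivity) (-s)
      rw [a2]
      have a3 : ((p : ℝ) : ℂ) = (p : ℂ) := by push_cast; rfl
      rw [a3] at a1
      rw [a1, Real.log_pow]
      have a4 : (p : ℂ) = Complex.exp ((Real.log (p : ℝ) : ℝ) : ℂ) := by
        rw [← Complex.ofReal_exp, Real.exp_log hp0]
        push_cast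
        rfl
      conv_rhs => rw [a4]
      rw [← Complex.exp_add]
      congr 1
      push_cast
      ring
    have e2 : ((j ^ (2 * k) : ℕ) : ℂ) = (((j : ℝ) ^ (2 * k) : ℝ) : ℂ) := by push_cast; rfl
    rw [e1, e2, ← mul_sub, norm_mul, Complex.norm_natCast]
    apply mul_le_mul_of_nonneg_left _ hp0.le
    have hyx : (j : ℝ) ^ (2 * k) ≤ (p : ℝ) ^ 2 := by
      have : ((j ^ k : ℕ) : ℝ) ≤ (p : ℝ) := by exact_mod_cast hp1.le
      push_cast at this
      calc (j : ℝ) ^ (2 * k) = ((j : ℝ) ^ k) ^ 2 := by rw [← pow_mul, mul_comm]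
        _ ≤ (p : ℝ) ^ 2 := by gcongr
    have hxz : (p : ℝ) ^ 2 ≤ ((j : ℝ) + 1) ^ (2 * k) := by
      have : (p : ℝ) ≤ (((j + 1) ^ k : ℕ) : ℝ) := by exact_mod_cast hp2
      push_cast at this
      calc (p : ℝ) ^ 2 ≤ (((j : ℝ) + 1) ^ k) ^ 2 := by gcongr
        _ = ((j : ℝ) + 1) ^ (2 * k) := by rw [← pow_mul, mul_comm]
    refine le_trans (hlip s _ _ hy hyx hs) ?_
    apply mul_le_mul_of_nonneg_left _ (by positivity)
    linarith
  refine le_trans (norm_sum_le_of_le _ hterm) ?_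
  rw [← Finset.sum_mul]
  have hpos : 0 ≤ ‖s‖ * ((j : ℝ) ^ (2 * k)) ^ (-s.re - 1) * (C * (j : ℝ) ^ (2 * k - 1)) := by
    positivity
  calc (∑ p ∈ sqb k j, (p : ℝ)) *
        (‖s‖ * ((j : ℝ) ^ (2 * k)) ^ (-s.re - 1) * (C * (j : ℝ) ^ (2 * k - 1)))
      ≤ (C * (j : ℝ) ^ (2 * k - 1)) *
        (‖s‖ * ((j : ℝ) ^ (2 * k)) ^ (-s.re - 1) * (C * (j : ℝ) ^ (2 * k - 1))) :=
        mul_le_mul_of_nonneg_right h3 hpos
    _ = _ := by ring

theorem main : S_HHB := by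
  intro hlip hliq hcard hmub k g a hk hg hgood
  have hk1 : 1 ≤ k := by omega
  obtain ⟨C1, hC1⟩ := hgood.first
  obtain ⟨C2, hC2pos, hC2⟩ := hcard k hk1
  obtain ⟨C3, hC3pos, hC3⟩ := hmub hcard k hk1 g hg
  refine ⟨|C1| + 2 * k * C3 + C2 ^ 2, by positivity, ?_⟩
  intro j s hj hs
  have hs0 : 0 ≤ s.re := by linarith
  have hjR : (1 : ℝ) ≤ j := by exact_mod_cast hj
  have hj0 : (0 : ℝ) < j := by linarith
  obtain ⟨c1, c2, c3, c4, c5, c6⟩ := hC2 j hj
  obtain ⟨m1, m2⟩ := hC3 j hj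
  have hF := hC1 j hj s hs
  have hS := second hliq k j hj c5 g hg s hs0
  have hT := third hlip k j hj C2 hC2pos c1 c3 s hs0
  set Y : ℂ := ((j ^ (2 * k) : ℕ) : ℂ) ^ (-s) with hY
  set P : ℝ := (j : ℝ) ^ (2 * k * (1 - s.re) - 3 / 2) with hP
  have hPpos : 0 < P := Real.rpow_pos_of_pos hj0 _
  -- decomposition
  have hdec : hh k g a j s =
      (∑ p ∈ blk k j, (a p : ℂ) * (p : ℂ) ^ (-s) - (mu k g j : ℂ) * Y) -
      (II k g j s - Y * ((∫ v in (ww k j)..(ww k (j + 1)), Real.exp v * g v : ℝ) : ℂ)) -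
      (1 / 2) * ∑ p ∈ sqb k j, ((p : ℂ) ^ (1 - 2 * s) - (p : ℂ) * Y) := by
    unfold hh mu
    rw [Finset.sum_sub_distrib, ← Finset.sum_mul]
    push_cast
    ring
  -- bound for the second part
  have hS2 : ‖s‖ * Real.exp (-(s.re * ww k j)) * (ww k (j + 1) - ww k j) *
      (∫ v in (ww k j)..(ww k (j + 1)), Real.exp v * |g v|) ≤ 2 * k * C3 * ‖s‖ * P := by
    have e1 : Real.exp (-(s.re * ww k j)) = (j : ℝ) ^ (-(2 * k * s.re)) := by
      rw [Real.rpow_def_of_pos hj0]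
      unfold ww
      congr 1
      ring
    have hI0 : 0 ≤ ∫ v in (ww k j)..(ww k (j + 1)), Real.exp v * |g v| := by
      apply intervalIntegral.integral_nonneg c5
      intro v _
      positivity
    calc ‖s‖ * Real.exp (-(s.re * ww k j)) * (ww k (j + 1) - ww k j) *
          (∫ v in (ww k j)..(ww k (j + 1)), Real.exp v * |g v|)
        ≤ ‖s‖ * Real.exp (-(s.re * ww k j)) * (2 * k / j) *
          (C3 * (j : ℝ) ^ (2 * k - 1 / 2 : ℝ)) := by
          gcongr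
      _ = 2 * k * C3 * ‖s‖ * P := by
          rw [e1, hP]
          have e2 : (2 * (k : ℝ) / j) = 2 * k * (j : ℝ) ^ (-1 : ℝ) := by
            rw [Real.rpow_neg_one]
            ring
          rw [e2]
          have e3 : (j : ℝ) ^ (2 * k * (1 - s.re) - 3 / 2) =
              (j : ℝ) ^ (-(2 * k * s.re)) * (j : ℝ) ^ (-1 : ℝ) * (j : ℝ) ^ (2 * k - 1 / 2 : ℝ) := by
            rw [← Real.rpow_add hj0, ← Real.rpow_add hj0]
            congr 1
            ring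
          rw [e3]
          ring
  -- bound for the third part
  have hT2 : C2 ^ 2 * ‖s‖ * ((j : ℝ) ^ (2 * k)) ^ (-s.re - 1) * ((j : ℝ) ^ (2 * k - 1)) ^ 2 ≤
      C2 ^ 2 * ‖s‖ * P := by
    have e1 : ((j : ℝ) ^ (2 * k)) ^ (-s.re - 1) * ((j : ℝ) ^ (2 * k - 1)) ^ 2 =
        (j : ℝ) ^ (2 * k * (1 - s.re) - 2) := by
      have b1 : ((j : ℝ) ^ (2 * k)) = (j : ℝ) ^ (2 * (k : ℝ)) := by
        rw [← Real.rpow_natCast]
        congr 1
        push_cast
        ring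
      have b2 : ((j : ℝ) ^ (2 * k - 1)) = (j : ℝ) ^ (2 * (k : ℝ) - 1) := by
        rw [← Real.rpow_natCast]
        congr 1
        rw [Nat.cast_sub (by omega)]
        push_cast
        ring
      rw [b1, b2, ← Real.rpow_mul hj0.le, ← Real.rpow_natCast, ← Real.rpow_mul hj0.le,
        ← Real.rpow_add hj0]
      congr 1
      push_cast
      ring
    have e2 : (j : ℝ) ^ (2 * k * (1 - s.re) - 2) ≤ P := by
      rw [hP]
      apply Real.rpow_le_rpow_of_exponent_le hjR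
      linarith
    calc C2 ^ 2 * ‖s‖ * ((j : ℝ) ^ (2 * k)) ^ (-s.re - 1) * ((j : ℝ) ^ (2 * k - 1)) ^ 2
        = C2 ^ 2 * ‖s‖ * (((j : ℝ) ^ (2 * k)) ^ (-s.re - 1) * ((j : ℝ) ^ (2 * k - 1)) ^ 2) := by
          ring
      _ ≤ C2 ^ 2 * ‖s‖ * P := by
          rw [e1]
          gcongr
  have hF2 : C1 * (1 + ‖s‖) * P ≤ |C1| * (1 + ‖s‖) * P := by
    gcongr
    exact le_abs_self C1
  rw [hdec]
  have hhalf : ‖(1 / 2 : ℂ) * ∑ p ∈ sqb k j, ((p : ℂ) ^ (1 - 2 * s) - (p : ℂ) * Y)‖ ≤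
      C2 ^ 2 * ‖s‖ * P := by
    rw [norm_mul]
    have : ‖(1 / 2 : ℂ)‖ = 1 / 2 := by norm_num
    rw [this]
    have h0 := norm_nonneg (∑ p ∈ sqb k j, ((p : ℂ) ^ (1 - 2 * s) - (p : ℂ) * Y))
    linarith
  have hn := norm_nonneg s
  have t1 := norm_sub_le (∑ p ∈ blk k j, (a p : ℂ) * (p : ℂ) ^ (-s) - (mu k g j : ℂ) * Y -
      (II k g j s - Y * ((∫ v in (ww k j)..(ww k (j + 1)), Real.exp v * g v : ℝ) : ℂ)))
      ((1 / 2) * ∑ p ∈ sqb k j, ((p : ℂ) ^ (1 - 2 * s) - (p : ℂ) * Y))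
  have t2 := norm_sub_le (∑ p ∈ blk k j, (a p : ℂ) * (p : ℂ) ^ (-s) - (mu k g j : ℂ) * Y)
      (II k g j s - Y * ((∫ v in (ww k j)..(ww k (j + 1)), Real.exp v * g v : ℝ) : ℂ))
  have q1 : 0 ≤ 2 * k * C3 * P := by positivity
  have q2 : 0 ≤ C2 ^ 2 * P := by positivity
  nlinarith

end H21RHB.HHB

theorem H21RHB.hhb : H21RHB.S_HHB := H21RHB.HHB.main
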