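import Pool.Agent.H21.RHB.StmB
import Pool.Agent.H21.RHB.HHB

set_option autoImplicit false

/-! # RHB-HHC: adaptation of HHB without the sum over squares (helper83) -/

namespace H21RHB.HHC

open Real Finset MeasureTheory Filter Topology

theorem main : S_HHC := by
  intro hliq hcard hmub k g P₀ a hk hg hgood
  have hk1 : 1 ≤ k := by omega
  obtain ⟨C1, hC1⟩ := hgood.first
  obtain ⟨C2, hC2pos, hC2⟩ := hcard k hk1
  obtain ⟨C3, hC3pos, hC3⟩ := hmub hcard k hk1 g hg
  refine ⟨|C1| + 2 * k * C3, by positivity, ?_⟩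
  intro j s hj hs
  have hs0 : 0 ≤ s.re := by linarith
  have hjR : (1 : ℝ) ≤ j := by exact_mod_cast hj
  have hj0 : (0 : ℝ) < j := by linarith
  obtain ⟨c1, c2, c3, c4, c5, c6⟩ := hC2 j hj
  obtain ⟨m1, m2⟩ := hC3 j hj
  have hF := hC1 j hj s hs
  have hS := HHB.second hliq k j hj c5 g hg s hs0
  set Y : ℂ := ((j ^ (2 * k) : ℕ) : ℂ) ^ (-s) with hY
  set P : ℝ := (j : ℝ) ^ (2 * k * (1 - s.re) - 3 / 2) with hP
  have hPpos : 0 < P := Real.rpow_pos_of_pos hj0 _
  -- decomposition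
  have hdec : hhc k g a j s =
      (∑ p ∈ blk k j, (a p : ℂ) * (p : ℂ) ^ (-s) - (muc k g j : ℂ) * Y) -
      (II k g j s - Y * ((∫ v in (ww k j)..(ww k (j + 1)), Real.exp v * g v : ℝ) : ℂ)) := by
    unfold hhc muc
    ring
  -- bound for the second part
  have hS2 : ‖s‖ * Real.exp (-(s.re * ww k j)) * (ww k (j + 1) - ww k j) *
      (∫ v in (ww k j)..(ww k (j + 1)), Real.exp v * |g v|) ≤ 2 * k * C3 * ‖s‖ * P := by
    have e1 : Real.exp (-(s.re * ww k j)) = (j : ℝ) ^ (-(2 * k * s.re)) := by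
      rw [Real.rpow_def_of_pos hj0]
      unfold ww
      congr 1
      ring
    have hI0 : 0 ≤ ∫ v in (ww k j)..(ww k (j + 1)), Real.exp v * |g v| := by
      apply intervalIntegral.integral_nonneg c5
      intro v _
      positivity
    calc ‖s‖ * Real.exp (-(s.re * ww k j)) * (ww k (j + 1) - ww k j) *
          (∫ v in (ww k j)..(ww k (j + 1)), Real.exp v * |g v|)
        ≤ ‖s‖ * Real.exp (-(s.re * ww k j)) * (2 * k / j) *
          (C3 * (j : ℝ) ^ (2 * k - 1 / 2 : ℝ)) := by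
          gcongr
      _ = 2 * k * C3 * ‖s‖ * P := by
          rw [e1, hP]
          have e2 : (2 * (k : ℝ) / j) = 2 * k * (j : ℝ) ^ (-1 : ℝ) := by
            rw [Real.rpow_neg_one]
            ring
          rw [e2]
          have e3 : (j : ℝ) ^ (2 * k * (1 - s.re) - 3 / 2) =
              (j : ℝ) ^ (-(2 * k * s.re)) * (j : ℝ) ^ (-1 : ℝ) * (j : ℝ) ^ (2 * k - 1 / 2 : ℝ) := by
            rw [← Real.rpow_add hj0, ← Real.rpow_add hj0]
            congr 1
            ring
          rw [e3]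
          ring
  have hF2 : C1 * (1 + ‖s‖) * P ≤ |C1| * (1 + ‖s‖) * P := by
    gcongr
    exact le_abs_self C1
  rw [hdec]
  have hn := norm_nonneg s
  have t2 := norm_sub_le (∑ p ∈ blk k j, (a p : ℂ) * (p : ℂ) ^ (-s) - (muc k g j : ℂ) * Y)
      (II k g j s - Y * ((∫ v in (ww k j)..(ww k (j + 1)), Real.exp v * g v : ℝ) : ℂ))
  have q1 : 0 ≤ 2 * k * C3 * P := by positivity
  nlinarith

end H21RHB.HHC

/-- `H21RHB.hhc` is already the name of the definition -/
theorem H21RHB.hhcT : H21RHB.S_HHC := H21RHB.HHC.main
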