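import Pool.Agent.H21.RHB.Stm

/-! Project RHB: stub HOL -/

set_option autoImplicit false

namespace H21RHB

open Real Finset MeasureTheory Filter Topology

namespace HOL

theorem sig {k : ℕ} (hk : 4 ≤ k) {σ : ℝ} (h : 1 - 1 / (8 * (k : ℝ)) < σ) :
    31 / 32 < σ ∧ 2 * (k : ℝ) * (1 - σ) ≤ 1 / 4 := by
  have hk4 : (4 : ℝ) ≤ k := by exact_mod_cast hk
  have h1 : 1 / (8 * (k : ℝ)) ≤ 1 / 32 := by
    apply one_div_le_one_div_of_le <;> linarith
  refine ⟨by linarith, ?_⟩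
  have h2 : 1 - σ ≤ 1 / (8 * (k : ℝ)) := by linarith
  calc 2 * (k : ℝ) * (1 - σ) ≤ 2 * (k : ℝ) * (1 / (8 * (k : ℝ))) :=
        mul_le_mul_of_nonneg_left h2 (by linarith)
    _ = 1 / 4 := by
        field_simp
        norm_num

theorem bound (hLIP : S_LIP) (hLIQ : S_LIQ) (hCARD : S_CARD) (hMUB : S_MUB) (hHHB : S_HHB)
    (hLOGB : S_LOGB) (k : ℕ) (g : ℝ → ℝ) (a : ℕ → ℤ) (hk : 4 ≤ k) (hg : Adm k g)
    (ha : Good k g a) : ∃ C : ℝ, 0 ≤ C ∧ ∀ (j : ℕ) (s : ℂ), 1 ≤ j →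
      1 - 1 / (8 * (k : ℝ)) < s.re →
      ‖hh k g a j s + TT k a j s + RB k a j s‖ ≤ C * (1 + ‖s‖) * (j : ℝ) ^ (-(5 / 4) : ℝ) := by
  obtain ⟨C1, hC1, h1⟩ := hHHB hLIP hLIQ hCARD hMUB k g a hk hg ha
  obtain ⟨C2, h2⟩ := ha.second
  obtain ⟨C3, hC3, h3⟩ := hLOGB
  obtain ⟨C4, hC4, h4⟩ := hCARD k (by omega)
  have hk4 : (4 : ℝ) ≤ k := by exact_mod_cast hk
  refine ⟨C1 + |C2| + C4 * C3, by positivity, fun j s hj hs => ?_⟩
  have hj1 : (1 : ℝ) ≤ j := by exact_mod_cast hj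
  have hj0 : (0 : ℝ) < j := by linarith
  obtain ⟨hσ, hσ2⟩ := sig hk hs
  have hs1 : 1 ≤ 1 + ‖s‖ := by linarith [norm_nonneg s]
  have hs0 : 0 ≤ 1 + ‖s‖ := by linarith
  set q : ℝ := (j : ℝ) ^ (-(5 / 4) : ℝ) with hq
  have hq0 : 0 ≤ q := by positivity
  have b1 : ‖hh k g a j s‖ ≤ C1 * (1 + ‖s‖) * q := by
    refine (h1 j s hj (by linarith)).trans ?_
    refine mul_le_mul_of_nonneg_left ?_ (by positivity)
    exact Real.rpow_le_rpow_of_exponent_le hj1 (by linarith)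
  have b2 : ‖TT k a j s‖ ≤ |C2| * (1 + ‖s‖) * q := by
    unfold TT
    rw [norm_mul]
    have e1 : ‖(1 / 2 : ℂ)‖ ≤ 1 := by
      rw [norm_div, norm_one, Complex.norm_ofNat]
      norm_num
    have e2 := h2 j hj s (by linarith)
    have e3 : C2 * (1 + ‖s‖) * (j : ℝ) ^ (4 * k * (1 - s.re) - 2) ≤ |C2| * (1 + ‖s‖) * q := by
      have e4 : (j : ℝ) ^ (4 * k * (1 - s.re) - 2) ≤ q :=
        Real.rpow_le_rpow_of_exponent_le hj1 (by linarith)
      calc C2 * (1 + ‖s‖) * (j : ℝ) ^ (4 * k * (1 - s.re) - 2)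
          ≤ |C2| * (1 + ‖s‖) * (j : ℝ) ^ (4 * k * (1 - s.re) - 2) := by
            apply mul_le_mul_of_nonneg_right _ (by positivity)
            exact mul_le_mul_of_nonneg_right (le_abs_self _) hs0
        _ ≤ _ := mul_le_mul_of_nonneg_left e4 (by positivity)
    calc ‖(1 / 2 : ℂ)‖ * ‖∑ p ∈ blk k j, ((a p : ℂ) ^ 2 - p) * (p : ℂ) ^ (-(2 * s))‖
        ≤ 1 * ‖∑ p ∈ blk k j, ((a p : ℂ) ^ 2 - p) * (p : ℂ) ^ (-(2 * s))‖ :=
          mul_le_mul_of_nonneg_right e1 (norm_nonneg _)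
      _ = ‖∑ p ∈ blk k j, ((a p : ℂ) ^ 2 - p) * (p : ℂ) ^ (-(2 * s))‖ := one_mul _
      _ ≤ _ := e2.trans e3
  have b3 : ‖RB k a j s‖ ≤ C4 * C3 * (1 + ‖s‖) * q := by
    unfold RB
    have e1 : ∀ p ∈ blk k j, ‖RR a p s‖ ≤ C3 * ((j : ℝ) ^ (2 * k : ℕ)) ^ (3 / 2 - 3 * s.re) := by
      intro p hp
      unfold blk at hp
      rw [Finset.mem_filter, Finset.mem_Ioc] at hp
      refine (h3 a ha.hasse ha.small p s hp.2 (by linarith)).2.2.trans ?_
      refine mul_le_mul_of_nonneg_left ?_ hC3.le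
      have e2 : ((j : ℝ) ^ (2 * k : ℕ)) ≤ p := by exact_mod_cast hp.1.1.le
      exact Real.rpow_le_rpow_of_nonpos (by positivity) e2 (by linarith)
    have e2 : ((j : ℝ) ^ (2 * k : ℕ)) ^ (3 / 2 - 3 * s.re) =
        (j : ℝ) ^ (2 * (k : ℝ) * (3 / 2 - 3 * s.re)) := by
      rw [← Real.rpow_natCast, ← Real.rpow_mul hj0.le]
      push_cast
      rfl
    have e3 : (j : ℝ) ^ (2 * k - 1) = (j : ℝ) ^ (2 * (k : ℝ) - 1) := by
      rw [← Real.rpow_natCast]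
      congr 1
      rw [Nat.cast_sub (by omega)]
      push_cast
      ring
    have e4 : (j : ℝ) ^ (2 * k - 1) * ((j : ℝ) ^ (2 * k : ℕ)) ^ (3 / 2 - 3 * s.re) ≤ q := by
      rw [e2, e3, ← Real.rpow_add hj0]
      refine Real.rpow_le_rpow_of_exponent_le hj1 ?_
      nlinarith
    calc ‖∑ p ∈ blk k j, RR a p s‖ ≤ ∑ p ∈ blk k j, ‖RR a p s‖ := norm_sum_le _ _
      _ ≤ ∑ p ∈ blk k j, C3 * ((j : ℝ) ^ (2 * k : ℕ)) ^ (3 / 2 - 3 * s.re) :=
          Finset.sum_le_sum e1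
      _ = ((blk k j).card : ℝ) * (C3 * ((j : ℝ) ^ (2 * k : ℕ)) ^ (3 / 2 - 3 * s.re)) := by
          rw [Finset.sum_const, nsmul_eq_mul]
      _ ≤ (C4 * (j : ℝ) ^ (2 * k - 1)) * (C3 * ((j : ℝ) ^ (2 * k : ℕ)) ^ (3 / 2 - 3 * s.re)) :=
          mul_le_mul_of_nonneg_right (h4 j hj).2.1 (by positivity)
      _ = C4 * C3 * ((j : ℝ) ^ (2 * k - 1) * ((j : ℝ) ^ (2 * k : ℕ)) ^ (3 / 2 - 3 * s.re)) := by
          ring
      _ ≤ C4 * C3 * q := mul_le_mul_of_nonneg_left e4 (by positivity)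
      _ ≤ C4 * C3 * (1 + ‖s‖) * q := by
          refine mul_le_mul_of_nonneg_right ?_ hq0
          exact le_mul_of_one_le_right (by positivity) hs1
  calc ‖hh k g a j s + TT k a j s + RB k a j s‖
      ≤ ‖hh k g a j s‖ + ‖TT k a j s‖ + ‖RB k a j s‖ := norm_add₃_le
    _ ≤ C1 * (1 + ‖s‖) * q + |C2| * (1 + ‖s‖) * q + C4 * C3 * (1 + ‖s‖) * q := by
        linarith
    _ = _ := by ring

theorem summ : Summable fun j : ℕ => (((j + 1 : ℕ) : ℝ)) ^ (-(5 / 4) : ℝ) := by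
  have h := (Real.summable_nat_rpow (p := (-(5 / 4) : ℝ))).2 (by norm_num)
  exact (summable_nat_add_iff 1).2 h

end HOL

open HOL in
theorem hol : S_HOL := by
  intro hLIP hLIQ hCARD hMUB hHHB hLOGB hDIFF k g a hk hg ha
  obtain ⟨C, hC, hb⟩ := bound hLIP hLIQ hCARD hMUB hHHB hLOGB k g a hk hg ha
  have hd := hDIFF hLOGB k g a hk hg ha
  have hsum' : ∀ s : ℂ, 1 - 1 / (8 * (k : ℝ)) < s.re →
      Summable (fun j : ℕ => hh k g a (j + 1) s + TT k a (j + 1) s + RB k a (j + 1) s) := by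
    intro s hs
    refine Summable.of_norm_bounded (summ.mul_left (C * (1 + ‖s‖))) fun j => ?_
    exact hb (j + 1) s (by omega) hs
  have hsum : ∀ s : ℂ, 1 - 1 / (8 * (k : ℝ)) < s.re →
      Summable (fun j : ℕ => hh k g a j s + TT k a j s + RB k a j s) := by
    intro s hs
    exact (summable_nat_add_iff (f := fun j : ℕ => hh k g a j s + TT k a j s + RB k a j s) 1).1
      (hsum' s hs)
  refine ⟨?_, hsum⟩
  have hUo : ∀ R : ℝ, IsOpen ({s : ℂ | 1 - 1 / (8 * (k : ℝ)) < s.re} ∩ Metric.ball 0 R) :=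
    fun R => (isOpen_lt continuous_const Complex.continuous_re).inter Metric.isOpen_ball
  have hsub : ∀ s : ℂ, 1 - 1 / (8 * (k : ℝ)) < s.re → 9 / 10 < s.re := by
    intro s hs
    linarith [(sig hk hs).1]
  have hshift : ∀ R : ℝ, DifferentiableOn ℂ
      (fun s => ∑' j : ℕ, (hh k g a (j + 1) s + TT k a (j + 1) s + RB k a (j + 1) s))
      ({s : ℂ | 1 - 1 / (8 * (k : ℝ)) < s.re} ∩ Metric.ball 0 R) := by
    intro R
    refine Complex.differentiableOn_tsum_of_summable_norm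
      (u := fun j : ℕ => C * (1 + R) * (((j + 1 : ℕ) : ℝ)) ^ (-(5 / 4) : ℝ))
      (summ.mul_left _) (fun j => ?_) (hUo R) fun j s hs => ?_
    · exact (hd (j + 1)).mono fun s hs => hsub s hs.1
    · refine (hb (j + 1) s (by omega) hs.1).trans ?_
      have h1 : ‖s‖ ≤ R := by
        have := hs.2
        rw [Metric.mem_ball, dist_zero_right] at this
        exact this.le
      exact mul_le_mul_of_nonneg_right (mul_le_mul_of_nonneg_left (by linarith) hC)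
        (by positivity)
  intro s₀ hs₀
  have h1 : HH k g a =ᶠ[𝓝 s₀] fun s => (hh k g a 0 s + TT k a 0 s + RB k a 0 s) +
      ∑' j : ℕ, (hh k g a (j + 1) s + TT k a (j + 1) s + RB k a (j + 1) s) := by
    filter_upwards [(isOpen_lt continuous_const Complex.continuous_re).mem_nhds
      (show 1 - 1 / (8 * (k : ℝ)) < s₀.re from hs₀)] with s hs
    unfold HH
    exact (hsum s hs).tsum_eq_zero_add
  have h2 : DifferentiableAt ℂ (fun s => hh k g a 0 s + TT k a 0 s + RB k a 0 s) s₀ :=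
    (hd 0).differentiableAt ((isOpen_lt continuous_const Complex.continuous_re).mem_nhds
      (show (9 / 10 : ℝ) < s₀.re from hsub s₀ hs₀))
  have h3 : DifferentiableAt ℂ
      (fun s => ∑' j : ℕ, (hh k g a (j + 1) s + TT k a (j + 1) s + RB k a (j + 1) s)) s₀ := by
    refine (hshift (‖s₀‖ + 1)).differentiableAt ((hUo _).mem_nhds ⟨hs₀, ?_⟩)
    rw [Metric.mem_ball, dist_zero_right]
    linarith
  exact ((h2.add h3).congr_of_eventuallyEq h1).differentiableWithinAt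

end H21RHB
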