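import Pool.Agent.H21.RHB.Stm

/-! # RHB-JJB: the logarithmic derivative of the factor of block i -/

set_option autoImplicit false

namespace H21RHB.JJB

open Real Finset MeasureTheory Filter Topology

noncomputable section

/-- alternating sums: summation by parts -/
theorem alt_id (f : ℕ → ℂ) (a b : ℕ) (hab : a ≤ b) :
    2 * ∑ m ∈ Ico a b, (-1 : ℂ) ^ m * f m =
      (-1) ^ a * f a - (-1) ^ b * f b + ∑ m ∈ Ico a b, (-1 : ℂ) ^ m * (f m - f (m + 1)) := by
  induction b, hab using Nat.le_induction with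
  | base => simp
  | succ b hb ih =>
    rw [Finset.sum_Ico_succ_top hb, Finset.sum_Ico_succ_top hb, mul_add, ih, pow_succ]
    ring

theorem tel (γ : ℕ → ℝ) (a b : ℕ) (hab : a ≤ b) :
    ∑ m ∈ Ico a b, (1 / γ m - 1 / γ (m + 1)) = 1 / γ a - 1 / γ b := by
  induction b, hab using Nat.le_induction with
  | base => simp
  | succ b hb ih =>
    rw [Finset.sum_Ico_succ_top hb, ih]
    ring

theorem alt (γ : ℕ → ℝ) (a b : ℕ) (hab : a ≤ b) (hpos : 0 < γ a)
    (hmono : Monotone γ) (w σ : ℂ) (hσ : ‖σ‖ = 1) (hw : ‖w‖ ≤ γ a / 2) :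
    ‖∑ m ∈ Ico a b, (-1 : ℂ) ^ m * (1 / (w - σ * γ m))‖ ≤ 4 / γ a := by
  have hg : ∀ m, a ≤ m → γ m / 2 ≤ ‖w - σ * γ m‖ := by
    intro m hm
    have h1 : γ a ≤ γ m := hmono hm
    have h2 : ‖σ * (γ m : ℂ)‖ = γ m := by
      rw [norm_mul, hσ, one_mul, Complex.norm_real, Real.norm_eq_abs, abs_of_pos (by linarith)]
    have h3 : ‖σ * (γ m : ℂ)‖ - ‖w‖ ≤ ‖w - σ * γ m‖ := by
      rw [norm_sub_rev]
      exact norm_sub_norm_le _ _
    rw [h2] at h3
    linarith
  have hgp : ∀ m, a ≤ m → 0 < γ m := fun m hm => lt_of_lt_of_le hpos (hmono hm)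
  have hne : ∀ m, a ≤ m → w - σ * γ m ≠ 0 := by
    intro m hm h
    have h1 := hg m hm
    rw [h, norm_zero] at h1
    linarith [hgp m hm]
  have hf : ∀ m, a ≤ m → ‖(1 : ℂ) / (w - σ * γ m)‖ ≤ 2 / γ m := by
    intro m hm
    rw [norm_div, norm_one, div_le_div_iff₀ (norm_pos_iff.2 (hne m hm)) (hgp m hm)]
    linarith [hg m hm]
  have hd : ∀ m, a ≤ m → ‖(1 : ℂ) / (w - σ * γ m) - 1 / (w - σ * γ (m + 1))‖ ≤
      4 * (1 / γ m - 1 / γ (m + 1)) := by
    intro m hm
    have e1 : (1 : ℂ) / (w - σ * γ m) - 1 / (w - σ * γ (m + 1)) =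
        σ * ((γ m : ℂ) - γ (m + 1)) / ((w - σ * γ m) * (w - σ * γ (m + 1))) := by
      rw [div_sub_div _ _ (hne m hm) (hne (m + 1) (by omega))]
      congr 1
      ring
    have h1 := hgp m hm
    have h2 := hgp (m + 1) (by omega)
    have h3 := hmono (Nat.le_succ m)
    have h3' : γ m ≤ γ (m + 1) := h3
    have e2 : ‖(γ m : ℂ) - γ (m + 1)‖ = γ (m + 1) - γ m := by
      rw [← Complex.ofReal_sub, Complex.norm_real, Real.norm_eq_abs, abs_sub_comm,
        abs_of_nonneg (by linarith)]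
    rw [e1, norm_div, norm_mul, norm_mul, hσ, one_mul, e2]
    have e3 : 4 * (1 / γ m - 1 / γ (m + 1)) = (γ (m + 1) - γ m) / ((γ m / 2) * (γ (m + 1) / 2)) := by
      field_simp
      ring
    rw [e3]
    apply div_le_div_of_nonneg_left (by linarith) (by positivity)
    exact mul_le_mul (hg m hm) (hg (m + 1) (by omega)) (by positivity) (norm_nonneg _)
  have hid := alt_id (fun m => 1 / (w - σ * γ m)) a b hab
  have hn : ‖(2 : ℂ) * ∑ m ∈ Ico a b, (-1 : ℂ) ^ m * (1 / (w - σ * γ m))‖ ≤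
      2 / γ a + 2 / γ b + 4 * (1 / γ a - 1 / γ b) := by
    rw [hid]
    refine (norm_add_le _ _).trans (add_le_add ((norm_sub_le _ _).trans (add_le_add ?_ ?_)) ?_)
    · rw [norm_mul, norm_pow, norm_neg, norm_one, one_pow, one_mul]
      exact hf a le_rfl
    · rw [norm_mul, norm_pow, norm_neg, norm_one, one_pow, one_mul]
      exact hf b hab
    · rw [← tel γ a b hab, Finset.mul_sum]
      refine (norm_sum_le _ _).trans (Finset.sum_le_sum fun m hm => ?_)
      rw [norm_mul, norm_pow, norm_neg, norm_one, one_pow, one_mul]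
      exact hd m (Finset.mem_Ico.1 hm).1
  rw [norm_mul] at hn
  have h2 : ‖(2 : ℂ)‖ = 2 := by simp
  rw [h2] at hn
  have hb : 0 < γ b := hgp b hab
  have hb' : 0 < 1 / γ b := by positivity
  have ha' : 0 < 1 / γ a := by positivity
  have e1 : 2 / γ a = 2 * (1 / γ a) := by ring
  have e2 : 2 / γ b = 2 * (1 / γ b) := by ring
  have e3 : 4 / γ a = 4 * (1 / γ a) := by ring
  rw [e1, e2] at hn
  rw [e3]
  linarith

theorem NN_gt (i : ℕ) : i < NN i := by
  unfold NN
  have h1 : (i + 1) ^ 2 + 3 < 2 ^ ((i + 1) ^ 2 + 3) := Nat.lt_two_pow_self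
  have h2 : 2 ^ ((i + 1) ^ 2 + 3) < 2 ^ (2 ^ ((i + 1) ^ 2 + 3)) := Nat.lt_two_pow_self
  have h3 : i ≤ (i + 1) ^ 2 := by nlinarith
  omega

theorem tendsto_NN : Tendsto NN atTop atTop :=
  tendsto_atTop_mono (fun i => (NN_gt i).le) tendsto_id

theorem phase_pos (i : ℕ) : 0 < phase i := by
  unfold phase
  split_ifs <;> norm_num

theorem log_NN_pos (i : ℕ) : 0 < Real.log (NN i) := by
  apply Real.log_pos
  have h : 2 ≤ NN i := by
    unfold NN
    calc 2 = 2 ^ 1 := by norm_num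
      _ ≤ 2 ^ (2 ^ ((i + 1) ^ 2 + 3)) := Nat.pow_le_pow_right (by norm_num) (Nat.one_le_two_pow)
  have : (2 : ℝ) ≤ NN i := by exact_mod_cast h
  linarith

theorem gamV (k i m : ℕ) (hk : 1 ≤ k) : gam k i m * VV k i = π * (m + phase i) := by
  have h1 := log_NN_pos i
  have hk' : (0 : ℝ) < k := by exact_mod_cast hk
  unfold gam VV UU
  field_simp
  ring

theorem expo (k i m : ℕ) (hk : 1 ≤ k) (z : ℂ) :
    Complex.exp (-((z - Complex.I * gam k i m) * VV k i)) =
      (-1) ^ m * (Complex.exp (-(z * VV k i)) * Complex.exp (Complex.I * (π * phase i))) := by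
  have h1 : (gam k i m : ℂ) * VV k i = π * (m + phase i) := by
    exact_mod_cast gamV k i m hk
  have h2 : -((z - Complex.I * gam k i m) * VV k i) =
      -(z * VV k i) + ((m : ℂ) * (π * Complex.I) + Complex.I * (π * phase i)) := by
    have : -((z - Complex.I * gam k i m) * VV k i) =
        -(z * VV k i) + Complex.I * ((gam k i m : ℂ) * VV k i) := by ring
    rw [this, h1]
    ring
  rw [h2, Complex.exp_add, Complex.exp_add, Complex.exp_nat_mul, Complex.exp_pi_mul_I]
  ring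

theorem expo' (k i m : ℕ) (hk : 1 ≤ k) (z : ℂ) :
    Complex.exp (-((z + Complex.I * gam k i m) * VV k i)) =
      (-1) ^ m * (Complex.exp (-(z * VV k i)) * Complex.exp (-(Complex.I * (π * phase i)))) := by
  have h1 : (gam k i m : ℂ) * VV k i = π * (m + phase i) := by
    exact_mod_cast gamV k i m hk
  have h2 : -((z + Complex.I * gam k i m) * VV k i) =
      -(z * VV k i) + ((m : ℂ) * (-(π * Complex.I)) + -(Complex.I * (π * phase i))) := by
    have : -((z + Complex.I * gam k i m) * VV k i) =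
        -(z * VV k i) + -(Complex.I * ((gam k i m : ℂ) * VV k i)) := by ring
    rw [this, h1]
    ring
  have h3 : Complex.exp (-(π * Complex.I)) = -1 := by
    rw [Complex.exp_neg, Complex.exp_pi_mul_I]
    norm_num
  rw [h2, Complex.exp_add, Complex.exp_add, Complex.exp_nat_mul, h3]
  ring

theorem main : S_JJB := by
  intro k R hk
  have hk' : (1 : ℝ) ≤ k := by exact_mod_cast hk
  have hlog1 : ∀ᶠ x : ℝ in atTop, 100 * k * Real.log x ≤ x ^ (1 / 4 : ℝ) := by
    have h := (isLittleO_log_rpow_atTop (by norm_num : (0 : ℝ) < 1 / 4)).def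
      (show (0 : ℝ) < 1 / (100 * k) by positivity)
    filter_upwards [h, eventually_ge_atTop 1] with x hx hx1
    rw [Real.norm_of_nonneg (Real.log_nonneg hx1), Real.norm_of_nonneg (by positivity)] at hx
    have : 100 * (k : ℝ) * Real.log x ≤ 100 * k * (1 / (100 * k) * x ^ (1 / 4 : ℝ)) := by
      gcongr
    refine this.trans (le_of_eq ?_)
    field_simp
  have hlog2 : ∀ᶠ x : ℝ in atTop, (2 * (|R| + 2)) * (32 * k * Real.log x) ≤ x := by
    have h := Real.isLittleO_log_id_atTop.def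
      (show (0 : ℝ) < 1 / ((2 * (|R| + 2)) * (32 * k)) by positivity)
    filter_upwards [h, eventually_ge_atTop 1] with x hx hx1
    rw [Real.norm_of_nonneg (Real.log_nonneg hx1), id, Real.norm_of_nonneg (by linarith)] at hx
    have : (2 * (|R| + 2)) * (32 * k * Real.log x) ≤
        (2 * (|R| + 2)) * (32 * k * (1 / ((2 * (|R| + 2)) * (32 * k)) * x)) := by
      gcongr
    refine this.trans (le_of_eq ?_)
    field_simp
  have hN : Tendsto (fun i : ℕ => (NN i : ℝ)) atTop atTop :=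
    tendsto_natCast_atTop_atTop.comp tendsto_NN
  obtain ⟨i₀, hi₀⟩ := eventually_atTop.1 ((hN.eventually hlog1).and (hN.eventually hlog2))
  refine ⟨i₀, fun i s hi hs hre => ?_⟩
  obtain ⟨h1, h2⟩ := hi₀ i hi
  have hL := log_NN_pos i
  have hph := phase_pos i
  have hN0 : (0 : ℝ) < NN i := by
    have := NN_gt i
    exact_mod_cast (Nat.zero_le i).trans_lt this
  have hU : 0 < UU k i := by
    unfold UU
    positivity
  have hV : 0 < VV k i := by
    unfold VV
    positivity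
  have hmono : Monotone (gam k i) := by
    intro m m' hm
    unfold gam
    have : (m : ℝ) ≤ m' := by exact_mod_cast hm
    have hpi := Real.pi_pos
    gcongr
  have hgN : NN i / UU k i ≤ gam k i (NN i) := by
    unfold gam
    apply div_le_div_of_nonneg_right _ hU.le
    have hpi := Real.pi_gt_three
    nlinarith
  have hgN2 : 2 * (|R| + 2) ≤ gam k i (NN i) := by
    refine le_trans ?_ hgN
    rw [le_div_iff₀ hU]
    exact h2
  have hgpos : 0 < gam k i (NN i) := by
    have := abs_nonneg R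
    linarith
  refine ⟨?_, ?_⟩
  swap
  · intro m hm
    have hm1 := (Finset.mem_Ico.1 hm).1
    have := hmono hm1
    have h3 := le_abs_self R
    have h4 := abs_nonneg R
    linarith
  -- main estimate
  have hNN : NN i ≤ NN i ^ 2 := by
    rw [pow_two]
    have := NN_gt i
    exact Nat.le_mul_of_pos_left _ (by omega)
  have hw0 : ‖s‖ ≤ gam k i (NN i) / 2 := by
    have h3 := le_abs_self R
    linarith
  have hw1 : ‖s - 1‖ ≤ gam k i (NN i) / 2 := by
    have h3 := le_abs_self R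
    have h4 := norm_sub_le s 1
    rw [norm_one] at h4
    linarith
  have hI : ‖Complex.I‖ = 1 := Complex.norm_I
  have hI' : ‖-Complex.I‖ = 1 := by rw [norm_neg, Complex.norm_I]
  have A1 := alt (gam k i) (NN i) (NN i ^ 2) hNN hgpos hmono (s - 1) Complex.I hI hw1
  have A2 := alt (gam k i) (NN i) (NN i ^ 2) hNN hgpos hmono s Complex.I hI hw0
  have A3 := alt (gam k i) (NN i) (NN i ^ 2) hNN hgpos hmono (s - 1) (-Complex.I) hI' hw1
  have A4 := alt (gam k i) (NN i) (NN i ^ 2) hNN hgpos hmono s (-Complex.I) hI' hw0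
  set E1 : ℂ := Complex.exp (-((s - 1) * VV k i)) with hE1
  set E2 : ℂ := Complex.exp (-(s * VV k i)) with hE2
  set P1 : ℂ := Complex.exp (Complex.I * (π * phase i)) with hP1
  set P2 : ℂ := Complex.exp (-(Complex.I * (π * phase i))) with hP2
  have hJ : JJ k i s =
      E1 * P1 * ∑ m ∈ Ico (NN i) (NN i ^ 2), (-1 : ℂ) ^ m * (1 / ((s - 1) - Complex.I * gam k i m)) -
      E2 * P1 * ∑ m ∈ Ico (NN i) (NN i ^ 2), (-1 : ℂ) ^ m * (1 / (s - Complex.I * gam k i m)) +
      (E1 * P2 * ∑ m ∈ Ico (NN i) (NN i ^ 2),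
        (-1 : ℂ) ^ m * (1 / ((s - 1) - (-Complex.I) * gam k i m)) -
      E2 * P2 * ∑ m ∈ Ico (NN i) (NN i ^ 2),
        (-1 : ℂ) ^ m * (1 / (s - (-Complex.I) * gam k i m))) := by
    unfold JJ ms
    simp only [Finset.mul_sum, ← Finset.sum_sub_distrib, ← Finset.sum_add_distrib]
    refine Finset.sum_congr rfl fun m _ => ?_
    rw [expo k i m hk (s - 1), expo k i m hk s, expo' k i m hk (s - 1), expo' k i m hk s]
    rw [show (s - 1) - (-Complex.I) * gam k i m = s - 1 + Complex.I * gam k i m by ring,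
      show s - (-Complex.I) * gam k i m = s + Complex.I * gam k i m by ring]
    ring
  have hnP1 : ‖P1‖ = 1 := by
    rw [hP1, Complex.norm_exp]
    simp
  have hnP2 : ‖P2‖ = 1 := by
    rw [hP2, Complex.norm_exp]
    simp
  have hVL : VV k i * (1 / (32 * k)) = Real.log (NN i) / 2 := by
    unfold VV
    field_simp
    norm_num
  have hsq : Real.exp (Real.log (NN i) / 2) = (NN i : ℝ) ^ (1 / 2 : ℝ) := by
    rw [Real.rpow_def_of_pos hN0]
    congr 1
    ring
  have hnE1 : ‖E1‖ ≤ (NN i : ℝ) ^ (1 / 2 : ℝ) := by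
    rw [hE1, Complex.norm_exp, ← hsq]
    apply Real.exp_le_exp.2
    have : (-((s - 1) * (VV k i : ℂ))).re = (1 - s.re) * VV k i := by
      simp
      ring
    rw [this, ← hVL, mul_comm]
    apply mul_le_mul_of_nonneg_left _ hV.le
    linarith
  have hnE2 : ‖E2‖ ≤ (NN i : ℝ) ^ (1 / 2 : ℝ) := by
    rw [hE2, Complex.norm_exp, ← hsq]
    apply Real.exp_le_exp.2
    have : (-(s * (VV k i : ℂ))).re = (-s.re) * VV k i := by
      simp
    rw [this, ← hVL, mul_comm]
    apply mul_le_mul_of_nonneg_left _ hV.le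
    linarith
  set g := gam k i (NN i) with hg
  have hnn : ‖JJ k i s‖ ≤ (NN i : ℝ) ^ (1 / 2 : ℝ) * (4 / g) + (NN i : ℝ) ^ (1 / 2 : ℝ) * (4 / g) +
      ((NN i : ℝ) ^ (1 / 2 : ℝ) * (4 / g) + (NN i : ℝ) ^ (1 / 2 : ℝ) * (4 / g)) := by
    rw [hJ]
    refine (norm_add_le _ _).trans (add_le_add ((norm_sub_le _ _).trans (add_le_add ?_ ?_))
      ((norm_sub_le _ _).trans (add_le_add ?_ ?_)))
    · rw [norm_mul, norm_mul, hnP1, mul_one]
      exact mul_le_mul hnE1 A1 (norm_nonneg _) (by positivity)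
    · rw [norm_mul, norm_mul, hnP1, mul_one]
      exact mul_le_mul hnE2 A2 (norm_nonneg _) (by positivity)
    · rw [norm_mul, norm_mul, hnP2, mul_one]
      exact mul_le_mul hnE1 A3 (norm_nonneg _) (by positivity)
    · rw [norm_mul, norm_mul, hnP2, mul_one]
      exact mul_le_mul hnE2 A4 (norm_nonneg _) (by positivity)
  refine hnn.trans ?_
  -- 16 N^(1/2) / g ≤ N^(-1/4)
  have hg2 : 6 * NN i / UU k i ≤ g := by
    rw [hg]
    unfold gam
    apply div_le_div_of_nonneg_right _ hU.le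
    have hpi := Real.pi_gt_three
    nlinarith
  have hg3 : 4 / g ≤ 4 / (6 * NN i / UU k i) :=
    div_le_div_of_nonneg_left (by norm_num) (by positivity) hg2
  have e1 : 4 / (6 * (NN i : ℝ) / UU k i) = (64 / 3) * (k * Real.log (NN i)) / NN i := by
    unfold UU
    field_simp
    ring
  have hrp : (NN i : ℝ) ^ (1 / 2 : ℝ) * ((NN i : ℝ) ^ (1 / 4 : ℝ) / NN i) =
      (NN i : ℝ) ^ (-(1 / 4) : ℝ) := by
    have : ((NN i : ℝ) ^ (1 / 4 : ℝ) / NN i) = (NN i : ℝ) ^ (1 / 4 - 1 : ℝ) := by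
      rw [Real.rpow_sub hN0, Real.rpow_one]
    rw [this, ← Real.rpow_add hN0]
    norm_num
  have h5 : 4 * (4 / g) ≤ (NN i : ℝ) ^ (1 / 4 : ℝ) / NN i := by
    calc 4 * (4 / g) ≤ 4 * ((64 / 3) * (k * Real.log (NN i)) / NN i) := by
          rw [← e1]
          linarith
      _ = (256 / 3) * (k * Real.log (NN i)) / NN i := by ring
      _ ≤ (NN i : ℝ) ^ (1 / 4 : ℝ) / NN i := by
          apply div_le_div_of_nonneg_right _ hN0.le
          have : 0 < (k : ℝ) * Real.log (NN i) := by positivity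
          linarith
  rw [← hrp]
  have h6 : 0 ≤ (NN i : ℝ) ^ (1 / 2 : ℝ) := by positivity
  calc (NN i : ℝ) ^ (1 / 2 : ℝ) * (4 / g) + (NN i : ℝ) ^ (1 / 2 : ℝ) * (4 / g) +
      ((NN i : ℝ) ^ (1 / 2 : ℝ) * (4 / g) + (NN i : ℝ) ^ (1 / 2 : ℝ) * (4 / g)) =
      (NN i : ℝ) ^ (1 / 2 : ℝ) * (4 * (4 / g)) := by ring
    _ ≤ (NN i : ℝ) ^ (1 / 2 : ℝ) * ((NN i : ℝ) ^ (1 / 4 : ℝ) / NN i) :=
        mul_le_mul_of_nonneg_left h5 h6

end

end H21RHB.JJB
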