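import Pool.Agent.H21.RHB.Stm

/-! Project RHB, stub LIQ (helper44) -/

set_option autoImplicit false

namespace H21RHB

open Real Finset MeasureTheory Filter Topology

theorem liq : S_LIQ := by
  intro s v w hwv hs
  have hd : ∀ x ∈ Set.Icc w v, HasDerivWithinAt (fun x : ℝ => Complex.exp (-(s * x)))
      (-s * Complex.exp (-(s * x))) (Set.Icc w v) x := by
    intro x _
    have h1 : HasDerivAt (fun x : ℝ => -(s * (x : ℂ))) (-s) x := by
      refine ((hasDerivAt_id x).ofReal_comp.const_mul s).neg.congr_deriv ?_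
      simp
    have h2 := h1.cexp
    refine (h2.congr_deriv ?_).hasDerivWithinAt
    ring
  have hb : ∀ x ∈ Set.Ico w v, ‖-s * Complex.exp (-(s * x))‖ ≤ ‖s‖ * Real.exp (-(s.re * w)) := by
    intro x hx
    rw [norm_mul, norm_neg, Complex.norm_exp]
    apply mul_le_mul_of_nonneg_left _ (norm_nonneg _)
    apply Real.exp_le_exp.2
    have h3 := mul_le_mul_of_nonneg_left hx.1 hs
    simp only [Complex.neg_re, Complex.mul_re, Complex.ofReal_re, Complex.ofReal_im, mul_zero,
      sub_zero]
    linarith
  exact norm_image_sub_le_of_norm_deriv_le_segment' hd hb v ⟨hwv, le_rfl⟩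

end H21RHB
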