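import Pool.Agent.H21.RHB.Stm

/-! Stub LOGB of project RHB: the logarithm of an Euler factor. -/

set_option autoImplicit false

namespace H21RHB.LOGB

open Real Finset Filter Topology

theorem log_bound (z : ℂ) (hz : ‖z‖ ≤ 3 / 4) :
    ‖-Complex.log (1 - z) - z - z ^ 2 / 2‖ ≤ 4 / 3 * ‖z‖ ^ 3 := by
  have h := Complex.norm_log_sub_logTaylor_le 2 (z := -z) (by rw [norm_neg]; linarith)
  have e : Complex.logTaylor (2 + 1) (-z) = -z - z ^ 2 / 2 := by
    rw [Complex.logTaylor]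
    simp only [sum_range_succ, range_zero, sum_empty]
    norm_num
    ring
  rw [e, norm_neg] at h
  have e2 : -Complex.log (1 - z) - z - z ^ 2 / 2 =
      -(Complex.log (1 + -z) - (-z - z ^ 2 / 2)) := by ring_nf
  rw [e2, norm_neg]
  refine h.trans ?_
  have h1 : (1 - ‖z‖)⁻¹ ≤ 4 := by
    rw [inv_le_comm₀ (by linarith) (by norm_num)]
    linarith
  have h3 : 0 ≤ ‖z‖ ^ 3 := by positivity
  push_cast
  norm_num
  nlinarith

theorem logb : S_LOGB := by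
  refine ⟨39, by norm_num, fun a ha hs p s hp hσ => ?_⟩
  have hp2 : (2 : ℝ) ≤ p := by exact_mod_cast hp.two_le
  have hP : (0 : ℝ) < p := by linarith
  have hpC : (p : ℂ) ≠ 0 := by exact_mod_cast hp.ne_zero
  obtain ⟨x, hx⟩ : ∃ x : ℂ, x = (p : ℂ) ^ (-s) := ⟨_, rfl⟩
  have e1 : (p : ℂ) ^ (1 - 2 * s) = p * x ^ 2 := by
    rw [show (1 - 2 * s : ℂ) = 1 + (-s + -s) by ring, Complex.cpow_add _ _ hpC,
      Complex.cpow_add _ _ hpC, Complex.cpow_one, ← hx]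
    ring
  have e2 : (p : ℂ) ^ (-(2 * s)) = x ^ 2 := by
    rw [show (-(2 * s) : ℂ) = -s + -s by ring, Complex.cpow_add _ _ hpC, ← hx]
    ring
  obtain ⟨y, hy⟩ : ∃ y : ℝ, y = ‖x‖ := ⟨_, rfl⟩
  have hyn : y = (p : ℝ) ^ (-s.re) := by
    rw [hy, hx, Complex.norm_natCast_cpow_of_pos hp.pos, Complex.neg_re]
  have hy0 : 0 ≤ y := by rw [hy]; exact norm_nonneg _
  obtain ⟨r, hr⟩ : ∃ r : ℝ, r = √(p : ℝ) := ⟨_, rfl⟩
  have hr0 : 0 ≤ r := by rw [hr]; exact Real.sqrt_nonneg _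
  have hr2 : r ^ 2 = p := by rw [hr]; exact Real.sq_sqrt hP.le
  obtain ⟨q, hq⟩ : ∃ q : ℝ, q = r * y := ⟨_, rfl⟩
  have hqr : q = (p : ℝ) ^ (1 / 2 - s.re) := by
    rw [hq, hr, hyn, Real.sqrt_eq_rpow, ← Real.rpow_add hP]
    congr 1
  have hq0 : 0 ≤ q := by rw [hq]; positivity
  have hq3 : q ^ 3 = (p : ℝ) ^ (3 / 2 - 3 * s.re) := by
    rw [hqr, ← Real.rpow_natCast, ← Real.rpow_mul hP.le]
    congr 1
    push_cast
    ring
  have hq5 : q ^ 5 ≤ 1 / (p : ℝ) ^ 2 := by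
    have h1 : q ^ 5 = (p : ℝ) ^ (5 / 2 - 5 * s.re) := by
      rw [hqr, ← Real.rpow_natCast, ← Real.rpow_mul hP.le]
      congr 1
      push_cast
      ring
    have h2 : (1 : ℝ) / (p : ℝ) ^ 2 = (p : ℝ) ^ (-2 : ℝ) := by
      rw [Real.rpow_neg hP.le, one_div]
      congr 1
      norm_cast
    rw [h1, h2]
    exact Real.rpow_le_rpow_of_exponent_le (by linarith) (by linarith)
  have hq1 : q ≤ 1 := by
    rw [hqr]
    exact Real.rpow_le_one_of_one_le_of_nonpos (by linarith) (by linarith)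
  obtain ⟨z, hz⟩ : ∃ z : ℂ, z = (a p : ℂ) * x - p * x ^ 2 := ⟨_, rfl⟩
  have heul : eul a p s = 1 - z := by
    unfold eul
    rw [e1, ← hx, hz]
    ring
  have hA : ‖(a p : ℂ)‖ ≤ 2 * r := by
    rw [Complex.norm_intCast, hr]
    exact ha p hp
  have hPn : ‖(p : ℂ)‖ = r ^ 2 := by
    rw [Complex.norm_natCast, hr2]
  have hax : ‖(a p : ℂ) * x‖ ≤ 2 * q := by
    rw [norm_mul, ← hy, hq, ← mul_assoc]
    exact mul_le_mul_of_nonneg_right hA hy0
  have hpx : ‖(p : ℂ) * x ^ 2‖ = q ^ 2 := by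
    rw [norm_mul, norm_pow, ← hy, hPn, hq]
    ring
  have hz3 : ‖z‖ ≤ 3 * q := by
    rw [hz]
    refine (norm_sub_le _ _).trans ?_
    rw [hpx]
    nlinarith
  have hz34 : ‖z‖ ≤ 3 / 4 := by
    by_cases hsm : p < 10 ^ 6
    · have ha0 := hs p hp hsm
      rw [hz, ha0, Int.cast_zero, zero_mul, zero_sub, norm_neg, hpx]
      by_contra hcon
      rw [not_le] at hcon
      have h1 : (3 / 4 : ℝ) ^ 5 < (q ^ 2) ^ 5 := pow_lt_pow_left₀ hcon (by norm_num) (by norm_num)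
      have h2 : q ^ 5 ≤ 1 / 4 := by
        refine hq5.trans ?_
        rw [div_le_div_iff₀ (by positivity) (by norm_num)]
        nlinarith
      have h3 : (q ^ 2) ^ 5 ≤ (1 / 4) ^ 2 := by
        calc (q ^ 2) ^ 5 = (q ^ 5) ^ 2 := by ring
          _ ≤ (1 / 4) ^ 2 := pow_le_pow_left₀ (by positivity) h2 2
      norm_num at h1 h3
      linarith
    · rw [not_lt] at hsm
      have hbig : (10 : ℝ) ^ 6 ≤ p := by exact_mod_cast hsm
      have hq10 : q ≤ 1 / 10 := by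
        by_contra hcon
        rw [not_le] at hcon
        have h1 : (1 / 10 : ℝ) ^ 5 < q ^ 5 := pow_lt_pow_left₀ hcon (by norm_num) (by norm_num)
        have h2 : (1 : ℝ) / (p : ℝ) ^ 2 ≤ 1 / (10 ^ 6) ^ 2 :=
          div_le_div_of_nonneg_left (by norm_num) (by norm_num)
            (pow_le_pow_left₀ (by norm_num) hbig 2)
        have h3 := hq5.trans h2
        norm_num at h1 h3
        linarith
      linarith
  refine ⟨?_, ?_, ?_⟩
  · rw [heul, show (1 - z - 1 : ℂ) = -z by ring, norm_neg]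
    exact hz34
  · rw [heul, show (1 - z - 1 : ℂ) = -z by ring, norm_neg, ← hqr]
    exact hz3
  · rw [← hq3]
    have hRR : RR a p s = (-Complex.log (1 - z) - z - z ^ 2 / 2) +
        (-((a p : ℂ) * p * x ^ 3) + (p : ℂ) ^ 2 * x ^ 4 / 2) := by
      unfold RR
      rw [heul, e1, e2, ← hx, hz]
      ring
    rw [hRR]
    have h1 := log_bound z hz34
    have h2 : ‖(a p : ℂ) * p * x ^ 3‖ ≤ 2 * q ^ 3 := by
      rw [norm_mul, norm_mul, norm_pow, ← hy, hPn]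
      calc ‖(a p : ℂ)‖ * r ^ 2 * y ^ 3 ≤ (2 * r) * r ^ 2 * y ^ 3 := by gcongr
        _ = 2 * q ^ 3 := by rw [hq]; ring
    have h3 : ‖(p : ℂ) ^ 2 * x ^ 4 / 2‖ = q ^ 4 / 2 := by
      rw [norm_div, norm_mul, norm_pow, norm_pow, ← hy, hPn, hq]
      norm_num
      ring
    have h4 : ‖z‖ ^ 3 ≤ (3 * q) ^ 3 := pow_le_pow_left₀ (norm_nonneg _) hz3 3
    have h5 : q ^ 4 ≤ q ^ 3 := by
      have : q ^ 4 = q ^ 3 * q := by ring
      rw [this]
      exact mul_le_of_le_one_right (by positivity) hq1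
    have h6 : 0 ≤ q ^ 3 := by positivity
    calc ‖(-Complex.log (1 - z) - z - z ^ 2 / 2) +
          (-((a p : ℂ) * p * x ^ 3) + (p : ℂ) ^ 2 * x ^ 4 / 2)‖
        ≤ 4 / 3 * ‖z‖ ^ 3 + (2 * q ^ 3 + q ^ 4 / 2) := by
          refine (norm_add_le _ _).trans (add_le_add h1 ((norm_add_le _ _).trans ?_))
          rw [norm_neg, h3]
          linarith
      _ ≤ 39 * q ^ 3 := by nlinarith

end H21RHB.LOGB
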