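import Pool.Agent.H21.RHB.StmB

/-! Stub LOGC of project RHB: the quotient of two Euler factors. -/

set_option autoImplicit false

namespace H21RHB.LOGC

open Real Finset Filter Topology

theorem small {p : ℕ} (hp : 10 ^ 6 ≤ p) {a : ℝ} (ha : a ≤ -(2 / 5)) :
    (p : ℝ) ^ a ≤ 1 / 250 := by
  have hpR : (10 : ℝ) ^ 6 ≤ p := by exact_mod_cast hp
  have hp1 : (1 : ℝ) ≤ p := by linarith
  have h1 : (p : ℝ) ^ a ≤ (p : ℝ) ^ (-(2 / 5) : ℝ) := Real.rpow_le_rpow_of_exponent_le hp1 ha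
  have h2 : (p : ℝ) ^ (-(2 / 5) : ℝ) ≤ ((10 : ℝ) ^ 6) ^ (-(2 / 5) : ℝ) :=
    Real.rpow_le_rpow_of_nonpos (by norm_num) hpR (by norm_num)
  have h3 : ((10 : ℝ) ^ 6) ^ (-(2 / 5) : ℝ) ≤ 1 / 250 := by
    have h4 : (((10 : ℝ) ^ 6) ^ (-(2 / 5) : ℝ)) ^ 5 = (10 : ℝ) ^ (-12 : ℤ) := by
      rw [← Real.rpow_natCast (((10 : ℝ) ^ 6) ^ (-(2 / 5) : ℝ)) 5, ← Real.rpow_mul (by norm_num),
        ← Real.rpow_natCast 10 6, ← Real.rpow_mul (by norm_num), ← Real.rpow_intCast]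
      norm_num
    have h5 : (((10 : ℝ) ^ 6) ^ (-(2 / 5) : ℝ)) ^ 5 ≤ (1 / 250 : ℝ) ^ 5 := by
      rw [h4]; norm_num
    exact le_of_pow_le_pow_left₀ (by norm_num) (by norm_num) h5
  linarith

theorem logc : S_LOGC := by
  refine ⟨6, by norm_num, fun k e c hk he hc hs p s hp hσ hE => ?_⟩
  have hp0 : (0 : ℝ) < p := by exact_mod_cast hp.pos
  by_cases hlt : p < 10 ^ 6
  · have hc0 := hs p hp hlt
    have h1 : eul (e + c) p s = eul e p s := by
      unfold eul; rw [Pi.add_apply, hc0, add_zero]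
    have h2 : eul (e + c) p s / eul e p s = 1 := by rw [h1, div_self hE]
    refine ⟨?_, ?_, ?_⟩
    · rw [h2]; norm_num
    · rw [h2, sub_self, norm_zero]; positivity
    · unfold RC; rw [h2, hc0, Complex.log_one]
      simp only [Int.cast_zero, zero_mul, neg_zero, sub_zero, norm_zero]
      positivity
  · have hp6 : 10 ^ 6 ≤ p := by omega
    have hp1 : (1 : ℝ) ≤ p := by exact_mod_cast hp.one_le
    have hx : ‖(p : ℂ) ^ (-s)‖ = (p : ℝ) ^ (-s.re) := by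
      rw [Complex.norm_natCast_cpow_of_pos hp.pos, Complex.neg_re]
    have hx2 : ‖(p : ℂ) ^ (1 - 2 * s)‖ = (p : ℝ) ^ (1 - 2 * s.re) := by
      rw [Complex.norm_natCast_cpow_of_pos hp.pos]
      congr 1; simp
    obtain ⟨w, hw⟩ : ∃ w : ℂ, w = (c p : ℂ) * (p : ℂ) ^ (-s) := ⟨_, rfl⟩
    obtain ⟨E, hEe⟩ : ∃ E : ℂ, E = eul e p s := ⟨_, rfl⟩
    rw [← hEe] at hE
    -- size of w
    have hcp : |(c p : ℝ)| ≤ (p : ℝ) ^ (1 / 8 : ℝ) := by
      refine (hc p hp).trans (Real.rpow_le_rpow_of_exponent_le hp1 ?_)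
      have : (4 : ℝ) ≤ k := by exact_mod_cast hk
      rw [div_le_div_iff₀ (by positivity) (by norm_num)]
      linarith
    have hwn : ‖w‖ ≤ (p : ℝ) ^ (1 / 8 - s.re) := by
      rw [hw, norm_mul, hx, Complex.norm_intCast, sub_eq_add_neg, Real.rpow_add hp0]
      exact mul_le_mul_of_nonneg_right hcp (by positivity)
    have hw1 : ‖w‖ ≤ 1 / 250 := hwn.trans (small hp6 (by linarith))
    -- size of E - 1
    have hq : (p : ℝ) ^ (1 / 2 - s.re) ≤ 1 / 250 := small hp6 (by linarith)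
    have hq0 : 0 ≤ (p : ℝ) ^ (1 / 2 - s.re) := by positivity
    have hE1 : ‖E - 1‖ ≤ 3 * (p : ℝ) ^ (1 / 2 - s.re) := by
      have h1 : E - 1 = -((e p : ℂ) * (p : ℂ) ^ (-s)) + (p : ℂ) ^ (1 - 2 * s) := by
        rw [hEe]; unfold eul; ring
      rw [h1]
      refine (norm_add_le _ _).trans ?_
      rw [norm_neg, norm_mul, hx, hx2, Complex.norm_intCast]
      have h2 : |(e p : ℝ)| * (p : ℝ) ^ (-s.re) ≤ 2 * (p : ℝ) ^ (1 / 2 - s.re) := by
        calc |(e p : ℝ)| * (p : ℝ) ^ (-s.re) ≤ (2 * √p) * (p : ℝ) ^ (-s.re) :=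
              mul_le_mul_of_nonneg_right (he p hp) (by positivity)
          _ = 2 * (p : ℝ) ^ (1 / 2 - s.re) := by
              rw [Real.sqrt_eq_rpow, mul_assoc, ← Real.rpow_add hp0]; congr 2
      have h3 : (p : ℝ) ^ (1 - 2 * s.re) ≤ (p : ℝ) ^ (1 / 2 - s.re) :=
        Real.rpow_le_rpow_of_exponent_le hp1 (by linarith)
      linarith
    have hEn : 9 / 10 ≤ ‖E‖ := by
      have h1 : ‖(1 : ℂ)‖ ≤ ‖E‖ + ‖E - 1‖ := by
        have := norm_sub_le E (E - 1)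
        rwa [sub_sub_cancel] at this
      rw [norm_one] at h1
      linarith
    have hEpos : 0 < ‖E‖ := by linarith
    obtain ⟨u, hu⟩ : ∃ u : ℂ, u = w / E := ⟨_, rfl⟩
    have hun : ‖u‖ ≤ 10 / 9 * ‖w‖ := by
      rw [hu, norm_div, div_le_iff₀ hEpos]
      nlinarith [norm_nonneg w]
    have hquot : eul (e + c) p s / eul e p s = 1 - u := by
      have h1 : eul (e + c) p s = E - w := by
        rw [hEe, hw]; unfold eul; rw [Pi.add_apply]; push_cast; ring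
      rw [h1, ← hEe, hu, sub_div, div_self hE]
    have hu1 : ‖u‖ ≤ 1 / 2 := by linarith
    have hwnn := norm_nonneg w
    refine ⟨?_, ?_, ?_⟩
    · rw [hquot, sub_sub_cancel_left, norm_neg]; exact hu1
    · rw [hquot, sub_sub_cancel_left, norm_neg]; linarith
    · unfold RC
      rw [hquot, ← hw]
      have h1 : -Complex.log (1 - u) - w = -(Complex.log (1 + -u) - (-u)) + (u - w) := by
        rw [← sub_eq_add_neg]; ring
      rw [h1]
      refine (norm_add_le _ _).trans ?_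
      rw [norm_neg]
      have h2 := Complex.norm_log_one_add_sub_self_le (z := -u) (by rw [norm_neg]; linarith)
      rw [norm_neg] at h2
      have h3 : ‖u‖ ^ 2 * (1 - ‖u‖)⁻¹ / 2 ≤ ‖u‖ ^ 2 := by
        have h4 : (1 - ‖u‖)⁻¹ ≤ 2 := by
          rw [inv_le_comm₀ (by linarith) (by norm_num)]
          linarith
        nlinarith [sq_nonneg ‖u‖]
      have h5 : ‖u‖ ^ 2 ≤ 2 * (p : ℝ) ^ (5 / 8 - 2 * s.re) := by
        have h6 : ‖u‖ ^ 2 ≤ (10 / 9 * (p : ℝ) ^ (1 / 8 - s.re)) ^ 2 :=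
          pow_le_pow_left₀ (norm_nonneg u) (hun.trans (by linarith)) 2
        have h7 : ((p : ℝ) ^ (1 / 8 - s.re)) ^ 2 ≤ (p : ℝ) ^ (5 / 8 - 2 * s.re) := by
          rw [← Real.rpow_natCast, ← Real.rpow_mul hp0.le]
          apply Real.rpow_le_rpow_of_exponent_le hp1
          push_cast; linarith
        have h8 : 0 ≤ ((p : ℝ) ^ (1 / 8 - s.re)) ^ 2 := by positivity
        nlinarith
      have h9 : ‖u - w‖ ≤ 10 / 3 * (p : ℝ) ^ (5 / 8 - 2 * s.re) := by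
        have h10 : u - w = -(u * (E - 1)) := by
          rw [hu]; field_simp; ring
        rw [h10, norm_neg, norm_mul]
        calc ‖u‖ * ‖E - 1‖ ≤ (10 / 9 * (p : ℝ) ^ (1 / 8 - s.re)) *
              (3 * (p : ℝ) ^ (1 / 2 - s.re)) :=
              mul_le_mul (hun.trans (by linarith)) hE1 (norm_nonneg _) (by positivity)
          _ = 10 / 3 * ((p : ℝ) ^ (1 / 8 - s.re) * (p : ℝ) ^ (1 / 2 - s.re)) := by ring
          _ = _ := by rw [← Real.rpow_add hp0]; congr 2; ring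
      have h11 : 0 ≤ (p : ℝ) ^ (5 / 8 - 2 * s.re) := by positivity
      linarith

end H21RHB.LOGC

theorem H21RHB.logc : H21RHB.S_LOGC := H21RHB.LOGC.logc
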