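import Pool.Agent.H21.RHB.Stm

set_option autoImplicit false

namespace H21RHB.MER

open Real Finset

lemma theta (t : ℕ) : ∑ p ∈ (Ioc t (2 * t)).filter Nat.Prime, Real.log p ≤ 4 * t * Real.log 2 := by
  have h1 : ∑ p ∈ (Ioc t (2 * t)).filter Nat.Prime, Real.log p =
      Real.log ((∏ p ∈ (Ioc t (2 * t)).filter Nat.Prime, p : ℕ) : ℝ) := by
    rw [Nat.cast_prod, Real.log_prod]
    intro p hp
    rw [mem_filter] at hp
    exact_mod_cast hp.2.ne_zero
  rw [h1]
  have h2 : ∏ p ∈ (Ioc t (2 * t)).filter Nat.Prime, p ≤ 4 ^ (2 * t) := by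
    refine le_trans ?_ (primorial_le_four_pow (2 * t))
    unfold primorial
    refine Finset.prod_le_prod_of_subset_of_one_le' ?_ ?_
    · intro p hp
      rw [mem_filter, mem_Ioc] at hp
      rw [mem_filter, mem_range]
      exact ⟨by omega, hp.2⟩
    · intro p hp _
      rw [mem_filter] at hp
      exact hp.2.one_lt.le
  have h3 : (0 : ℝ) < ((∏ p ∈ (Ioc t (2 * t)).filter Nat.Prime, p : ℕ) : ℝ) := by
    have : 0 < ∏ p ∈ (Ioc t (2 * t)).filter Nat.Prime, p := by
      refine Finset.prod_pos fun p hp => ?_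
      rw [mem_filter] at hp
      exact hp.2.pos
    exact_mod_cast this
  have h4 : Real.log ((∏ p ∈ (Ioc t (2 * t)).filter Nat.Prime, p : ℕ) : ℝ) ≤ Real.log ((4 : ℝ) ^ (2 * t)) := by
    apply Real.log_le_log h3
    exact_mod_cast h2
  refine h4.trans (le_of_eq ?_)
  rw [Real.log_pow]
  have h5 : Real.log 4 = 2 * Real.log 2 := by
    have : (4 : ℝ) = 2 ^ 2 := by norm_num
    rw [this, Real.log_pow]
    norm_num
  rw [h5]
  push_cast
  ring

lemma block (x t : ℕ) (hx : 2 ≤ x) (ht : x ≤ t) :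
    ∑ p ∈ (Ioc t (2 * t)).filter Nat.Prime, (1 / (p : ℝ)) ≤ 4 * Real.log 2 / Real.log x := by
  have hx0 : (1 : ℝ) < x := by exact_mod_cast (by omega : 1 < x)
  have hlx : 0 < Real.log x := Real.log_pos hx0
  have ht0 : (0 : ℝ) < t := by exact_mod_cast (by omega : 0 < t)
  have hlt : Real.log x ≤ Real.log t := Real.log_le_log (by linarith) (by exact_mod_cast ht)
  have h1 : ∑ p ∈ (Ioc t (2 * t)).filter Nat.Prime, (1 / (p : ℝ)) ≤
      ∑ p ∈ (Ioc t (2 * t)).filter Nat.Prime, Real.log p * (1 / (t * Real.log x)) := by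
    refine Finset.sum_le_sum fun p hp => ?_
    rw [mem_filter, mem_Ioc] at hp
    have hp0 : (t : ℝ) < p := by exact_mod_cast hp.1.1
    have hlp : Real.log x ≤ Real.log p := hlt.trans (Real.log_le_log ht0 hp0.le)
    have e : Real.log p * (1 / (t * Real.log x)) = (1 / t) * (Real.log p / Real.log x) := by
      field_simp
    rw [e]
    have h2 : 1 / (p : ℝ) ≤ 1 / t := one_div_le_one_div_of_le ht0 hp0.le
    have h3 : 1 ≤ Real.log p / Real.log x := by rwa [one_le_div hlx]
    have h4 : 0 ≤ 1 / (t : ℝ) := by positivity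
    nlinarith
  refine h1.trans ?_
  rw [← Finset.sum_mul]
  have h2 := mul_le_mul_of_nonneg_right (theta t) (show 0 ≤ 1 / (t * Real.log x) by positivity)
  refine h2.trans (le_of_eq ?_)
  field_simp

lemma blocks (x : ℕ) (hx : 2 ≤ x) (I : ℕ) :
    ∑ p ∈ (Ioc x (x * 2 ^ I)).filter Nat.Prime, (1 / (p : ℝ)) ≤ I * (4 * Real.log 2 / Real.log x) := by
  induction I with
  | zero => simp
  | succ I ih =>
    have hI : 1 ≤ 2 ^ I := Nat.one_le_two_pow
    have hxI : x ≤ x * 2 ^ I := Nat.le_mul_of_pos_right _ hI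
    have e : (Ioc x (x * 2 ^ (I + 1))).filter Nat.Prime =
        (Ioc x (x * 2 ^ I)).filter Nat.Prime ∪ (Ioc (x * 2 ^ I) (2 * (x * 2 ^ I))).filter Nat.Prime := by
      rw [← Finset.filter_union, Finset.Ioc_union_Ioc_eq_Ioc hxI (by omega)]
      congr 2
      ring
    have hd : Disjoint ((Ioc x (x * 2 ^ I)).filter Nat.Prime) ((Ioc (x * 2 ^ I) (2 * (x * 2 ^ I))).filter Nat.Prime) := by
      rw [Finset.disjoint_left]
      intro p hp hp'
      rw [mem_filter, mem_Ioc] at hp hp'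
      omega
    rw [e, Finset.sum_union hd]
    have h1 := block x (x * 2 ^ I) hx hxI
    push_cast
    linarith

theorem mer : S_MER := by
  refine ⟨8, fun x hx => ?_⟩
  have hx0 : (1 : ℝ) < x := by exact_mod_cast (by omega : 1 < x)
  have hlx : 0 < Real.log x := Real.log_pos hx0
  have hl2 : 0 < Real.log 2 := Real.log_pos (by norm_num)
  have hlx2 : Real.log 2 ≤ Real.log x := Real.log_le_log (by norm_num) (by exact_mod_cast hx)
  set I := Nat.clog 2 x with hI
  have h1 : x ≤ 2 ^ I := Nat.le_pow_clog (by norm_num) x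
  have h2 : (I : ℝ) * Real.log 2 ≤ Real.log x + Real.log 2 := by
    have h3 : 2 ^ (I - 1) < x := Nat.pow_pred_clog_lt_self (by norm_num) hx
    have h4 : Real.log ((2 : ℝ) ^ (I - 1)) ≤ Real.log x :=
      Real.log_le_log (by positivity) (by exact_mod_cast h3.le)
    rw [Real.log_pow] at h4
    have h5 : (I : ℝ) ≤ ((I - 1 : ℕ) : ℝ) + 1 := by
      have : I ≤ (I - 1) + 1 := by omega
      exact_mod_cast this
    nlinarith
  have h3 : ∑ p ∈ (Ioc x (x ^ 2)).filter Nat.Prime, (1 / (p : ℝ)) ≤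
      ∑ p ∈ (Ioc x (x * 2 ^ I)).filter Nat.Prime, (1 / (p : ℝ)) := by
    refine Finset.sum_le_sum_of_subset_of_nonneg ?_ (fun p _ _ => by positivity)
    refine Finset.filter_subset_filter _ (Finset.Ioc_subset_Ioc_right ?_)
    rw [pow_two]
    exact Nat.mul_le_mul_left _ h1
  refine h3.trans ((blocks x hx I).trans ?_)
  rw [← mul_div_assoc, div_le_iff₀ hlx]
  nlinarith

end H21RHB.MER

namespace H21RHB

theorem mer : S_MER := MER.mer

end H21RHB
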