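import Pool.Agent.H21.RHB.Stm

/-! # RHB-MUB (helper71) -/

set_option autoImplicit false

namespace H21RHB

open Real Finset MeasureTheory Filter Topology

theorem mub : S_MUB := by
  intro hCARD k hk g ⟨hgm, Cg, hCg⟩
  obtain ⟨C1, hC1, hcard⟩ := hCARD k hk
  have hCg0 : 0 ≤ Cg := by
    have := (abs_nonneg _).trans (hCg 0 le_rfl)
    simpa using this
  have hk' : (0 : ℝ) < k := by exact_mod_cast hk
  refine ⟨C1 * (Cg * √2) * (2 * k) + C1 + 1, by positivity, ?_⟩
  intro j hj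
  obtain ⟨c1, c2, c3, c4, c5, c6⟩ := hcard j hj
  have hj' : (1 : ℝ) ≤ j := by exact_mod_cast hj
  have hj0 : (0 : ℝ) < j := by linarith
  have hexp : Real.exp (ww k (j + 1)) = ((j : ℝ) + 1) ^ (2 * k) := by
    unfold ww
    rw [← Real.rpow_natCast, Real.rpow_def_of_pos (by positivity)]
    congr 1
    push_cast
    ring
  have hexp2 : Real.exp (ww k (j + 1) / (4 * k)) = √((j : ℝ) + 1) := by
    rw [Real.sqrt_eq_rpow, Real.rpow_def_of_pos (by positivity)]
    congr 1
    unfold ww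
    push_cast
    field_simp
    ring
  have hw0 : 0 ≤ ww k j := by
    unfold ww
    have := Real.log_nonneg hj'
    positivity
  have hbd : ∀ v ∈ Set.uIoc (ww k j) (ww k (j + 1)),
      Real.exp v * |g v| ≤ C1 * (j : ℝ) ^ (2 * k) * (Cg * (√2 * √j)) := by
    intro v hv
    rw [Set.uIoc_of_le c5] at hv
    have hv0 : 0 ≤ v := hw0.trans hv.1.le
    have e1 : Real.exp v ≤ C1 * (j : ℝ) ^ (2 * k) :=
      (Real.exp_le_exp.2 hv.2).trans (hexp.le.trans c4)
    have e2 : |g v| ≤ Cg * (√2 * √j) := by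
      refine (hCg v hv0).trans (mul_le_mul_of_nonneg_left ?_ hCg0)
      calc Real.exp (v / (4 * k)) ≤ Real.exp (ww k (j+1) / (4 * k)) := by
            apply Real.exp_le_exp.2
            exact div_le_div_of_nonneg_right hv.2 (by positivity)
        _ = √((j:ℝ) + 1) := hexp2
        _ ≤ √(2 * j) := Real.sqrt_le_sqrt (by linarith)
        _ = √2 * √j := Real.sqrt_mul (by norm_num) _
    exact mul_le_mul e1 e2 (abs_nonneg _) (by positivity)
  have hr : (j:ℝ)^(2*k) * √j * (1/j) = (j:ℝ)^(2*k - 1/2 : ℝ) := by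
    have e1 : (1:ℝ)/j = (j:ℝ)^(-1:ℝ) := by rw [Real.rpow_neg_one, one_div]
    rw [e1, Real.sqrt_eq_rpow, ← Real.rpow_natCast, ← Real.rpow_add hj0, ← Real.rpow_add hj0]
    congr 1
    push_cast
    ring
  have h21 : (j:ℝ)^(2*k-1) ≤ (j:ℝ)^(2*k - 1/2 : ℝ) := by
    rw [← Real.rpow_natCast]
    apply Real.rpow_le_rpow_of_exponent_le hj'
    have : ((2*k-1 : ℕ) : ℝ) = 2*k - 1 := by
      rw [Nat.cast_sub (by omega)]
      push_cast
      ring
    rw [this]
    linarith
  have hP : 0 ≤ (j:ℝ)^(2*k - 1/2 : ℝ) := Real.rpow_nonneg hj0.le _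
  have hlen : |ww k (j + 1) - ww k j| ≤ 2 * k / j := by
    rw [abs_of_nonneg (by linarith)]
    exact c6
  have key : C1 * (j : ℝ) ^ (2 * k) * (Cg * (√2 * √j)) * |ww k (j + 1) - ww k j| ≤
      C1 * (Cg * √2) * (2 * k) * (j:ℝ)^(2*k - 1/2 : ℝ) := by
    calc C1 * (j : ℝ) ^ (2 * k) * (Cg * (√2 * √j)) * |ww k (j + 1) - ww k j|
        ≤ C1 * (j : ℝ) ^ (2 * k) * (Cg * (√2 * √j)) * (2 * k / j) :=
          mul_le_mul_of_nonneg_left hlen (by positivity)
      _ = C1 * (Cg * √2) * (2 * k) * ((j:ℝ)^(2*k) * √j * (1/j)) := by ring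
      _ = _ := by rw [hr]
  have hi1 := intervalIntegral.norm_integral_le_of_norm_le_const (a := ww k j) (b := ww k (j + 1))
    (f := fun v => Real.exp v * |g v|) (C := C1 * (j : ℝ) ^ (2 * k) * (Cg * (√2 * √j))) (by
      intro v hv
      rw [norm_mul, Real.norm_eq_abs, Real.norm_eq_abs, abs_abs, abs_of_pos (Real.exp_pos _)]
      exact hbd v hv)
  have hi2 := intervalIntegral.norm_integral_le_of_norm_le_const (a := ww k j) (b := ww k (j + 1))
    (f := fun v => Real.exp v * g v) (C := C1 * (j : ℝ) ^ (2 * k) * (Cg * (√2 * √j))) (by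
      intro v hv
      rw [norm_mul, Real.norm_eq_abs, Real.norm_eq_abs, abs_of_pos (Real.exp_pos _)]
      exact hbd v hv)
  rw [Real.norm_eq_abs] at hi1 hi2
  constructor
  · have h1 := (le_abs_self _).trans (hi1.trans key)
    refine h1.trans ?_
    apply mul_le_mul_of_nonneg_right _ hP
    linarith
  · have hs0 : 0 ≤ ∑ p ∈ sqb k j, (p : ℝ) := Finset.sum_nonneg fun _ _ => Nat.cast_nonneg _
    have hs1 : |(1 / 2 : ℝ) * ∑ p ∈ sqb k j, (p : ℝ)| ≤ C1 * (j:ℝ)^(2*k - 1/2 : ℝ) := by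
      rw [abs_of_nonneg (by positivity)]
      have := mul_le_mul_of_nonneg_left h21 hC1.le
      linarith
    unfold mu
    refine (abs_add_le _ _).trans ?_
    have := hi2.trans key
    nlinarith

end H21RHB
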