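import Pool.Agent.H21.RHB.Stm

/-! Project RHB, stub OSC1 (helper44) -/

set_option autoImplicit false

namespace H21RHB

open Real Finset MeasureTheory Filter Topology

namespace OSC1

/-- the derivative of `ph` -/
noncomputable def p1 (v : ℝ) : ℝ := (v * Real.exp (-v) - 1 + Real.exp (-v)) / v ^ 2

/-- the second derivative of `ph` -/
noncomputable def p2 (v : ℝ) : ℝ := (2 - Real.exp (-v) * (2 + 2 * v + v ^ 2)) / v ^ 3

theorem exp_neg_deriv (v : ℝ) : HasDerivAt (fun v : ℝ => Real.exp (-v)) (-Real.exp (-v)) v := by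
  have h := (hasDerivAt_neg v).exp
  refine h.congr_deriv ?_
  ring

theorem d1 {v : ℝ} (hv : 0 < v) : HasDerivAt ph (p1 v) v := by
  have h1 : HasDerivAt (fun v : ℝ => 1 - Real.exp (-v)) (Real.exp (-v)) v := by
    refine ((exp_neg_deriv v).const_sub 1).congr_deriv ?_
    ring
  have h2 := h1.div (hasDerivAt_id v) hv.ne'
  have h3 : (fun v : ℝ => (1 - Real.exp (-v)) / v) = ph := rfl
  refine (h2.congr_deriv ?_)
  unfold p1
  simp only [id]
  congr 1
  ring

theorem d2 {v : ℝ} (hv : 0 < v) : HasDerivAt p1 (p2 v) v := by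
  have h1 : HasDerivAt (fun v : ℝ => v * Real.exp (-v) - 1 + Real.exp (-v))
      (-(v * Real.exp (-v))) v := by
    refine ((((hasDerivAt_id v).mul (exp_neg_deriv v)).sub_const 1).add
      (exp_neg_deriv v)).congr_deriv ?_
    simp only [id]
    ring
  have h2 := h1.div (hasDerivAt_pow 2 v) (pow_ne_zero 2 hv.ne')
  refine (h2.congr_deriv ?_)
  unfold p2
  have hv' : v ≠ 0 := hv.ne'
  field_simp
  ring

theorem p1_le {v : ℝ} (hv : 0 < v) : p1 v ≤ 0 := by
  unfold p1
  apply div_nonpos_of_nonpos_of_nonneg _ (by positivity)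
  have h := Real.add_one_le_exp v
  have h2 : Real.exp v * Real.exp (-v) = 1 := by rw [← Real.exp_add]; simp
  have h3 := Real.exp_pos (-v)
  nlinarith

theorem le_p1 {v : ℝ} (hv : 0 < v) : -(1 / v ^ 2) ≤ p1 v := by
  unfold p1
  rw [← neg_div]
  apply div_le_div_of_nonneg_right _ (by positivity)
  have h3 := Real.exp_pos (-v)
  nlinarith [mul_pos hv h3]

theorem p2_nonneg {v : ℝ} (hv : 0 < v) : 0 ≤ p2 v := by
  unfold p2
  apply div_nonneg _ (by positivity)
  have h := Real.quadratic_le_exp_of_nonneg hv.le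
  have h2 : Real.exp v * Real.exp (-v) = 1 := by rw [← Real.exp_add]; simp
  have h3 := Real.exp_pos (-v)
  nlinarith

end OSC1

open OSC1 in
theorem osc1 : S_OSC1 := by
  intro γ V U hγ hV hVU
  have hpos : ∀ v ∈ Set.uIcc V U, 0 < v := by
    intro v hv
    rw [Set.uIcc_of_le hVU] at hv
    exact hV.trans_le hv.1
  have c0 : ContinuousOn ph (Set.uIcc V U) := fun v hv =>
    (d1 (hpos v hv)).continuousAt.continuousWithinAt
  have c1 : ContinuousOn p1 (Set.uIcc V U) := fun v hv =>
    (d2 (hpos v hv)).continuousAt.continuousWithinAt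
  have c2 : ContinuousOn p2 (Set.uIcc V U) := by
    unfold p2
    refine ContinuousOn.div (by fun_prop) (by fun_prop) fun v hv => ?_
    exact pow_ne_zero 3 (hpos v hv).ne'
  have cc : Continuous fun v : ℝ => 2 * Real.cos (γ * v) := by fun_prop
  have cg : Continuous fun v : ℝ => 2 * Real.cos (γ * v) / γ ^ 2 := by fun_prop
  have i0 : IntervalIntegrable (fun v => 2 * Real.cos (γ * v) * ph v) volume V U :=
    (cc.continuousOn.mul c0).intervalIntegrable
  have i2 : IntervalIntegrable (fun v => 2 * Real.cos (γ * v) / γ ^ 2 * p2 v) volume V U :=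
    (cg.continuousOn.mul c2).intervalIntegrable
  have i3 : IntervalIntegrable p2 volume V U := c2.intervalIntegrable
  -- the primitive
  have hA : ∀ v ∈ Set.uIcc V U, HasDerivAt
      (fun v : ℝ => 2 * Real.sin (γ * v) / γ * ph v + 2 * Real.cos (γ * v) / γ ^ 2 * p1 v)
      (2 * Real.cos (γ * v) * ph v + 2 * Real.cos (γ * v) / γ ^ 2 * p2 v) v := by
    intro v hv
    have hv0 := hpos v hv
    have hg : HasDerivAt (fun v : ℝ => γ * v) γ v := by
      simpa using (hasDerivAt_id v).const_mul γ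
    have hs : HasDerivAt (fun v : ℝ => 2 * Real.sin (γ * v) / γ) (2 * Real.cos (γ * v)) v := by
      refine ((hg.sin.const_mul 2).div_const γ).congr_deriv ?_
      field_simp
    have hc : HasDerivAt (fun v : ℝ => 2 * Real.cos (γ * v) / γ ^ 2)
        (-(2 * Real.sin (γ * v) / γ)) v := by
      refine ((hg.cos.const_mul 2).div_const (γ ^ 2)).congr_deriv ?_
      field_simp
    refine ((hs.mul (d1 hv0)).add (hc.mul (d2 hv0))).congr_deriv ?_
    ring
  have e1 := intervalIntegral.integral_eq_sub_of_hasDerivAt hA (i0.add i2)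
  rw [intervalIntegral.integral_add i0 i2] at e1
  have e2 := intervalIntegral.integral_eq_sub_of_hasDerivAt (fun v hv => d2 (hpos v hv)) i3
  have hU : 0 < U := hV.trans_le hVU
  -- the second integral
  have h2 : |∫ v in V..U, 2 * Real.cos (γ * v) / γ ^ 2 * p2 v| ≤ 2 / γ ^ 2 * (p1 U - p1 V) := by
    rw [← e2, ← intervalIntegral.integral_const_mul, ← Real.norm_eq_abs]
    refine intervalIntegral.norm_integral_le_of_norm_le hVU ?_ (i3.const_mul _)
    refine Eventually.of_forall fun v hv => ?_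
    have hv0 : 0 < v := hV.trans hv.1
    have hc := Real.abs_cos_le_one (γ * v)
    rw [Real.norm_eq_abs, abs_mul, abs_div, abs_mul, abs_of_nonneg (p2_nonneg hv0),
      abs_of_pos (by positivity : (0 : ℝ) < γ ^ 2), abs_of_pos (by norm_num : (0 : ℝ) < 2)]
    apply mul_le_mul_of_nonneg_right _ (p2_nonneg hv0)
    apply div_le_div_of_nonneg_right _ (by positivity)
    linarith
  have h3 : ∀ v, 0 < v → V ≤ v → |2 * Real.cos (γ * v) / γ ^ 2 * p1 v| ≤ 2 / γ ^ 2 * (1 / V ^ 2) := by
    intro v hv hVv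
    have hc := Real.abs_cos_le_one (γ * v)
    rw [abs_mul, abs_div, abs_mul, abs_of_pos (by positivity : (0 : ℝ) < γ ^ 2),
      abs_of_pos (by norm_num : (0 : ℝ) < 2)]
    apply mul_le_mul _ _ (abs_nonneg _) (by positivity)
    · apply div_le_div_of_nonneg_right _ (by positivity)
      linarith
    · rw [abs_of_nonpos (p1_le hv)]
      have h4 := le_p1 hv
      have h5 : 1 / v ^ 2 ≤ 1 / V ^ 2 := by
        apply one_div_le_one_div_of_le (by positivity)
        exact pow_le_pow_left₀ hV.le hVv 2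
      linarith
  have h4 := h3 U hU hVU
  have h5 := h3 V hV le_rfl
  have h6 : p1 U - p1 V ≤ 1 / V ^ 2 := by
    have := p1_le hU
    have := le_p1 hV
    linarith
  have h7 : 2 / γ ^ 2 * (p1 U - p1 V) ≤ 2 / γ ^ 2 * (1 / V ^ 2) :=
    mul_le_mul_of_nonneg_left h6 (by positivity)
  have h8 : 6 / (γ ^ 2 * V ^ 2) = 3 * (2 / γ ^ 2 * (1 / V ^ 2)) := by
    field_simp
    norm_num
  have h9 : (∫ v in V..U, 2 * Real.cos (γ * v) * ph v) -
      (2 * Real.sin (γ * U) * ph U / γ - 2 * Real.sin (γ * V) * ph V / γ) =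
      2 * Real.cos (γ * U) / γ ^ 2 * p1 U - 2 * Real.cos (γ * V) / γ ^ 2 * p1 V -
        ∫ v in V..U, 2 * Real.cos (γ * v) / γ ^ 2 * p2 v := by
    have e3 : ∀ x y : ℝ, 2 * x * y / γ = 2 * x / γ * y := fun x y => by ring
    rw [e3, e3]
    linarith
  rw [h9, h8]
  have h10 := h2.trans h7
  rw [abs_le] at h4 h5 h10 ⊢
  constructor <;> linarith [h4.1, h4.2, h5.1, h5.2, h10.1, h10.2]

end H21RHB
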