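import Pool.Agent.H21.RHB.Stm

/-! # RHB-OSC2 (helper82) -/

set_option autoImplicit false

namespace H21RHB

open Real Finset MeasureTheory Filter Topology

namespace OSC2

lemma alt (f : ℕ → ℝ) (h0 : ∀ m, 0 ≤ f m) (hf : ∀ m, f (m + 1) ≤ f m) (n : ℕ) : ∀ a : ℕ,
    0 ≤ (-1 : ℝ) ^ a * ∑ m ∈ Ico a (a + n), (-1 : ℝ) ^ m * f m ∧
      (-1 : ℝ) ^ a * ∑ m ∈ Ico a (a + n), (-1 : ℝ) ^ m * f m ≤ f a := by
  induction n with
  | zero => intro a; simp [h0]
  | succ n ih =>
    intro a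
    have h1 := ih (a + 1)
    rw [Finset.sum_eq_sum_Ico_succ_bot (by omega : a < a + (n + 1))]
    have h2 : (-1 : ℝ) ^ a * ((-1 : ℝ) ^ a * f a +
        ∑ k ∈ Ico (a + 1) (a + (n + 1)), (-1 : ℝ) ^ k * f k) =
        f a - (-1 : ℝ) ^ (a + 1) * ∑ k ∈ Ico (a + 1) (a + (n + 1)), (-1 : ℝ) ^ k * f k := by
      rw [mul_add, ← mul_assoc, ← pow_add, Even.neg_one_pow ⟨a, rfl⟩, one_mul, pow_succ]
      ring
    rw [h2, show a + (n + 1) = a + 1 + n by ring]
    have := hf a
    constructor <;> linarith [h1.1, h1.2]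

lemma alt_abs (f : ℕ → ℝ) (h0 : ∀ m, 0 ≤ f m) (hf : ∀ m, f (m + 1) ≤ f m) {a b : ℕ} (hab : a ≤ b) :
    |∑ m ∈ Ico a b, (-1 : ℝ) ^ m * f m| ≤ f a := by
  have h := alt f h0 hf (b - a) a
  rw [show a + (b - a) = b by omega] at h
  have h1 : |(-1 : ℝ) ^ a * ∑ m ∈ Ico a b, (-1 : ℝ) ^ m * f m| =
      |∑ m ∈ Ico a b, (-1 : ℝ) ^ m * f m| := by
    rw [abs_mul, abs_pow, abs_neg, abs_one, one_pow, one_mul]
  rw [← h1, abs_of_nonneg h.1]
  exact h.2

lemma NN_ge (i : ℕ) : 2 ≤ NN i := by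
  unfold NN
  calc 2 = 2 ^ 1 := by norm_num
    _ ≤ 2 ^ (2 ^ ((i + 1) ^ 2 + 3)) := Nat.pow_le_pow_right (by norm_num) Nat.one_le_two_pow

lemma logN_pos (i : ℕ) : 0 < Real.log (NN i) := by
  apply Real.log_pos
  have : (2 : ℝ) ≤ NN i := by exact_mod_cast NN_ge i
  linarith

lemma harm (N : ℕ) (hN : 1 ≤ N) (M : ℕ) (hNM : N ≤ M) :
    ∑ m ∈ Ico N M, (1 / ((m : ℝ) + 1)) ≤ Real.log M - Real.log N ∧
    Real.log M - Real.log N ≤ ∑ m ∈ Ico N M, (1 / (m : ℝ)) ∧
    ∑ m ∈ Ico N M, (1 / (m : ℝ)) = ∑ m ∈ Ico N M, (1 / ((m : ℝ) + 1)) + (1 / N - 1 / M) := by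
  induction M, hNM using Nat.le_induction with
  | base => simp
  | succ M hM ih =>
    have hM0 : (0 : ℝ) < M := by exact_mod_cast (by omega : 0 < M)
    rw [Finset.sum_Ico_succ_top hM, Finset.sum_Ico_succ_top hM]
    have h1 : Real.log ((M + 1 : ℕ) : ℝ) - Real.log M ≤ 1 / M := by
      push_cast
      rw [← Real.log_div (by positivity) hM0.ne']
      refine (Real.log_le_sub_one_of_pos (by positivity)).trans (le_of_eq ?_)
      field_simp
      ring
    have h2 : 1 / ((M : ℝ) + 1) ≤ Real.log ((M + 1 : ℕ) : ℝ) - Real.log M := by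
      push_cast
      have h3 : Real.log (M : ℝ) - Real.log ((M : ℝ) + 1) ≤ -(1 / ((M : ℝ) + 1)) := by
        rw [← Real.log_div hM0.ne' (by positivity)]
        refine (Real.log_le_sub_one_of_pos (by positivity)).trans (le_of_eq ?_)
        field_simp
        ring
      linarith
    refine ⟨by linarith [ih.1], by linarith [ih.2.1], ?_⟩
    rw [ih.2.2]
    push_cast
    ring

/-- the harmonic sum -/
lemma S_bd (i : ℕ) {φ : ℝ} (h0 : 0 < φ) (h1 : φ ≤ 1) :
    |∑ m ∈ ms i, (1 / ((m : ℝ) + φ)) - Real.log (NN i)| ≤ 1 := by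
  have hN := NN_ge i
  have hNM : NN i ≤ NN i ^ 2 := by nlinarith
  obtain ⟨a1, a2, a3⟩ := harm (NN i) (by omega) (NN i ^ 2) hNM
  have hlog : Real.log ((NN i ^ 2 : ℕ) : ℝ) - Real.log (NN i) = Real.log (NN i) := by
    push_cast
    rw [Real.log_pow]
    push_cast
    ring
  rw [hlog] at a1 a2
  have hN0 : (2 : ℝ) ≤ NN i := by exact_mod_cast hN
  have b1 : ∑ m ∈ ms i, (1 / ((m : ℝ) + 1)) ≤ ∑ m ∈ ms i, (1 / ((m : ℝ) + φ)) := by
    refine Finset.sum_le_sum fun m hm => ?_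
    have hm0 : (0 : ℝ) ≤ m := Nat.cast_nonneg m
    exact one_div_le_one_div_of_le (by linarith) (by linarith)
  have b2 : ∑ m ∈ ms i, (1 / ((m : ℝ) + φ)) ≤ ∑ m ∈ ms i, (1 / (m : ℝ)) := by
    refine Finset.sum_le_sum fun m hm => ?_
    unfold ms at hm
    rw [Finset.mem_Ico] at hm
    have hm0 : (0 : ℝ) < m := by exact_mod_cast (by omega : 0 < m)
    exact one_div_le_one_div_of_le hm0 (by linarith)
  have b3 : (1 : ℝ) / (NN i : ℝ) - 1 / ((NN i ^ 2 : ℕ) : ℝ) ≤ 1 := by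
    have h2 : (1 : ℝ) / (NN i : ℝ) ≤ 1 := by rw [div_le_one (by linarith)]; linarith
    have h3 : (0 : ℝ) ≤ 1 / ((NN i ^ 2 : ℕ) : ℝ) := by positivity
    linarith
  unfold ms at b1 b2 ⊢
  rw [abs_le]
  constructor <;> linarith

lemma phase_facts (i : ℕ) : 0 < phase i ∧ phase i ≤ 1 ∧
    Real.sin (2 * π * phase i) = (if Even i then 1 else -1) := by
  unfold phase
  split_ifs with h
  · refine ⟨by norm_num, by norm_num, ?_⟩
    rw [show 2 * π * (1 / 4) = π / 2 by ring, Real.sin_pi_div_two]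
  · refine ⟨by norm_num, by norm_num, ?_⟩
    rw [show 2 * π * (3 / 4) = π / 2 + π by ring, Real.sin_add_pi, Real.sin_pi_div_two]

lemma ph_cont {V U : ℝ} (hV : 0 < V) (hVU : V ≤ U) (γ : ℝ) :
    IntervalIntegrable (fun v => 2 * Real.cos (γ * v) * ph v) volume V U := by
  apply ContinuousOn.intervalIntegrable
  rw [Set.uIcc_of_le hVU]
  unfold ph
  refine ContinuousOn.mul (by fun_prop) (ContinuousOn.div (by fun_prop) (by fun_prop) ?_)
  intro v hv
  have := hv.1
  linarith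

end OSC2

open OSC2 in
theorem osc2 : S_OSC2 := by
  intro hO
  refine ⟨14, fun k i hk => ?_⟩
  have hk0 : (1 : ℝ) ≤ k := by exact_mod_cast hk
  have hlN := logN_pos i
  have hN2 := NN_ge i
  have hN : (2 : ℝ) ≤ NN i := by exact_mod_cast hN2
  obtain ⟨p0, p1, p2⟩ := phase_facts i
  obtain ⟨φ, hφ⟩ : ∃ φ : ℝ, φ = phase i := ⟨_, rfl⟩
  rw [← hφ] at p0 p1 p2
  obtain ⟨e, he⟩ : ∃ e : ℝ, e = (if Even i then 1 else -1) := ⟨_, rfl⟩
  rw [← he] at p2 ⊢
  have heabs : |e| = 1 := by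
    rw [he]
    split_ifs <;> simp
  obtain ⟨V, hVd⟩ : ∃ V : ℝ, V = VV k i := ⟨_, rfl⟩
  have hV0 : 0 < V := by rw [hVd]; unfold VV; positivity
  have hUV : UU k i = 2 * V := by rw [hVd]; unfold UU VV; ring
  rw [hUV, ← hVd]
  have hγ : ∀ m : ℕ, gam k i m = π * (m + φ) / V := by
    intro m
    unfold gam
    rw [hUV, ← hφ]
    field_simp
  have hπ : 0 < π := Real.pi_pos
  have hπ3 : 3 < π := Real.pi_gt_three
  have hγ0 : ∀ m : ℕ, 0 < gam k i m := by
    intro m
    rw [hγ]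
    positivity
  have hmφ : ∀ m : ℕ, 0 < (m : ℝ) + φ := fun m => by positivity
  -- the integral as a sum
  have hI : ∫ v in V..(2 * V), CC k i v * ph v =
      ∑ m ∈ ms i, ∫ v in V..(2 * V), 2 * Real.cos (gam k i m * v) * ph v := by
    rw [← intervalIntegral.integral_finsetSum fun m _ => ph_cont hV0 (by linarith) _]
    congr 1
    funext v
    unfold CC
    rw [Finset.sum_mul]
  rw [hI]
  -- the three parts
  have h1 : |∑ m ∈ ms i, (∫ v in V..(2 * V), 2 * Real.cos (gam k i m * v) * ph v) -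
      ∑ m ∈ ms i, (2 * Real.sin (gam k i m * (2 * V)) * ph (2 * V) / gam k i m -
        2 * Real.sin (gam k i m * V) * ph V / gam k i m)| ≤ 12 := by
    rw [← Finset.sum_sub_distrib]
    refine (Finset.abs_sum_le_sum_abs _ _).trans ?_
    have g1 : ∀ m ∈ ms i, |(∫ v in V..(2 * V), 2 * Real.cos (gam k i m * v) * ph v) -
        (2 * Real.sin (gam k i m * (2 * V)) * ph (2 * V) / gam k i m -
        2 * Real.sin (gam k i m * V) * ph V / gam k i m)| ≤ 6 * ((m : ℝ) ^ 2)⁻¹ := by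
      intro m hm
      unfold ms at hm
      rw [Finset.mem_Ico] at hm
      have hm0 : (0 : ℝ) < m := by exact_mod_cast (by omega : 0 < m)
      refine (hO _ V (2 * V) (hγ0 m) hV0 (by linarith)).trans ?_
      have g2 : gam k i m ^ 2 * V ^ 2 = (π * (m + φ)) ^ 2 := by
        rw [hγ]; field_simp
      rw [g2, div_eq_mul_inv]
      have g3 : (m : ℝ) ≤ π * (m + φ) := by nlinarith
      gcongr
    refine (Finset.sum_le_sum g1).trans ?_
    rw [← Finset.mul_sum]
    have g4 : ∑ m ∈ ms i, ((m : ℝ) ^ 2)⁻¹ ≤ 2 := by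
      have g5 := sum_Ioo_inv_sq_le (α := ℝ) (NN i - 1) (NN i ^ 2)
      have g6 : ms i = Finset.Ioo (NN i - 1) (NN i ^ 2) := by
        unfold ms
        ext m
        rw [Finset.mem_Ico, Finset.mem_Ioo]
        omega
      rw [g6]
      refine g5.trans ?_
      rw [div_le_iff₀ (by positivity)]
      have : (0 : ℝ) ≤ ((NN i - 1 : ℕ) : ℝ) := Nat.cast_nonneg _
      linarith
    linarith
  have h2 : ∑ m ∈ ms i, 2 * Real.sin (gam k i m * (2 * V)) * ph (2 * V) / gam k i m =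
      e * ((1 - Real.exp (-(2 * V))) / π) * ∑ m ∈ ms i, (1 / ((m : ℝ) + φ)) := by
    rw [Finset.mul_sum]
    refine Finset.sum_congr rfl fun m _ => ?_
    have g1 : gam k i m * (2 * V) = 2 * π * φ + m * (2 * π) := by
      rw [hγ]; field_simp; ring
    rw [g1, Real.sin_add_nat_mul_two_pi, p2, hγ]
    unfold ph
    have := hmφ m
    field_simp
  have h3 : |∑ m ∈ ms i, 2 * Real.sin (gam k i m * V) * ph V / gam k i m| ≤ 1 := by
    have g0 : ∑ m ∈ ms i, 2 * Real.sin (gam k i m * V) * ph V / gam k i m =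
        2 * ph V * Real.sin (π * φ) * ∑ m ∈ ms i, (-1 : ℝ) ^ m * (1 / gam k i m) := by
      rw [Finset.mul_sum]
      refine Finset.sum_congr rfl fun m _ => ?_
      have g1 : gam k i m * V = π * φ + m * π := by
        rw [hγ]; field_simp; ring
      rw [g1, Real.sin_add_nat_mul_pi]
      ring
    have g2 := alt_abs (fun m => 1 / gam k i m) (fun m => by have := hγ0 m; positivity) (fun m => by
      refine one_div_le_one_div_of_le (hγ0 m) ?_
      rw [hγ, hγ]
      push_cast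
      gcongr
      linarith) (show NN i ≤ NN i ^ 2 by nlinarith)
    have hph : 0 ≤ ph V ∧ ph V * V ≤ 1 := by
      unfold ph
      have g3 : Real.exp (-V) ≤ 1 := Real.exp_le_one_iff.2 (by linarith)
      have g4 := Real.exp_pos (-V)
      constructor
      · apply div_nonneg <;> linarith
      · rw [div_mul_cancel₀ _ hV0.ne']; linarith
    rw [g0, abs_mul, abs_mul, abs_of_nonneg (show 0 ≤ 2 * ph V by linarith [hph.1])]
    have g5 : |Real.sin (π * φ)| ≤ 1 := Real.abs_sin_le_one _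
    unfold ms
    calc 2 * ph V * |Real.sin (π * φ)| * |∑ m ∈ Ico (NN i) (NN i ^ 2), (-1 : ℝ) ^ m * (1 / gam k i m)|
        ≤ 2 * ph V * 1 * (1 / gam k i (NN i)) := by
          have := hph.1
          gcongr
      _ = 2 * (ph V * V) / (π * (NN i + φ)) := by
          rw [hγ]
          have := hmφ (NN i)
          field_simp
      _ ≤ 2 * 1 / (π * (NN i + φ)) := by
          have := hph.2
          have := hmφ (NN i)
          gcongr
      _ ≤ 1 := by
          have := hmφ (NN i)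
          rw [div_le_one (by positivity)]
          nlinarith
  have h4 : |e * ((1 - Real.exp (-(2 * V))) / π) * ∑ m ∈ ms i, (1 / ((m : ℝ) + φ)) -
      e * (1 / π) * Real.log (NN i)| ≤ 1 := by
    have g1 := S_bd i p0 p1
    obtain ⟨S, hS⟩ : ∃ S : ℝ, S = ∑ m ∈ ms i, (1 / ((m : ℝ) + φ)) := ⟨_, rfl⟩
    rw [← hS] at g1 ⊢
    have g2 : e * ((1 - Real.exp (-(2 * V))) / π) * S - e * (1 / π) * Real.log (NN i) =
        e * (1 / π) * ((S - Real.log (NN i)) - Real.exp (-(2 * V)) * S) := by ring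
    rw [g2, abs_mul, abs_mul, heabs, one_mul, abs_of_pos (show 0 < 1 / π by positivity)]
    have hS0 : 0 ≤ S := by
      rw [hS]
      refine Finset.sum_nonneg fun m _ => ?_
      have := hmφ m
      positivity
    have hS1 : S ≤ Real.log (NN i) + 1 := by
      rw [abs_le] at g1; linarith [g1.2]
    have g3 : Real.exp (-(2 * V)) * S ≤ 1 := by
      have g4 : Real.exp (-(2 * V)) ≤ (NN i : ℝ)⁻¹ := by
        have g5 : (NN i : ℝ)⁻¹ = Real.exp (-Real.log (NN i)) := by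
          rw [Real.exp_neg, Real.exp_log (by linarith)]
        rw [g5, Real.exp_le_exp]
        rw [← hUV]
        unfold UU
        nlinarith
      have g6 : Real.log (NN i) ≤ NN i - 1 := Real.log_le_sub_one_of_pos (by linarith)
      calc Real.exp (-(2 * V)) * S ≤ (NN i : ℝ)⁻¹ * (NN i) := by
            gcongr
            linarith
        _ = 1 := inv_mul_cancel₀ (by linarith)
    have g7 : 0 ≤ Real.exp (-(2 * V)) * S := by positivity
    have g8 : |(S - Real.log (NN i)) - Real.exp (-(2 * V)) * S| ≤ 2 := by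
      rw [abs_le] at g1 ⊢
      constructor <;> linarith [g1.1, g1.2]
    calc 1 / π * |(S - Real.log (NN i)) - Real.exp (-(2 * V)) * S| ≤ 1 / π * 2 := by gcongr
      _ ≤ 1 := by
        rw [one_div_mul_eq_div, div_le_one hπ]; linarith
  rw [Finset.sum_sub_distrib, h2] at h1
  rw [abs_le] at h1 h3 h4 ⊢
  constructor <;> linarith [h1.1, h1.2, h3.1, h3.2, h4.1, h4.2]

end H21RHB
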