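import Pool.Agent.H21.RHB.Stm

/-! # RHB-OSC3 (helper56) -/

set_option autoImplicit false

namespace H21RHB

open Real Finset MeasureTheory

namespace OSC3

lemma one_le_logN (i : ℕ) : 1 ≤ Real.log (NN i) := by
  have h1 : (2 : ℝ) ^ 16 ≤ (NN i : ℝ) := by
    have : 2 ^ 16 ≤ NN i := by
      unfold NN
      apply Nat.pow_le_pow_right (by norm_num)
      calc 16 = 2 ^ 4 := by norm_num
        _ ≤ 2 ^ ((i + 1) ^ 2 + 3) := Nat.pow_le_pow_right (by norm_num) (by
            have : 1 ≤ (i + 1) ^ 2 := Nat.one_le_pow _ _ (by omega)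
            omega)
    exact_mod_cast this
  have h2 : Real.log ((2 : ℝ) ^ 16) ≤ Real.log (NN i) := Real.log_le_log (by positivity) h1
  rw [Real.log_pow] at h2
  have h3 := Real.log_two_gt_d9
  push_cast at h2
  linarith

lemma ph_le {v : ℝ} (hv : 0 < v) : |ph v| ≤ 1 / v := by
  unfold ph
  rw [abs_div, abs_of_pos hv]
  apply div_le_div_of_nonneg_right _ hv.le
  have h1 := Real.exp_pos (-v)
  have h2 : Real.exp (-v) ≤ 1 := Real.exp_le_one_iff.2 (by linarith)
  rw [abs_le]
  constructor <;> linarith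

lemma cont_ph {V U : ℝ} (hV : 0 < V) (hVU : V ≤ U) : ContinuousOn ph (Set.uIcc V U) := by
  rw [Set.uIcc_of_le hVU]
  unfold ph
  apply ContinuousOn.div
  · fun_prop
  · fun_prop
  · intro v hv
    have := hv.1
    linarith

lemma term (h : S_OSC1) {γ V U : ℝ} (hγ : 0 < γ) (hV : 0 < V) (hVU : V ≤ U) {m : ℝ} (hm : 1 ≤ m)
    (hmV : m ≤ γ * V) : |∫ v in V..U, 2 * Real.cos (γ * v) * ph v| ≤ 10 * m⁻¹ := by
  have h1 := h γ V U hγ hV hVU
  have hU : 0 < U := lt_of_lt_of_le hV hVU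
  have hm0 : 0 < m := by linarith
  have h2 : |2 * Real.sin (γ * U) * ph U / γ| ≤ 2 / m := by
    rw [abs_div, abs_mul, abs_mul, abs_of_pos hγ, abs_of_pos (by norm_num : (0 : ℝ) < 2)]
    have h3 := Real.abs_sin_le_one (γ * U)
    have h4 : |ph U| ≤ 1 / V := (ph_le hU).trans (one_div_le_one_div_of_le hV hVU)
    have h5 : 2 * |Real.sin (γ * U)| * |ph U| ≤ 2 * 1 * (1 / V) := by
      apply mul_le_mul _ h4 (abs_nonneg _) (by norm_num)
      linarith
    calc 2 * |Real.sin (γ * U)| * |ph U| / γ ≤ 2 * 1 * (1 / V) / γ :=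
          div_le_div_of_nonneg_right h5 hγ.le
      _ = 2 / (γ * V) := by field_simp
      _ ≤ 2 / m := div_le_div_of_nonneg_left (by norm_num) hm0 hmV
  have h2' : |2 * Real.sin (γ * V) * ph V / γ| ≤ 2 / m := by
    rw [abs_div, abs_mul, abs_mul, abs_of_pos hγ, abs_of_pos (by norm_num : (0 : ℝ) < 2)]
    have h3 := Real.abs_sin_le_one (γ * V)
    have h5 : 2 * |Real.sin (γ * V)| * |ph V| ≤ 2 * 1 * (1 / V) := by
      apply mul_le_mul _ (ph_le hV) (abs_nonneg _) (by norm_num)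
      linarith
    calc 2 * |Real.sin (γ * V)| * |ph V| / γ ≤ 2 * 1 * (1 / V) / γ :=
          div_le_div_of_nonneg_right h5 hγ.le
      _ = 2 / (γ * V) := by field_simp
      _ ≤ 2 / m := div_le_div_of_nonneg_left (by norm_num) hm0 hmV
  have h6 : 6 / (γ ^ 2 * V ^ 2) ≤ 6 / m := by
    apply div_le_div_of_nonneg_left (by norm_num) hm0
    rw [← mul_pow]
    have : 1 ≤ γ * V := hm.trans hmV
    nlinarith
  have h7 : 10 * m⁻¹ = 2 / m + 2 / m + 6 / m := by
    field_simp
    norm_num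
  rw [h7]
  have a1 := abs_le.1 h1
  have a2 := abs_le.1 h2
  have a3 := abs_le.1 h2'
  rw [abs_le]
  constructor <;> linarith

end OSC3

open OSC3 in
theorem osc3 : S_OSC3 := by
  intro h
  refine ⟨30, fun k i U hk hU => ?_⟩
  have hlog := one_le_logN i
  have hN0 : 0 < NN i := by unfold NN; positivity
  have hN1 : 1 ≤ NN i := hN0
  have hk0 : (0 : ℝ) < k := by exact_mod_cast hk
  have hV : 0 < VV k i := by unfold VV; positivity
  have hUU : 0 < UU k i := by unfold UU; positivity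
  have hpi := Real.pi_gt_three
  have hph : 0 ≤ phase i := by unfold phase; split_ifs <;> norm_num
  have hmem : ∀ m ∈ ms i, 1 ≤ m := by
    intro m hm
    exact le_trans hN1 (Finset.mem_Ico.1 hm).1
  have hterm : ∀ m ∈ ms i, |∫ v in (VV k i)..U, 2 * Real.cos (gam k i m * v) * ph v| ≤
      10 * (m : ℝ)⁻¹ := by
    intro m hm
    have hm1 : (1 : ℝ) ≤ m := by exact_mod_cast hmem m hm
    refine term h ?_ hV hU hm1 ?_
    · unfold gam; positivity
    · have e : gam k i m * VV k i = π * (m + phase i) := by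
        unfold gam VV UU
        field_simp
        ring
      rw [e]
      nlinarith
  have hint : (∫ v in (VV k i)..U, CC k i v * ph v) =
      ∑ m ∈ ms i, ∫ v in (VV k i)..U, 2 * Real.cos (gam k i m * v) * ph v := by
    rw [← intervalIntegral.integral_finsetSum]
    · apply intervalIntegral.integral_congr
      intro v _
      simp only [CC, Finset.sum_mul]
    · intro m _
      apply ContinuousOn.intervalIntegrable
      exact ContinuousOn.mul (by fun_prop) (cont_ph hV hU)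
  rw [hint]
  refine (Finset.abs_sum_le_sum_abs _ _).trans ((Finset.sum_le_sum hterm).trans ?_)
  rw [← Finset.mul_sum]
  have hsub : ms i ⊆ Finset.Icc 1 (NN i ^ 2) := by
    intro m hm
    rw [Finset.mem_Icc]
    exact ⟨hmem m hm, (Finset.mem_Ico.1 hm).2.le⟩
  have h1 : ∑ m ∈ ms i, (m : ℝ)⁻¹ ≤ ∑ m ∈ Finset.Icc 1 (NN i ^ 2), (m : ℝ)⁻¹ :=
    Finset.sum_le_sum_of_subset_of_nonneg hsub fun m _ _ => by positivity
  have h2 : ∑ m ∈ Finset.Icc 1 (NN i ^ 2), (m : ℝ)⁻¹ ≤ 1 + Real.log ((NN i ^ 2 : ℕ) : ℝ) := by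
    have h3 := harmonic_le_one_add_log (NN i ^ 2)
    rw [harmonic_eq_sum_Icc] at h3
    push_cast at h3 ⊢
    exact h3
  have h4 : Real.log ((NN i ^ 2 : ℕ) : ℝ) = 2 * Real.log (NN i) := by
    push_cast
    rw [Real.log_pow]
    norm_num
  rw [h4] at h2
  linarith

end H21RHB
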