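import Pool.Agent.H21.RHB.Stm

/-! # RHB-PAIR (helper75) -/

set_option autoImplicit false

namespace H21RHB

open Real Finset MeasureTheory Filter Topology

namespace PAIR

theorem decomp (S : Finset ℕ) (h : 2 ≤ S.card) : ∃ (p0 p1 : ℕ) (S2 : Finset ℕ),
    S = insert p0 (insert p1 S2) ∧ p0 < p1 ∧ ∀ q ∈ S2, p1 < q := by
  have h0 : S.Nonempty := card_pos.1 (by omega)
  obtain ⟨p0, hp0⟩ : ∃ p, p = S.min' h0 := ⟨_, rfl⟩
  have hm0 : p0 ∈ S := hp0 ▸ min'_mem S h0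
  have hS1 : (S.erase p0).Nonempty := by
    rw [← card_pos, card_erase_of_mem hm0]
    omega
  obtain ⟨p1, hp1⟩ : ∃ p, p = (S.erase p0).min' hS1 := ⟨_, rfl⟩
  have hm1 : p1 ∈ S.erase p0 := hp1 ▸ min'_mem _ hS1
  refine ⟨p0, p1, (S.erase p0).erase p1, ?_, ?_, ?_⟩
  · rw [insert_erase hm1, insert_erase hm0]
  · have h1 : p0 ≤ p1 := hp0 ▸ min'_le S p1 (mem_of_mem_erase hm1)
    exact lt_of_le_of_ne h1 (ne_of_mem_erase hm1).symm
  · intro q hq
    have h1 : p1 ≤ q := hp1 ▸ min'_le _ q (mem_of_mem_erase hq)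
    exact lt_of_le_of_ne h1 (ne_of_mem_erase hq).symm

theorem aux (n : ℕ) : ∀ (S : Finset ℕ) (A B : ℕ), S.card = n → A ≤ B →
    (∀ p ∈ S, A ≤ p ∧ p ≤ B) →
    ∀ (β : ℕ → ℤ) (M : ℝ), 0 ≤ M → (∀ i, |(β i : ℝ)| ≤ M) → ∃ b : ℕ → ℤ,
    (∀ p, |(b p : ℝ)| ≤ M) ∧
    (∀ (ψ : ℕ → ℂ) (D : ℝ), 0 ≤ D →
      (∀ p ∈ S, ∀ q ∈ S, p ≤ q → ‖ψ p - ψ q‖ ≤ D * ((q : ℝ) - p)) →
      ‖∑ p ∈ S, (b p : ℂ) * ψ p‖ ≤ M * D * ((B : ℝ) - A)) ∧
    (∀ χ : ℤ → ℝ, ∑ p ∈ S, χ (b p) =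
      ∑ i ∈ Finset.range (n / 2), (χ (β i) + χ (-β i)) + (if n % 2 = 1 then χ 0 else 0)) := by
  induction n using Nat.twoStepInduction with
  | zero =>
    intro S A B hS hAB _ β M hM _
    rw [card_eq_zero] at hS
    subst hS
    have hAB' : (A : ℝ) ≤ B := by exact_mod_cast hAB
    refine ⟨fun _ => 0, fun p => by simpa using hM, fun ψ D hD _ => ?_, fun χ => by simp⟩
    rw [sum_empty, norm_zero]
    exact mul_nonneg (mul_nonneg hM hD) (by linarith)
  | one =>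
    intro S A B hS hAB _ β M hM _
    obtain ⟨p, rfl⟩ := card_eq_one.1 hS
    have hAB' : (A : ℝ) ≤ B := by exact_mod_cast hAB
    refine ⟨fun _ => 0, fun p => by simpa using hM, fun ψ D hD _ => ?_, fun χ => by simp⟩
    rw [sum_singleton, Int.cast_zero, zero_mul, norm_zero]
    exact mul_nonneg (mul_nonneg hM hD) (by linarith)
  | more n ih _ =>
    intro S A B hS hAB hSAB β M hM hβ
    obtain ⟨p0, p1, S2, rfl, h01, h12⟩ := decomp S (by omega)
    have hn1 : p1 ∉ S2 := fun h => lt_irrefl _ (h12 p1 h)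
    have hn0 : p0 ∉ insert p1 S2 := by
      rw [mem_insert]
      rintro (h | h)
      · omega
      · have := h12 p0 h
        omega
    have hc : S2.card = n := by
      rw [card_insert_of_notMem hn0, card_insert_of_notMem hn1] at hS
      omega
    have hm0 : p0 ∈ insert p0 (insert p1 S2) := mem_insert_self _ _
    have hm1 : p1 ∈ insert p0 (insert p1 S2) := mem_insert_of_mem (mem_insert_self _ _)
    have hm2 : ∀ q ∈ S2, q ∈ insert p0 (insert p1 S2) := fun q hq =>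
      mem_insert_of_mem (mem_insert_of_mem hq)
    obtain ⟨b', hb1, hb2, hb3⟩ := ih S2 p1 B hc (hSAB p1 hm1).2
      (fun q hq => ⟨(h12 q hq).le, (hSAB q (hm2 q hq)).2⟩) (fun i => β (i + 1)) M hM
      (fun i => hβ _)
    obtain ⟨b, hb⟩ : ∃ b : ℕ → ℤ, b = fun p => if p = p0 then β 0 else if p = p1 then -β 0
      else b' p := ⟨_, rfl⟩
    have e0 : b p0 = β 0 := by rw [hb]; simp
    have e1 : b p1 = -β 0 := by rw [hb]; simp [h01.ne']
    have e2 : ∀ q ∈ S2, b q = b' q := by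
      intro q hq
      have h3 : q ≠ p1 := fun h => hn1 (h ▸ hq)
      have h4 : q ≠ p0 := by
        rintro rfl
        have := h12 q hq
        omega
      rw [hb]
      simp [h3, h4]
    refine ⟨b, fun p => ?_, fun ψ D hD hψ => ?_, fun χ => ?_⟩
    · rw [hb]
      dsimp only
      split_ifs
      · exact hβ 0
      · rw [Int.cast_neg, abs_neg]
        exact hβ 0
      · exact hb1 p
    · rw [sum_insert hn0, sum_insert hn1, e0, e1]
      have h3 : ∑ p ∈ S2, (b p : ℂ) * ψ p = ∑ p ∈ S2, (b' p : ℂ) * ψ p :=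
        sum_congr rfl fun q hq => by rw [e2 q hq]
      rw [h3]
      have h4 := hb2 ψ D hD fun p hp q hq hpq => hψ p (hm2 p hp) q (hm2 q hq) hpq
      have h5 := hψ p0 hm0 p1 hm1 h01.le
      have h6 : ((β 0 : ℤ) : ℂ) * ψ p0 + (((-β 0 : ℤ) : ℂ) * ψ p1 + ∑ p ∈ S2, (b' p : ℂ) * ψ p) =
          ((β 0 : ℤ) : ℂ) * (ψ p0 - ψ p1) + ∑ p ∈ S2, (b' p : ℂ) * ψ p := by
        push_cast
        ring
      rw [h6]
      have h7 : ‖((β 0 : ℤ) : ℂ) * (ψ p0 - ψ p1)‖ ≤ M * (D * ((p1 : ℝ) - p0)) := by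
        rw [norm_mul]
        refine mul_le_mul ?_ h5 (norm_nonneg _) hM
        rw [Complex.norm_intCast]
        exact hβ 0
      have h8 : (A : ℝ) ≤ p0 := by exact_mod_cast (hSAB p0 hm0).1
      have h9 : 0 ≤ M * D := mul_nonneg hM hD
      calc _ ≤ M * (D * ((p1 : ℝ) - p0)) + M * D * ((B : ℝ) - p1) :=
            (norm_add_le _ _).trans (add_le_add h7 h4)
        _ = M * D * ((B : ℝ) - p0) := by ring
        _ ≤ M * D * ((B : ℝ) - A) := mul_le_mul_of_nonneg_left (by linarith) h9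
    · rw [sum_insert hn0, sum_insert hn1, e0, e1]
      have h3 : ∑ p ∈ S2, χ (b p) = ∑ p ∈ S2, χ (b' p) :=
        sum_congr rfl fun q hq => by rw [e2 q hq]
      rw [h3, hb3 χ]
      have h4 : (n + 2) / 2 = n / 2 + 1 := by omega
      have h5 : (n + 2) % 2 = n % 2 := by omega
      rw [h4, h5, sum_range_succ']
      ring

end PAIR

theorem pair : S_PAIR := by
  intro S A B hAB hS β M hM hβ
  exact PAIR.aux S.card S A B rfl hAB hS β M hM hβ

end H21RHB
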