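import Pool.Agent.H21.RHB.Stm

/-! Project RHB, stub PART (helper19). -/

set_option autoImplicit false

namespace H21RHB

open Real Finset MeasureTheory Filter Topology

noncomputable section

namespace PART

theorem ww_nonneg (k j : ℕ) : 0 ≤ ww k j := by
  unfold ww
  have := Real.log_natCast_nonneg j
  positivity

theorem ww_zero (k : ℕ) : ww k 0 = 0 := by simp [ww]

/-- interval integrability of the integrand of II -/
theorem gint (k : ℕ) (g : ℝ → ℝ) (hg : Adm k g) (s : ℂ) (A B : ℝ) (hA : 0 ≤ A) (hB : 0 ≤ B) :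
    IntervalIntegrable (fun v : ℝ => Complex.exp (-((s - 1) * v)) * (g v : ℂ)) volume A B := by
  obtain ⟨hm, C, hC⟩ := hg
  have h1 : IntervalIntegrable
      (fun v : ℝ => ‖Complex.exp (-((s - 1) * v))‖ * (C * Real.exp (v / (4 * k)))) volume A B := by
    apply Continuous.intervalIntegrable
    fun_prop
  refine IntervalIntegrable.mono_fun' h1 ?_ ?_
  · apply Measurable.aestronglyMeasurable
    fun_prop
  · refine (ae_restrict_iff' measurableSet_uIoc).mpr (Eventually.of_forall fun v hv => ?_)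
    have hv0 : 0 ≤ v := by
      rcases Set.mem_uIoc.mp hv with h | h
      · linarith [h.1]
      · linarith [h.1]
    simp only [norm_mul, Complex.norm_real, Real.norm_eq_abs]
    exact mul_le_mul_of_nonneg_left (hC v hv0) (norm_nonneg _)

/-- the finite identity -/
theorem fin_id (h0 : S_PART0) (k J : ℕ) (hk : 1 ≤ k) (hJ : 1 ≤ J) (g : ℝ → ℝ) (hg : Adm k g)
    (a : ℕ → ℤ) (s : ℂ) :
    ∑ p ∈ (Finset.range (J ^ (2 * k) + 1)).filter Nat.Prime, (-Complex.log (eul a p s)) =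
      ∑ j ∈ Finset.range J, (hh k g a j s + TT k a j s + RB k a j s) +
      (∫ v in (0 : ℝ)..(ww k J), Complex.exp (-((s - 1) * v)) * (g v : ℂ)) +
      (1 / 2) * ∑ p ∈ (Finset.range (J ^ k + 1)).filter Nat.Prime, (p : ℂ) ^ (1 - 2 * s) -
      (1 / 2) * ∑ p ∈ (Finset.range (J ^ (2 * k) + 1)).filter Nat.Prime,
        (p : ℂ) ^ (1 - 2 * s) := by
  have e1 := (h0 k J (fun p => -Complex.log (eul a p s)) hk hJ).1
  have e2 := (h0 k J (fun p => (p : ℂ) ^ (1 - 2 * s)) hk hJ).1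
  have e3 := (h0 k J (fun p => (p : ℂ) ^ (1 - 2 * s)) hk hJ).2
  have e4 : ∑ j ∈ Finset.range J, II k g j s =
      ∫ v in (0 : ℝ)..(ww k J), Complex.exp (-((s - 1) * v)) * (g v : ℂ) := by
    have := intervalIntegral.sum_integral_adjacent_intervals (μ := volume)
      (f := fun v : ℝ => Complex.exp (-((s - 1) * v)) * (g v : ℂ)) (a := ww k) (n := J)
      (fun j _ => gint k g hg s _ _ (ww_nonneg k j) (ww_nonneg k (j + 1)))
    rw [ww_zero] at this
    exact this
  have e5 : ∀ j : ℕ, ∑ p ∈ blk k j, (-Complex.log (eul a p s)) =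
      (hh k g a j s + TT k a j s + RB k a j s) + II k g j s +
      (1 / 2) * ∑ p ∈ sqb k j, (p : ℂ) ^ (1 - 2 * s) -
      (1 / 2) * ∑ p ∈ blk k j, (p : ℂ) ^ (1 - 2 * s) := by
    intro j
    have : ∀ p ∈ blk k j, -Complex.log (eul a p s) = RR a p s + (a p : ℂ) * (p : ℂ) ^ (-s) -
        (1 / 2) * (p : ℂ) ^ (1 - 2 * s) +
        (1 / 2) * (((a p : ℂ) ^ 2 - p) * (p : ℂ) ^ (-(2 * s))) := by
      intro p _
      unfold RR
      ring
    rw [Finset.sum_congr rfl this, Finset.sum_add_distrib, Finset.sum_sub_distrib,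
      Finset.sum_add_distrib, ← Finset.mul_sum, ← Finset.mul_sum]
    unfold hh TT RB
    ring
  rw [← e1, ← e2, ← e3, ← e4, Finset.mul_sum, Finset.mul_sum, ← Finset.sum_add_distrib,
    ← Finset.sum_add_distrib, ← Finset.sum_sub_distrib]
  exact Finset.sum_congr rfl fun j _ => e5 j

theorem eul_one (a : ℕ → ℤ) (p : ℕ) (hp : p.Prime) :
    eul a p 1 = (((((p : ℝ) + 1 - a p) / p : ℝ)) : ℂ) := by
  have hp0 : (p : ℂ) ≠ 0 := by exact_mod_cast hp.ne_zero
  unfold eul
  have : (1 : ℂ) - 2 * 1 = -1 := by ring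
  rw [this, Complex.cpow_neg_one]
  push_cast
  field_simp
  ring

end PART

open PART in
theorem part : S_PART := by
  intro hL h0 hM hS k g a hk hg ha
  obtain ⟨CL, hCL, hLb⟩ := hL
  obtain ⟨CM, hM⟩ := hM
  have hk0 : (0 : ℝ) < k := by exact_mod_cast (by omega : 0 < k)
  have hS1 : Summable (fun j : ℕ => hh k g a j 1 + TT k a j 1 + RB k a j 1) := by
    apply hS k g a hk hg ha 1
    have : 0 < 1 / (8 * (k : ℝ)) := by positivity
    simp only [Complex.one_re]
    linarith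
  -- positivity of the factors
  have hpos : ∀ p : ℕ, p.Prime → 0 < ((p : ℝ) + 1 - a p) / p := by
    intro p hp
    have h1 := (hLb a ha.hasse ha.small p 1 hp (by norm_num)).1
    rw [eul_one a p hp] at h1
    have h2 : ‖((((p : ℝ) + 1 - a p) / p - 1 : ℝ) : ℂ)‖ ≤ 3 / 4 := by
      push_cast
      push_cast at h1
      exact h1
    rw [Complex.norm_real, Real.norm_eq_abs] at h2
    have := (abs_le.mp h2).1
    linarith
  refine ⟨(∑' j : ℕ, ‖hh k g a j 1 + TT k a j 1 + RB k a j 1‖) + 1 / 2 * CM, fun J hJ => ?_⟩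
  have hPPpos : 0 < PP a (J ^ (2 * k)) := by
    unfold PP
    exact Finset.prod_pos fun p hp => hpos p (Finset.mem_filter.mp hp).2
  refine ⟨hPPpos, ?_⟩
  have hlog : ((Real.log (PP a (J ^ (2 * k))) : ℝ) : ℂ) =
      -∑ p ∈ (Finset.range (J ^ (2 * k) + 1)).filter Nat.Prime, (-Complex.log (eul a p 1)) := by
    unfold PP
    rw [Real.log_prod (fun p hp => (hpos p (Finset.mem_filter.mp hp).2).ne'),
      Finset.sum_neg_distrib, neg_neg, Complex.ofReal_sum]
    refine Finset.sum_congr rfl fun p hp => ?_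
    have hp' := (Finset.mem_filter.mp hp).2
    rw [eul_one a p hp', Complex.ofReal_log (hpos p hp').le]
  have hid := fin_id h0 k J (by omega) (by omega) g hg a 1
  have hint : (∫ v in (0 : ℝ)..(ww k J), Complex.exp (-(((1 : ℂ) - 1) * v)) * (g v : ℂ)) =
      ((∫ v in (0 : ℝ)..(ww k J), g v : ℝ) : ℂ) := by
    rw [← intervalIntegral.integral_ofReal]
    refine intervalIntegral.integral_congr fun v _ => ?_
    simp
  have hcp : ∀ p : ℕ, p.Prime → (p : ℂ) ^ ((1 : ℂ) - 2 * 1) = ((1 / (p : ℝ) : ℝ) : ℂ) := by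
    intro p hp
    have : (1 : ℂ) - 2 * 1 = -1 := by ring
    rw [this, Complex.cpow_neg_one]
    push_cast
    rw [one_div]
  -- the difference of the sums of 1/p
  have hJk : 2 ≤ J ^ k := by
    calc 2 ≤ J := hJ
      _ = J ^ 1 := (pow_one J).symm
      _ ≤ J ^ k := Nat.pow_le_pow_right (by omega) (by omega)
  have hsq : (J ^ k) ^ 2 = J ^ (2 * k) := by rw [← pow_mul, mul_comm]
  have hle : J ^ k ≤ J ^ (2 * k) := Nat.pow_le_pow_right (by omega) (by omega)
  have hdiff : ∑ p ∈ (Finset.range (J ^ (2 * k) + 1)).filter Nat.Prime, (p : ℂ) ^ ((1 : ℂ) - 2 * 1) -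
      ∑ p ∈ (Finset.range (J ^ k + 1)).filter Nat.Prime, (p : ℂ) ^ ((1 : ℂ) - 2 * 1) =
      ((∑ p ∈ (Ioc (J ^ k) ((J ^ k) ^ 2)).filter Nat.Prime, (1 / (p : ℝ)) : ℝ) : ℂ) := by
    have hun : (Finset.range (J ^ (2 * k) + 1)).filter Nat.Prime =
        (Finset.range (J ^ k + 1)).filter Nat.Prime ∪
          (Ioc (J ^ k) ((J ^ k) ^ 2)).filter Nat.Prime := by
      ext p
      simp only [Finset.mem_filter, Finset.mem_range, Finset.mem_union, Finset.mem_Ioc, hsq]
      constructor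
      · rintro ⟨h1, h2⟩
        by_cases h : p < J ^ k + 1
        · exact Or.inl ⟨h, h2⟩
        · exact Or.inr ⟨⟨by omega, by omega⟩, h2⟩
      · rintro (⟨h1, h2⟩ | ⟨⟨h1, h3⟩, h2⟩)
        · exact ⟨by omega, h2⟩
        · exact ⟨by omega, h2⟩
    have hdis : Disjoint ((Finset.range (J ^ k + 1)).filter Nat.Prime)
        ((Ioc (J ^ k) ((J ^ k) ^ 2)).filter Nat.Prime) := by
      rw [Finset.disjoint_left]
      intro p hp hp'
      simp only [Finset.mem_filter, Finset.mem_range, Finset.mem_Ioc] at hp hp'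
      omega
    rw [hun, Finset.sum_union hdis, add_sub_cancel_left, Complex.ofReal_sum]
    exact Finset.sum_congr rfl fun p hp => hcp p (Finset.mem_filter.mp hp).2
  have hfinal : ((Real.log (PP a (J ^ (2 * k))) + ∫ v in (0 : ℝ)..(ww k J), g v : ℝ) : ℂ) =
      -∑ j ∈ Finset.range J, (hh k g a j 1 + TT k a j 1 + RB k a j 1) +
      (1 / 2) * ((∑ p ∈ (Ioc (J ^ k) ((J ^ k) ^ 2)).filter Nat.Prime, (1 / (p : ℝ)) : ℝ) : ℂ) := by
    rw [Complex.ofReal_add, hlog, hid, hint, ← hdiff]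
    ring
  have hn := congrArg norm hfinal
  rw [Complex.norm_real, Real.norm_eq_abs] at hn
  rw [hn]
  refine (norm_add_le _ _).trans (add_le_add ?_ ?_)
  · rw [norm_neg]
    refine (norm_sum_le _ _).trans ?_
    exact hS1.norm.sum_le_tsum _ (fun _ _ => norm_nonneg _)
  · rw [norm_mul, Complex.norm_real, Real.norm_eq_abs, abs_of_nonneg
      (Finset.sum_nonneg fun p _ => by positivity)]
    have h12 : ‖(1 / 2 : ℂ)‖ = 1 / 2 := by norm_num
    rw [h12]
    exact mul_le_mul_of_nonneg_left (hM (J ^ k) hJk) (by norm_num)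

end

end H21RHB
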