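import Pool.Agent.H21.RHB.Stm

set_option autoImplicit false

namespace H21RHB

open Real Finset MeasureTheory Filter Topology

namespace PART0

theorem aux (e : ℕ) (he : 1 ≤ e) (f : ℕ → ℂ) (J : ℕ) :
    ∑ j ∈ Finset.range J, ∑ p ∈ (Ioc (j ^ e) ((j + 1) ^ e)).filter Nat.Prime, f p =
      ∑ p ∈ (Finset.range (J ^ e + 1)).filter Nat.Prime, f p := by
  induction J with
  | zero =>
    rw [Finset.range_zero, Finset.sum_empty]
    symm
    refine Finset.sum_eq_zero fun p hp => ?_
    rw [Finset.mem_filter, Finset.mem_range, zero_pow (by omega)] at hp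
    have := hp.2.two_le
    omega
  | succ J ih =>
    rw [Finset.sum_range_succ, ih, ← Finset.sum_union]
    · refine Finset.sum_congr ?_ fun _ _ => rfl
      have h1 : J ^ e ≤ (J + 1) ^ e := Nat.pow_le_pow_left (Nat.le_succ J) e
      ext p
      simp only [Finset.mem_union, Finset.mem_filter, Finset.mem_range, Finset.mem_Ioc]
      constructor
      · rintro (⟨h2, h3⟩ | ⟨⟨h2, h3⟩, h4⟩)
        · exact ⟨by omega, h3⟩
        · exact ⟨by omega, h4⟩
      · rintro ⟨h2, h3⟩
        rcases le_or_gt p (J ^ e) with h4 | h4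
        · exact Or.inl ⟨by omega, h3⟩
        · exact Or.inr ⟨⟨h4, by omega⟩, h3⟩
    · rw [Finset.disjoint_left]
      intro p h2 h3
      rw [Finset.mem_filter, Finset.mem_range] at h2
      rw [Finset.mem_filter, Finset.mem_Ioc] at h3
      omega

end PART0

theorem part0 : S_PART0 := by
  intro k J f hk hJ
  unfold blk sqb
  exact ⟨PART0.aux (2 * k) (by omega) f J, PART0.aux k hk f J⟩

end H21RHB
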