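import Pool.Agent.H21.RHB.Stm

/-! Project RHB, stub PROD (helper19). -/

set_option autoImplicit false

namespace H21RHB

open Real Finset MeasureTheory Filter Topology

noncomputable section

namespace PROD

theorem ww_nonneg (k j : ℕ) : 0 ≤ ww k j := by
  unfold ww
  have := Real.log_natCast_nonneg j
  positivity

theorem ww_zero (k : ℕ) : ww k 0 = 0 := by simp [ww]

/-- interval integrability of the integrand of II -/
theorem gint (k : ℕ) (g : ℝ → ℝ) (hg : Adm k g) (s : ℂ) (A B : ℝ) (hA : 0 ≤ A) (hB : 0 ≤ B) :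
    IntervalIntegrable (fun v : ℝ => Complex.exp (-((s - 1) * v)) * (g v : ℂ)) volume A B := by
  obtain ⟨hm, C, hC⟩ := hg
  have h1 : IntervalIntegrable
      (fun v : ℝ => ‖Complex.exp (-((s - 1) * v))‖ * (C * Real.exp (v / (4 * k)))) volume A B := by
    apply Continuous.intervalIntegrable
    fun_prop
  refine IntervalIntegrable.mono_fun' h1 ?_ ?_
  · apply Measurable.aestronglyMeasurable
    fun_prop
  · refine (ae_restrict_iff' measurableSet_uIoc).mpr (Eventually.of_forall fun v hv => ?_)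
    have hv0 : 0 ≤ v := by
      rcases Set.mem_uIoc.mp hv with h | h
      · linarith [h.1]
      · linarith [h.1]
    simp only [norm_mul, Complex.norm_real, Real.norm_eq_abs]
    exact mul_le_mul_of_nonneg_left (hC v hv0) (norm_nonneg _)

/-- integrability over the half line for `Re s > 3/2` -/
theorem gintIoi (k : ℕ) (hk : 4 ≤ k) (g : ℝ → ℝ) (hg : Adm k g) (s : ℂ) (hs : 3 / 2 < s.re) :
    IntegrableOn (fun v : ℝ => Complex.exp (-((s - 1) * v)) * (g v : ℂ)) (Set.Ioi (0 : ℝ)) := by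
  obtain ⟨hm, C, hC⟩ := hg
  have hk4 : (4 : ℝ) ≤ k := by exact_mod_cast hk
  have hinv : (1 : ℝ) / (4 * k) ≤ 1 / 16 := by
    apply one_div_le_one_div_of_le (by norm_num)
    linarith
  have h1 : IntegrableOn (fun v : ℝ => C * Real.exp (-(s.re - 1 - 1 / (4 * k)) * v))
      (Set.Ioi (0 : ℝ)) := by
    apply Integrable.const_mul
    exact exp_neg_integrableOn_Ioi 0 (by linarith)
  refine Integrable.mono' h1 ?_ ?_
  · apply Measurable.aestronglyMeasurable
    fun_prop
  · refine (ae_restrict_iff' measurableSet_Ioi).mpr (Eventually.of_forall fun v hv => ?_)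
    have hv0 : 0 ≤ v := le_of_lt hv
    rw [norm_mul, Complex.norm_real, Real.norm_eq_abs, Complex.norm_exp]
    have e1 : (-((s - 1) * (v : ℂ))).re = -((s.re - 1) * v) := by
      simp [Complex.mul_re]
    rw [e1]
    calc Real.exp (-((s.re - 1) * v)) * |g v|
        ≤ Real.exp (-((s.re - 1) * v)) * (C * Real.exp (v / (4 * k))) :=
          mul_le_mul_of_nonneg_left (hC v hv0) (Real.exp_pos _).le
      _ = C * (Real.exp (-((s.re - 1) * v)) * Real.exp (v / (4 * k))) := by ring
      _ = C * Real.exp (-(s.re - 1 - 1 / (4 * k)) * v) := by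
          rw [← Real.exp_add]
          congr 2
          ring

/-- the finite identity -/
theorem fin_id (h0 : S_PART0) (k J : ℕ) (hk : 1 ≤ k) (hJ : 1 ≤ J) (g : ℝ → ℝ) (hg : Adm k g)
    (a : ℕ → ℤ) (s : ℂ) :
    ∑ p ∈ (Finset.range (J ^ (2 * k) + 1)).filter Nat.Prime, (-Complex.log (eul a p s)) =
      ∑ j ∈ Finset.range J, (hh k g a j s + TT k a j s + RB k a j s) +
      (∫ v in (0 : ℝ)..(ww k J), Complex.exp (-((s - 1) * v)) * (g v : ℂ)) +
      (1 / 2) * ∑ p ∈ (Finset.range (J ^ k + 1)).filter Nat.Prime, (p : ℂ) ^ (1 - 2 * s) -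
      (1 / 2) * ∑ p ∈ (Finset.range (J ^ (2 * k) + 1)).filter Nat.Prime,
        (p : ℂ) ^ (1 - 2 * s) := by
  have e1 := (h0 k J (fun p => -Complex.log (eul a p s)) hk hJ).1
  have e2 := (h0 k J (fun p => (p : ℂ) ^ (1 - 2 * s)) hk hJ).1
  have e3 := (h0 k J (fun p => (p : ℂ) ^ (1 - 2 * s)) hk hJ).2
  have e4 : ∑ j ∈ Finset.range J, II k g j s =
      ∫ v in (0 : ℝ)..(ww k J), Complex.exp (-((s - 1) * v)) * (g v : ℂ) := by
    have := intervalIntegral.sum_integral_adjacent_intervals (μ := volume)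
      (f := fun v : ℝ => Complex.exp (-((s - 1) * v)) * (g v : ℂ)) (a := ww k) (n := J)
      (fun j _ => gint k g hg s _ _ (ww_nonneg k j) (ww_nonneg k (j + 1)))
    rw [ww_zero] at this
    exact this
  have e5 : ∀ j : ℕ, ∑ p ∈ blk k j, (-Complex.log (eul a p s)) =
      (hh k g a j s + TT k a j s + RB k a j s) + II k g j s +
      (1 / 2) * ∑ p ∈ sqb k j, (p : ℂ) ^ (1 - 2 * s) -
      (1 / 2) * ∑ p ∈ blk k j, (p : ℂ) ^ (1 - 2 * s) := by
    intro j
    have : ∀ p ∈ blk k j, -Complex.log (eul a p s) = RR a p s + (a p : ℂ) * (p : ℂ) ^ (-s) -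
        (1 / 2) * (p : ℂ) ^ (1 - 2 * s) +
        (1 / 2) * (((a p : ℂ) ^ 2 - p) * (p : ℂ) ^ (-(2 * s))) := by
      intro p _
      unfold RR
      ring
    rw [Finset.sum_congr rfl this, Finset.sum_add_distrib, Finset.sum_sub_distrib,
      Finset.sum_add_distrib, ← Finset.mul_sum, ← Finset.mul_sum]
    unfold hh TT RB
    ring
  rw [← e1, ← e2, ← e3, ← e4, Finset.mul_sum, Finset.mul_sum, ← Finset.sum_add_distrib,
    ← Finset.sum_add_distrib, ← Finset.sum_sub_distrib]
  exact Finset.sum_congr rfl fun j _ => e5 j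

/-- sums over the primes up to `N J` converge, for a function bounded by `n^(-e)`, `e > 1` -/
theorem tends_primes (f : ℕ → ℂ) (C e : ℝ) (he : 1 < e)
    (hf : ∀ p : ℕ, p.Prime → ‖f p‖ ≤ C * (p : ℝ) ^ (-e)) :
    Summable (fun n : ℕ => if n.Prime then f n else 0) := by
  have hs : Summable (fun n : ℕ => C * (n : ℝ) ^ (-e)) :=
    (Real.summable_nat_rpow.mpr (by linarith)).mul_left C
  refine Summable.of_norm_bounded_eventually_nat (g := fun n => C * (n : ℝ) ^ (-e)) hs ?_
  have hC : 0 ≤ C := by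
    have h2 := (norm_nonneg _).trans (hf 2 Nat.prime_two)
    have : 0 < ((2 : ℕ) : ℝ) ^ (-e) := by positivity
    exact nonneg_of_mul_nonneg_left h2 this
  filter_upwards with n
  split_ifs with h
  · exact hf n h
  · rw [norm_zero]
    positivity

theorem tends_range (f : ℕ → ℂ) (N : ℕ → ℕ) (hN : Tendsto N atTop atTop)
    (hs : Summable (fun n : ℕ => if n.Prime then f n else 0)) :
    Tendsto (fun J => ∑ p ∈ (Finset.range (N J + 1)).filter Nat.Prime, f p) atTop
      (𝓝 (∑' n : ℕ, if n.Prime then f n else 0)) := by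
  have h1 := hs.hasSum.tendsto_sum_nat
  have h2 : Tendsto (fun J => N J + 1) atTop atTop := (tendsto_add_atTop_nat 1).comp hN
  refine (h1.comp h2).congr fun J => ?_
  simp only [Function.comp]
  rw [Finset.sum_filter]

theorem tends_pow (m : ℕ) (hm : 1 ≤ m) : Tendsto (fun J : ℕ => J ^ m) atTop atTop :=
  tendsto_pow_atTop (by omega)

end PROD

open PROD in
theorem prod : S_PROD := by
  intro hL h0 hS k g a hk hg ha s hs
  obtain ⟨CL, hCL, hLb⟩ := hL
  have hk0 : (4 : ℝ) ≤ k := by exact_mod_cast hk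
  have hS1 : Summable (fun j : ℕ => hh k g a j s + TT k a j s + RB k a j s) := by
    apply hS k g a hk hg ha s
    have : 0 < 1 / (8 * (k : ℝ)) := by positivity
    linarith
  -- summability of the logarithms
  have hlogb : ∀ p : ℕ, p.Prime → ‖-Complex.log (eul a p s)‖ ≤
      (15 / 2) * (p : ℝ) ^ (-(s.re - 1 / 2)) := by
    intro p hp
    obtain ⟨h1, h2, -⟩ := hLb a ha.hasse ha.small p s hp (by linarith)
    rw [norm_neg]
    have e1 : eul a p s = 1 + (eul a p s - 1) := by ring
    obtain ⟨z, hz⟩ : ∃ z, z = eul a p s - 1 := ⟨_, rfl⟩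
    rw [← hz] at h1 h2 e1
    rw [e1]
    have h3 := Complex.norm_log_one_add_le (z := z) (by linarith)
    have h4 : (1 - ‖z‖)⁻¹ ≤ 4 := by
      rw [inv_le_comm₀ (by linarith) (by norm_num)]
      linarith
    have h0 := norm_nonneg z
    have h5 : ‖z‖ ^ 2 * (1 - ‖z‖)⁻¹ / 2 ≤ (3 / 2) * ‖z‖ := by
      have : ‖z‖ ^ 2 * (1 - ‖z‖)⁻¹ ≤ ‖z‖ ^ 2 * 4 := mul_le_mul_of_nonneg_left h4 (sq_nonneg _)
      nlinarith
    have h6 : (p : ℝ) ^ (1 / 2 - s.re) = (p : ℝ) ^ (-(s.re - 1 / 2)) := by
      congr 1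
      ring
    rw [← h6]
    linarith
  have hsl := tends_primes (fun p => -Complex.log (eul a p s)) (15 / 2) (s.re - 1 / 2) (by linarith)
    hlogb
  have hsp := tends_primes (fun p => (p : ℂ) ^ (1 - 2 * s)) 1 (2 * s.re - 1) (by linarith) (by
    intro p hp
    rw [Complex.norm_natCast_cpow_of_pos hp.pos, one_mul]
    apply le_of_eq
    congr 1
    simp)
  have t1 := tends_range _ (fun J => J ^ (2 * k)) (tends_pow _ (by omega)) hsl
  have t2 := tends_range _ (fun J => J ^ (2 * k)) (tends_pow _ (by omega)) hsp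
  have t3 := tends_range _ (fun J => J ^ k) (tends_pow _ (by omega)) hsp
  have t4 : Tendsto (fun J : ℕ => ∑ j ∈ Finset.range J,
      (hh k g a j s + TT k a j s + RB k a j s)) atTop (𝓝 (HH k g a s)) :=
    hS1.hasSum.tendsto_sum_nat
  have hww : Tendsto (fun J : ℕ => ww k J) atTop atTop := by
    unfold ww
    apply Tendsto.const_mul_atTop (by positivity)
    exact Real.tendsto_log_atTop.comp tendsto_natCast_atTop_atTop
  have t5 := intervalIntegral_tendsto_integral_Ioi (0 : ℝ) (gintIoi k hk g hg s hs) hww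
  have t6 := ((t4.add t5).add (t3.const_mul (1 / 2))).sub (t2.const_mul (1 / 2))
  have hlim : (∑' n : ℕ, if n.Prime then -Complex.log (eul a n s) else 0) =
      (∫ v in Set.Ioi (0 : ℝ), Complex.exp (-((s - 1) * v)) * (g v : ℂ)) + HH k g a s := by
    have := tendsto_nhds_unique_of_eventuallyEq t1 t6 (by
      filter_upwards [eventually_ge_atTop 1] with J hJ
      exact fin_id h0 k J (by omega) hJ g hg a s)
    rw [this]
    ring
  have hsum : HasSum (fun n : ℕ => if n.Prime then -Complex.log (eul a n s) else 0)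
      ((∫ v in Set.Ioi (0 : ℝ), Complex.exp (-((s - 1) * v)) * (g v : ℂ)) + HH k g a s) := by
    rw [← hlim]
    exact hsl.hasSum
  have hsum2 : HasSum (fun p : Nat.Primes => -Complex.log (eul a (p : ℕ) s))
      ((∫ v in Set.Ioi (0 : ℝ), Complex.exp (-((s - 1) * v)) * (g v : ℂ)) + HH k g a s) := by
    have h := (hasSum_subtype_iff_indicator (f := fun n : ℕ => -Complex.log (eul a n s))
      (s := {p : ℕ | p.Prime}) (a := (∫ v in Set.Ioi (0 : ℝ),
        Complex.exp (-((s - 1) * v)) * (g v : ℂ)) + HH k g a s)).mpr (by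
        convert hsum using 2 with n
        simp only [Set.indicator_apply, Set.mem_ofPred_eq])
    exact h
  have h3 : HasProd (fun p : Nat.Primes => Complex.exp (-Complex.log (eul a (p : ℕ) s)))
      (Complex.exp ((∫ v in Set.Ioi (0 : ℝ), Complex.exp (-((s - 1) * v)) * (g v : ℂ)) +
        HH k g a s)) := hsum2.cexp
  have h4 : (fun p : Nat.Primes => (eul a (p : ℕ) s)⁻¹) =
      fun p : Nat.Primes => Complex.exp (-Complex.log (eul a (p : ℕ) s)) := by
    funext p
    have h5 := (hLb a ha.hasse ha.small p s p.2 (by linarith)).1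
    have h6 : eul a (p : ℕ) s ≠ 0 := by
      intro h
      rw [h] at h5
      norm_num at h5
    rw [Complex.exp_neg, Complex.exp_log h6]
  rw [h4]
  exact h3

end

end H21RHB
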