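import Pool.Agent.H21.RHB.Stm

/-! # RHB-QNT (helper61): quantiles of the Sato-Tate measure -/

set_option autoImplicit false

namespace H21RHB

open Real Finset MeasureTheory Filter Topology

noncomputable section

namespace QNT

/-- the distribution function on `[0, 1]` -/
def G (x : ℝ) : ℝ := 2 * STF x - 1

/-- the primitive function of `x ^ 2 G'` -/
def Φ (x : ℝ) : ℝ := 1 / (2 * π) * (arcsin x - x * (1 - 2 * x ^ 2) * √(1 - x ^ 2))

lemma G_eq (x : ℝ) : G x = 2 / π * (x * √(1 - x ^ 2) + arcsin x) := by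
  unfold G STF
  ring

lemma cG : Continuous G := by
  have : G = fun x => 2 / π * (x * √(1 - x ^ 2) + arcsin x) := funext G_eq
  rw [this]
  have h := Real.continuous_arcsin
  fun_prop

lemma cΦ : Continuous Φ := by
  unfold Φ
  have h := Real.continuous_arcsin
  fun_prop

lemma dG {x : ℝ} (h0 : -1 < x) (h1 : x < 1) : HasDerivAt G (4 / π * √(1 - x ^ 2)) x := by
  have : G = fun x => 2 / π * (x * √(1 - x ^ 2) + arcsin x) := funext G_eq
  rw [this]
  have hpos : 0 < 1 - x ^ 2 := by nlinarith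
  have hr : 0 < √(1 - x ^ 2) := Real.sqrt_pos.2 hpos
  have hr2 : √(1 - x ^ 2) ^ 2 = 1 - x ^ 2 := Real.sq_sqrt hpos.le
  have e1 : HasDerivAt (fun x : ℝ => 1 - x ^ 2) (-(2 * x)) x := by
    simpa using (hasDerivAt_pow 2 x).const_sub 1
  have e2 := e1.sqrt hpos.ne'
  have e3 := Real.hasDerivAt_arcsin h0.ne' h1.ne
  have e4 := (((hasDerivAt_id' x).mul e2).add e3).const_mul (2 / π)
  have e5 : 2 / π * (1 * √(1 - x ^ 2) + x * (-(2 * x) / (2 * √(1 - x ^ 2))) +
      1 / √(1 - x ^ 2)) = 4 / π * √(1 - x ^ 2) := by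
    have hπ := Real.pi_pos.ne'
    field_simp
    rw [hr2]
    ring
  rw [← e5]
  exact e4

lemma dΦ {x : ℝ} (h0 : -1 < x) (h1 : x < 1) : HasDerivAt Φ (4 / π * x ^ 2 * √(1 - x ^ 2)) x := by
  have hpos : 0 < 1 - x ^ 2 := by nlinarith
  have hr : 0 < √(1 - x ^ 2) := Real.sqrt_pos.2 hpos
  have hr2 : √(1 - x ^ 2) ^ 2 = 1 - x ^ 2 := Real.sq_sqrt hpos.le
  have e1 : HasDerivAt (fun x : ℝ => 1 - x ^ 2) (-(2 * x)) x := by
    simpa using (hasDerivAt_pow 2 x).const_sub 1
  have e2 := e1.sqrt hpos.ne'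
  have e3 := Real.hasDerivAt_arcsin h0.ne' h1.ne
  have e5 : HasDerivAt (fun x : ℝ => x * (1 - 2 * x ^ 2)) (1 - 6 * x ^ 2) x := by
    have := (hasDerivAt_id' x).mul (((hasDerivAt_pow 2 x).const_mul 2).const_sub 1)
    have e : 1 * (1 - 2 * x ^ 2) + x * -(2 * ((2 : ℕ) * x ^ (2 - 1))) = 1 - 6 * x ^ 2 := by
      norm_num
      ring
    rw [← e]
    exact this
  have e4 := (e3.sub (e5.mul e2)).const_mul (1 / (2 * π))
  have e6 : 1 / (2 * π) * (1 / √(1 - x ^ 2) - ((1 - 6 * x ^ 2) * √(1 - x ^ 2) +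
      x * (1 - 2 * x ^ 2) * (-(2 * x) / (2 * √(1 - x ^ 2))))) =
      4 / π * x ^ 2 * √(1 - x ^ 2) := by
    have hπ := Real.pi_pos.ne'
    field_simp
    rw [hr2]
    ring
  rw [← e6]
  exact e4

lemma mono : StrictMonoOn G (Set.Icc 0 1) := by
  apply strictMonoOn_of_deriv_pos (convex_Icc 0 1) cG.continuousOn
  intro x hx
  rw [interior_Icc] at hx
  rw [(dG (by linarith [hx.1]) hx.2).deriv]
  have : 0 < 1 - x ^ 2 := by nlinarith [hx.1, hx.2]
  have := Real.sqrt_pos.2 this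
  have := Real.pi_pos
  positivity

lemma low {a b : ℝ} (ha : 0 ≤ a) (hab : a ≤ b) (hb : b ≤ 1) :
    a ^ 2 * (G b - G a) ≤ Φ b - Φ a := by
  have h : MonotoneOn (fun x => Φ x - a ^ 2 * G x) (Set.Icc a b) := by
    apply monotoneOn_of_deriv_nonneg (convex_Icc a b)
    · exact (cΦ.sub (continuous_const.mul cG)).continuousOn
    · intro x hx
      rw [interior_Icc] at hx
      exact ((dΦ (by linarith [hx.1]) (by linarith [hx.2])).sub
        ((dG (by linarith [hx.1]) (by linarith [hx.2])).const_mul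
          (a ^ 2))).differentiableAt.differentiableWithinAt
    · intro x hx
      rw [interior_Icc] at hx
      have h1 := ((dΦ (x := x) (by linarith [hx.1]) (by linarith [hx.2])).sub
        ((dG (x := x) (by linarith [hx.1]) (by linarith [hx.2])).const_mul (a ^ 2))).deriv
      have h2 : deriv (fun x => Φ x - a ^ 2 * G x) x =
        4 / π * x ^ 2 * √(1 - x ^ 2) - a ^ 2 * (4 / π * √(1 - x ^ 2)) := h1
      rw [h2]
      have h3 : 4 / π * x ^ 2 * √(1 - x ^ 2) - a ^ 2 * (4 / π * √(1 - x ^ 2)) =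
        4 / π * √(1 - x ^ 2) * (x ^ 2 - a ^ 2) := by ring
      rw [h3]
      have h4 : 0 ≤ x ^ 2 - a ^ 2 := by nlinarith [hx.1]
      have := Real.pi_pos
      positivity
  have := h (Set.left_mem_Icc.2 hab) (Set.right_mem_Icc.2 hab) hab
  simp only at this
  linarith

lemma upp {a b : ℝ} (ha : 0 ≤ a) (hab : a ≤ b) (hb : b ≤ 1) :
    Φ b - Φ a ≤ b ^ 2 * (G b - G a) := by
  have h : MonotoneOn (fun x => b ^ 2 * G x - Φ x) (Set.Icc a b) := by
    apply monotoneOn_of_deriv_nonneg (convex_Icc a b)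
    · exact ((continuous_const.mul cG).sub cΦ).continuousOn
    · intro x hx
      rw [interior_Icc] at hx
      exact (((dG (by linarith [hx.1]) (by linarith [hx.2])).const_mul
          (b ^ 2)).sub (dΦ (by linarith [hx.1]) (by linarith [hx.2]))).differentiableAt.differentiableWithinAt
    · intro x hx
      rw [interior_Icc] at hx
      have h1 := (((dG (x := x) (by linarith [hx.1]) (by linarith [hx.2])).const_mul (b ^ 2)).sub
        (dΦ (x := x) (by linarith [hx.1]) (by linarith [hx.2]))).deriv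
      have h2 : deriv (fun x => b ^ 2 * G x - Φ x) x =
        b ^ 2 * (4 / π * √(1 - x ^ 2)) - 4 / π * x ^ 2 * √(1 - x ^ 2) := h1
      rw [h2]
      have h3 : b ^ 2 * (4 / π * √(1 - x ^ 2)) - 4 / π * x ^ 2 * √(1 - x ^ 2) =
        4 / π * √(1 - x ^ 2) * (b ^ 2 - x ^ 2) := by ring
      rw [h3]
      have h4 : 0 ≤ b ^ 2 - x ^ 2 := by nlinarith [hx.1, hx.2]
      have := Real.pi_pos
      positivity
  have := h (Set.left_mem_Icc.2 hab) (Set.right_mem_Icc.2 hab) hab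
  simp only at this
  linarith

lemma G0 : G 0 = 0 := by rw [G_eq]; simp

lemma G1 : G 1 = 1 := by
  rw [G_eq]
  have := Real.pi_pos.ne'
  simp only [one_pow, sub_self, Real.sqrt_zero, mul_zero, zero_add, Real.arcsin_one]
  field_simp

lemma Φ0 : Φ 0 = 0 := by simp [Φ]

lemma Φ1 : Φ 1 = 1 / 4 := by
  have := Real.pi_pos.ne'
  simp only [Φ, one_pow, sub_self, Real.sqrt_zero, mul_zero, sub_zero, Real.arcsin_one]
  field_simp
  norm_num

end QNT

open QNT in
theorem qnt : S_QNT := by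
  intro h
  have hex : ∀ y : ℝ, ∃ x : ℝ, (0 ≤ x ∧ x ≤ 1) ∧ (0 ≤ y → y ≤ 1 → G x = y) := by
    intro y
    by_cases hy : 0 ≤ y ∧ y ≤ 1
    · have h1 := intermediate_value_Icc (zero_le_one' ℝ) cG.continuousOn
      rw [G0, G1] at h1
      obtain ⟨x, hx, hxy⟩ := h1 ⟨hy.1, hy.2⟩
      exact ⟨x, ⟨hx.1, hx.2⟩, fun _ _ => hxy⟩
    · exact ⟨0, ⟨le_rfl, zero_le_one⟩, fun h1 h2 => absurd ⟨h1, h2⟩ hy⟩
  choose v hv01 hv using hex
  rcases Nat.eq_zero_or_pos h with rfl | hpos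
  · refine ⟨fun _ => 0, fun _ => ⟨le_rfl, zero_le_one⟩, by simp, by simp⟩
  have hR : (0 : ℝ) < h := by exact_mod_cast hpos
  set t : ℕ → ℝ := fun i => v (((i : ℝ) + 1 / 2) / h) with ht
  set s : ℕ → ℝ := fun i => v ((i : ℝ) / h) with hs
  have hGt : ∀ i, i < h → G (t i) = ((i : ℝ) + 1 / 2) / h := by
    intro i hi
    have hi' : (i : ℝ) + 1 ≤ h := by exact_mod_cast hi
    apply hv
    · positivity
    · rw [div_le_one hR]; linarith
  have hGs : ∀ i, i ≤ h → G (s i) = (i : ℝ) / h := by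
    intro i hi
    have hi' : (i : ℝ) ≤ h := by exact_mod_cast hi
    apply hv
    · positivity
    · rw [div_le_one hR]; exact hi'
  have hle : ∀ {a b : ℝ}, (0 ≤ a ∧ a ≤ 1) → (0 ≤ b ∧ b ≤ 1) → (a ≤ b ↔ G a ≤ G b) := by
    intro a b ha hb
    exact (mono.le_iff_le ⟨ha.1, ha.2⟩ ⟨hb.1, hb.2⟩).symm
  have hs0 : s 0 = 0 := by
    apply mono.injOn ⟨(hv01 _).1, (hv01 _).2⟩ ⟨le_rfl, zero_le_one⟩
    rw [hGs 0 (Nat.zero_le _), G0]
    simp
  have hsh : s h = 1 := by
    apply mono.injOn ⟨(hv01 _).1, (hv01 _).2⟩ ⟨zero_le_one, le_rfl⟩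
    rw [hGs h le_rfl, G1, div_self hR.ne']
  have hst : ∀ i, i < h → s i ≤ t i ∧ t i ≤ s (i + 1) := by
    intro i hi
    constructor
    · rw [hle (hv01 _) (hv01 _)]
      change G (s i) ≤ G (t i)
      rw [hGs i hi.le, hGt i hi, div_le_div_iff_of_pos_right hR]
      linarith
    · rw [hle (hv01 _) (hv01 _)]
      change G (t i) ≤ G (s (i + 1))
      rw [hGs (i + 1) hi, hGt i hi, div_le_div_iff_of_pos_right hR]
      push_cast
      linarith
  have hss : ∀ i, i < h → s i ^ 2 ≤ h * (Φ (s (i + 1)) - Φ (s i)) ∧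
      h * (Φ (s (i + 1)) - Φ (s i)) ≤ s (i + 1) ^ 2 := by
    intro i hi
    have h1 := (hst i hi).1.trans (hst i hi).2
    have h2 : G (s (i + 1)) - G (s i) = 1 / h := by
      rw [hGs (i + 1) hi, hGs i hi.le]
      push_cast
      field_simp
      ring
    have h3 := low (hv01 _).1 h1 (hv01 _).2
    have h4 := upp (hv01 _).1 h1 (hv01 _).2
    rw [h2] at h3 h4
    constructor
    · have := mul_le_mul_of_nonneg_left h3 hR.le
      calc s i ^ 2 = h * (s i ^ 2 * (1 / h)) := by field_simp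
        _ ≤ _ := this
    · have := mul_le_mul_of_nonneg_left h4 hR.le
      calc (h : ℝ) * (Φ (s (i + 1)) - Φ (s i)) ≤ h * (s (i + 1) ^ 2 * (1 / h)) := this
        _ = _ := by field_simp
  have htel : ∑ i ∈ Finset.range h, h * (Φ (s (i + 1)) - Φ (s i)) = h / 4 := by
    rw [← Finset.mul_sum, Finset.sum_range_sub (fun i => Φ (s i)), hs0, hsh, Φ0, Φ1]
    ring
  have hA : ∑ i ∈ Finset.range h, s i ^ 2 ≤ h / 4 := by
    rw [← htel]
    exact Finset.sum_le_sum fun i hi => (hss i (Finset.mem_range.1 hi)).1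
  have hB : (h : ℝ) / 4 ≤ ∑ i ∈ Finset.range h, s (i + 1) ^ 2 := by
    rw [← htel]
    exact Finset.sum_le_sum fun i hi => (hss i (Finset.mem_range.1 hi)).2
  have hAB : ∑ i ∈ Finset.range h, s (i + 1) ^ 2 = ∑ i ∈ Finset.range h, s i ^ 2 + 1 := by
    have h1 := Finset.sum_range_sub (fun i => s i ^ 2) h
    rw [Finset.sum_sub_distrib] at h1
    rw [hs0, hsh] at h1
    linarith
  have hT1 : ∑ i ∈ Finset.range h, s i ^ 2 ≤ ∑ i ∈ Finset.range h, t i ^ 2 :=
    Finset.sum_le_sum fun i hi =>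
      pow_le_pow_left₀ (hv01 _).1 (hst i (Finset.mem_range.1 hi)).1 2
  have hT2 : ∑ i ∈ Finset.range h, t i ^ 2 ≤ ∑ i ∈ Finset.range h, s (i + 1) ^ 2 :=
    Finset.sum_le_sum fun i hi =>
      pow_le_pow_left₀ (hv01 _).1 (hst i (Finset.mem_range.1 hi)).2 2
  refine ⟨t, fun i => hv01 _, ?_, ?_⟩
  · rw [← Finset.mul_sum, abs_le]
    constructor <;> linarith
  · intro x hx
    have hG0 : 0 ≤ G x := by
      rw [← G0]
      exact (hle ⟨le_rfl, zero_le_one⟩ ⟨hx.1, hx.2⟩).1 hx.1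
    have hG1 : G x ≤ 1 := by
      rw [← G1]
      exact (hle ⟨hx.1, hx.2⟩ ⟨zero_le_one, le_rfl⟩).1 hx.2
    have h1 : (Finset.range h).filter (fun i => t i ≤ x) =
        Finset.range ⌊h * G x + 1 / 2⌋₊ := by
      ext i
      rw [Finset.mem_filter, Finset.mem_range, Finset.mem_range]
      have h2 : i < ⌊h * G x + 1 / 2⌋₊ ↔ (i : ℝ) + 1 / 2 ≤ h * G x := by
        rw [← Nat.succ_le_iff, Nat.le_floor_iff (by positivity)]
        push_cast
        constructor <;> intro h3 <;> linarith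
      rw [h2]
      constructor
      · rintro ⟨hi, hix⟩
        have h3 : G (t i) ≤ G x := (hle (hv01 _) ⟨hx.1, hx.2⟩).1 hix
        rw [hGt i hi, div_le_iff₀ hR] at h3
        linarith
      · intro h3
        have hi : i < h := by
          have : (i : ℝ) < h := by nlinarith
          exact_mod_cast this
        refine ⟨hi, ?_⟩
        apply (hle (hv01 _) ⟨hx.1, hx.2⟩).2
        change G (t i) ≤ G x
        rw [hGt i hi, div_le_iff₀ hR]
        linarith
    rw [h1, Finset.card_range]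
    have h2 := Nat.floor_le (show 0 ≤ h * G x + 1 / 2 by positivity)
    have h3 := Nat.lt_floor_add_one (h * G x + 1 / 2)
    change |((⌊h * G x + 1 / 2⌋₊ : ℕ) : ℝ) - h * G x| ≤ 1
    rw [abs_le]
    constructor <;> linarith

end

end H21RHB
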