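import Pool.Agent.H21.RHB.Stm

/-! # Project RHB: the stub QQ1 (helper12) -/

set_option autoImplicit false

namespace H21RHB

open Real Finset MeasureTheory Filter Topology

namespace QQ1

/-- `ph v` as an integral -/
theorem ph_int (z : ℂ) (v : ℝ) (hv : 0 < v) :
    ∫ u in Set.Ioc (0 : ℝ) 1, Complex.exp (-((z + u) * v)) = Complex.exp (-(z * v)) * (ph v : ℂ) := by
  rw [← intervalIntegral.integral_of_le zero_le_one]
  have hv0 : (v : ℂ) ≠ 0 := by exact_mod_cast hv.ne'
  have h1 : ∀ u ∈ Set.uIcc (0 : ℝ) 1, HasDerivAt (fun u : ℝ => -(Complex.exp (-((z + u) * v)) / v))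
      (Complex.exp (-((z + u) * v))) u := by
    intro u _
    have h2 : HasDerivAt (fun u : ℝ => -((z + u) * v)) (-(v : ℂ)) u := by
      have h3 : HasDerivAt (fun u : ℝ => (u : ℂ)) 1 u := Complex.ofRealCLM.hasDerivAt
      have h4 := ((h3.const_add z).mul_const (v : ℂ)).neg
      rw [one_mul] at h4
      exact h4
    have h5 := (h2.cexp.div_const (v : ℂ)).neg
    rw [mul_neg, neg_div, neg_neg, mul_div_assoc, div_self hv0, mul_one] at h5
    exact h5
  rw [intervalIntegral.integral_eq_sub_of_hasDerivAt h1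
    (Continuous.intervalIntegrable (by fun_prop) _ _)]
  have h6 : Complex.exp (-((z + (1 : ℝ)) * v)) = Complex.exp (-(z * v)) * Complex.exp (-v) := by
    rw [← Complex.exp_add]
    congr 1
    push_cast
    ring
  rw [h6]
  unfold ph
  push_cast
  rw [add_zero]
  field_simp
  ring

theorem re_lt {z : ℂ} (hz : 0 < z.re) {u : ℝ} (hu : 0 ≤ u) : (-(z + u)).re < 0 := by
  simp only [Complex.neg_re, Complex.add_re, Complex.ofReal_re]
  linarith

/-- the integrability on the product -/
theorem int_prod {z : ℂ} (hz : 0 < z.re) :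
    Integrable (Function.uncurry fun (v u : ℝ) => Complex.exp (-((z + u) * v)))
      ((volume.restrict (Set.Ioi (0 : ℝ))).prod (volume.restrict (Set.Ioc (0 : ℝ) 1))) := by
  have h1 : IntegrableOn (fun v : ℝ => Real.exp (-z.re * v)) (Set.Ioi 0) :=
    exp_neg_integrableOn_Ioi 0 hz
  have h2 : IntegrableOn (fun _ : ℝ => (1 : ℝ)) (Set.Ioc (0 : ℝ) 1) :=
    integrableOn_const (by simp)
  have h3 := h1.mul_prod h2
  refine h3.mono' (by fun_prop) ?_
  rw [Measure.prod_restrict]
  rw [ae_restrict_iff' (measurableSet_Ioi.prod measurableSet_Ioc)]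
  refine ae_of_all _ ?_
  rintro ⟨v, u⟩ ⟨hv, hu⟩
  have hv' : 0 < v := hv
  have hu' : 0 < u := hu.1
  change ‖Complex.exp (-((z + u) * v))‖ ≤ Real.exp (-z.re * v) * 1
  rw [mul_one, Complex.norm_exp]
  apply Real.exp_le_exp.2
  simp only [Complex.neg_re, Complex.mul_re, Complex.add_re, Complex.ofReal_re, Complex.add_im,
    Complex.ofReal_im, mul_zero, sub_zero]
  nlinarith

/-- Frullani's integral -/
theorem full {z : ℂ} (hz : 0 < z.re) :
    Complex.exp (∫ v in Set.Ioi (0 : ℝ), Complex.exp (-(z * v)) * (ph v : ℂ)) = (z + 1) / z := by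
  have hz0 : z ≠ 0 := by
    rintro rfl
    simp at hz
  have h1 : ∫ v in Set.Ioi (0 : ℝ), Complex.exp (-(z * v)) * (ph v : ℂ) =
      ∫ v in Set.Ioi (0 : ℝ), ∫ u in Set.Ioc (0 : ℝ) 1, Complex.exp (-((z + u) * v)) :=
    setIntegral_congr_fun measurableSet_Ioi fun v hv => (ph_int z v hv).symm
  rw [h1, integral_integral_swap (int_prod hz)]
  have h2 : ∫ u in Set.Ioc (0 : ℝ) 1, ∫ v in Set.Ioi (0 : ℝ), Complex.exp (-((z + u) * v)) =
      ∫ u in Set.Ioc (0 : ℝ) 1, 1 / (z + u) := by
    refine setIntegral_congr_fun measurableSet_Ioc fun u hu => ?_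
    have h3 := integral_exp_mul_complex_Ioi (re_lt hz hu.1.le) 0
    simp only [Complex.ofReal_zero, mul_zero, Complex.exp_zero] at h3
    have h4 : ∀ v : ℝ, Complex.exp (-((z + u) * v)) = Complex.exp (-(z + u) * v) := fun v => by
      rw [neg_mul]
    simp only [h4]
    rw [h3, neg_div_neg_eq]
  rw [h2, ← intervalIntegral.integral_of_le zero_le_one]
  have hsl : ∀ u : ℝ, 0 ≤ u → z + u ∈ Complex.slitPlane := by
    intro u hu
    left
    simp only [Complex.add_re, Complex.ofReal_re]
    linarith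
  have h5 : ∀ u ∈ Set.uIcc (0 : ℝ) 1, HasDerivAt (fun u : ℝ => Complex.log (z + u))
      (1 / (z + u)) u := by
    intro u hu
    rw [Set.uIcc_of_le zero_le_one] at hu
    have h3 : HasDerivAt (fun u : ℝ => (u : ℂ)) 1 u := Complex.ofRealCLM.hasDerivAt
    exact (h3.const_add z).clog_real (hsl u hu.1)
  have h6 : ContinuousOn (fun u : ℝ => 1 / (z + u)) (Set.uIcc 0 1) := by
    rw [Set.uIcc_of_le zero_le_one]
    refine ContinuousOn.div continuousOn_const (by fun_prop) fun u hu h => ?_
    have := hsl u hu.1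
    rw [h] at this
    simp at this
  rw [intervalIntegral.integral_eq_sub_of_hasDerivAt h5 h6.intervalIntegrable, Complex.exp_sub,
    Complex.exp_log, Complex.exp_log]
  · push_cast
    rw [add_zero]
  · push_cast
    rw [add_zero]
    exact hz0
  · intro h
    have := hsl 1 zero_le_one
    rw [h] at this
    simp at this

theorem ph_nonneg {v : ℝ} (hv : 0 < v) : 0 ≤ ph v := by
  unfold ph
  have : Real.exp (-v) ≤ 1 := Real.exp_le_one_iff.2 (by linarith)
  exact div_nonneg (by linarith) hv.le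

theorem ph_le_one {v : ℝ} (hv : 0 < v) : ph v ≤ 1 := by
  unfold ph
  rw [div_le_one hv]
  have := Real.add_one_le_exp (-v)
  linarith

theorem ph_meas : Measurable ph := by
  unfold ph
  fun_prop

/-- the integrability -/
theorem int_on {z : ℂ} (hz : 0 < z.re) {V : ℝ} (hV : 0 ≤ V) :
    IntegrableOn (fun v : ℝ => Complex.exp (-(z * v)) * (ph v : ℂ)) (Set.Ioi V) := by
  have h1 : IntegrableOn (fun v : ℝ => Real.exp (-z.re * v)) (Set.Ioi V) :=
    exp_neg_integrableOn_Ioi V hz
  refine h1.mono' ?_ ?_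
  · have := ph_meas
    exact (by fun_prop : Measurable fun v : ℝ => Complex.exp (-(z * v)) * (ph v : ℂ)).aestronglyMeasurable
  · rw [ae_restrict_iff' measurableSet_Ioi]
    refine ae_of_all _ fun v hv => ?_
    have hv' : 0 < v := hV.trans_lt hv
    rw [norm_mul, Complex.norm_exp, Complex.norm_real, Real.norm_of_nonneg (ph_nonneg hv')]
    have h2 : (-(z * v)).re = -z.re * v := by simp
    rw [h2]
    exact mul_le_of_le_one_right (Real.exp_pos _).le (ph_le_one hv')

end QQ1

open QQ1

theorem qq1 : S_QQ1 := by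
  intro _ V hV z hz
  have hz0 : z ≠ 0 := by
    rintro rfl
    simp at hz
  have hz1 : z + 1 ≠ 0 := by
    intro h
    have := congrArg Complex.re h
    simp at this
    linarith
  have h1 := intervalIntegral.integral_interval_add_Ioi (int_on hz le_rfl) (int_on hz hV)
  have h2 := full hz
  rw [← h1, Complex.exp_add] at h2
  unfold QQ
  have h3 := Complex.exp_ne_zero
    (∫ (v : ℝ) in Set.Ioi V, Complex.exp (-(z * ↑v)) * (ph v : ℂ))
  rw [Complex.exp_neg, ← mul_right_inj' h3, mul_inv_cancel₀ h3]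
  calc _ = (z / (z + 1)) * (Complex.exp (∫ (x : ℝ) in (0 : ℝ)..V,
        Complex.exp (-(z * ↑x)) * (ph x : ℂ)) *
        Complex.exp (∫ (x : ℝ) in Set.Ioi V, Complex.exp (-(z * ↑x)) * (ph x : ℂ))) := by ring
    _ = 1 := by
      rw [h2]
      field_simp

end H21RHB
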