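import Pool.Agent.H21.RHB.Stm

/-! Project RHB, stub QQ2 (helper44) -/

set_option autoImplicit false

namespace H21RHB

open Real Finset MeasureTheory Filter Topology

namespace QQ2

theorem ph_meas : Measurable ph := by
  unfold ph
  fun_prop

theorem ph_bound {v : ℝ} (hv : 0 ≤ v) : |ph v| ≤ 1 := by
  unfold ph
  rcases hv.eq_or_lt with rfl | hv
  · simp
  · rw [abs_div, abs_of_pos hv, div_le_one hv, abs_le]
    have h1 := Real.add_one_le_exp (-v)
    have h2 := Real.exp_pos (-v)
    have h3 : Real.exp (-v) ≤ 1 := Real.exp_le_one_iff.2 (by linarith)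
    constructor <;> linarith

theorem mul_ph (v : ℝ) : v * ph v = 1 - Real.exp (-v) := by
  unfold ph
  rcases eq_or_ne v 0 with rfl | hv
  · simp
  · field_simp

/-- the derivative of the integral -/
theorem deriv_int {V : ℝ} (hV : 0 ≤ V) (z : ℂ) :
    HasDerivAt (fun z : ℂ => ∫ v in (0 : ℝ)..V, Complex.exp (-(z * v)) * (ph v : ℂ))
      (∫ v in (0 : ℝ)..V, (Complex.exp (-(z + 1) * v) - Complex.exp (-z * v))) z := by
  have hm : ∀ z : ℂ, Measurable fun v : ℝ => Complex.exp (-(z * v)) * (ph v : ℂ) := by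
    intro z
    have h1 : Measurable fun v : ℝ => Complex.exp (-(z * v)) := by fun_prop
    exact h1.mul (Complex.measurable_ofReal.comp ph_meas)
  have hexp : ∀ w : ℂ, ∀ v : ℝ, 0 ≤ v → v ≤ V → ‖Complex.exp (-(w * v))‖ ≤ Real.exp (‖w‖ * V) := by
    intro w v hv hvV
    rw [Complex.norm_exp]
    apply Real.exp_le_exp.2
    simp only [Complex.neg_re, Complex.mul_re, Complex.ofReal_re, Complex.ofReal_im, mul_zero,
      sub_zero]
    have h1 : -w.re ≤ ‖w‖ := by
      have := Complex.abs_re_le_norm w
      have := neg_abs_le w.re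
      linarith
    have h2 : -w.re * v ≤ ‖w‖ * v := mul_le_mul_of_nonneg_right h1 hv
    have h3 : ‖w‖ * v ≤ ‖w‖ * V := mul_le_mul_of_nonneg_left hvV (norm_nonneg _)
    linarith
  have key := intervalIntegral.hasDerivAt_integral_of_dominated_loc_of_deriv_le
    (μ := volume) (a := 0) (b := V) (𝕜 := ℂ) (E := ℂ)
    (F := fun (z : ℂ) (v : ℝ) => Complex.exp (-(z * v)) * (ph v : ℂ))
    (F' := fun (z : ℂ) (v : ℝ) => -(v : ℂ) * Complex.exp (-(z * v)) * (ph v : ℂ))
    (x₀ := z) (s := Metric.ball z 1) (bound := fun _ => Real.exp ((‖z‖ + 1) * V))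
    (Metric.ball_mem_nhds z one_pos)
    (Eventually.of_forall fun w => (hm w).aestronglyMeasurable)
    ?_ ?_ ?_ ?_ ?_
  · have h1 := key.2
    refine h1.congr_deriv ?_
    refine intervalIntegral.integral_congr fun v _ => ?_
    have h2 : -(v : ℂ) * Complex.exp (-(z * v)) * (ph v : ℂ) =
        -(((v * ph v : ℝ)) : ℂ) * Complex.exp (-(z * v)) := by
      push_cast
      ring
    rw [h2, mul_ph]
    push_cast
    have h3 : Complex.exp (-(z + 1) * v) = Complex.exp (-v) * Complex.exp (-(z * v)) := by
      rw [← Complex.exp_add]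
      congr 1
      ring
    rw [h3, show -z * (v : ℂ) = -(z * v) by ring]
    ring
  · -- integrability
    rw [intervalIntegrable_iff_integrableOn_Ioc_of_le hV]
    refine Measure.integrableOn_of_bounded (M := Real.exp (‖z‖ * V)) (by simp)
      (hm z).aestronglyMeasurable ?_
    refine (ae_restrict_iff' measurableSet_Ioc).2 (Eventually.of_forall fun v hv => ?_)
    rw [norm_mul, Complex.norm_real, Real.norm_eq_abs]
    calc ‖Complex.exp (-(z * v))‖ * |ph v| ≤ Real.exp (‖z‖ * V) * 1 :=
          mul_le_mul (hexp z v hv.1.le hv.2) (ph_bound hv.1.le) (abs_nonneg _) (Real.exp_pos _).le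
      _ = _ := mul_one _
  · -- measurability of the derivative
    have h1 : Measurable fun v : ℝ => -(v : ℂ) * Complex.exp (-(z * v)) * (ph v : ℂ) := by
      have h2 : Measurable fun v : ℝ => -(v : ℂ) * Complex.exp (-(z * v)) := by fun_prop
      exact h2.mul (Complex.measurable_ofReal.comp ph_meas)
    exact h1.aestronglyMeasurable
  · refine Eventually.of_forall fun v hv w hw => ?_
    rw [Set.uIoc_of_le hV] at hv
    have h2 : -(v : ℂ) * Complex.exp (-(w * v)) * (ph v : ℂ) =
        -(((v * ph v : ℝ)) : ℂ) * Complex.exp (-(w * v)) := by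
      push_cast
      ring
    rw [h2, mul_ph, norm_mul, norm_neg, Complex.norm_real, Real.norm_eq_abs]
    have h3 := Real.exp_pos (-v)
    have h4 : Real.exp (-v) ≤ 1 := Real.exp_le_one_iff.2 (by linarith [hv.1])
    have h5 : |1 - Real.exp (-v)| ≤ 1 := by
      rw [abs_le]
      constructor <;> linarith
    have h6 : ‖w‖ ≤ ‖z‖ + 1 := by
      have h7 : ‖w - z‖ < 1 := by rwa [← dist_eq_norm, ← Metric.mem_ball]
      have h8 := norm_le_norm_add_norm_sub' w z
      linarith
    have h9 : Real.exp (‖w‖ * V) ≤ Real.exp ((‖z‖ + 1) * V) :=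
      Real.exp_le_exp.2 (mul_le_mul_of_nonneg_right h6 hV)
    calc |1 - Real.exp (-v)| * ‖Complex.exp (-(w * v))‖ ≤ 1 * Real.exp ((‖z‖ + 1) * V) :=
          mul_le_mul h5 ((hexp w v hv.1.le hv.2).trans h9) (norm_nonneg _) zero_le_one
      _ = _ := one_mul _
  · exact intervalIntegrable_const
  · refine Eventually.of_forall fun v _ w _ => ?_
    have h1 : HasDerivAt (fun w : ℂ => -(w * (v : ℂ))) (-(v : ℂ)) w := by
      refine ((hasDerivAt_id w).mul_const (v : ℂ)).neg.congr_deriv ?_
      simp
    refine (h1.cexp.mul_const (ph v : ℂ)).congr_deriv ?_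
    ring

end QQ2

open QQ2 in
theorem qq2 : S_QQ2 := by
  intro V hV z hz
  have hz1 : z + 1 ≠ 0 := by
    intro h
    have h1 := congrArg Complex.re h
    simp only [Complex.add_re, Complex.one_re, Complex.zero_re] at h1
    linarith
  have hd := deriv_int hV z
  have hq : HasDerivAt (fun z : ℂ => z / (z + 1)) (1 / (z + 1) ^ 2) z := by
    refine ((hasDerivAt_id z).div ((hasDerivAt_id z).add_const 1) hz1).congr_deriv ?_
    simp only [id]
    congr 1
    ring
  have hD := hq.mul hd.cexp
  refine ⟨hD.differentiableAt, ?_, fun hz0 => ?_⟩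
  · unfold QQ
    rw [mul_eq_zero, div_eq_zero_iff]
    constructor
    · rintro ((h | h) | h)
      · exact h
      · exact absurd h hz1
      · exact absurd h (Complex.exp_ne_zero _)
    · exact fun h => Or.inl (Or.inl h)
  · refine hD.congr_deriv ?_
    have h1 : (∫ v in (0 : ℝ)..V, (Complex.exp (-(z + 1) * v) - Complex.exp (-z * v))) =
        (Complex.exp (-((z + 1) * V)) - 1) / (-(z + 1)) - (Complex.exp (-(z * V)) - 1) / (-z) := by
      rw [intervalIntegral.integral_sub
        (Continuous.intervalIntegrable (by fun_prop) _ _)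
        (Continuous.intervalIntegrable (by fun_prop) _ _),
        integral_exp_mul_complex (neg_ne_zero.2 hz1), integral_exp_mul_complex (neg_ne_zero.2 hz0)]
      simp only [Complex.ofReal_zero, mul_zero, Complex.exp_zero, neg_mul]
    rw [h1]
    unfold QQ
    generalize Complex.exp (∫ v in (0 : ℝ)..V, Complex.exp (-(z * v)) * (ph v : ℂ)) = E
    generalize Complex.exp (-((z + 1) * V)) = b
    generalize Complex.exp (-(z * V)) = a
    field_simp
    ring

end H21RHB
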