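import Pool.Agent.H21.RHB.Stm

set_option autoImplicit false

namespace H21RHB

open Real Finset MeasureTheory Filter Topology

namespace SMP

/-! ### simple zeros -/

/-- simple zero -/
def SZ (f : ℂ → ℂ) (s : ℂ) : Prop := f s = 0 ∧ ∃ f' : ℂ, HasDerivAt f f' s ∧ f' ≠ 0

theorem SZ.mul {f g : ℂ → ℂ} {s : ℂ} (hf : SZ f s) (hg : DifferentiableAt ℂ g s)
    (hg0 : g s ≠ 0) : SZ (fun z => f z * g z) s := by
  obtain ⟨h0, f', hf', hne⟩ := hf
  refine ⟨by simp [h0], f' * g s, ?_, mul_ne_zero hne hg0⟩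
  have := hf'.mul hg.hasDerivAt
  rw [h0, zero_mul, add_zero] at this
  exact this

theorem SZ.mul' {f g : ℂ → ℂ} {s : ℂ} (hf : SZ f s) (hg : DifferentiableAt ℂ g s)
    (hg0 : g s ≠ 0) : SZ (fun z => g z * f z) s := by
  have h := hf.mul hg hg0
  have e : (fun z => g z * f z) = fun z => f z * g z := by
    ext z
    ring
  rw [e]
  exact h

theorem SZ.prod {ι : Type} [DecidableEq ι] (S : Finset ι) (f : ι → ℂ → ℂ) (s : ℂ) (i : ι)
    (hi : i ∈ S) (h : SZ (f i) s)
    (hd : ∀ j ∈ S, j ≠ i → DifferentiableAt ℂ (f j) s ∧ f j s ≠ 0) :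
    SZ (fun z => ∏ j ∈ S, f j z) s := by
  have h1 : (fun z => ∏ j ∈ S, f j z) = fun z => f i z * ∏ j ∈ S.erase i, f j z := by
    ext z
    exact (Finset.mul_prod_erase S (fun j => f j z) hi).symm
  rw [h1]
  refine h.mul ?_ ?_
  · exact DifferentiableAt.fun_finsetProd fun j hj =>
      (hd j (Finset.mem_of_mem_erase hj) (Finset.ne_of_mem_erase hj)).1
  · exact Finset.prod_ne_zero_iff.2 fun j hj =>
      (hd j (Finset.mem_of_mem_erase hj) (Finset.ne_of_mem_erase hj)).2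

/-! ### the zero of `QQ` -/

theorem ph_bd {v : ℝ} (hv : 0 < v) : |ph v| ≤ 1 := by
  unfold ph
  have h1 : Real.exp (-v) ≤ 1 := Real.exp_le_one_iff.2 (by linarith)
  have h2 : -v + 1 ≤ Real.exp (-v) := Real.add_one_le_exp _
  rw [abs_of_nonneg (div_nonneg (by linarith) hv.le), div_le_one hv]
  linarith

theorem QQ_low (V : ℝ) (hV : 0 ≤ V) (z : ℂ) (hz : ‖z‖ ≤ 1 / 2) :
    Real.exp (-(Real.exp V * V)) / 2 * ‖z‖ ≤ ‖QQ V z‖ := by
  have h1 : ‖∫ v in (0 : ℝ)..V, Complex.exp (-(z * v)) * (ph v : ℂ)‖ ≤ Real.exp V * |V - 0| := by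
    refine intervalIntegral.norm_integral_le_of_norm_le_const fun v hv => ?_
    rw [Set.uIoc_of_le hV] at hv
    rw [norm_mul, Complex.norm_exp, Complex.norm_real, Real.norm_eq_abs]
    have h2 : (-(z * v)).re ≤ V := by
      have h3 : |(z * v).re| ≤ ‖z * v‖ := Complex.abs_re_le_norm _
      rw [norm_mul, Complex.norm_real, Real.norm_eq_abs, abs_of_pos hv.1] at h3
      have h4 : ‖z‖ * v ≤ 1 * V := mul_le_mul (by linarith) hv.2 hv.1.le zero_le_one
      rw [Complex.neg_re]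
      have h5 := neg_abs_le (z * v).re
      linarith
    calc Real.exp (-(z * v)).re * |ph v| ≤ Real.exp V * 1 :=
          mul_le_mul (Real.exp_le_exp.2 h2) (ph_bd hv.1) (abs_nonneg _) (Real.exp_pos _).le
      _ = Real.exp V := mul_one _
  rw [sub_zero, abs_of_nonneg hV] at h1
  unfold QQ
  set I := ∫ v in (0 : ℝ)..V, Complex.exp (-(z * v)) * (ph v : ℂ) with hI
  rw [norm_mul, norm_div, Complex.norm_exp]
  have h2 : -(Real.exp V * V) ≤ I.re := by
    have h3 := Complex.abs_re_le_norm I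
    have h4 := neg_abs_le I.re
    linarith
  have h3 : ‖z + 1‖ ≤ 2 := by
    refine (norm_add_le _ _).trans ?_
    rw [norm_one]
    linarith
  have h4 : 0 < ‖z + 1‖ := by
    have h5 : ‖(1 : ℂ)‖ ≤ ‖z + 1‖ + ‖z‖ := by
      have := norm_sub_le (z + 1) z
      rwa [add_sub_cancel_left] at this
    rw [norm_one] at h5
    linarith
  have h5 : ‖z‖ / 2 ≤ ‖z‖ / ‖z + 1‖ := div_le_div_of_nonneg_left (norm_nonneg _) h4 h3
  calc Real.exp (-(Real.exp V * V)) / 2 * ‖z‖ = ‖z‖ / 2 * Real.exp (-(Real.exp V * V)) := by ring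
    _ ≤ ‖z‖ / ‖z + 1‖ * Real.exp I.re :=
        mul_le_mul h5 (Real.exp_le_exp.2 h2) (Real.exp_pos _).le (by positivity)

theorem QQ_SZ (h : S_QQ2) (V : ℝ) (hV : 0 ≤ V) : SZ (QQ V) 0 := by
  obtain ⟨h1, h2, -⟩ := h V hV 0 (by simp)
  have h0 : QQ V 0 = 0 := h2.2 rfl
  refine ⟨h0, deriv (QQ V) 0, h1.hasDerivAt, fun h4 => ?_⟩
  have h5 := h1.hasDerivAt
  rw [h4] at h5
  have h6 : (fun z => QQ V z) =o[𝓝 0] fun z => z := by
    have := h5.isLittleO
    simpa [h0] using this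
  set c : ℝ := Real.exp (-(Real.exp V * V)) / 2 with hc
  have hc0 : 0 < c := by positivity
  have h7 := h6.def (half_pos hc0)
  have h8 : ∀ᶠ z : ℂ in 𝓝 0, ‖z‖ ≤ 1 / 2 := by
    have := Metric.closedBall_mem_nhds (0 : ℂ) (by norm_num : (0 : ℝ) < 1 / 2)
    filter_upwards [this] with z hz
    simpa using hz
  have h9 : ∀ᶠ z : ℂ in 𝓝[≠] 0, False := by
    filter_upwards [nhdsWithin_le_nhds h7, nhdsWithin_le_nhds h8, self_mem_nhdsWithin] with z a b d
    have h10 := QQ_low V hV z b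
    have h11 : 0 < ‖z‖ := norm_pos_iff.2 d
    rw [← hc] at h10
    nlinarith
  exact (h9.exists).elim fun _ h => h

/-! ### the scales -/

theorem NN_pos (i : ℕ) : 0 < NN i := by
  unfold NN
  positivity

theorem NN_two (i : ℕ) : 2 ≤ NN i := by
  unfold NN
  calc 2 = 2 ^ 1 := rfl
    _ ≤ 2 ^ (2 ^ ((i + 1) ^ 2 + 3)) := Nat.pow_le_pow_right (by norm_num) Nat.one_le_two_pow

theorem logNN (i : ℕ) : Real.log (NN i) = 2 ^ ((i + 1) ^ 2 + 3) * Real.log 2 := by
  unfold NN
  push_cast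
  rw [Real.log_pow]
  push_cast
  rfl

theorem logNN_pos (i : ℕ) : 0 < Real.log (NN i) := by
  rw [logNN]
  have := Real.log_pos (by norm_num : (1 : ℝ) < 2)
  positivity

theorem UU_pos (k i : ℕ) (hk : 1 ≤ k) : 0 < UU k i := by
  unfold UU
  have := logNN_pos i
  have hk' : (0 : ℝ) < (k : ℝ) := by exact_mod_cast hk
  positivity

theorem VV_nonneg (k i : ℕ) : 0 ≤ VV k i := by
  unfold VV
  have := logNN_pos i
  positivity

theorem phase_pos (i : ℕ) : 0 < phase i ∧ phase i < 1 := by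
  unfold phase
  split_ifs <;> norm_num

theorem gam_pos (k i m : ℕ) (hk : 1 ≤ k) : 0 < gam k i m := by
  unfold gam
  have h1 := UU_pos k i hk
  have h2 := (phase_pos i).1
  positivity

theorem pow_bd (d : ℕ) (hd3 : 3 ≤ d) : d + 4 ≤ 2 ^ d := by
  induction d, hd3 using Nat.le_induction with
  | base => norm_num
  | succ n hn ih =>
    rw [pow_succ]
    omega

theorem NN_step (i l : ℕ) (hil : i < l) :
    (NN i : ℝ) ^ 2 * Real.log (NN l) ≤ NN l * Real.log (NN i) := by
  have hl2 := Real.log_pos (by norm_num : (1 : ℝ) < 2)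
  rw [logNN, logNN]
  obtain ⟨d, hd⟩ : ∃ d, (l + 1) ^ 2 + 3 = (i + 1) ^ 2 + 3 + d := by
    refine ⟨(l + 1) ^ 2 - (i + 1) ^ 2, ?_⟩
    have : (i + 1) ^ 2 ≤ (l + 1) ^ 2 := Nat.pow_le_pow_left (by omega) 2
    omega
  have hd3 : 3 ≤ d := by
    have : (i + 2) ^ 2 ≤ (l + 1) ^ 2 := Nat.pow_le_pow_left (by omega) 2
    nlinarith
  have key : NN i ^ 2 * 2 ^ d ≤ NN l := by
    unfold NN
    rw [← pow_mul, ← pow_add]
    refine Nat.pow_le_pow_right (by norm_num) ?_
    rw [hd, pow_add 2 ((i + 1) ^ 2 + 3) d]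
    have h1 : 8 ≤ 2 ^ ((i + 1) ^ 2 + 3) := by
      calc 8 = 2 ^ 3 := rfl
        _ ≤ 2 ^ ((i + 1) ^ 2 + 3) := Nat.pow_le_pow_right (by norm_num) (by omega)
    have h2 : d + 4 ≤ 2 ^ d := pow_bd d hd3
    nlinarith
  have key' : (NN i : ℝ) ^ 2 * 2 ^ d ≤ NN l := by exact_mod_cast key
  rw [hd, pow_add (2 : ℝ) ((i + 1) ^ 2 + 3) d]
  have h3 : (0 : ℝ) < 2 ^ ((i + 1) ^ 2 + 3) * Real.log 2 := by positivity
  calc (NN i : ℝ) ^ 2 * (2 ^ ((i + 1) ^ 2 + 3) * 2 ^ d * Real.log 2) =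
      ((NN i : ℝ) ^ 2 * 2 ^ d) * (2 ^ ((i + 1) ^ 2 + 3) * Real.log 2) := by ring
    _ ≤ _ := mul_le_mul_of_nonneg_right key' h3.le

theorem gam_lt (k i l m n : ℕ) (hk : 1 ≤ k) (hil : i < l) (hm : m ∈ ms i) (hn : n ∈ ms l) :
    gam k i m < gam k l n := by
  unfold ms at hm hn
  rw [Finset.mem_Ico] at hm hn
  have h1 := UU_pos k i hk
  have h2 := UU_pos k l hk
  have h3 := phase_pos i
  have h4 := phase_pos l
  have hm' : (m : ℝ) + 1 ≤ (NN i : ℝ) ^ 2 := by exact_mod_cast hm.2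
  have hn' : (NN l : ℝ) ≤ n := by exact_mod_cast hn.1
  have hk' : (0 : ℝ) < (k : ℝ) := by exact_mod_cast hk
  unfold gam
  rw [div_lt_div_iff₀ h1 h2]
  have h5 : (m + phase i) * UU k l < (n + phase l) * UU k i := by
    calc (m + phase i) * UU k l < (NN i : ℝ) ^ 2 * UU k l :=
          mul_lt_mul_of_pos_right (by linarith) h2
      _ = 32 * k * ((NN i : ℝ) ^ 2 * Real.log (NN l)) := by
          unfold UU
          ring
      _ ≤ 32 * k * (NN l * Real.log (NN i)) :=
          mul_le_mul_of_nonneg_left (NN_step i l hil) (by positivity)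
      _ = NN l * UU k i := by
          unfold UU
          ring
      _ ≤ (n + phase l) * UU k i := mul_le_mul_of_nonneg_right (by linarith) h1.le
  nlinarith [Real.pi_pos]

theorem gam_inj (k i l m n : ℕ) (hk : 1 ≤ k) (hm : m ∈ ms i) (hn : n ∈ ms l)
    (h : gam k i m = gam k l n) : i = l ∧ m = n := by
  rcases lt_trichotomy i l with h1 | h1 | h1
  · exact absurd h (gam_lt k i l m n hk h1 hm hn).ne
  · subst h1
    refine ⟨rfl, ?_⟩
    have h2 := UU_pos k i hk
    unfold gam at h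
    rw [div_left_inj' h2.ne'] at h
    have h3 : ((m : ℝ) + phase i) = n + phase i := by
      have := Real.pi_pos
      exact mul_left_cancel₀ (by positivity : (2 * π : ℝ) ≠ 0) h
    have h4 : (m : ℝ) = n := by linarith
    exact_mod_cast h4
  · exact absurd h (gam_lt k l i n m hk h1 hn hm).ne'

theorem NN_small (i : ℕ) : (NN i : ℝ) ^ (-(1 / 4) : ℝ) ≤ (1 / 2 : ℝ) ^ i := by
  have h1 : (NN i : ℝ) = (2 : ℝ) ^ ((2 ^ ((i + 1) ^ 2 + 3) : ℕ) : ℝ) := by
    unfold NN
    rw [Real.rpow_natCast]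
    push_cast
    rfl
  rw [h1, ← Real.rpow_mul (by norm_num)]
  have h2 : (1 / 2 : ℝ) ^ i = (2 : ℝ) ^ (-(i : ℝ)) := by
    rw [Real.rpow_neg (by norm_num), Real.rpow_natCast, one_div, inv_pow]
  rw [h2]
  refine Real.rpow_le_rpow_of_exponent_le (by norm_num) ?_
  have h3 : 4 * i ≤ 2 ^ ((i + 1) ^ 2 + 3) := by
    have h4 : i < 2 ^ i := Nat.lt_two_pow_self
    calc 4 * i ≤ 2 ^ 2 * 2 ^ i := by omega
      _ = 2 ^ (2 + i) := (pow_add _ _ _).symm
      _ ≤ 2 ^ ((i + 1) ^ 2 + 3) := Nat.pow_le_pow_right (by norm_num) (by nlinarith)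
  have h4 : (4 : ℝ) * i ≤ ((2 ^ ((i + 1) ^ 2 + 3) : ℕ) : ℝ) := by exact_mod_cast h3
  linarith

/-! ### the factors -/

theorem SZ.comp {f g : ℂ → ℂ} {s : ℂ} (hf : SZ f 0) (hg : HasDerivAt g 1 s) (h0 : g s = 0) :
    SZ (fun z => f (g z)) s := by
  obtain ⟨h1, f', h2, h3⟩ := hf
  refine ⟨by simp only [h0]; exact h1, f', ?_, h3⟩
  rw [← h0] at h2
  have h4 := HasDerivAt.comp s h2 hg
  rw [mul_one] at h4
  exact h4

theorem fac (h : S_QQ2) (V : ℝ) (hV : 0 ≤ V) (g : ℂ → ℂ) (s : ℂ) (hg : HasDerivAt g 1 s)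
    (hre : -1 < (g s).re) (hne : g s ≠ 0) :
    DifferentiableAt ℂ (fun z => QQ V (g z)) s ∧ QQ V (g s) ≠ 0 := by
  obtain ⟨h1, h2, -⟩ := h V hV (g s) hre
  exact ⟨DifferentiableAt.comp s h1 hg.differentiableAt, fun h3 => hne (h2.1 h3)⟩

theorem FB_SZ (h : S_QQ2) (k i m : ℕ) (hk : 1 ≤ k) (hm : m ∈ ms i) (s : ℂ)
    (hs : s = 1 + Complex.I * gam k i m ∨ s = 1 - Complex.I * gam k i m) : SZ (FB k i) s := by
  have hre : s.re = 1 := by
    rcases hs with h1 | h1 <;> rw [h1] <;> simp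
  have him : s.im = gam k i m ∨ s.im = -gam k i m := by
    rcases hs with h1 | h1
    · left
      rw [h1]
      simp
    · right
      rw [h1]
      simp
  have hV := VV_nonneg k i
  have d1 : ∀ c : ℂ, HasDerivAt (fun z : ℂ => z - 1 - c) 1 s := fun c =>
    ((hasDerivAt_id s).sub_const 1).sub_const c
  have d2 : ∀ c : ℂ, HasDerivAt (fun z : ℂ => z - 1 + c) 1 s := fun c =>
    ((hasDerivAt_id s).sub_const 1).add_const c
  have r1 : ∀ n : ℕ, -1 < (s - 1 - Complex.I * gam k i n).re := by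
    intro n
    simp [hre]
  have r2 : ∀ n : ℕ, -1 < (s - 1 + Complex.I * gam k i n).re := by
    intro n
    simp [hre]
  have i1 : ∀ n : ℕ, (s - 1 - Complex.I * gam k i n).im = s.im - gam k i n := by
    intro n
    simp
  have i2 : ∀ n : ℕ, (s - 1 + Complex.I * gam k i n).im = s.im + gam k i n := by
    intro n
    simp
  have g0 := gam_pos k i m hk
  unfold FB
  refine SZ.prod (ms i) (fun m s => QQ (VV k i) (s - 1 - Complex.I * gam k i m) *
    QQ (VV k i) (s - 1 + Complex.I * gam k i m)) s m hm ?_ ?_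
  · rcases him with h1 | h1
    · have z0 : s - 1 - Complex.I * gam k i m = 0 := by
        apply Complex.ext
        · simp [hre]
        · rw [i1, h1]
          simp
      have z1 : s - 1 + Complex.I * gam k i m ≠ 0 := by
        intro h2
        have h3 := congrArg Complex.im h2
        rw [i2, h1, Complex.zero_im] at h3
        linarith
      obtain ⟨a, b⟩ := fac h (VV k i) hV (fun z => z - 1 + Complex.I * gam k i m) s (d2 _) (r2 m) z1
      exact (SZ.comp (QQ_SZ h (VV k i) hV) (d1 _) z0).mul a b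
    · have z0 : s - 1 + Complex.I * gam k i m = 0 := by
        apply Complex.ext
        · simp [hre]
        · rw [i2, h1]
          simp
      have z1 : s - 1 - Complex.I * gam k i m ≠ 0 := by
        intro h2
        have h3 := congrArg Complex.im h2
        rw [i1, h1, Complex.zero_im] at h3
        linarith
      obtain ⟨a, b⟩ := fac h (VV k i) hV (fun z => z - 1 - Complex.I * gam k i m) s (d1 _) (r1 m) z1
      exact (SZ.comp (QQ_SZ h (VV k i) hV) (d2 _) z0).mul' a b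
  · intro n hn hnm
    have gn := gam_pos k i n hk
    have gne : gam k i n ≠ gam k i m := fun h1 => hnm (gam_inj k i i n m hk hn hm h1).2
    have z1 : s - 1 - Complex.I * gam k i n ≠ 0 := by
      intro h2
      have h3 := congrArg Complex.im h2
      rw [i1, Complex.zero_im] at h3
      rcases him with h1 | h1
      · exact gne (by linarith)
      · linarith
    have z2 : s - 1 + Complex.I * gam k i n ≠ 0 := by
      intro h2
      have h3 := congrArg Complex.im h2
      rw [i2, Complex.zero_im] at h3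
      rcases him with h1 | h1
      · linarith
      · exact gne (by linarith)
    obtain ⟨a, b⟩ := fac h (VV k i) hV (fun z => z - 1 - Complex.I * gam k i n) s (d1 _) (r1 n) z1
    obtain ⟨c, d⟩ := fac h (VV k i) hV (fun z => z - 1 + Complex.I * gam k i n) s (d2 _) (r2 n) z2
    exact ⟨a.mul c, mul_ne_zero b d⟩

end SMP

open SMP

theorem smp : S_SMP := by
  intro hFBB h2 hFBD k r hk s hs hz hs1
  have hFBD' := hFBD h2
  have hkr : (1 : ℝ) ≤ (k : ℝ) := by exact_mod_cast hk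
  have hle1 : 1 / (32 * (k : ℝ)) ≤ 1 := by
    rw [div_le_one (by positivity)]
    linarith
  have hs0 : 0 < s.re := by linarith
  obtain ⟨i₀, C, hC, hbd⟩ := hFBB k (‖s‖ + 3) hk (by linarith [norm_nonneg s])
  have hhalf : Tendsto (fun n : ℕ => C * (1 / 2 : ℝ) ^ n) atTop (𝓝 0) := by
    have := (tendsto_pow_atTop_nhds_zero_of_lt_one (by norm_num : (0 : ℝ) ≤ 1 / 2)
      (by norm_num)).const_mul C
    rwa [mul_zero] at this
  obtain ⟨n, hn1, hn2⟩ : ∃ n, i₀ ≤ n ∧ C * (1 / 2 : ℝ) ^ n < 1 := by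
    obtain ⟨n, h1, h3⟩ :=
      ((eventually_ge_atTop i₀).and (hhalf.eventually (gt_mem_nhds one_pos))).exists
    exact ⟨n, h1, h3⟩
  set U : Set ℂ := {z | 1 - 1 / (32 * (k : ℝ)) < z.re} ∩ Metric.ball 0 (‖s‖ + 3) with hU
  have hUo : IsOpen U :=
    (isOpen_lt continuous_const Complex.continuous_re).inter Metric.isOpen_ball
  have hsU : s ∈ U := ⟨hs, by rw [mem_ball_zero_iff]; linarith⟩
  have hUre : ∀ z ∈ U, 0 < z.re := by
    intro z hz
    have : 1 - 1 / (32 * (k : ℝ)) < z.re := hz.1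
    linarith
  have hbd' : ∀ i, n ≤ i → ∀ z ∈ U, ‖FB k i z - 1‖ ≤ C * (1 / 2 : ℝ) ^ i := by
    intro i hi z hz
    have h3 := hbd i z (hn1.trans hi) (by
      have := hz.2
      rw [mem_ball_zero_iff] at this
      exact this.le) (le_of_lt hz.1)
    exact h3.trans (mul_le_mul_of_nonneg_left (NN_small i) hC.le)
  have hgne : ∀ i, n ≤ i → ∀ z ∈ U, FB k i z ≠ 0 := by
    intro i hi z hz h0
    have h3 := hbd' i hi z hz
    rw [h0, zero_sub, norm_neg, norm_one] at h3
    have h4 : C * (1 / 2 : ℝ) ^ i ≤ C * (1 / 2 : ℝ) ^ n :=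
      mul_le_mul_of_nonneg_left (pow_le_pow_of_le_one (by norm_num) (by norm_num) hi) hC.le
    linarith
  set f : ℕ → ℂ → ℂ := fun i z => FB k (i + n) z - 1 with hf
  have hf1 : ∀ i z, 1 + f i z = FB k (i + n) z := by
    intro i z
    simp [hf]
  have hFBdiff : ∀ i, DifferentiableOn ℂ (FB k i) U := fun i z hz =>
    ((hFBD' k i z hk (hUre z hz)).1).differentiableWithinAt
  have hsum : Summable (fun i : ℕ => C * (1 / 2 : ℝ) ^ (i + n)) := by
    have h1 : Summable (fun i : ℕ => (1 / 2 : ℝ) ^ i) :=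
      summable_geometric_of_lt_one (by norm_num) (by norm_num)
    exact ((summable_nat_add_iff n).2 h1).mul_left C
  have hfd : ∀ i, DifferentiableOn ℂ (f i) U := fun i => (hFBdiff (i + n)).sub_const 1
  have hprod := Summable.hasProdLocallyUniformlyOn_nat_one_add (f := f) hUo hsum
    (Eventually.of_forall fun i z hz => hbd' (i + n) (by omega) z hz)
    (fun i => (hfd i).continuousOn)
  have hTd : DifferentiableOn ℂ (fun z => ∏' i, (1 + f i z)) U :=
    hprod.differentiableOn (.of_forall fun S => by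
      simpa [Finset.prod_fn] using DifferentiableOn.finsetProd (fun i _ => (hfd i).const_add 1))
      hUo
  have hnsum : ∀ z ∈ U, Summable (fun i => ‖f i z‖) := fun z hz =>
    Summable.of_nonneg_of_le (fun _ => norm_nonneg _)
      (fun i => hbd' (i + n) (by omega) z hz) hsum
  have hTne : ∀ z ∈ U, ∏' i, (1 + f i z) ≠ 0 := fun z hz =>
    tprod_one_add_ne_zero_of_summable (fun i => by
      rw [hf1]
      exact hgne (i + n) (by omega) z hz) (hnsum z hz)
  have hmul : ∀ z ∈ U, Multipliable (fun i => FB k (i + n) z) := by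
    intro z hz
    have h3 := multipliable_one_add_of_summable (hnsum z hz)
    simpa only [hf1] using h3
  have hsplit : ∀ z ∈ U, ∏' i, FB k i z =
      (∏ i ∈ Finset.range n, FB k i z) * ∏' i, (1 + f i z) := by
    intro z hz
    have h4 : (∏ i ∈ Finset.range n, FB k i z) * ∏' i, FB k (i + n) z = ∏' i, FB k i z :=
      Multipliable.prod_mul_tprod_nat_mul' (f := fun i => FB k i z) (k := n) (hmul z hz)
    have h5 : ∏' i, (1 + f i z) = ∏' i, FB k (i + n) z := tprod_congr fun i => hf1 i z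
    rw [h5]
    exact h4.symm
  have hQ : DifferentiableAt ℂ (fun z => QQ 0 (z - 1)) s ∧ QQ 0 (s - 1) ≠ 0 :=
    fac h2 0 le_rfl (fun z => z - 1) s ((hasDerivAt_id s).sub_const 1) (by simp [hs0])
      (sub_ne_zero.2 hs1)
  have hFF : FF k r =ᶠ[𝓝 s] fun z => QQ 0 (z - 1) ^ r *
      ((∏ i ∈ Finset.range n, FB k i z) * ∏' i, (1 + f i z)) := by
    filter_upwards [hUo.mem_nhds hsU] with z hz
    unfold FF
    rw [hsplit z hz]
  have hP0 : ∏ i ∈ Finset.range n, FB k i s = 0 := by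
    have h3 := hFF.eq_of_nhds
    rw [hz] at h3
    rcases mul_eq_zero.1 h3.symm with h4 | h4
    · exact absurd h4 (pow_ne_zero r hQ.2)
    · rcases mul_eq_zero.1 h4 with h5 | h5
      · exact h5
      · exact absurd h5 (hTne s hsU)
  obtain ⟨i, hi, hi0⟩ := Finset.prod_eq_zero_iff.1 hP0
  obtain ⟨m, hm, hms⟩ := ((hFBD' k i s hk hs0).2.1).1 hi0
  have hSZ1 : SZ (FB k i) s := FB_SZ h2 k i m hk hm s hms
  have hSZ2 : SZ (fun z => ∏ i ∈ Finset.range n, FB k i z) s := by
    refine SZ.prod (Finset.range n) (fun i z => FB k i z) s i hi hSZ1 ?_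
    intro j _ hji
    refine ⟨(hFBD' k j s hk hs0).1, fun hj0 => hji ?_⟩
    obtain ⟨m', hm', hms'⟩ := ((hFBD' k j s hk hs0).2.1).1 hj0
    have g1 := gam_pos k i m hk
    have g2 := gam_pos k j m' hk
    have e1 : s.im = gam k i m ∨ s.im = -gam k i m := by
      rcases hms with h1 | h1
      · left
        rw [h1]
        simp
      · right
        rw [h1]
        simp
    have e2 : s.im = gam k j m' ∨ s.im = -gam k j m' := by
      rcases hms' with h1 | h1
      · left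
        rw [h1]
        simp
      · right
        rw [h1]
        simp
    have e3 : gam k j m' = gam k i m := by
      rcases e1 with e1 | e1 <;> rcases e2 with e2 | e2 <;> linarith
    exact (gam_inj k j i m' m hk hm' hm e3).1
  have hSZ3 := (hSZ2.mul (hTd.differentiableAt (hUo.mem_nhds hsU)) (hTne s hsU)).mul'
    (hQ.1.pow r) (pow_ne_zero r hQ.2)
  obtain ⟨-, f', hf', hne⟩ := hSZ3
  have hf'' : HasDerivAt (fun z => QQ 0 (z - 1) ^ r *
      ((∏ i ∈ Finset.range n, FB k i z) * ∏' i, (1 + f i z))) f' s := hf'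
  rw [hFF.deriv_eq, hf''.deriv]
  exact hne

end H21RHB
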