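import Pool.Agent.H21.RHB.Stm

/-! # RHB-SO (helper96): the second order estimate -/

set_option autoImplicit false

namespace H21RHB

open Real Finset MeasureTheory Filter Topology

namespace SO

/-- the sum of `a_p² - p` over a block -/
lemma sum_bound (k : ℕ) (hk : 4 ≤ k) (C₀ C₁ : ℝ) (hC₁ : 0 < C₁) (j : ℕ) (hj : 1 ≤ j)
    (h1 : ((j : ℝ) + 1) ^ (2 * k) - (j : ℝ) ^ (2 * k) ≤ C₁ * (j : ℝ) ^ (2 * k - 1))
    (h2 : ((blk k j).card : ℝ) ≤ C₁ * (j : ℝ) ^ (2 * k - 1))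
    (m : ℝ) (b c : ℕ → ℤ) (hb : DataB k j C₀ b) (hc : DataC k j C₀ m c) :
    |∑ p ∈ blk k j, (((b p + c p : ℤ) : ℝ) ^ 2 - p)| ≤
      (|C₀| * C₁ + 5 * C₁ + C₁ ^ 2) * (j : ℝ) ^ (4 * k - 2) := by
  have hJ : (1 : ℝ) ≤ j := by exact_mod_cast hj
  have hJ0 : (0 : ℝ) < j := by linarith
  have hn0 : (0 : ℝ) ≤ ((blk k j).card : ℝ) := Nat.cast_nonneg _
  have hs1 : |∑ p ∈ blk k j, (b p : ℝ) ^ 2 - (j : ℝ) ^ (2 * k) * ((blk k j).card : ℝ)| ≤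
      |C₀| * C₁ * (j : ℝ) ^ (4 * k - 2) := by
    refine hb.sq.trans ?_
    calc C₀ * (j : ℝ) ^ (2 * k) * ((blk k j).card : ℝ) / j
        ≤ |C₀| * (j : ℝ) ^ (2 * k) * (C₁ * (j : ℝ) ^ (2 * k - 1)) / j := by
          gcongr
          exact le_abs_self _
      _ = |C₀| * C₁ * (j : ℝ) ^ (4 * k - 2) := by
          have e : (j : ℝ) ^ (2 * k) * (j : ℝ) ^ (2 * k - 1) = (j : ℝ) ^ (4 * k - 2) * j := by
            rw [← pow_add, ← pow_succ]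
            congr 1
            omega
          rw [div_eq_iff hJ0.ne']
          calc |C₀| * (j : ℝ) ^ (2 * k) * (C₁ * (j : ℝ) ^ (2 * k - 1))
              = |C₀| * C₁ * ((j : ℝ) ^ (2 * k) * (j : ℝ) ^ (2 * k - 1)) := by ring
            _ = _ := by rw [e]; ring
  have hbp : ∀ p ∈ blk k j, |(b p : ℝ)| ≤ 2 * (j : ℝ) ^ k := by
    intro p hp
    refine (hb.size p hp).trans ?_
    have : 1 - 1 / (j : ℝ) ≤ 1 := by
      have : (0 : ℝ) < 1 / j := by positivity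
      linarith
    calc 2 * (j : ℝ) ^ k * (1 - 1 / j) ≤ 2 * (j : ℝ) ^ k * 1 := by gcongr
      _ = _ := by ring
  have hs2 : |∑ p ∈ blk k j, (2 * (b p : ℝ) * c p + (c p : ℝ) ^ 2)| ≤
      5 * C₁ * (j : ℝ) ^ (4 * k - 2) := by
    refine (Finset.abs_sum_le_sum_abs _ _).trans ?_
    have hterm : ∀ p ∈ blk k j, |2 * (b p : ℝ) * c p + (c p : ℝ) ^ 2| ≤ 5 * (j : ℝ) ^ (k + 1) := by
      intro p hp
      have e1 := hbp p hp
      have e2 := hc.size p hp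
      have e3 : (j : ℝ) ^ 2 ≤ (j : ℝ) ^ (k + 1) := pow_le_pow_right₀ hJ (by omega)
      calc |2 * (b p : ℝ) * c p + (c p : ℝ) ^ 2| ≤ |2 * (b p : ℝ) * c p| + |(c p : ℝ) ^ 2| :=
            abs_add_le _ _
        _ = 2 * |(b p : ℝ)| * |(c p : ℝ)| + |(c p : ℝ)| ^ 2 := by
            rw [abs_mul, abs_mul, abs_two, abs_pow]
        _ ≤ 2 * (2 * (j : ℝ) ^ k) * j + (j : ℝ) ^ 2 := by gcongr
        _ = 4 * (j : ℝ) ^ (k + 1) + (j : ℝ) ^ 2 := by ring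
        _ ≤ _ := by linarith
    refine (Finset.sum_le_sum hterm).trans ?_
    rw [Finset.sum_const, nsmul_eq_mul]
    calc ((blk k j).card : ℝ) * (5 * (j : ℝ) ^ (k + 1)) ≤
        (C₁ * (j : ℝ) ^ (2 * k - 1)) * (5 * (j : ℝ) ^ (k + 1)) := by gcongr
      _ = 5 * C₁ * (j : ℝ) ^ (3 * k) := by
          have e : (j : ℝ) ^ (2 * k - 1) * (j : ℝ) ^ (k + 1) = (j : ℝ) ^ (3 * k) := by
            rw [← pow_add]
            congr 1
            omega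
          calc _ = 5 * C₁ * ((j : ℝ) ^ (2 * k - 1) * (j : ℝ) ^ (k + 1)) := by ring
            _ = _ := by rw [e]
      _ ≤ _ := by
          gcongr
          omega
  have hs3 : |∑ p ∈ blk k j, ((p : ℝ) - (j : ℝ) ^ (2 * k))| ≤ C₁ ^ 2 * (j : ℝ) ^ (4 * k - 2) := by
    refine (Finset.abs_sum_le_sum_abs _ _).trans ?_
    have hterm : ∀ p ∈ blk k j, |(p : ℝ) - (j : ℝ) ^ (2 * k)| ≤ C₁ * (j : ℝ) ^ (2 * k - 1) := by
      intro p hp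
      have hp' := (Finset.mem_Ioc.1 (Finset.mem_filter.1 hp).1)
      have q1 : (j : ℝ) ^ (2 * k) ≤ p := by exact_mod_cast hp'.1.le
      have q2 : (p : ℝ) ≤ ((j : ℝ) + 1) ^ (2 * k) := by exact_mod_cast hp'.2
      rw [abs_of_nonneg (by linarith)]
      linarith
    refine (Finset.sum_le_sum hterm).trans ?_
    rw [Finset.sum_const, nsmul_eq_mul]
    calc ((blk k j).card : ℝ) * (C₁ * (j : ℝ) ^ (2 * k - 1)) ≤
        (C₁ * (j : ℝ) ^ (2 * k - 1)) * (C₁ * (j : ℝ) ^ (2 * k - 1)) := by gcongr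
      _ = _ := by
          have e : (j : ℝ) ^ (2 * k - 1) * (j : ℝ) ^ (2 * k - 1) = (j : ℝ) ^ (4 * k - 2) := by
            rw [← pow_add]
            congr 1
            omega
          calc _ = C₁ ^ 2 * ((j : ℝ) ^ (2 * k - 1) * (j : ℝ) ^ (2 * k - 1)) := by ring
            _ = _ := by rw [e]
  have hsplit : ∑ p ∈ blk k j, (((b p + c p : ℤ) : ℝ) ^ 2 - p) =
      (∑ p ∈ blk k j, (b p : ℝ) ^ 2 - (j : ℝ) ^ (2 * k) * ((blk k j).card : ℝ)) +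
      ∑ p ∈ blk k j, (2 * (b p : ℝ) * c p + (c p : ℝ) ^ 2) -
      ∑ p ∈ blk k j, ((p : ℝ) - (j : ℝ) ^ (2 * k)) := by
    rw [Finset.sum_sub_distrib (f := fun p : ℕ => (p : ℝ)), Finset.sum_const, nsmul_eq_mul,
      show ∀ A B C D E : ℝ, A - B * C + D - (E - C * B) = A + D - E by intros; ring,
      ← Finset.sum_add_distrib, ← Finset.sum_sub_distrib]
    refine Finset.sum_congr rfl fun p _ => ?_
    push_cast
    ring
  rw [hsplit]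
  refine (abs_sub _ _).trans ?_
  have := abs_add_le (∑ p ∈ blk k j, (b p : ℝ) ^ 2 - (j : ℝ) ^ (2 * k) * ((blk k j).card : ℝ))
    (∑ p ∈ blk k j, (2 * (b p : ℝ) * c p + (c p : ℝ) ^ 2))
  calc _ ≤ |C₀| * C₁ * (j : ℝ) ^ (4 * k - 2) + 5 * C₁ * (j : ℝ) ^ (4 * k - 2) +
      C₁ ^ 2 * (j : ℝ) ^ (4 * k - 2) := by linarith
    _ = _ := by ring

end SO

theorem so : S_SO := by
  intro hLIP hCARD k C₀ hk
  obtain ⟨C₁, hC₁, hcard⟩ := hCARD k (by omega)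
  refine ⟨|C₀| * C₁ + 5 * C₁ + C₁ ^ 2 + 2 * C₁ ^ 2 * (9 + C₁), by positivity, ?_⟩
  intro j hj m b c hb hc s hs
  obtain ⟨h1, h2, -, h4, -, -⟩ := hcard j hj
  have hJ : (1 : ℝ) ≤ j := by exact_mod_cast hj
  have hJ0 : (0 : ℝ) < j := by linarith
  have hsum := SO.sum_bound k hk C₀ C₁ hC₁ j hj h1 h2 m b c hb hc
  set y : ℝ := (j : ℝ) ^ (2 * k) with hy
  have hy0 : 0 < y := by positivity
  have hpow : (j : ℝ) ^ (4 * k * (1 - s.re) - 2) = (j : ℝ) ^ (4 * k - 2) * y ^ (-(2 * s).re) := by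
    rw [hy, ← Real.rpow_natCast (j : ℝ) (2 * k), ← Real.rpow_mul hJ0.le,
      ← Real.rpow_natCast (j : ℝ) (4 * k - 2), ← Real.rpow_add hJ0]
    congr 1
    rw [Nat.cast_sub (by omega)]
    have : (2 * s).re = 2 * s.re := by simp
    rw [this]
    push_cast
    ring
  have hY : ‖((y : ℝ) : ℂ) ^ (-(2 * s))‖ = y ^ (-(2 * s).re) := by
    rw [Complex.norm_cpow_eq_rpow_re_of_pos hy0]
    simp
  have hdec : ∑ p ∈ blk k j, ((((b p + c p : ℤ)) : ℂ) ^ 2 - p) * (p : ℂ) ^ (-(2 * s)) =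
      ((∑ p ∈ blk k j, (((b p + c p : ℤ) : ℝ) ^ 2 - p) : ℝ) : ℂ) * ((y : ℝ) : ℂ) ^ (-(2 * s)) +
      ∑ p ∈ blk k j, (((((b p + c p : ℤ) : ℝ) ^ 2 - p) : ℝ) : ℂ) *
        ((((p : ℝ)) : ℂ) ^ (-(2 * s)) - ((y : ℝ) : ℂ) ^ (-(2 * s))) := by
    rw [Complex.ofReal_sum, Finset.sum_mul, ← Finset.sum_add_distrib]
    refine Finset.sum_congr rfl fun p _ => ?_
    push_cast
    ring
  have hre : 0 ≤ (2 * s).re := by
    have : (2 * s).re = 2 * s.re := by simp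
    rw [this]
    linarith
  have hn2 : ‖2 * s‖ = 2 * ‖s‖ := by simp
  have hterm : ∀ p ∈ blk k j, ‖(((((b p + c p : ℤ) : ℝ) ^ 2 - p) : ℝ) : ℂ) *
        ((((p : ℝ)) : ℂ) ^ (-(2 * s)) - ((y : ℝ) : ℂ) ^ (-(2 * s)))‖ ≤
        2 * C₁ * (9 + C₁) * ‖s‖ * (j : ℝ) ^ (2 * k - 1) * y ^ (-(2 * s).re) := by
    intro p hp
    have hp' := (Finset.mem_Ioc.1 (Finset.mem_filter.1 hp).1)
    have q1 : y ≤ p := by
      rw [hy]
      exact_mod_cast hp'.1.le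
    have q2 : (p : ℝ) ≤ ((j : ℝ) + 1) ^ (2 * k) := by exact_mod_cast hp'.2
    have e1 : |(b p : ℝ)| ≤ 2 * (j : ℝ) ^ k := by
      refine (hb.size p hp).trans ?_
      have : 1 - 1 / (j : ℝ) ≤ 1 := by
        have : (0 : ℝ) < 1 / j := by positivity
        linarith
      calc 2 * (j : ℝ) ^ k * (1 - 1 / j) ≤ 2 * (j : ℝ) ^ k * 1 := by gcongr
        _ = _ := by ring
    have e2 := hc.size p hp
    have e3 : (j : ℝ) ≤ (j : ℝ) ^ k := by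
      calc (j : ℝ) = (j : ℝ) ^ 1 := (pow_one _).symm
        _ ≤ _ := pow_le_pow_right₀ hJ (by omega)
    have e4 : |((b p + c p : ℤ) : ℝ)| ≤ 3 * (j : ℝ) ^ k := by
      push_cast
      refine (abs_add_le _ _).trans ?_
      linarith
    have e5 : ((b p + c p : ℤ) : ℝ) ^ 2 ≤ 9 * y := by
      rw [← sq_abs]
      calc |((b p + c p : ℤ) : ℝ)| ^ 2 ≤ (3 * (j : ℝ) ^ k) ^ 2 := by gcongr
        _ = 9 * y := by rw [hy]; ring
    have e6 : |((b p + c p : ℤ) : ℝ) ^ 2 - p| ≤ (9 + C₁) * y := by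
      rw [abs_le]
      constructor
      · have : 0 ≤ ((b p + c p : ℤ) : ℝ) ^ 2 := sq_nonneg _
        nlinarith
      · nlinarith
    have e7 := hLIP (2 * s) p y hy0 q1 hre
    rw [norm_mul, Complex.norm_real, Real.norm_eq_abs]
    have e8 : y * y ^ (-(2 * s).re - 1) = y ^ (-(2 * s).re) := by
      rw [Real.rpow_sub_one hy0.ne']
      field_simp
    have e9 : (p : ℝ) - y ≤ C₁ * (j : ℝ) ^ (2 * k - 1) := by linarith
    calc _ ≤ ((9 + C₁) * y) * (‖2 * s‖ * y ^ (-(2 * s).re - 1) * ((p : ℝ) - y)) := by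
          gcongr
      _ ≤ ((9 + C₁) * y) * (‖2 * s‖ * y ^ (-(2 * s).re - 1) * (C₁ * (j : ℝ) ^ (2 * k - 1))) := by
          gcongr
      _ = 2 * C₁ * (9 + C₁) * ‖s‖ * (j : ℝ) ^ (2 * k - 1) * (y * y ^ (-(2 * s).re - 1)) := by
          rw [hn2]
          ring
      _ = _ := by rw [e8]
  show ‖∑ p ∈ blk k j, ((((b p + c p : ℤ)) : ℂ) ^ 2 - p) * (p : ℂ) ^ (-(2 * s))‖ ≤ _
  rw [hdec]
  refine (norm_add_le _ _).trans ?_
  rw [norm_mul, Complex.norm_real, Real.norm_eq_abs, hY, hpow]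
  have hE2 := (norm_sum_le_of_le (blk k j) hterm)
  rw [Finset.sum_const, nsmul_eq_mul] at hE2
  set Z : ℝ := y ^ (-(2 * s).re) with hZ
  have hZ0 : 0 < Z := Real.rpow_pos_of_pos hy0 _
  have hW : (j : ℝ) ^ (2 * k - 1) * (j : ℝ) ^ (2 * k - 1) = (j : ℝ) ^ (4 * k - 2) := by
    rw [← pow_add]
    congr 1
    omega
  have hs0 : 0 ≤ ‖s‖ := norm_nonneg s
  have hE2' : ((blk k j).card : ℝ) * (2 * C₁ * (9 + C₁) * ‖s‖ * (j : ℝ) ^ (2 * k - 1) * Z) ≤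
      2 * C₁ ^ 2 * (9 + C₁) * ‖s‖ * (j : ℝ) ^ (4 * k - 2) * Z := by
    calc _ ≤ (C₁ * (j : ℝ) ^ (2 * k - 1)) * (2 * C₁ * (9 + C₁) * ‖s‖ * (j : ℝ) ^ (2 * k - 1) * Z) := by
          gcongr
      _ = 2 * C₁ ^ 2 * (9 + C₁) * ‖s‖ * ((j : ℝ) ^ (2 * k - 1) * (j : ℝ) ^ (2 * k - 1)) * Z := by ring
      _ = _ := by rw [hW]
  have hE1 : |∑ p ∈ blk k j, (((b p + c p : ℤ) : ℝ) ^ 2 - p)| * Z ≤
      (|C₀| * C₁ + 5 * C₁ + C₁ ^ 2) * (j : ℝ) ^ (4 * k - 2) * Z := by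
    gcongr
  set W : ℝ := (j : ℝ) ^ (4 * k - 2) with hWd
  have hW0 : 0 < W := by positivity
  have hA0 : 0 ≤ |C₀| * C₁ + 5 * C₁ + C₁ ^ 2 := by positivity
  have hB0 : 0 ≤ 2 * C₁ ^ 2 * (9 + C₁) := by positivity
  have hWZ : 0 < W * Z := mul_pos hW0 hZ0
  have t1 : (|C₀| * C₁ + 5 * C₁ + C₁ ^ 2) * (W * Z) ≤
      (|C₀| * C₁ + 5 * C₁ + C₁ ^ 2) * (1 + ‖s‖) * (W * Z) := by
    have : (|C₀| * C₁ + 5 * C₁ + C₁ ^ 2) ≤ (|C₀| * C₁ + 5 * C₁ + C₁ ^ 2) * (1 + ‖s‖) := by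
      nlinarith
    exact mul_le_mul_of_nonneg_right this hWZ.le
  have t2 : 2 * C₁ ^ 2 * (9 + C₁) * ‖s‖ * (W * Z) ≤ 2 * C₁ ^ 2 * (9 + C₁) * (1 + ‖s‖) * (W * Z) := by
    have : 2 * C₁ ^ 2 * (9 + C₁) * ‖s‖ ≤ 2 * C₁ ^ 2 * (9 + C₁) * (1 + ‖s‖) := by
      nlinarith
    exact mul_le_mul_of_nonneg_right this hWZ.le
  calc _ ≤ (|C₀| * C₁ + 5 * C₁ + C₁ ^ 2) * W * Z + 2 * C₁ ^ 2 * (9 + C₁) * ‖s‖ * W * Z := by
        linarith
    _ ≤ _ := by linarith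

end H21RHB
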