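import Pool.Agent.H21.RHB.Stm

/-! # RHB-SQ (helper56) -/

set_option autoImplicit false

namespace H21RHB

open Real Finset

namespace SQ

lemma one (y j t : ℝ) (hj : 2 ≤ j) (hy : j ≤ y) (h0 : 0 ≤ t) (h1 : t ≤ 1) :
    |2 * ((⌊2 * y * (1 - 1 / j) * t⌋ : ℤ) : ℝ) ^ 2 - 2 * y ^ 2 * (4 * t ^ 2)| ≤ 24 * (y ^ 2 / j) := by
  have hj0 : 0 < j := by linarith
  have hy0 : 0 < y := by linarith
  obtain ⟨x, hx⟩ : ∃ x, x = 2 * y * (1 - 1 / j) * t := ⟨_, rfl⟩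
  obtain ⟨β, hβ⟩ : ∃ β : ℝ, β = ((⌊2 * y * (1 - 1 / j) * t⌋ : ℤ) : ℝ) := ⟨_, rfl⟩
  rw [← hβ]
  have hjj : 1 / j ≤ 1 / 2 := one_div_le_one_div_of_le (by norm_num) hj
  have hjp : 0 < 1 / j := by positivity
  have hx0 : 0 ≤ x := by
    rw [hx]
    have : 0 ≤ 1 - 1 / j := by linarith
    positivity
  have hb1 : β ≤ x := by rw [hβ, hx]; exact Int.floor_le _
  have hb2 : x - 1 < β := by rw [hβ, hx]; exact Int.sub_one_lt_floor _
  have hb0 : 0 ≤ β := by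
    rw [hβ, ← hx]
    exact_mod_cast Int.floor_nonneg.2 hx0
  have hxe : x = 2 * y * t - 2 * (y / j) * t := by
    rw [hx]; field_simp
  have hyj : 1 ≤ y / j := by rw [le_div_iff₀ hj0]; linarith
  have hyj0 : 0 < y / j := by positivity
  have h2 : 0 ≤ 2 * y * t - β := by
    have : 0 ≤ 2 * (y / j) * t := by positivity
    linarith
  have h3 : 2 * y * t - β ≤ 3 * (y / j) := by
    have : 2 * (y / j) * t ≤ 2 * (y / j) * 1 := mul_le_mul_of_nonneg_left h1 (by positivity)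
    linarith
  have h4 : 2 * y * t + β ≤ 4 * y := by
    have h5 : 2 * y * t ≤ 2 * y * 1 := mul_le_mul_of_nonneg_left h1 (by positivity)
    linarith
  have h6 : 0 ≤ 2 * y * t + β := by positivity
  have h7 : (2 * y * t - β) * (2 * y * t + β) ≤ (3 * (y / j)) * (4 * y) :=
    mul_le_mul h3 h4 h6 (by positivity)
  have h8 : (3 * (y / j)) * (4 * y) = 12 * (y ^ 2 / j) := by ring
  have h9 : 0 ≤ (2 * y * t - β) * (2 * y * t + β) := mul_nonneg h2 h6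
  rw [abs_le]
  constructor <;> nlinarith

end SQ

open SQ in
theorem sq : S_SQ := by
  refine ⟨29, by norm_num, fun k j n hk hj hjn t ht hs => ?_⟩
  obtain ⟨y, hy⟩ : ∃ y : ℝ, y = (j : ℝ) ^ k := ⟨_, rfl⟩
  have hj2 : (2 : ℝ) ≤ j := by exact_mod_cast hj
  have hj0 : (0 : ℝ) < j := by linarith
  have hjy : (j : ℝ) ≤ y := by
    rw [hy]
    exact le_self_pow₀ (by linarith) (by omega)
  have hy2 : (j : ℝ) ^ (2 * k) = y ^ 2 := by rw [hy, ← pow_mul, mul_comm]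
  rw [hy2, ← hy]
  have hy0 : 0 < y := by linarith
  -- first error
  have e1 : |∑ i ∈ Finset.range (n / 2), 2 * ((⌊2 * y * (1 - 1 / (j : ℝ)) * t i⌋ : ℤ) : ℝ) ^ 2 -
      2 * y ^ 2 * ∑ i ∈ Finset.range (n / 2), 4 * (t i) ^ 2| ≤ 12 * (y ^ 2 * n / j) := by
    rw [Finset.mul_sum, ← Finset.sum_sub_distrib]
    refine (Finset.abs_sum_le_sum_abs _ _).trans ?_
    refine (Finset.sum_le_sum fun i _ => one y j (t i) hj2 hjy (ht i).1 (ht i).2).trans ?_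
    rw [Finset.sum_const, Finset.card_range, nsmul_eq_mul]
    have h1 : ((n / 2 : ℕ) : ℝ) ≤ (n : ℝ) / 2 := Nat.cast_div_le
    have h2 : 0 ≤ 24 * (y ^ 2 / (j : ℝ)) := by positivity
    calc ((n / 2 : ℕ) : ℝ) * (24 * (y ^ 2 / (j : ℝ))) ≤ (n : ℝ) / 2 * (24 * (y ^ 2 / (j : ℝ))) :=
          mul_le_mul_of_nonneg_right h1 h2
      _ = _ := by ring
  have e2 : |2 * y ^ 2 * ∑ i ∈ Finset.range (n / 2), 4 * (t i) ^ 2 -
      2 * y ^ 2 * ((n / 2 : ℕ) : ℝ)| ≤ 16 * y ^ 2 := by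
    rw [← mul_sub, abs_mul, abs_of_pos (by positivity : 0 < 2 * y ^ 2)]
    have := mul_le_mul_of_nonneg_left hs (by positivity : 0 ≤ 2 * y ^ 2)
    linarith
  have e3 : |2 * y ^ 2 * ((n / 2 : ℕ) : ℝ) - y ^ 2 * n| ≤ y ^ 2 := by
    have h1 : ((n / 2 : ℕ) : ℝ) * 2 ≤ n := by exact_mod_cast Nat.div_mul_le_self n 2
    have h2 : (n : ℝ) ≤ ((n / 2 : ℕ) : ℝ) * 2 + 1 := by
      have : n ≤ n / 2 * 2 + 1 := by omega
      exact_mod_cast this
    rw [show 2 * y ^ 2 * ((n / 2 : ℕ) : ℝ) - y ^ 2 * n = y ^ 2 * (((n / 2 : ℕ) : ℝ) * 2 - n) by ring,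
      abs_mul, abs_of_pos (by positivity : 0 < y ^ 2)]
    have h3 : |((n / 2 : ℕ) : ℝ) * 2 - n| ≤ 1 := by
      rw [abs_le]; constructor <;> linarith
    calc y ^ 2 * |((n / 2 : ℕ) : ℝ) * 2 - n| ≤ y ^ 2 * 1 :=
          mul_le_mul_of_nonneg_left h3 (by positivity)
      _ = y ^ 2 := mul_one _
  have e4 : y ^ 2 ≤ y ^ 2 * n / j := by
    rw [le_div_iff₀ hj0]
    have : (j : ℝ) ≤ n := by exact_mod_cast hjn
    exact mul_le_mul_of_nonneg_left this (by positivity)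
  have e5 := abs_le.1 e1
  have e6 := abs_le.1 e2
  have e7 := abs_le.1 e3
  have e8 : 29 * y ^ 2 * n / j = 29 * (y ^ 2 * n / j) := by ring
  rw [e8, abs_le]
  constructor <;> linarith

end H21RHB
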