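import Pool.Agent.H21.RHB.Stm

/-! RHB-ST1 (helper67) -/

set_option autoImplicit false

namespace H21RHB

open Real Finset MeasureTheory Filter Topology

namespace ST1

theorem pow_bd (k j : ℕ) (hj : 1 ≤ j) :
    ((j : ℝ) + 1) ^ (k + 1) ≤ (j : ℝ) ^ (k + 1) + 3 ^ (k + 1) * (j : ℝ) ^ k := by
  have hj1 : (1 : ℝ) ≤ j := by exact_mod_cast hj
  induction k with
  | zero => norm_num
  | succ k ih =>
    have h1 : (j : ℝ) ^ k ≤ (j : ℝ) ^ (k + 1) := pow_le_pow_right₀ hj1 (Nat.le_succ k)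
    have h2 : (0 : ℝ) < 3 ^ (k + 1) := by positivity
    have h3 : (1 : ℝ) ≤ 3 ^ (k + 1) := one_le_pow₀ (by norm_num)
    have h4 : (0 : ℝ) ≤ (j : ℝ) ^ (k + 1) := by positivity
    calc ((j : ℝ) + 1) ^ (k + 1 + 1) = ((j : ℝ) + 1) ^ (k + 1) * ((j : ℝ) + 1) := pow_succ _ _
      _ ≤ ((j : ℝ) ^ (k + 1) + 3 ^ (k + 1) * (j : ℝ) ^ k) * ((j : ℝ) + 1) :=
          mul_le_mul_of_nonneg_right ih (by positivity)
      _ = (j : ℝ) ^ (k + 1 + 1) + (j : ℝ) ^ (k + 1) + 3 ^ (k + 1) * (j : ℝ) ^ (k + 1) +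
          3 ^ (k + 1) * (j : ℝ) ^ k := by ring
      _ ≤ (j : ℝ) ^ (k + 1 + 1) + 3 ^ (k + 1) * (j : ℝ) ^ (k + 1) +
          3 ^ (k + 1) * (j : ℝ) ^ (k + 1) + 3 ^ (k + 1) * (j : ℝ) ^ (k + 1) := by
          have h5 := mul_le_mul_of_nonneg_left h1 h2.le
          have h6 : (j : ℝ) ^ (k + 1) ≤ 3 ^ (k + 1) * (j : ℝ) ^ (k + 1) :=
            le_mul_of_one_le_left h4 h3
          linarith
      _ = (j : ℝ) ^ (k + 1 + 1) + 3 ^ (k + 1 + 1) * (j : ℝ) ^ (k + 1) := by ring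

theorem stf_deriv {x : ℝ} (h1 : -1 < x) (h2 : x < 1) :
    HasDerivAt STF (1 / π * (2 * √(1 - x ^ 2))) x := by
  have hpos : 0 < 1 - x ^ 2 := by nlinarith
  have hs : 0 < √(1 - x ^ 2) := Real.sqrt_pos.2 hpos
  have hsq : √(1 - x ^ 2) * √(1 - x ^ 2) = 1 - x ^ 2 := Real.mul_self_sqrt hpos.le
  have e1 : HasDerivAt (fun y : ℝ => 1 - y ^ 2) (-(2 * x)) x := by
    have := ((hasDerivAt_id x).pow 2).const_sub 1
    refine this.congr_deriv ?_
    simp
  have e2 := e1.sqrt hpos.ne'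
  have e3 := (hasDerivAt_id x).mul e2
  have e4 := Real.hasDerivAt_arcsin h1.ne' h2.ne
  have e5 := ((e3.add e4).const_mul (1 / π)).const_add (1 / 2)
  refine e5.congr_deriv ?_
  congr 1
  simp only [id, one_mul]
  field_simp
  nlinarith

theorem stf_cont : Continuous STF := by
  unfold STF
  exact continuous_const.add (continuous_const.mul
    ((continuous_id.mul (continuous_const.sub (continuous_id.pow 2)).sqrt).add
      Real.continuous_arcsin))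

theorem stf_lip {x y : ℝ} (hx : -1 ≤ x) (hxy : x ≤ y) (hy : y ≤ 1) :
    0 ≤ STF y - STF x ∧ STF y - STF x ≤ y - x := by
  have hmem : x ∈ Set.Icc (-1 : ℝ) 1 ∧ y ∈ Set.Icc (-1 : ℝ) 1 :=
    ⟨⟨hx, hxy.trans hy⟩, ⟨hx.trans hxy, hy⟩⟩
  have m1 : MonotoneOn STF (Set.Icc (-1 : ℝ) 1) := by
    refine monotoneOn_of_deriv_nonneg (convex_Icc _ _) stf_cont.continuousOn ?_ ?_
    · intro z hz
      rw [interior_Icc] at hz
      exact (stf_deriv hz.1 hz.2).differentiableAt.differentiableWithinAt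
    · intro z hz
      rw [interior_Icc] at hz
      rw [(stf_deriv hz.1 hz.2).deriv]
      positivity
  have m2 : MonotoneOn (fun z => z - STF z) (Set.Icc (-1 : ℝ) 1) := by
    refine monotoneOn_of_deriv_nonneg (convex_Icc _ _)
      (continuous_id.sub stf_cont).continuousOn ?_ ?_
    · intro z hz
      rw [interior_Icc] at hz
      exact ((hasDerivAt_id z).sub (stf_deriv hz.1 hz.2)).differentiableAt.differentiableWithinAt
    · intro z hz
      rw [interior_Icc] at hz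
      have hd : HasDerivAt (fun z : ℝ => z - STF z) (1 - 1 / π * (2 * √(1 - z ^ 2))) z :=
        (hasDerivAt_id' z).sub (stf_deriv hz.1 hz.2)
      rw [hd.deriv]
      have hs : √(1 - z ^ 2) ≤ 1 := by
        rw [Real.sqrt_le_left (by norm_num)]
        nlinarith [sq_nonneg z]
      have hpi := Real.pi_gt_three
      have h1 : 1 / π ≤ 1 / 2 := one_div_le_one_div_of_le (by norm_num) (by linarith)
      have h0 : 0 ≤ 1 / π := by positivity
      have h2 := Real.sqrt_nonneg (1 - z ^ 2)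
      nlinarith
  have := m1 hmem.1 hmem.2 hxy
  have h2 := m2 hmem.1 hmem.2 hxy
  simp only at h2
  constructor <;> linarith

/-- comparison with the clamped point -/
theorem stf_clamp {x δ : ℝ} (hx : x ∈ Set.Icc (-1 : ℝ) 1) (hδ : 0 ≤ δ) :
    STF (max (-1) (min 1 (x + δ))) - STF x ≤ δ ∧ STF x - STF (max (-1) (min 1 (x - δ))) ≤ δ := by
  obtain ⟨h1, h2⟩ := hx
  constructor
  · have a1 : x ≤ max (-1) (min 1 (x + δ)) := le_max_of_le_right (le_min h2 (by linarith))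
    have a2 : max (-1) (min 1 (x + δ)) ≤ 1 := max_le (by norm_num) (min_le_left _ _)
    have a3 : max (-1) (min 1 (x + δ)) ≤ x + δ := max_le (by linarith) (min_le_right _ _)
    have := (stf_lip h1 a1 a2).2
    linarith
  · have a1 : max (-1) (min 1 (x - δ)) ≤ x := max_le h1 ((min_le_right _ _).trans (by linarith))
    have a2 : -1 ≤ max (-1) (min 1 (x - δ)) := le_max_left _ _
    have a3 : x - δ ≤ max (-1) (min 1 (x - δ)) := le_max_of_le_right (le_min (by linarith) le_rfl)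
    have := (stf_lip a2 a1 h2).2
    linarith

end ST1

theorem st1 : S_ST1 := by
  intro k C₀ hk
  obtain ⟨l, rfl⟩ : ∃ l, k = l + 1 := ⟨k - 1, by omega⟩
  have hC1 : (0 : ℝ) < 3 ^ (l + 1) := by positivity
  refine ⟨|C₀| + 3 ^ (l + 1) + 1 / 2, by positivity, ?_⟩
  intro j hj m b c hB hC x hx
  have hj1 : (1 : ℝ) ≤ j := by exact_mod_cast hj
  have hj0 : (0 : ℝ) < j := by linarith
  have hx1 : |x| ≤ 1 := abs_le.2 hx
  obtain ⟨δ, hδ⟩ : ∃ δ : ℝ, δ = (3 ^ (l + 1) + 1 / 2) / j := ⟨_, rfl⟩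
  have hδ0 : 0 ≤ δ := by rw [hδ]; positivity
  have hδj : 2 * δ * (j : ℝ) ^ (l + 1) = 2 * 3 ^ (l + 1) * (j : ℝ) ^ l + (j : ℝ) ^ l := by
    rw [hδ]
    field_simp
    ring
  -- bounds for a prime of the block
  have hp : ∀ p ∈ blk (l + 1) j, (j : ℝ) ^ (l + 1) ≤ √p ∧
      √p ≤ (j : ℝ) ^ (l + 1) + 3 ^ (l + 1) * (j : ℝ) ^ l ∧ |(c p : ℝ)| ≤ (j : ℝ) ^ l := by
    intro p hp
    have hp' := hp
    rw [blk, mem_filter, mem_Ioc] at hp'
    obtain ⟨⟨h1, h2⟩, -⟩ := hp'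
    have h1' : ((j : ℝ)) ^ (2 * (l + 1)) ≤ p := by exact_mod_cast h1.le
    have h2' : (p : ℝ) ≤ ((j : ℝ) + 1) ^ (2 * (l + 1)) := by exact_mod_cast h2
    refine ⟨?_, ?_, ?_⟩
    · apply Real.le_sqrt_of_sq_le
      rw [← pow_mul, mul_comm (l + 1) 2]
      exact h1'
    · refine le_trans ?_ (ST1.pow_bd l j hj)
      rw [Real.sqrt_le_left (by positivity), ← pow_mul, mul_comm (l + 1) 2]
      exact h2'
    · refine (hC.size p hp).trans ?_
      calc (j : ℝ) = (j : ℝ) ^ 1 := (pow_one _).symm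
        _ ≤ (j : ℝ) ^ l := pow_le_pow_right₀ hj1 (by omega)
  have hup : (blk (l + 1) j).filter (fun p => (((fun p => b p + c p) p : ℤ) : ℝ) ≤ 2 * x * √p) ⊆
      (blk (l + 1) j).filter (fun p => (b p : ℝ) ≤ 2 * (x + δ) * (j : ℝ) ^ (l + 1)) := by
    intro p hpm
    rw [mem_filter] at hpm ⊢
    obtain ⟨hpb, h⟩ := hpm
    obtain ⟨h1, h2, h3⟩ := hp p hpb
    refine ⟨hpb, ?_⟩
    push_cast at h
    have h4 : 2 * x * √p ≤ 2 * x * (j : ℝ) ^ (l + 1) + 2 * (√p - (j : ℝ) ^ (l + 1)) := by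
      have := (abs_le.1 hx1).2
      nlinarith
    have h5 := (abs_le.1 h3).1
    have e : 2 * (x + δ) * (j : ℝ) ^ (l + 1) =
        2 * x * (j : ℝ) ^ (l + 1) + 2 * δ * (j : ℝ) ^ (l + 1) := by ring
    rw [e, hδj]
    linarith
  have hlow : (blk (l + 1) j).filter (fun p => (b p : ℝ) ≤ 2 * (x - δ) * (j : ℝ) ^ (l + 1)) ⊆
      (blk (l + 1) j).filter (fun p => (((fun p => b p + c p) p : ℤ) : ℝ) ≤ 2 * x * √p) := by
    intro p hpm
    rw [mem_filter] at hpm ⊢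
    obtain ⟨hpb, h⟩ := hpm
    obtain ⟨h1, h2, h3⟩ := hp p hpb
    refine ⟨hpb, ?_⟩
    push_cast
    have h4 : 2 * x * (j : ℝ) ^ (l + 1) - 2 * (√p - (j : ℝ) ^ (l + 1)) ≤ 2 * x * √p := by
      have := (abs_le.1 hx1).1
      nlinarith
    have h5 := (abs_le.1 h3).2
    have e : 2 * (x - δ) * (j : ℝ) ^ (l + 1) =
        2 * x * (j : ℝ) ^ (l + 1) - 2 * δ * (j : ℝ) ^ (l + 1) := by ring
    rw [e, hδj] at h
    linarith
  have c1 : ((((blk (l + 1) j).filter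
      (fun p => (((fun p => b p + c p) p : ℤ) : ℝ) ≤ 2 * x * √p)).card : ℕ) : ℝ) ≤
      (((blk (l + 1) j).filter (fun p => (b p : ℝ) ≤ 2 * (x + δ) * (j : ℝ) ^ (l + 1))).card : ℝ) := by
    exact_mod_cast card_le_card hup
  have c2 : ((((blk (l + 1) j).filter
      (fun p => (b p : ℝ) ≤ 2 * (x - δ) * (j : ℝ) ^ (l + 1))).card : ℕ) : ℝ) ≤
      (((blk (l + 1) j).filter
      (fun p => (((fun p => b p + c p) p : ℤ) : ℝ) ≤ 2 * x * √p)).card : ℝ) := by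
    exact_mod_cast card_le_card hlow
  have s1 := (abs_le.1 (hB.st (x + δ))).2
  have s2 := (abs_le.1 (hB.st (x - δ))).1
  obtain ⟨l1, l2⟩ := ST1.stf_clamp hx hδ0
  obtain ⟨n, hn⟩ : ∃ n : ℝ, n = ((blk (l + 1) j).card : ℝ) := ⟨_, rfl⟩
  have hn0 : 0 ≤ n := by rw [hn]; positivity
  rw [← hn] at s1 s2 ⊢
  have hC0 : C₀ * n / j ≤ |C₀| * n / j := by
    have := le_abs_self C₀
    gcongr
  have t1 := mul_le_mul_of_nonneg_right l1 hn0
  have t2 := mul_le_mul_of_nonneg_right l2 hn0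
  have e3 : (|C₀| + 3 ^ (l + 1) + 1 / 2) * n / j = |C₀| * n / j + δ * n := by
    rw [hδ]; ring
  rw [e3, abs_le]
  constructor
  · linarith
  · linarith

end H21RHB
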