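import Pool.Agent.H21.RHB.Stm

/-! RHB-STQ (helper92). The lemmas `stf_deriv`, `stf_cont`, `stf_lip` are copied from helper67's ST1.lean. -/

set_option autoImplicit false

namespace H21RHB

open Real Finset MeasureTheory Filter Topology

namespace STQ

theorem stf_deriv {x : ℝ} (h1 : -1 < x) (h2 : x < 1) :
    HasDerivAt STF (1 / π * (2 * √(1 - x ^ 2))) x := by
  have hpos : 0 < 1 - x ^ 2 := by nlinarith
  have hs : 0 < √(1 - x ^ 2) := Real.sqrt_pos.2 hpos
  have hsq : √(1 - x ^ 2) * √(1 - x ^ 2) = 1 - x ^ 2 := Real.mul_self_sqrt hpos.le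
  have e1 : HasDerivAt (fun y : ℝ => 1 - y ^ 2) (-(2 * x)) x := by
    have := ((hasDerivAt_id x).pow 2).const_sub 1
    refine this.congr_deriv ?_
    simp
  have e2 := e1.sqrt hpos.ne'
  have e3 := (hasDerivAt_id x).mul e2
  have e4 := Real.hasDerivAt_arcsin h1.ne' h2.ne
  have e5 := ((e3.add e4).const_mul (1 / π)).const_add (1 / 2)
  refine e5.congr_deriv ?_
  congr 1
  simp only [id, one_mul]
  field_simp
  nlinarith

theorem stf_cont : Continuous STF := by
  unfold STF
  exact continuous_const.add (continuous_const.mul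
    ((continuous_id.mul (continuous_const.sub (continuous_id.pow 2)).sqrt).add
      Real.continuous_arcsin))

theorem stf_lip {x y : ℝ} (hx : -1 ≤ x) (hxy : x ≤ y) (hy : y ≤ 1) :
    0 ≤ STF y - STF x ∧ STF y - STF x ≤ y - x := by
  have hmem : x ∈ Set.Icc (-1 : ℝ) 1 ∧ y ∈ Set.Icc (-1 : ℝ) 1 :=
    ⟨⟨hx, hxy.trans hy⟩, ⟨hx.trans hxy, hy⟩⟩
  have m1 : MonotoneOn STF (Set.Icc (-1 : ℝ) 1) := by
    refine monotoneOn_of_deriv_nonneg (convex_Icc _ _) stf_cont.continuousOn ?_ ?_
    · intro z hz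
      rw [interior_Icc] at hz
      exact (stf_deriv hz.1 hz.2).differentiableAt.differentiableWithinAt
    · intro z hz
      rw [interior_Icc] at hz
      rw [(stf_deriv hz.1 hz.2).deriv]
      positivity
  have m2 : MonotoneOn (fun z => z - STF z) (Set.Icc (-1 : ℝ) 1) := by
    refine monotoneOn_of_deriv_nonneg (convex_Icc _ _)
      (continuous_id.sub stf_cont).continuousOn ?_ ?_
    · intro z hz
      rw [interior_Icc] at hz
      exact ((hasDerivAt_id z).sub (stf_deriv hz.1 hz.2)).differentiableAt.differentiableWithinAt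
    · intro z hz
      rw [interior_Icc] at hz
      have hd : HasDerivAt (fun z : ℝ => z - STF z) (1 - 1 / π * (2 * √(1 - z ^ 2))) z :=
        (hasDerivAt_id' z).sub (stf_deriv hz.1 hz.2)
      rw [hd.deriv]
      have hs : √(1 - z ^ 2) ≤ 1 := by
        rw [Real.sqrt_le_left (by norm_num)]
        nlinarith [sq_nonneg z]
      have hpi := Real.pi_gt_three
      have h1 : 1 / π ≤ 1 / 2 := one_div_le_one_div_of_le (by norm_num) (by linarith)
      have h0 : 0 ≤ 1 / π := by positivity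
      have h2 := Real.sqrt_nonneg (1 - z ^ 2)
      nlinarith
  have := m1 hmem.1 hmem.2 hxy
  have h2 := m2 hmem.1 hmem.2 hxy
  simp only at h2
  constructor <;> linarith


theorem stf_neg (x : ℝ) : STF (-x) = 1 - STF x := by
  unfold STF
  rw [Real.arcsin_neg, neg_sq]
  ring

theorem stf_one : STF 1 = 1 := by
  unfold STF
  rw [Real.arcsin_one]
  have := Real.pi_ne_zero
  norm_num
  field_simp
  norm_num

theorem stf_mem {x : ℝ} (h1 : -1 ≤ x) (h2 : x ≤ 1) : 0 ≤ STF x ∧ STF x ≤ 1 := by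
  have a := (stf_lip h1 h2 le_rfl).1
  have b := (stf_lip le_rfl h1 h2).1
  rw [stf_neg, stf_one] at b
  rw [stf_one] at a
  constructor <;> linarith

/-- counting -/
def cnt (h : ℕ) (p : ℕ → Prop) [DecidablePred p] : ℝ := (((Finset.range h).filter p).card : ℝ)

theorem cnt_mono (h : ℕ) (p q : ℕ → Prop) [DecidablePred p] [DecidablePred q] (hpq : ∀ i, p i → q i) :
    cnt h p ≤ cnt h q := by
  unfold cnt
  exact_mod_cast Finset.card_le_card (Finset.monotone_filter_right _ fun i _ hi => hpq i hi)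

theorem cnt_all (h : ℕ) (p : ℕ → Prop) [DecidablePred p] (hp : ∀ i, p i) : cnt h p = h := by
  unfold cnt
  rw [Finset.filter_true_of_mem fun i _ => hp i, Finset.card_range]

theorem cnt_none (h : ℕ) (p : ℕ → Prop) [DecidablePred p] (hp : ∀ i, ¬ p i) : cnt h p = 0 := by
  unfold cnt
  rw [Finset.filter_false_of_mem fun i _ => hp i, Finset.card_empty, Nat.cast_zero]

theorem cnt_not (h : ℕ) (p : ℕ → Prop) [DecidablePred p] : cnt h p + cnt h (fun i => ¬ p i) = h := by
  unfold cnt
  have := Finset.card_filter_add_card_filter_not (s := Finset.range h) p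
  rw [Finset.card_range] at this
  exact_mod_cast this

theorem core (h n : ℕ) (δ J : ℝ) (hδ : 0 < δ) (hJ : 0 < J) (t b : ℕ → ℝ)
    (ht : ∀ i, 0 ≤ t i ∧ t i ≤ 1) (hb0 : ∀ i, 0 ≤ b i) (hb1 : ∀ i, b i ≤ 2 * J * t i)
    (hb2 : ∀ i, 2 * J * (t i - 2 * δ) ≤ b i)
    (hN : ∀ x ∈ Set.Icc (0 : ℝ) 1, |cnt h (fun i => t i ≤ x) - h * (2 * STF x - 1)| ≤ 1)
    (hn : 2 * h ≤ n) (hn2 : n ≤ 2 * h + 1) (x : ℝ) :
    |cnt h (fun i => b i ≤ 2 * x * J) + cnt h (fun i => -b i ≤ 2 * x * J) -
      STF (max (-1) (min 1 x)) * n| ≤ 4 * h * δ + 2 := by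
  have hh : (0 : ℝ) ≤ h := Nat.cast_nonneg h
  have hn' : 2 * (h : ℝ) ≤ n := by exact_mod_cast hn
  have hn2' : (n : ℝ) ≤ 2 * h + 1 := by exact_mod_cast hn2
  -- the main estimate
  have main : ∀ z : ℝ, 0 ≤ z → ∀ N : ℝ,
      cnt h (fun i => t i ≤ max 0 (min 1 z - δ)) ≤ N ∧ N ≤ cnt h (fun i => t i ≤ min 1 (z + 2 * δ)) →
      |N - h * (2 * STF (min 1 z) - 1)| ≤ 4 * h * δ + 1 := by
    intro z hz N hN2
    have hz0 : 0 ≤ min 1 z := le_min zero_le_one hz
    have hz1 : min 1 z ≤ 1 := min_le_left _ _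
    have a1 : 0 ≤ max 0 (min 1 z - δ) := le_max_left _ _
    have a2 : max 0 (min 1 z - δ) ≤ min 1 z := max_le hz0 (by linarith)
    have a3 : min 1 z - δ ≤ max 0 (min 1 z - δ) := le_max_right _ _
    have b1 : min 1 z ≤ min 1 (z + 2 * δ) := min_le_min le_rfl (by linarith)
    have b2 : min 1 (z + 2 * δ) ≤ 1 := min_le_left _ _
    have b3 : min 1 (z + 2 * δ) ≤ min 1 z + 2 * δ := by
      rcases le_total 1 z with h | h
      · rw [min_eq_left h]
        linarith
      · rw [min_eq_right h]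
        exact min_le_right _ _
    have e1 := abs_le.1 (hN _ ⟨a1, a2.trans hz1⟩)
    have e2 := abs_le.1 (hN _ ⟨hz0.trans b1, b2⟩)
    have f1 := (stf_lip (by linarith) a2 hz1).2
    have f2 := (stf_lip (by linarith) b1 b2).2
    have g1 : (h : ℝ) * (STF (min 1 z) - STF (max 0 (min 1 z - δ))) ≤ h * δ :=
      mul_le_mul_of_nonneg_left (by linarith) hh
    have g2 : (h : ℝ) * (STF (min 1 (z + 2 * δ)) - STF (min 1 z)) ≤ h * (2 * δ) :=
      mul_le_mul_of_nonneg_left (by linarith) hh
    have g3 : 0 ≤ (h : ℝ) * δ := by positivity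
    rw [abs_le]
    constructor <;> nlinarith
  have hodd : ∀ y : ℝ, -1 ≤ y → y ≤ 1 → |2 * h * STF y - STF y * n| ≤ 1 := by
    intro y h1 h2
    obtain ⟨c1, c2⟩ := stf_mem h1 h2
    have : 2 * h * STF y - STF y * n = -(STF y * (n - 2 * h)) := by ring
    rw [this, abs_neg, abs_of_nonneg (mul_nonneg c1 (by linarith))]
    nlinarith
  rcases le_or_gt 0 x with hx | hx
  · have c1 : max (-1) (min 1 x) = min 1 x := by
      refine max_eq_right (le_trans (by norm_num) (le_min zero_le_one hx))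
    have c2 : cnt h (fun i => -b i ≤ 2 * x * J) = h := by
      refine cnt_all h _ fun i => ?_
      have := hb0 i
      have : 0 ≤ 2 * x * J := by positivity
      linarith
    have c3 := main x hx (cnt h (fun i => b i ≤ 2 * x * J)) ⟨?_, ?_⟩
    · have c4 := hodd (min 1 x) (le_trans (by norm_num) (le_min zero_le_one hx)) (min_le_left _ _)
      rw [c1, c2]
      rw [abs_le] at c3 c4 ⊢
      constructor <;> linarith [c3.1, c3.2, c4.1, c4.2]
    · refine cnt_mono h _ _ fun i hi => ?_
      have h1 : max 0 (min 1 x - δ) ≤ x := max_le hx (by have := min_le_right 1 x; linarith)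
      have h2 : t i ≤ x := hi.trans h1
      refine (hb1 i).trans ?_
      nlinarith
    · refine cnt_mono h _ _ fun i hi => ?_
      refine le_min (ht i).2 ?_
      have h1 : 2 * J * (t i - 2 * δ) ≤ 2 * J * x := (hb2 i).trans (hi.trans (by linarith))
      have h2 := le_of_mul_le_mul_left h1 (by positivity)
      linarith
  · have hz : 0 ≤ -x := by linarith
    have c1 : max (-1) (min 1 x) = -min 1 (-x) := by
      rw [min_eq_right (by linarith : x ≤ 1)]
      rcases le_total 1 (-x) with h | h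
      · rw [min_eq_left h, max_eq_left (by linarith)]
      · rw [min_eq_right h, max_eq_right (by linarith), neg_neg]
    have c2 : cnt h (fun i => b i ≤ 2 * x * J) = 0 := by
      refine cnt_none h _ fun i => ?_
      have := hb0 i
      have : 2 * x * J < 0 := by nlinarith
      intro hcon
      linarith
    have c5 := cnt_not h (fun i => -b i ≤ 2 * x * J)
    have c3 := main (-x) hz (cnt h (fun i => ¬ -b i ≤ 2 * x * J)) ⟨?_, ?_⟩
    · have c4 := hodd (-min 1 (-x)) (by have := min_le_left 1 (-x); linarith)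
        (by have := le_min zero_le_one hz; linarith)
      rw [c1, c2]
      rw [stf_neg] at c4 ⊢
      rw [abs_le] at c3 c4 ⊢
      constructor <;> nlinarith [c3.1, c3.2, c4.1, c4.2]
    · refine cnt_mono h _ _ fun i hi => ?_
      have h1 : max 0 (min 1 (-x) - δ) < -x :=
        max_lt (by linarith) (by have := min_le_right 1 (-x); linarith)
      have h2 : t i < -x := lt_of_le_of_lt hi h1
      rw [not_le]
      have h3 := hb1 i
      nlinarith
    · refine cnt_mono h _ _ fun i hi => ?_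
      rw [not_le] at hi
      refine le_min (ht i).2 ?_
      have h1 : 2 * J * (t i - 2 * δ) ≤ 2 * J * (-x) := (hb2 i).trans (by linarith)
      have h2 := le_of_mul_le_mul_left h1 (by positivity)
      linarith

end STQ

theorem stq : S_STQ := by
  refine ⟨4, by norm_num, fun k j n hk hj hjn t ht hN x => ?_⟩
  have hj2 : (2 : ℝ) ≤ j := by exact_mod_cast hj
  have hj0 : (0 : ℝ) < j := by linarith
  have hJ : (j : ℝ) ≤ (j : ℝ) ^ k := le_self_pow₀ (by linarith) (by omega)
  have hJ0 : (0 : ℝ) < (j : ℝ) ^ k := by positivity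
  have hd : (1 : ℝ) / j ≤ 1 := by
    rw [div_le_one hj0]
    linarith
  have hJd : 1 ≤ (j : ℝ) ^ k * (1 / j) := by
    rw [mul_one_div, le_div_iff₀ hj0, one_mul]
    exact hJ
  have h1 := STQ.core (n / 2) n (1 / j) ((j : ℝ) ^ k) (by positivity) hJ0 t
    (fun i => ((⌊2 * (j : ℝ) ^ k * (1 - 1 / j) * t i⌋ : ℤ) : ℝ)) ht
    (fun i => by
      have : (0 : ℤ) ≤ ⌊2 * (j : ℝ) ^ k * (1 - 1 / j) * t i⌋ := by
        refine Int.floor_nonneg.2 ?_
        have := (ht i).1
        have h2 : 0 ≤ 1 - 1 / (j : ℝ) := by linarith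
        positivity
      exact_mod_cast this)
    (fun i => by
      refine (Int.floor_le _).trans ?_
      have h2 := (ht i).1
      have h3 : 0 ≤ (j : ℝ) ^ k * (1 / j) * t i := by positivity
      nlinarith)
    (fun i => by
      have h2 := (ht i).1
      have h3 := (ht i).2
      have h4 := Int.lt_floor_add_one (2 * (j : ℝ) ^ k * (1 - 1 / j) * t i)
      have h5 : (j : ℝ) ^ k * (1 / j) * t i ≤ (j : ℝ) ^ k * (1 / j) * 1 :=
        mul_le_mul_of_nonneg_left h3 (by positivity)
      nlinarith)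
    hN (by omega) (by omega) x
  refine h1.trans ?_
  have h2 : (1 : ℝ) ≤ n / j := by
    rw [le_div_iff₀ hj0, one_mul]
    exact_mod_cast hjn
  have h3 : 2 * ((n / 2 : ℕ) : ℝ) ≤ n := by
    have : 2 * (n / 2) ≤ n := by omega
    exact_mod_cast this
  have h4 : 2 * ((n / 2 : ℕ) : ℝ) * (1 / j) ≤ n * (1 / j) :=
    mul_le_mul_of_nonneg_right h3 (by positivity)
  have h5 : (n : ℝ) * (1 / j) = n / j := by ring
  have h6 : 4 * (n : ℝ) / j = 4 * (n / j) := by ring
  rw [h6]
  linarith

end H21RHB
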