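import Pool.Agent.H21.RHB.Stm

/-! Stub ZC of project RHB: the number of the ordinates. -/

set_option autoImplicit false

namespace H21RHB.ZC

open Real Finset Filter Topology

/-- the exponent -/
def ex (i : ℕ) : ℕ := (i + 1) ^ 2 + 3

theorem ex_succ (i : ℕ) : ex i + 1 ≤ ex (i + 1) := by
  have h : (i + 1) ^ 2 + 1 ≤ (i + 1 + 1) ^ 2 := by
    have e : (i + 1 + 1) ^ 2 = (i + 1) ^ 2 + 1 + (2 * i + 2) := by ring
    omega
  unfold ex
  omega

theorem ex_ge (i : ℕ) : i ≤ 2 ^ ex i := by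
  have h1 : i ≤ ex i := by
    unfold ex
    nlinarith
  exact h1.trans (Nat.lt_two_pow_self).le

theorem sum_range_le (n : ℕ) : ∑ i ∈ range (n + 1), (2 : ℝ) ^ ex i ≤ 2 * 2 ^ ex n := by
  induction n with
  | zero =>
    have : (0 : ℝ) < 2 ^ ex 0 := by positivity
    rw [zero_add, sum_range_one]
    linarith
  | succ n ih =>
    rw [sum_range_succ]
    have h1 : (2 : ℝ) * 2 ^ ex n ≤ 2 ^ ex (n + 1) := by
      calc (2 : ℝ) * 2 ^ ex n = 2 ^ (ex n + 1) := by ring
        _ ≤ 2 ^ ex (n + 1) := pow_le_pow_right₀ (by norm_num) (ex_succ n)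
    linarith

theorem sum_le (J : Finset ℕ) (B : ℝ) (hB : 0 ≤ B) (hJ : ∀ i ∈ J, (2 : ℝ) ^ ex i ≤ B) :
    ∑ i ∈ J, (2 : ℝ) ^ ex i ≤ 2 * B := by
  rcases J.eq_empty_or_nonempty with rfl | hne
  · simpa using hB
  · have h1 : J ⊆ range (J.max' hne + 1) := fun i hi => by
      rw [mem_range]
      exact Nat.lt_succ_of_le (J.le_max' i hi)
    calc ∑ i ∈ J, (2 : ℝ) ^ ex i ≤ ∑ i ∈ range (J.max' hne + 1), (2 : ℝ) ^ ex i :=
          sum_le_sum_of_subset_of_nonneg h1 fun i _ _ => by positivity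
      _ ≤ 2 * 2 ^ ex (J.max' hne) := sum_range_le _
      _ ≤ 2 * B := by
          have := hJ _ (J.max'_mem hne)
          linarith

theorem log_NN (i : ℕ) : Real.log (NN i) = Real.log 2 * 2 ^ ex i := by
  unfold NN ex
  push_cast
  rw [Real.log_pow]
  push_cast
  ring

theorem zc : S_ZC := by
  intro k hk
  have hk1 : (1 : ℝ) ≤ k := by exact_mod_cast hk
  have hl2 : 0 < Real.log 2 := Real.log_pos (by norm_num)
  obtain ⟨C₁, hC₁⟩ : ∃ C₁ : ℝ, C₁ = 2 * Real.log (64 * k) / Real.log 2 + 2 := ⟨_, rfl⟩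
  have hlk : 0 ≤ Real.log (64 * k) := Real.log_nonneg (by linarith)
  have hC₁0 : 0 ≤ C₁ := by
    rw [hC₁]
    positivity
  refine ⟨64 * k * C₁, fun T hT => ?_⟩
  have hlT : Real.log 2 ≤ Real.log T := Real.log_le_log (by norm_num) hT
  have hT0 : 0 < T := by linarith
  -- the key estimate
  have key : ∀ i m : ℕ, m ∈ ms i → gam k i m ≤ T →
      (m : ℝ) ≤ T * UU k i ∧ Real.log (NN i) ≤ C₁ * Real.log T ∧ 1 ≤ m := by
    intro i m hm hg
    unfold ms at hm
    rw [mem_Ico] at hm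
    have hN2 : 2 ≤ NN i := by
      unfold NN
      calc 2 = 2 ^ 1 := by norm_num
        _ ≤ 2 ^ (2 ^ ((i + 1) ^ 2 + 3)) := Nat.pow_le_pow_right (by norm_num) Nat.one_le_two_pow
    have hN2' : (2 : ℝ) ≤ NN i := by exact_mod_cast hN2
    have hlN : 0 < Real.log (NN i) := Real.log_pos (by linarith)
    have hU : 0 < UU k i := by
      unfold UU
      positivity
    have hph : 0 ≤ phase i := by
      unfold phase
      split_ifs <;> norm_num
    have h1 : 2 * π * (m + phase i) ≤ T * UU k i := by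
      unfold gam at hg
      rwa [div_le_iff₀ hU] at hg
    have h2 : (m : ℝ) ≤ T * UU k i := by
      have h3 : (1 : ℝ) ≤ 2 * π := by
        have := Real.pi_gt_three
        linarith
      have h4 : (0 : ℝ) ≤ m := Nat.cast_nonneg m
      nlinarith
    have hNm : (NN i : ℝ) ≤ m := by exact_mod_cast hm.1
    refine ⟨h2, ?_, by omega⟩
    -- the logarithm
    obtain ⟨t, ht⟩ : ∃ t : ℝ, t = √(NN i : ℝ) := ⟨_, rfl⟩
    have ht2 : t ^ 2 = NN i := by
      rw [ht]
      exact Real.sq_sqrt (by linarith)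
    have ht0 : 0 < t := by
      rw [ht]
      exact Real.sqrt_pos.2 (by linarith)
    have hlog : Real.log (NN i) = 2 * Real.log t := by
      rw [← ht2, Real.log_pow]
      norm_num
    have h5 : Real.log t ≤ t - 1 := Real.log_le_sub_one_of_pos ht0
    have h6 : t ^ 2 ≤ T * (32 * k * (2 * t)) := by
      rw [ht2]
      refine hNm.trans (h2.trans ?_)
      unfold UU
      refine mul_le_mul_of_nonneg_left ?_ hT0.le
      refine mul_le_mul_of_nonneg_left ?_ (by positivity)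
      rw [hlog]
      linarith
    have h7 : t ≤ 64 * k * T := by
      have : t * t ≤ (64 * k * T) * t := by nlinarith
      exact le_of_mul_le_mul_right this ht0
    have h8 : Real.log t ≤ Real.log (64 * k) + Real.log T := by
      rw [← Real.log_mul (by positivity) (by positivity)]
      exact Real.log_le_log ht0 h7
    have h9 : Real.log (64 * k) ≤ Real.log (64 * k) / Real.log 2 * Real.log T := by
      rw [div_mul_eq_mul_div, le_div_iff₀ hl2]
      exact mul_le_mul_of_nonneg_left hlT hlk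
    rw [hlog, hC₁]
    have e1 : (2 * Real.log (64 * k) / Real.log 2 + 2) * Real.log T =
        2 * (Real.log (64 * k) / Real.log 2 * Real.log T) + 2 * Real.log T := by ring
    rw [e1]
    linarith
  -- the finite set
  obtain ⟨B, hB⟩ : ∃ B : ℝ, B = C₁ * Real.log T / Real.log 2 := ⟨_, rfl⟩
  have hB0 : 0 ≤ B := by
    rw [hB]
    have : 0 ≤ Real.log T := by linarith
    positivity
  classical
  let J : Finset ℕ := (range (⌊B⌋₊ + 1)).filter (fun i => (2 : ℝ) ^ ex i ≤ B)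
  let F : Finset (ℕ × ℕ) := J.biUnion fun i => (Icc 1 ⌊T * UU k i⌋₊).image fun m => (i, m)
  have hsub : {q : ℕ × ℕ | q.2 ∈ ms q.1 ∧ gam k q.1 q.2 ≤ T} ⊆ (F : Set (ℕ × ℕ)) := by
    rintro ⟨i, m⟩ ⟨h1, h2⟩
    obtain ⟨h3, h4, h5⟩ := key i m h1 h2
    have h6 : (2 : ℝ) ^ ex i ≤ B := by
      rw [log_NN] at h4
      rw [hB, le_div_iff₀ hl2]
      linarith
    rw [mem_coe, mem_biUnion]
    refine ⟨i, ?_, ?_⟩
    · rw [mem_filter, mem_range]
      refine ⟨Nat.lt_succ_of_le (Nat.le_floor ?_), h6⟩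
      refine le_trans ?_ h6
      exact_mod_cast ex_ge i
    · rw [mem_image]
      exact ⟨m, mem_Icc.2 ⟨h5, Nat.le_floor h3⟩, rfl⟩
  refine ⟨F.finite_toSet.subset hsub, ?_⟩
  have h1 : ({q : ℕ × ℕ | q.2 ∈ ms q.1 ∧ gam k q.1 q.2 ≤ T}.ncard : ℝ) ≤ F.card := by
    have := Set.ncard_le_ncard hsub F.finite_toSet
    rw [Set.ncard_coe_finset] at this
    exact_mod_cast this
  have h2 : (F.card : ℝ) ≤ ∑ i ∈ J, T * UU k i := by
    have h3 : F.card ≤ ∑ i ∈ J, ((Icc 1 ⌊T * UU k i⌋₊).image fun m => (i, m)).card :=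
      card_biUnion_le
    calc (F.card : ℝ) ≤ ((∑ i ∈ J, ((Icc 1 ⌊T * UU k i⌋₊).image fun m => (i, m)).card : ℕ) : ℝ) := by
          exact_mod_cast h3
      _ = ∑ i ∈ J, (((Icc 1 ⌊T * UU k i⌋₊).image fun m => (i, m)).card : ℝ) := by push_cast; rfl
      _ ≤ ∑ i ∈ J, T * UU k i := by
          refine sum_le_sum fun i _ => ?_
          have h4 : ((Icc 1 ⌊T * UU k i⌋₊).image fun m => (i, m)).card ≤ ⌊T * UU k i⌋₊ := by
            refine card_image_le.trans ?_
            rw [Nat.card_Icc]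
            omega
          refine le_trans (by exact_mod_cast h4) (Nat.floor_le ?_)
          have : 0 ≤ Real.log (NN i) := Real.log_natCast_nonneg _
          unfold UU
          positivity
  have h3 : ∑ i ∈ J, T * UU k i = T * (32 * k * Real.log 2) * ∑ i ∈ J, (2 : ℝ) ^ ex i := by
    rw [mul_sum]
    refine sum_congr rfl fun i _ => ?_
    unfold UU
    rw [log_NN]
    ring
  have h4 : ∑ i ∈ J, (2 : ℝ) ^ ex i ≤ 2 * B := sum_le J B hB0 fun i hi => (mem_filter.1 hi).2
  calc _ ≤ (F.card : ℝ) := h1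
    _ ≤ ∑ i ∈ J, T * UU k i := h2
    _ = T * (32 * k * Real.log 2) * ∑ i ∈ J, (2 : ℝ) ^ ex i := h3
    _ ≤ T * (32 * k * Real.log 2) * (2 * B) := mul_le_mul_of_nonneg_left h4 (by positivity)
    _ = 64 * k * C₁ * T * Real.log T := by
        rw [hB]
        field_simp
        ring

end H21RHB.ZC
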