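import Pool.Agent.H21.RHB.Fin2
import Pool.Agent.H21.RHB.HB
import Pool.Agent.H21.RHB.CARD
import Pool.Agent.H21.RHB.MUB
import Pool.Agent.H21.RHB.QNT
import Pool.Agent.H21.RHB.PAIR
import Pool.Agent.H21.RHB.SQ
import Pool.Agent.H21.RHB.STQ
import Pool.Agent.H21.RHB.DBA
import Pool.Agent.H21.RHB.DC
import Pool.Agent.H21.RHB.LIP
import Pool.Agent.H21.RHB.LIQ
import Pool.Agent.H21.RHB.FO
import Pool.Agent.H21.RHB.SO
import Pool.Agent.H21.RHB.ST1
import Pool.Agent.H21.RHB.STG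
import Pool.Agent.H21.RHB.GOODA
import Pool.Agent.H21.RHB.HHB
import Pool.Agent.H21.RHB.LOGB
import Pool.Agent.H21.RHB.DIFF
import Pool.Agent.H21.RHB.HOL
import Pool.Agent.H21.RHB.PART0
import Pool.Agent.H21.RHB.PROD
import Pool.Agent.H21.RHB.MER
import Pool.Agent.H21.RHB.PART
import Pool.Agent.H21.RHB.GADM
import Pool.Agent.H21.RHB.GFIN
import Pool.Agent.H21.RHB.OSC1
import Pool.Agent.H21.RHB.OSC2
import Pool.Agent.H21.RHB.OSC3
import Pool.Agent.H21.RHB.GROW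
import Pool.Agent.H21.RHB.QQ2
import Pool.Agent.H21.RHB.QQ1
import Pool.Agent.H21.RHB.JJB
import Pool.Agent.H21.RHB.FBD
import Pool.Agent.H21.RHB.FBI
import Pool.Agent.H21.RHB.FBB
import Pool.Agent.H21.RHB.FFH
import Pool.Agent.H21.RHB.FFI
import Pool.Agent.H21.RHB.FIN
import Pool.Agent.H21.RHB.ZC
import Pool.Agent.H21.RHB.SMP

set_option autoImplicit false

namespace H21RHB

alias fbb' := FBB.fbb
alias ffh' := FFH.main
alias jjb' := JJB.main
alias logb' := LOGB.logb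
alias zc' := ZC.zc

theorem main2 (h : Hoh) : Main2 := by
  obtain ⟨k, c, j0, hk, hm⟩ := hb h
  have hk1 : 1 ≤ k := by omega
  have DB := dba qnt pair sq stq
  have GOOD := gooda card mub dc fo so st1 stg DB
  have GA : ∀ r : ℕ, Adm k (gg k r) := fun r => gadm k r hk1
  have HOL := hol lip liq card mub hhb logb' diff
  have FBB := fbb' qq1 qq2 jjb' fbd fbi
  have FFH := ffh' FBB qq2 fbd
  have HS := fun (k : ℕ) (g : ℝ → ℝ) (a : ℕ → ℤ) (h1 : 4 ≤ k) (h2 : Adm k g) (h3 : Good k g a) =>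
    (HOL k g a h1 h2 h3).2
  refine fin2 k hk ?_ (fun r => FFH k r hk1) (fun r => smp FBB qq2 fbd k r hk1) (zc' k hk1)
  refine fin k hk (fun r => GOOD k c j0 hk hm _ (GA r)) GA
    (fun g a h1 h2 => (HOL k g a hk h1 h2).1)
    (fun g a h1 h2 => prod logb' part0 HS k g a hk h1 h2)
    (fun g a h1 h2 => part logb' part0 mer HS k g a hk h1 h2)
    (fun r => grow gfin osc1 osc2 osc3 k r hk1)
    (fun r => FFH k r hk1)
    (fun r => ffi qq1 qq2 fbi gadm gfin k r hk)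

end H21RHB
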