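import Pool.Agent.H21.RHB.StmB

/-! Project RHB, stub PARTC (helper96). -/

set_option autoImplicit false

namespace H21RHB

open Real Finset MeasureTheory Filter Topology

noncomputable section

namespace PARTC

theorem ww_nonneg (k j : ℕ) : 0 ≤ ww k j := by
  unfold ww
  have := Real.log_natCast_nonneg j
  positivity

theorem ww_zero (k : ℕ) : ww k 0 = 0 := by simp [ww]

/-- interval integrability of the integrand of II -/
theorem gint (k : ℕ) (g : ℝ → ℝ) (hg : Adm k g) (s : ℂ) (A B : ℝ) (hA : 0 ≤ A) (hB : 0 ≤ B) :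
    IntervalIntegrable (fun v : ℝ => Complex.exp (-((s - 1) * v)) * (g v : ℂ)) volume A B := by
  obtain ⟨hm, C, hC⟩ := hg
  have h1 : IntervalIntegrable
      (fun v : ℝ => ‖Complex.exp (-((s - 1) * v))‖ * (C * Real.exp (v / (4 * k)))) volume A B := by
    apply Continuous.intervalIntegrable
    fun_prop
  refine IntervalIntegrable.mono_fun' h1 ?_ ?_
  · apply Measurable.aestronglyMeasurable
    fun_prop
  · refine (ae_restrict_iff' measurableSet_uIoc).mpr (Eventually.of_forall fun v hv => ?_)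
    have hv0 : 0 ≤ v := by
      rcases Set.mem_uIoc.mp hv with h | h
      · linarith [h.1]
      · linarith [h.1]
    simp only [norm_mul, Complex.norm_real, Real.norm_eq_abs]
    exact mul_le_mul_of_nonneg_left (hC v hv0) (norm_nonneg _)

/-- the finite identity -/
theorem fin_id (h0 : S_PART0) (k J : ℕ) (hk : 1 ≤ k) (hJ : 1 ≤ J) (g : ℝ → ℝ) (hg : Adm k g)
    (e c : ℕ → ℤ) (s : ℂ) :
    ∑ p ∈ (Finset.range (J ^ (2 * k) + 1)).filter Nat.Prime,
      (-Complex.log (eul (e + c) p s / eul e p s)) =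
      ∑ j ∈ Finset.range J, (hhc k g c j s + RBC k e c j s) +
      (∫ v in (0 : ℝ)..(ww k J), Complex.exp (-((s - 1) * v)) * (g v : ℂ)) := by
  have e1 := (h0 k J (fun p => -Complex.log (eul (e + c) p s / eul e p s)) hk hJ).1
  have e4 : ∑ j ∈ Finset.range J, II k g j s =
      ∫ v in (0 : ℝ)..(ww k J), Complex.exp (-((s - 1) * v)) * (g v : ℂ) := by
    have := intervalIntegral.sum_integral_adjacent_intervals (μ := volume)
      (f := fun v : ℝ => Complex.exp (-((s - 1) * v)) * (g v : ℂ)) (a := ww k) (n := J)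
      (fun j _ => gint k g hg s _ _ (ww_nonneg k j) (ww_nonneg k (j + 1)))
    rw [ww_zero] at this
    exact this
  have e5 : ∀ j : ℕ, ∑ p ∈ blk k j, (-Complex.log (eul (e + c) p s / eul e p s)) =
      (hhc k g c j s + RBC k e c j s) + II k g j s := by
    intro j
    have : ∀ p ∈ blk k j, -Complex.log (eul (e + c) p s / eul e p s) =
        RC e c p s + (c p : ℂ) * (p : ℂ) ^ (-s) := by
      intro p _
      unfold RC
      ring
    rw [Finset.sum_congr rfl this, Finset.sum_add_distrib]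
    unfold hhc RBC
    ring
  rw [← e1, ← e4, ← Finset.sum_add_distrib]
  exact Finset.sum_congr rfl fun j _ => e5 j

theorem eul_one (a : ℕ → ℤ) (p : ℕ) (hp : p.Prime) :
    eul a p 1 = (((((p : ℝ) + 1 - a p) / p : ℝ)) : ℂ) := by
  have hp0 : (p : ℂ) ≠ 0 := by exact_mod_cast hp.ne_zero
  unfold eul
  have : (1 : ℂ) - 2 * 1 = -1 := by ring
  rw [this, Complex.cpow_neg_one]
  push_cast
  field_simp
  ring

end PARTC

open PARTC in
theorem partc : S_PARTC := by
  intro hL _ h0 k g P₀ e c hk hP he hg hc hS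
  obtain ⟨CL, hCL, hLb⟩ := hL
  have hk0 : (0 : ℝ) < k := by exact_mod_cast (by omega : 0 < k)
  have hS1 : Summable (fun j : ℕ => hhc k g c j 1 + RBC k e c j 1) := by
    apply hS 1
    have : 0 < 1 / (8 * (k : ℝ)) := by positivity
    simp only [Complex.one_re]
    linarith
  -- positivity of the factors of e
  have hpe : ∀ p : ℕ, p.Prime → 0 < ((p : ℝ) + 1 - e p) / p := by
    intro p hp
    have hp0 : (0 : ℝ) < p := by exact_mod_cast hp.pos
    have hp1 : (1 : ℝ) < p := by exact_mod_cast hp.one_lt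
    apply div_pos _ hp0
    have h1 := (abs_le.mp (he p hp)).2
    have h2 : (1 : ℝ) < √p := by
      rw [Real.lt_sqrt (by norm_num)]
      linarith
    have h3 : √(p : ℝ) ^ 2 = p := Real.sq_sqrt hp0.le
    nlinarith [sq_nonneg (√(p : ℝ) - 1), mul_pos (sub_pos.mpr h2) (sub_pos.mpr h2)]
  -- the quotients
  have hq : ∀ p : ℕ, p.Prime → eul (e + c) p 1 / eul e p 1 =
      ((((((p : ℝ) + 1 - (e + c) p) / p) / (((p : ℝ) + 1 - e p) / p) : ℝ)) : ℂ) := by
    intro p hp
    rw [eul_one _ p hp, eul_one _ p hp]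
    push_cast
    rfl
  have hqpos : ∀ p : ℕ, p.Prime →
      0 < (((p : ℝ) + 1 - (e + c) p) / p) / (((p : ℝ) + 1 - e p) / p) := by
    intro p hp
    have hne : eul e p 1 ≠ 0 := by
      rw [eul_one _ p hp]
      exact_mod_cast (hpe p hp).ne'
    have h1 := (hLb k e c hk he hc.size (fun p hp hlt => hc.small p hp (lt_of_lt_of_le hlt hP))
      p 1 hp (by norm_num) hne).1
    rw [hq p hp] at h1
    have h2 : ‖(((((p : ℝ) + 1 - (e + c) p) / p) / (((p : ℝ) + 1 - e p) / p) - 1 : ℝ) : ℂ)‖
        ≤ 1 / 2 := by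
      push_cast
      push_cast at h1
      exact h1
    rw [Complex.norm_real, Real.norm_eq_abs] at h2
    have := (abs_le.mp h2).1
    linarith
  have hpa : ∀ p : ℕ, p.Prime → 0 < ((p : ℝ) + 1 - (e + c) p) / p := by
    intro p hp
    have h1 := mul_pos (hqpos p hp) (hpe p hp)
    rwa [div_mul_cancel₀ _ (hpe p hp).ne'] at h1
  refine ⟨∑' j : ℕ, ‖hhc k g c j 1 + RBC k e c j 1‖, fun J hJ => ?_⟩
  have hPe : 0 < PP e (J ^ (2 * k)) := by
    unfold PP
    exact Finset.prod_pos fun p hp => hpe p (Finset.mem_filter.mp hp).2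
  have hPa : 0 < PP (e + c) (J ^ (2 * k)) := by
    unfold PP
    exact Finset.prod_pos fun p hp => hpa p (Finset.mem_filter.mp hp).2
  refine ⟨hPe, hPa, ?_⟩
  have hlog : ((Real.log (PP (e + c) (J ^ (2 * k)) / PP e (J ^ (2 * k))) : ℝ) : ℂ) =
      -∑ p ∈ (Finset.range (J ^ (2 * k) + 1)).filter Nat.Prime,
        (-Complex.log (eul (e + c) p 1 / eul e p 1)) := by
    unfold PP
    rw [← Finset.prod_div_distrib,
      Real.log_prod (fun p hp => (hqpos p (Finset.mem_filter.mp hp).2).ne'),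
      Finset.sum_neg_distrib, neg_neg, Complex.ofReal_sum]
    refine Finset.sum_congr rfl fun p hp => ?_
    have hp' := (Finset.mem_filter.mp hp).2
    rw [hq p hp', Complex.ofReal_log (hqpos p hp').le]
  have hid := fin_id h0 k J (by omega) (by omega) g hg e c 1
  have hint : (∫ v in (0 : ℝ)..(ww k J), Complex.exp (-(((1 : ℂ) - 1) * v)) * (g v : ℂ)) =
      ((∫ v in (0 : ℝ)..(ww k J), g v : ℝ) : ℂ) := by
    rw [← intervalIntegral.integral_ofReal]
    refine intervalIntegral.integral_congr fun v _ => ?_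
    simp
  have hfinal : ((Real.log (PP (e + c) (J ^ (2 * k)) / PP e (J ^ (2 * k))) +
      ∫ v in (0 : ℝ)..(ww k J), g v : ℝ) : ℂ) =
      -∑ j ∈ Finset.range J, (hhc k g c j 1 + RBC k e c j 1) := by
    rw [Complex.ofReal_add, hlog, hid, hint]
    ring
  have hn := congrArg norm hfinal
  rw [Complex.norm_real, Real.norm_eq_abs] at hn
  rw [hn, norm_neg]
  refine (norm_sum_le _ _).trans ?_
  exact hS1.norm.sum_le_tsum _ (fun _ _ => norm_nonneg _)

end

end H21RHB
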