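import Pool.Agent.H21.RHB.StmB
import Pool.Agent.H21.RHB.PROD

/-! Project RHB, stub PRODC (helper39), adapted from PROD.lean of helper19. -/

set_option autoImplicit false

namespace H21RHB

open Real Finset MeasureTheory Filter Topology

noncomputable section

namespace PRODC

open PROD

/-- the finite identity -/
theorem fin_idc (h0 : S_PART0) (k J : ℕ) (hk : 1 ≤ k) (hJ : 1 ≤ J) (g : ℝ → ℝ) (hg : Adm k g)
    (e c : ℕ → ℤ) (s : ℂ) :
    ∑ p ∈ (Finset.range (J ^ (2 * k) + 1)).filter Nat.Prime,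
        (-Complex.log (eul (e + c) p s / eul e p s)) =
      ∑ j ∈ Finset.range J, (hhc k g c j s + RBC k e c j s) +
      (∫ v in (0 : ℝ)..(ww k J), Complex.exp (-((s - 1) * v)) * (g v : ℂ)) := by
  have e1 := (h0 k J (fun p => -Complex.log (eul (e + c) p s / eul e p s)) hk hJ).1
  have e4 : ∑ j ∈ Finset.range J, II k g j s =
      ∫ v in (0 : ℝ)..(ww k J), Complex.exp (-((s - 1) * v)) * (g v : ℂ) := by
    have := intervalIntegral.sum_integral_adjacent_intervals (μ := volume)
      (f := fun v : ℝ => Complex.exp (-((s - 1) * v)) * (g v : ℂ)) (a := ww k) (n := J)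
      (fun j _ => gint k g hg s _ _ (ww_nonneg k j) (ww_nonneg k (j + 1)))
    rw [ww_zero] at this
    exact this
  have e5 : ∀ j : ℕ, ∑ p ∈ blk k j, (-Complex.log (eul (e + c) p s / eul e p s)) =
      (hhc k g c j s + RBC k e c j s) + II k g j s := by
    intro j
    have : ∀ p ∈ blk k j, -Complex.log (eul (e + c) p s / eul e p s) =
        RC e c p s + (c p : ℂ) * (p : ℂ) ^ (-s) := by
      intro p _
      unfold RC
      ring
    rw [Finset.sum_congr rfl this, Finset.sum_add_distrib]
    unfold hhc RBC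
    ring
  rw [← e1, ← e4, ← Finset.sum_add_distrib]
  exact Finset.sum_congr rfl fun j _ => e5 j

end PRODC

open PROD PRODC in
theorem prodc : S_PRODC := by
  intro hL hE h0 k g P₀ e c hk hP he hg hc hS s hs
  obtain ⟨CL, hCL, hLb⟩ := hL
  have hk0 : (4 : ℝ) ≤ k := by exact_mod_cast hk
  have hS1 : Summable (fun j : ℕ => hhc k g c j s + RBC k e c j s) := by
    apply hS s
    have : 0 < 1 / (8 * (k : ℝ)) := by positivity
    linarith
  have hne : ∀ p : ℕ, p.Prime → eul e p s ≠ 0 := fun p hp => hE e he p s hp (by linarith)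
  have hsmall : ∀ p : ℕ, p.Prime → p < 10 ^ 6 → c p = 0 := fun p hp h =>
    hc.small p hp (lt_of_lt_of_le h hP)
  have hb := fun (p : ℕ) (hp : p.Prime) =>
    hLb k e c hk he hc.size hsmall p s hp (by linarith) (hne p hp)
  -- summability of the logarithms
  have hlogb : ∀ p : ℕ, p.Prime → ‖-Complex.log (eul (e + c) p s / eul e p s)‖ ≤
      3 * (p : ℝ) ^ (-(s.re - 1 / 8)) := by
    intro p hp
    obtain ⟨h1, h2, -⟩ := hb p hp
    rw [norm_neg]
    have e1 : eul (e + c) p s / eul e p s = 1 + (eul (e + c) p s / eul e p s - 1) := by ring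
    obtain ⟨z, hz⟩ : ∃ z, z = eul (e + c) p s / eul e p s - 1 := ⟨_, rfl⟩
    rw [← hz] at h1 h2 e1
    rw [e1]
    have h3 := Complex.norm_log_one_add_le (z := z) (by linarith)
    have h4 : (1 - ‖z‖)⁻¹ ≤ 2 := by
      rw [inv_le_comm₀ (by linarith) (by norm_num)]
      linarith
    have h0 := norm_nonneg z
    have h5 : ‖z‖ ^ 2 * (1 - ‖z‖)⁻¹ / 2 ≤ (1 / 2) * ‖z‖ := by
      have : ‖z‖ ^ 2 * (1 - ‖z‖)⁻¹ ≤ ‖z‖ ^ 2 * 2 := mul_le_mul_of_nonneg_left h4 (sq_nonneg _)
      nlinarith
    have h6 : (p : ℝ) ^ (1 / 8 - s.re) = (p : ℝ) ^ (-(s.re - 1 / 8)) := by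
      congr 1
      ring
    rw [← h6]
    linarith
  have hsl := tends_primes (fun p => -Complex.log (eul (e + c) p s / eul e p s)) 3
    (s.re - 1 / 8) (by linarith) hlogb
  have t1 := tends_range _ (fun J => J ^ (2 * k)) (tends_pow _ (by omega)) hsl
  have t4 : Tendsto (fun J : ℕ => ∑ j ∈ Finset.range J,
      (hhc k g c j s + RBC k e c j s)) atTop (𝓝 (HC k g e c s)) :=
    hS1.hasSum.tendsto_sum_nat
  have hww : Tendsto (fun J : ℕ => ww k J) atTop atTop := by
    unfold ww
    apply Tendsto.const_mul_atTop (by positivity)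
    exact Real.tendsto_log_atTop.comp tendsto_natCast_atTop_atTop
  have t5 := intervalIntegral_tendsto_integral_Ioi (0 : ℝ) (gintIoi k hk g hg s hs) hww
  have t6 := t4.add t5
  have hlim : (∑' n : ℕ, if n.Prime then -Complex.log (eul (e + c) n s / eul e n s) else 0) =
      (∫ v in Set.Ioi (0 : ℝ), Complex.exp (-((s - 1) * v)) * (g v : ℂ)) + HC k g e c s := by
    have := tendsto_nhds_unique_of_eventuallyEq t1 t6 (by
      filter_upwards [eventually_ge_atTop 1] with J hJ
      exact fin_idc h0 k J (by omega) hJ g hg e c s)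
    rw [this]
    ring
  have hsum : HasSum (fun n : ℕ => if n.Prime then
      -Complex.log (eul (e + c) n s / eul e n s) else 0)
      ((∫ v in Set.Ioi (0 : ℝ), Complex.exp (-((s - 1) * v)) * (g v : ℂ)) + HC k g e c s) := by
    rw [← hlim]
    exact hsl.hasSum
  have hsum2 : HasSum (fun p : Nat.Primes =>
      -Complex.log (eul (e + c) (p : ℕ) s / eul e (p : ℕ) s))
      ((∫ v in Set.Ioi (0 : ℝ), Complex.exp (-((s - 1) * v)) * (g v : ℂ)) + HC k g e c s) := by
    have h := (hasSum_subtype_iff_indicator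
      (f := fun n : ℕ => -Complex.log (eul (e + c) n s / eul e n s))
      (s := {p : ℕ | p.Prime}) (a := (∫ v in Set.Ioi (0 : ℝ),
        Complex.exp (-((s - 1) * v)) * (g v : ℂ)) + HC k g e c s)).mpr (by
        convert hsum using 2 with n
        simp only [Set.indicator_apply, Set.mem_ofPred_eq])
    exact h
  have h3 : HasProd (fun p : Nat.Primes =>
      Complex.exp (-Complex.log (eul (e + c) (p : ℕ) s / eul e (p : ℕ) s)))
      (Complex.exp ((∫ v in Set.Ioi (0 : ℝ), Complex.exp (-((s - 1) * v)) * (g v : ℂ)) +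
        HC k g e c s)) := hsum2.cexp
  have h4 : (fun p : Nat.Primes => eul e (p : ℕ) s / eul (e + c) (p : ℕ) s) =
      fun p : Nat.Primes => Complex.exp (-Complex.log (eul (e + c) (p : ℕ) s /
        eul e (p : ℕ) s)) := by
    funext p
    have h5 := (hb p p.2).1
    have h6 : eul (e + c) (p : ℕ) s / eul e (p : ℕ) s ≠ 0 := by
      intro h
      rw [h] at h5
      norm_num at h5
    rw [Complex.exp_neg, Complex.exp_log h6, inv_div]
  rw [h4]
  exact h3

end

end H21RHB
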