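import Pool.Agent.H21.RHB.Main
import Pool.Agent.H21.RHB.Curve
import Pool.Agent.H21.RHB.HB2
import Pool.Agent.H21.RHB.FOC
import Pool.Agent.H21.RHB.GOODC
import Pool.Agent.H21.RHB.EUL
import Pool.Agent.H21.RHB.LOGC
import Pool.Agent.H21.RHB.HHC
import Pool.Agent.H21.RHB.DIFC
import Pool.Agent.H21.RHB.HOLC
import Pool.Agent.H21.RHB.PRODC
import Pool.Agent.H21.RHB.PARTC
import Pool.Agent.H21.RHB.FINC

set_option autoImplicit false

namespace H21RHB

theorem mainC (k : ℕ) (c : ℝ) (j₀ : ℕ) (hk : 4 ≤ k) (hm : Many k c j₀) : MainC k := by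
  have hk1 : 1 ≤ k := by omega
  have GA : ∀ r : ℕ, Adm k (gg k r) := fun r => gadm k r hk1
  have HOL := holc liq card mub hhcT logc eul_main difc
  have FBB := fbb' qq1 qq2 jjb' fbd fbi
  have FFH := ffh' FBB qq2 fbd
  refine finc k hk (fun r P₀ => goodc lip card mub dc foc k c j₀ hk hm _ (GA r) P₀) GA
    (fun g P₀ e c hP he hg hc => (HOL k g P₀ e c hk hP he hg hc).1)
    (fun g P₀ e c hP he hg hc s hs =>
      prodc logc eul_main part0 k g P₀ e c hk hP he hg hc (HOL k g P₀ e c hk hP he hg hc).2 s hs)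
    (fun g P₀ e c hP he hg hc =>
      partc logc eul_main part0 k g P₀ e c hk hP he hg hc (HOL k g P₀ e c hk hP he hg hc).2)
    (fun r => grow gfin osc1 osc2 osc3 k r hk1)
    (fun r => FFH k r hk1)
    (fun r => ffi qq1 qq2 fbi gadm gfin k r hk)

theorem seqB (h : Hoh) : SeqB := by
  have FBB := fbb' qq1 qq2 jjb' fbd fbi
  exact seqB_of h hb2 mainC (fun k r hk => ffh' FBB qq2 fbd k r hk)
    (fun k r hk => smp FBB qq2 fbd k r hk) zc'

end H21RHB
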