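import Pool.Agent.H21.RHB.Stm

/-! # RHB-STG (helper96): the Sato-Tate distribution from the blocks -/

set_option autoImplicit false

namespace H21RHB

open Real Finset MeasureTheory Filter Topology

namespace STG

lemma step (q : ℕ → Prop) [DecidablePred q] (Y Y' : ℕ) (h : Y ≤ Y') :
    ((Finset.range (Y' + 1)).filter (fun p => p.Prime ∧ q p)).card =
      ((Finset.range (Y + 1)).filter (fun p => p.Prime ∧ q p)).card +
        (((Ioc Y Y').filter Nat.Prime).filter q).card := by
  rw [Finset.filter_filter, ← Finset.card_union_of_disjoint, ← Finset.filter_union]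
  · congr 1
    congr 1
    ext x
    simp only [Finset.mem_range, Finset.mem_union, Finset.mem_Ioc]
    omega
  · refine Finset.disjoint_filter_filter ?_
    rw [Finset.disjoint_left]
    intro x hx hx'
    simp only [Finset.mem_range, Finset.mem_Ioc] at hx hx'
    omega

lemma cnt (q : ℕ → Prop) [DecidablePred q] (k : ℕ) (hk : 1 ≤ k) (J : ℕ) :
    ((Finset.range (J ^ (2 * k) + 1)).filter (fun p => p.Prime ∧ q p)).card =
      ∑ j ∈ Finset.range J, ((blk k j).filter q).card := by
  induction J with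
  | zero =>
    have : (0 : ℕ) ^ (2 * k) = 0 := zero_pow (by omega)
    rw [this]
    simp only [zero_add, Finset.range_one, Finset.range_zero, Finset.sum_empty,
      Finset.card_eq_zero]
    rw [Finset.filter_eq_empty_iff]
    intro x hx
    rw [Finset.mem_singleton] at hx
    subst hx
    intro h
    exact Nat.not_prime_zero h.1
  | succ J ih =>
    rw [Finset.sum_range_succ, ← ih]
    exact step q _ _ (Nat.pow_le_pow_left (Nat.le_succ J) _)

lemma cnt_all (k : ℕ) (hk : 1 ≤ k) (J : ℕ) :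
    ((Finset.range (J ^ (2 * k) + 1)).filter Nat.Prime).card =
      ∑ j ∈ Finset.range J, (blk k j).card := by
  have := cnt (fun _ => True) k hk J
  simpa using this

lemma step_all (Y Y' : ℕ) (h : Y ≤ Y') :
    ((Finset.range (Y' + 1)).filter Nat.Prime).card =
      ((Finset.range (Y + 1)).filter Nat.Prime).card + ((Ioc Y Y').filter Nat.Prime).card := by
  have := step (fun _ => True) Y Y' h
  simpa using this

/-- the block of `X` -/
lemma find_block (k : ℕ) (hk : 1 ≤ k) (X : ℕ) (hX : 1 ≤ X) :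
    ∃ J : ℕ, J ^ (2 * k) < X ∧ X ≤ (J + 1) ^ (2 * k) := by
  classical
  have hex : ∃ J : ℕ, X ≤ J ^ (2 * k) := ⟨X, Nat.le_self_pow (by omega) X⟩
  have h1 := Nat.find_spec hex
  have h0 : Nat.find hex ≠ 0 := by
    intro h
    rw [h, zero_pow (by omega)] at h1
    omega
  obtain ⟨J, hJ⟩ := Nat.exists_eq_succ_of_ne_zero h0
  refine ⟨J, ?_, ?_⟩
  · have := Nat.find_min hex (m := J) (by omega)
    omega
  · rw [hJ] at h1
    exact h1

end STG

theorem stg : S_STG := by
  intro hCARD k c j₀ hk _ a C j₁ hst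
  obtain ⟨C₁, hC₁, hcard⟩ := hCARD k (by omega)
  have hcard' : ∀ j : ℕ, 1 ≤ j → ((blk k j).card : ℝ) ≤ C₁ * (j : ℝ) ^ (2 * k - 1) :=
    fun j hj => (hcard j hj).2.1
  set j₂ : ℕ := max j₁ 1 with hj₂
  have b1 : j₁ ≤ j₂ := le_max_left _ _
  have b3 : 1 ≤ j₂ := le_max_right _ _
  set N₂ : ℝ := ∑ j ∈ Finset.range j₂, ((blk k j).card : ℝ) with hN₂
  have hN₂0 : 0 ≤ N₂ := Finset.sum_nonneg fun _ _ => Nat.cast_nonneg _
  have hk0 : (0 : ℝ) < k := by
    have : 0 < k := by omega
    exact_mod_cast this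
  refine ⟨1 / (2 * (k : ℝ)), 3 * N₂ + |C| * C₁ + 3 * C₁, by positivity, ?_⟩
  intro X x hx
  have hC'0 : 0 ≤ 3 * N₂ + |C| * C₁ + 3 * C₁ := by positivity
  set q : ℕ → Prop := fun p => (a p : ℝ) ≤ 2 * x * √p with hq
  set S : ℝ := STF x with hS
  have hSb : |S| ≤ 2 := by
    rw [hS]
    unfold STF
    have e1 : |x| ≤ 1 := abs_le.2 hx
    have e2 : |√(1 - x ^ 2)| ≤ 1 := by
      rw [abs_of_nonneg (Real.sqrt_nonneg _)]
      exact Real.sqrt_le_iff.mpr ⟨by norm_num, by nlinarith [sq_nonneg x]⟩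
    have e3 : |x * √(1 - x ^ 2)| ≤ 1 := by
      rw [abs_mul]
      exact mul_le_one₀ e1 (abs_nonneg _) e2
    have e4 : |arcsin x| ≤ π / 2 := abs_le.2 ⟨Real.neg_pi_div_two_le_arcsin x, Real.arcsin_le_pi_div_two x⟩
    have e5 := abs_le.1 e3
    have e6 := abs_le.1 e4
    have hpi := Real.pi_gt_three
    rw [abs_le]
    have h1 : |(1 / π) * (x * √(1 - x ^ 2) + arcsin x)| ≤ 1 := by
      rw [abs_mul, abs_of_pos (by positivity : 0 < 1 / π)]
      have : |x * √(1 - x ^ 2) + arcsin x| ≤ π := by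
        rw [abs_le]
        constructor <;> linarith [e5.1, e5.2, e6.1, e6.2]
      calc 1 / π * |x * √(1 - x ^ 2) + arcsin x| ≤ 1 / π * π := by gcongr
        _ = 1 := by field_simp
    have h2 := abs_le.1 h1
    constructor <;> linarith [h2.1, h2.2]
  -- general bound
  have hgen : ∀ F : Finset ℕ, |((F.filter q).card : ℝ) - S * (F.card : ℝ)| ≤ 3 * F.card := by
    intro F
    have e1 : ((F.filter q).card : ℝ) ≤ F.card := by exact_mod_cast Finset.card_filter_le _ _
    have e2 : (0 : ℝ) ≤ ((F.filter q).card : ℝ) := Nat.cast_nonneg _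
    have e3 : (0 : ℝ) ≤ (F.card : ℝ) := Nat.cast_nonneg _
    calc _ ≤ |((F.filter q).card : ℝ)| + |S * (F.card : ℝ)| := abs_sub _ _
      _ = ((F.filter q).card : ℝ) + |S| * F.card := by
          rw [abs_mul, abs_of_nonneg e2, abs_of_nonneg e3]
      _ ≤ _ := by nlinarith
  rcases Nat.eq_zero_or_pos X with hX0 | hX0
  · subst hX0
    have e1 : ((Finset.range (0 + 1)).filter Nat.Prime) = ∅ := by
      rw [Finset.filter_eq_empty_iff]
      intro y hy
      simp only [zero_add, Finset.range_one, Finset.mem_singleton] at hy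
      subst hy
      exact Nat.not_prime_zero
    have e2 : ((Finset.range (0 + 1)).filter (fun p => p.Prime ∧ q p)) = ∅ := by
      rw [Finset.filter_eq_empty_iff]
      intro y hy
      simp only [zero_add, Finset.range_one, Finset.mem_singleton] at hy
      subst hy
      intro h
      exact Nat.not_prime_zero h.1
    rw [e1, e2]
    simp only [Finset.card_empty, Nat.cast_zero, mul_zero, sub_zero, abs_zero]
    exact mul_nonneg hC'0 (Real.rpow_nonneg (le_refl _) _)
  obtain ⟨J, hJ1, hJ2⟩ := STG.find_block k (by omega) X hX0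
  set n : ℕ → ℝ := fun j => ((blk k j).card : ℝ) with hn
  set R : Finset ℕ := (Ioc (J ^ (2 * k)) X).filter Nat.Prime with hR
  have hA : (((Finset.range (X + 1)).filter (fun p => p.Prime ∧ q p)).card : ℝ) =
      ∑ j ∈ Finset.range J, (((blk k j).filter q).card : ℝ) + ((R.filter q).card : ℝ) := by
    rw [STG.step q _ _ hJ1.le, STG.cnt q k (by omega) J]
    push_cast
    rfl
  have hP : (((Finset.range (X + 1)).filter Nat.Prime).card : ℝ) =
      ∑ j ∈ Finset.range J, n j + (R.card : ℝ) := by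
    rw [STG.step_all _ _ hJ1.le, STG.cnt_all k (by omega) J]
    push_cast
    rfl
  have hRle : (R.card : ℝ) ≤ n J := by
    have : R ⊆ blk k J := by
      intro p hp
      rw [hR, Finset.mem_filter, Finset.mem_Ioc] at hp
      unfold blk
      rw [Finset.mem_filter, Finset.mem_Ioc]
      exact ⟨⟨hp.1.1, hp.1.2.trans hJ2⟩, hp.2⟩
    have h : (R.card : ℝ) ≤ ((blk k J).card : ℝ) := by exact_mod_cast Finset.card_le_card this
    exact h
  have hn0 : n 0 = 0 := by
    have : blk k 0 = ∅ := by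
      unfold blk
      rw [Finset.filter_eq_empty_iff]
      intro y hy
      rw [Finset.mem_Ioc] at hy
      have h1 : y ≤ 1 := by simpa using hy.2
      intro hp
      have := hp.two_le
      omega
    show ((blk k 0).card : ℝ) = 0
    rw [this]
    simp
  have e0 : (((Finset.range (X + 1)).filter (fun p => p.Prime ∧ q p)).card : ℝ) -
      S * (((Finset.range (X + 1)).filter Nat.Prime).card : ℝ) =
      ∑ j ∈ Finset.range J, ((((blk k j).filter q).card : ℝ) - S * n j) +
        (((R.filter q).card : ℝ) - S * (R.card : ℝ)) := by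
    rw [hA, hP, Finset.sum_sub_distrib, ← Finset.mul_sum]
    ring
  show |(((Finset.range (X + 1)).filter (fun p => p.Prime ∧ q p)).card : ℝ) -
      S * (((Finset.range (X + 1)).filter Nat.Prime).card : ℝ)| ≤ _
  rw [e0]
  have e1 : |∑ j ∈ Finset.range J, ((((blk k j).filter q).card : ℝ) - S * n j)| ≤
      3 * N₂ + |C| * C₁ * (J : ℝ) ^ (2 * k - 1) := by
    refine (Finset.abs_sum_le_sum_abs _ _).trans ?_
    have hterm : ∀ j ∈ Finset.range J, |(((blk k j).filter q).card : ℝ) - S * n j| ≤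
        (if j < j₂ then 3 * n j else 0) + |C| * C₁ * (J : ℝ) ^ (2 * k - 2) := by
      intro j hj
      have hjJ : j < J := Finset.mem_range.1 hj
      by_cases hj2 : j < j₂
      · rw [if_pos hj2]
        have := hgen (blk k j)
        have h2 : 0 ≤ |C| * C₁ * (J : ℝ) ^ (2 * k - 2) := by positivity
        have h3 : n j = ((blk k j).card : ℝ) := rfl
        rw [h3]
        linarith
      · rw [if_neg hj2, zero_add]
        push Not at hj2
        refine (hst j (b1.trans hj2) x hx).trans ?_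
        have hj1 : 1 ≤ j := b3.trans hj2
        have e1 : (0 : ℝ) < j := by exact_mod_cast hj1
        have e4 := hcard' j hj1
        have e5 : (j : ℝ) ^ (2 * k - 1) = (j : ℝ) ^ (2 * k - 2) * j := by
          rw [← pow_succ]
          congr 1
          omega
        rw [div_le_iff₀ e1]
        have e6 : (j : ℝ) ^ (2 * k - 2) ≤ (J : ℝ) ^ (2 * k - 2) := by
          have : (j : ℝ) ≤ J := by exact_mod_cast hjJ.le
          gcongr
        calc C * ((blk k j).card : ℝ) ≤ |C| * (C₁ * (j : ℝ) ^ (2 * k - 1)) :=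
              mul_le_mul (le_abs_self C) e4 (Nat.cast_nonneg _) (abs_nonneg C)
          _ = |C| * C₁ * (j : ℝ) ^ (2 * k - 2) * j := by rw [e5]; ring
          _ ≤ |C| * C₁ * (J : ℝ) ^ (2 * k - 2) * j := by gcongr
    refine (Finset.sum_le_sum hterm).trans ?_
    rw [Finset.sum_add_distrib, Finset.sum_const, Finset.card_range, nsmul_eq_mul]
    refine add_le_add ?_ ?_
    · rw [← Finset.sum_filter, hN₂, Finset.mul_sum]
      refine Finset.sum_le_sum_of_subset_of_nonneg ?_ fun j _ _ => by positivity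
      intro j hj
      rw [Finset.mem_filter] at hj
      exact Finset.mem_range.2 hj.2
    · rcases Nat.eq_zero_or_pos J with h | h
      · subst h
        have : (0:ℝ) ≤ |C| * C₁ * ((0:ℕ) : ℝ) ^ (2 * k - 1) := by positivity
        simpa using this
      · have e5 : (J : ℝ) ^ (2 * k - 1) = (J : ℝ) * (J : ℝ) ^ (2 * k - 2) := by
          rw [← pow_succ']
          congr 1
          omega
        rw [e5]
        apply le_of_eq
        ring
  have e2 : |((R.filter q).card : ℝ) - S * (R.card : ℝ)| ≤ 3 * C₁ * (J : ℝ) ^ (2 * k - 1) := by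
    refine (hgen R).trans ?_
    rcases Nat.eq_zero_or_pos J with h | h
    · subst h
      have h1 : (R.card : ℝ) ≤ 0 := hn0 ▸ hRle
      have h2 : (0:ℝ) ≤ 3 * C₁ * ((0:ℕ) : ℝ) ^ (2 * k - 1) := by positivity
      linarith
    · have := hcard' J h
      have h3 : (R.card : ℝ) ≤ C₁ * (J : ℝ) ^ (2 * k - 1) := hRle.trans this
      linarith
  refine (abs_add_le _ _).trans ?_
  rcases Nat.eq_zero_or_pos J with h | h
  · subst h
    have h1 : (R.card : ℝ) ≤ 0 := hn0 ▸ hRle
    have h2 : |((R.filter q).card : ℝ) - S * (R.card : ℝ)| ≤ 0 := (hgen R).trans (by linarith)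
    have h3 : |∑ j ∈ Finset.range 0, ((((blk k j).filter q).card : ℝ) - S * n j)| = 0 := by simp
    rw [h3, zero_add]
    exact h2.trans (mul_nonneg hC'0 (Real.rpow_nonneg (Nat.cast_nonneg _) _))
  · have hJ0 : (0 : ℝ) < J := by exact_mod_cast h
    have hJ1' : (1 : ℝ) ≤ (J : ℝ) ^ (2 * k - 1) := one_le_pow₀ (by exact_mod_cast h)
    have hX : (J : ℝ) ^ (2 * k - 1) ≤ (X : ℝ) ^ (1 - 1 / (2 * (k : ℝ))) := by
      have f1 : ((J : ℝ) ^ (2 * k)) ^ (1 - 1 / (2 * (k : ℝ))) = (J : ℝ) ^ (2 * k - 1) := by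
        rw [← Real.rpow_natCast, ← Real.rpow_mul hJ0.le, ← Real.rpow_natCast]
        congr 1
        rw [Nat.cast_sub (by omega)]
        push_cast
        field_simp
      rw [← f1]
      refine Real.rpow_le_rpow (by positivity) (by exact_mod_cast hJ1.le) ?_
      have : 1 / (2 * (k : ℝ)) ≤ 1 := by
        rw [div_le_one (by positivity)]
        have : (1:ℝ) ≤ k := by exact_mod_cast (by omega : 1 ≤ k)
        linarith
      linarith
    calc _ ≤ (3 * N₂ + |C| * C₁ * (J : ℝ) ^ (2 * k - 1)) + 3 * C₁ * (J : ℝ) ^ (2 * k - 1) :=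
          add_le_add e1 e2
      _ ≤ (3 * N₂ + |C| * C₁ + 3 * C₁) * (J : ℝ) ^ (2 * k - 1) := by nlinarith
      _ ≤ _ := mul_le_mul_of_nonneg_left hX hC'0

end H21RHB
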