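import Pool.Agent.H21.RHB.Defs

/-! Project RHB: statements of the stubs.  Prove `theorem xxx : S_XXX` in
Pool/Agent/H21/RHB/XXX.lean (namespace H21RHB.XXX), importing only this file
(and Mathlib).  In the comments y = j^(2k), n = card (blk k j), sigma = Re s,
C a constant that may depend on k, c, C0 (never on j, s, m, b, c). -/

set_option autoImplicit false

namespace H21RHB

open Real Finset MeasureTheory Filter Topology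

noncomputable section

/-! ### A. the sequence -/

/-- HB. Take k >= max 4 (1/(2 delta)), X = j^(2k), Y = (j+1)^(2k) - j^(2k): then
Y >= 2k j^(2k-1) >= X^(1-delta) (as 1/(2k) <= delta) and Y <= X for large j ((1+1/j)^(2k) <= 2);
eta Y / log X >= eta j^(2k-1)/log j. -/
def S_HB : Prop := Hoh → ∃ (k : ℕ) (c : ℝ) (j₀ : ℕ), 4 ≤ k ∧ Many k c j₀

/-- CARD. Binomial / mean value: (j+1)^(2k) - j^(2k) <= 2k (j+1)^(2k-1) <= C j^(2k-1); the number of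
primes of the block is at most its length; sqb has at most (j+1)^k - j^k <= C j^(k-1) elements, each
<= (j+1)^k; log(1+1/j) <= 1/j. -/
def S_CARD : Prop := ∀ k : ℕ, 1 ≤ k → ∃ C : ℝ, 0 < C ∧ ∀ j : ℕ, 1 ≤ j →
  ((j : ℝ) + 1) ^ (2 * k) - (j : ℝ) ^ (2 * k) ≤ C * (j : ℝ) ^ (2 * k - 1) ∧
  ((blk k j).card : ℝ) ≤ C * (j : ℝ) ^ (2 * k - 1) ∧
  ∑ p ∈ sqb k j, (p : ℝ) ≤ C * (j : ℝ) ^ (2 * k - 1) ∧
  ((j : ℝ) + 1) ^ (2 * k) ≤ C * (j : ℝ) ^ (2 * k) ∧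
  ww k j ≤ ww k (j + 1) ∧ ww k (j + 1) - ww k j ≤ 2 * k / j

/-- MUB. On [w_j, w_(j+1)]: e^v <= (j+1)^(2k), |g| <= C e^(v/(4k)) <= C (j+1)^(1/2), the length is
<= 2k/j; sum over sqb by CARD. -/
def S_MUB : Prop := S_CARD → ∀ k : ℕ, 1 ≤ k → ∀ g : ℝ → ℝ, Adm k g → ∃ C : ℝ, 0 < C ∧
  ∀ j : ℕ, 1 ≤ j →
    (∫ v in (ww k j)..(ww k (j + 1)), Real.exp v * |g v|) ≤ C * (j : ℝ) ^ (2 * k - 1 / 2 : ℝ) ∧
    |mu k g j| ≤ C * (j : ℝ) ^ (2 * k - 1 / 2 : ℝ)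

/-- QNT. Quantiles of the Sato-Tate measure on [0,1].  G(x) = 2 STF(x) - 1 = (2/pi)(x sqrt(1-x^2) +
arcsin x) is continuous and strictly increasing from 0 to 1 on [0,1], G' = (4/pi) sqrt(1-x^2).
Take G(t_i) = (i+1/2)/h; then #{i < h : t_i <= x} = #{i : i + 1/2 <= h G(x)}, within 1 of h G(x).
sum t_i^2 = int_0^1 2x (h - #{t_i <= x}) dx = h (1 - int 2x G) +- 1 and int_0^1 2x G(x) dx = 3/4
(by parts: int x^2 G' = (4/pi)(pi/16) = 1/4). -/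
def S_QNT : Prop := ∀ h : ℕ, ∃ t : ℕ → ℝ, (∀ i, 0 ≤ t i ∧ t i ≤ 1) ∧
  |∑ i ∈ Finset.range h, 4 * (t i) ^ 2 - (h : ℝ)| ≤ 8 ∧
  ∀ x ∈ Set.Icc (0 : ℝ) 1,
    |((((Finset.range h).filter (fun i => t i ≤ x)).card : ℝ)) - h * (2 * STF x - 1)| ≤ 1

/-- PAIR. Enumerate S increasingly p_0 < p_1 < ...; b(p_(2i)) = beta_i, b(p_(2i+1)) = -beta_i for
i < card/2, b = 0 elsewhere.  sum b psi = sum beta_i (psi(p_(2i)) - psi(p_(2i+1))), bounded by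
M D sum (p_(2i+1) - p_(2i)) <= M D (B - A). -/
def S_PAIR : Prop := ∀ (S : Finset ℕ) (A B : ℕ), A ≤ B → (∀ p ∈ S, A ≤ p ∧ p ≤ B) →
  ∀ (β : ℕ → ℤ) (M : ℝ), 0 ≤ M → (∀ i, |(β i : ℝ)| ≤ M) → ∃ b : ℕ → ℤ,
    (∀ p, |(b p : ℝ)| ≤ M) ∧
    (∀ (ψ : ℕ → ℂ) (D : ℝ), 0 ≤ D →
      (∀ p ∈ S, ∀ q ∈ S, p ≤ q → ‖ψ p - ψ q‖ ≤ D * ((q : ℝ) - p)) →
      ‖∑ p ∈ S, (b p : ℂ) * ψ p‖ ≤ M * D * ((B : ℝ) - A)) ∧
    (∀ χ : ℤ → ℝ, ∑ p ∈ S, χ (b p) =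
      ∑ i ∈ Finset.range (S.card / 2), (χ (β i) + χ (-β i)) +
        (if S.card % 2 = 1 then χ 0 else 0))

/-- SQ. beta_i = floor(2 j^k (1-1/j) t_i): |beta_i^2 - 4 j^(2k) t_i^2| <= (2 j^k/j + 1)(4 j^k + 1)
<= C j^(2k)/j; 8 j^(2k) sum t_i^2 = 2 j^(2k) (n/2 +- 8) and 1 <= n/j. -/
def S_SQ : Prop := ∃ C : ℝ, 0 < C ∧ ∀ k j n : ℕ, 1 ≤ k → 2 ≤ j → j ≤ n → ∀ t : ℕ → ℝ,
  (∀ i, 0 ≤ t i ∧ t i ≤ 1) →
  |∑ i ∈ Finset.range (n / 2), 4 * (t i) ^ 2 - ((n / 2 : ℕ) : ℝ)| ≤ 8 →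
  |∑ i ∈ Finset.range (n / 2), 2 * ((⌊2 * (j : ℝ) ^ k * (1 - 1 / j) * t i⌋ : ℤ) : ℝ) ^ 2 -
    (j : ℝ) ^ (2 * k) * n| ≤ C * (j : ℝ) ^ (2 * k) * n / j

/-- STQ. With beta_i as in SQ, beta_i/(2j^k) lies in [t_i - 2/j, t_i]; so #{beta_i <= 2 x j^k} is
between #{t_i <= x} and #{t_i <= x + 2/j}, #{-beta_i <= 2 x j^k} = #{beta_i >= -2 x j^k} between
#{t_i - 2/j >= -x} and #{t_i >= -x}; STF is Lipschitz (2/pi) and
STF(-x) = 1 - STF(x); constants O(1) <= C n/j. Treat x >= 0 and x < 0 (and x > 1, x < -1)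
separately. Lipschitz: (STF)' = (2/pi) sqrt(1-x^2). -/
def S_STQ : Prop := ∃ C : ℝ, 0 < C ∧ ∀ k j n : ℕ, 1 ≤ k → 2 ≤ j → j ≤ n → ∀ t : ℕ → ℝ,
  (∀ i, 0 ≤ t i ∧ t i ≤ 1) →
  (∀ x ∈ Set.Icc (0 : ℝ) 1,
    |((((Finset.range (n / 2)).filter (fun i => t i ≤ x)).card : ℝ)) -
      ((n / 2 : ℕ) : ℝ) * (2 * STF x - 1)| ≤ 1) → ∀ x : ℝ,
  |((((Finset.range (n / 2)).filter (fun i =>
      ((⌊2 * (j : ℝ) ^ k * (1 - 1 / j) * t i⌋ : ℤ) : ℝ) ≤ 2 * x * (j : ℝ) ^ k)).card : ℝ)) +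
    ((((Finset.range (n / 2)).filter (fun i =>
      -((⌊2 * (j : ℝ) ^ k * (1 - 1 / j) * t i⌋ : ℤ) : ℝ) ≤ 2 * x * (j : ℝ) ^ k)).card : ℝ)) -
    STF (max (-1) (min 1 x)) * n| ≤ C * n / j

/-- DBA. Assembly: n >= j for large j (Many); QNT with h = n/2, beta_i = floor(..), PAIR with
S = blk k j, A = j^(2k), B = (j+1)^(2k), M = 2 j^k (1-1/j) <= 2 j^k; sq: PAIR with chi = square and
SQ; st: PAIR with chi = indicator of (chi z <= 2 x j^k) and STQ. -/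
def S_DBA : Prop := S_QNT → S_PAIR → S_SQ → S_STQ → ∀ (k : ℕ) (c : ℝ) (j₀ : ℕ), 4 ≤ k →
  Many k c j₀ → ∃ (C : ℝ) (j₁ : ℕ), 0 < C ∧ ∀ j : ℕ, j₁ ≤ j → ∃ b : ℕ → ℤ, DataB k j C b

/-- DC. c_p: distribute the integer M = floor m evenly: c_p = M / n (floor) plus one for the first
M mod n primes: |c_p| <= |M|/n + 1 <= (C0 j^(2k-1/2) + 1) log j/(c j^(2k-1)) + 1 <= j for large j;
sum |c_p| <= |M| + n <= C j^(2k-1/2) (n <= (j+1)^(2k) - j^(2k)). -/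
def S_DC : Prop := S_CARD → ∀ (k : ℕ) (c : ℝ) (j₀ : ℕ), 4 ≤ k → Many k c j₀ → ∀ C₀ : ℝ,
  ∃ (C : ℝ) (j₁ : ℕ), 0 < C ∧ ∀ j : ℕ, j₁ ≤ j → ∀ m : ℝ, |m| ≤ C₀ * (j : ℝ) ^ (2 * k - 1 / 2 : ℝ) →
    ∃ cc : ℕ → ℤ, DataC k j C m cc

/-- LIP. Integrate the derivative: u^(-s) has derivative -s u^(-s-1) of norm |s| u^(-sigma-1) <=
|s| y^(-sigma-1) on [y, x]. -/
def S_LIP : Prop := ∀ (s : ℂ) (x y : ℝ), 0 < y → y ≤ x → 0 ≤ s.re →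
  ‖((x : ℂ)) ^ (-s) - ((y : ℂ)) ^ (-s)‖ ≤ ‖s‖ * y ^ (-s.re - 1) * (x - y)

/-- LIQ. The same for exponentials. -/
def S_LIQ : Prop := ∀ (s : ℂ) (v w : ℝ), w ≤ v → 0 ≤ s.re →
  ‖Complex.exp (-(s * v)) - Complex.exp (-(s * w))‖ ≤ ‖s‖ * Real.exp (-(s.re * w)) * (v - w)

/-- FO. a = b + c.  sum b_p p^(-s): DataB.pair with psi = p^(-s), D = |s| y^(-sigma-1) (LIP):
<= C|s| j^(k-1-2k sigma) <= C |s| j^(2k(1-sigma)-3/2).  sum c_p p^(-s) - m y^(-s) =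
sum c_p (p^(-s) - y^(-s)) + (sum c_p - m) y^(-s): <= C j^(2k-1/2) |s| y^(-sigma-1) C j^(2k-1) +
y^(-sigma). -/
def S_FO : Prop := S_LIP → S_CARD → ∀ (k : ℕ) (C₀ : ℝ), 4 ≤ k → ∃ (C : ℝ), 0 < C ∧
  ∀ (j : ℕ), 1 ≤ j → ∀ (m : ℝ) (b c : ℕ → ℤ), DataB k j C₀ b → DataC k j C₀ m c →
    FirstB k j C m (fun p => b p + c p)

/-- SO. sum (a_p^2 - p) p^(-2s) = y^(-2s) sum (a_p^2 - p) + sum (a_p^2 - p)(p^(-2s) - y^(-2s)).
|a_p| <= 2 j^k + j <= 3 j^k and p <= C j^(2k), so the second sum is <= C n y |2s| y^(-2 sigma-1) C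
j^(2k-1) <= C |s| j^(4k(1-sigma)-2).  |sum (a_p^2 - p)| <= |sum b_p^2 - y n| + sum (2|b_p||c_p| +
c_p^2) + sum (p - y) <= C y n/j + n (4 j^k j + j^2) + n C j^(2k-1) <= C j^(4k-2) (k >= 2). -/
def S_SO : Prop := S_LIP → S_CARD → ∀ (k : ℕ) (C₀ : ℝ), 4 ≤ k → ∃ (C : ℝ), 0 < C ∧
  ∀ (j : ℕ), 1 ≤ j → ∀ (m : ℝ) (b c : ℕ → ℤ), DataB k j C₀ b → DataC k j C₀ m c →
    SecondB k j C (fun p => b p + c p)

/-- ST1. For p in blk: j^k <= sqrt p <= (j+1)^k <= j^k + C j^(k-1), |c_p| <= j <= j^(k-1): so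
a_p <= 2x sqrt p implies b_p <= 2 (x + C/j) j^k, and b_p <= 2 (x - C/j) j^k implies a_p <= 2x sqrt p;
DataB.st and STF Lipschitz: |STF x - STF y| <= |x - y| on [-1,1] ((STF)' = (2/pi) sqrt(1-x^2)). -/
def S_ST1 : Prop := ∀ (k : ℕ) (C₀ : ℝ), 4 ≤ k → ∃ (C : ℝ), 0 < C ∧
  ∀ (j : ℕ), 1 ≤ j → ∀ (m : ℝ) (b c : ℕ → ℤ), DataB k j C₀ b → DataC k j C₀ m c →
    StB k j C (fun p => b p + c p)

/-- STG. Let n_j = card blk, pi(X) = number of primes <= X. For X with J^(2k) < X <= (J+1)^(2k):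
the count is sum_(j<J) (count in block j) + O(n_J) (blocks partition the primes, blk k 0 is empty), so
|count - STF x pi(X)| <= C + sum_(j1<=j<J) C n_j/j + 2 n_J, and sum n_j/j = o(sum n_j), n_J <= C
J^(2k-1) = o(sum_(j<J) n_j) because of Many (sum_(j<J) n_j >= c (J/2)(J/2)^(2k-1)/log J). -/
def S_STG : Prop := S_CARD → ∀ (k : ℕ) (c : ℝ) (j₀ : ℕ), 4 ≤ k → Many k c j₀ → ∀ (a : ℕ → ℤ) (C : ℝ)
  (j₁ : ℕ), (∀ j : ℕ, j₁ ≤ j → StB k j C a) → SatoTate a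

/-- GOODA. Assembly.  a = b + c on the blocks j >= j1 (j1 large, j1^(2k) >= 10^6, j1 >= 2), a = 0 on
the others.  Hasse: |b_p + c_p| <= 2 j^k (1 - 1/j) + j <= 2 j^k <= 2 sqrt p (k >= 2).  On the
finitely many small blocks (1 <= j < j1) FirstB and SecondB hold with a large constant (a = 0):
|m| y^(-sigma) and sum_(p in blk) p^(1-2 sigma) <= n y^(1-2 sigma) (sigma >= 1/2). -/
def S_GOODA : Prop := S_CARD → S_MUB → S_DC → S_FO → S_SO → S_ST1 → S_STG →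
  (∀ (k : ℕ) (c : ℝ) (j₀ : ℕ), 4 ≤ k →
    Many k c j₀ → ∃ (C : ℝ) (j₁ : ℕ), 0 < C ∧ ∀ j : ℕ, j₁ ≤ j → ∃ b : ℕ → ℤ, DataB k j C b) →
  ∀ (k : ℕ) (c : ℝ) (j₀ : ℕ), 4 ≤ k → Many k c j₀ → ∀ g : ℝ → ℝ, Adm k g → ∃ a : ℕ → ℤ, Good k g a

/-! ### B. the Dirichlet series -/

/-- HHB. hh = [sum a_p p^(-s) - mu y^(-s)] - [II - y^(-s) int e^v g] - (1/2) sum_sqb (p^(1-2s) -
p y^(-s)).  First: Good.first.  II - y^(-s) int e^v g = int (e^(-sv) - e^(-s w_j)) e^v g dv: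
<= |s| y^(-sigma) (2k/j) int e^v |g| (LIQ, CARD, MUB).  Third: p^(1-2s) - p y^(-s) =
p((p^2)^(-s) - y^(-s)), LIP with x = p^2: <= |s| y^(-sigma-1) C j^(2k-1) sum p. -/
def S_HHB : Prop := S_LIP → S_LIQ → S_CARD → S_MUB → ∀ (k : ℕ) (g : ℝ → ℝ) (a : ℕ → ℤ), 4 ≤ k →
  Adm k g → Good k g a → ∃ C : ℝ, 0 < C ∧ ∀ (j : ℕ) (s : ℂ), 1 ≤ j → 1 / 2 ≤ s.re →
    ‖hh k g a j s‖ ≤ C * (1 + ‖s‖) * (j : ℝ) ^ (2 * k * (1 - s.re) - 3 / 2)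

/-- LOGB. z = a_p p^(-s) - p^(1-2s), eul = 1 - z.  p < 10^6: |z| = p^(1-2 sigma) <= 2^(-0.8) < 3/4;
p >= 10^6: |z| <= 2p^(1/2-sigma) + p^(1-2 sigma) <= 1/10; in all cases |z| <= 3 p^(1/2 - sigma).
|-log(1-z) - z - z^2/2| <= 4|z|^3/3
(Complex.norm_log_sub_logTaylor_le) and z + z^2/2 - a p^(-s) + (1/2)p^(1-2s) - (1/2)(a^2-p)p^(-2s) =
-a p^(1-3s) + p^(2-4s)/2, both <= 2 p^(3/2-3 sigma). -/
def S_LOGB : Prop := ∃ C : ℝ, 0 < C ∧ ∀ a : ℕ → ℤ,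
  (∀ p : ℕ, p.Prime → |(a p : ℝ)| ≤ 2 * √p) → (∀ p : ℕ, p.Prime → p < 10 ^ 6 → a p = 0) →
  ∀ (p : ℕ) (s : ℂ), p.Prime → 9 / 10 ≤ s.re →
    ‖eul a p s - 1‖ ≤ 3 / 4 ∧ ‖eul a p s - 1‖ ≤ 3 * (p : ℝ) ^ (1 / 2 - s.re) ∧
    ‖RR a p s‖ ≤ C * (p : ℝ) ^ (3 / 2 - 3 * s.re)

/-- DIFF. II, hh, TT, RR are holomorphic (II: entire, integral over a compact interval of a bounded
measurable function times e^(-(s-1)v); RR where |eul - 1| < 1). -/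
def S_DIFF : Prop := S_LOGB → ∀ (k : ℕ) (g : ℝ → ℝ) (a : ℕ → ℤ), 4 ≤ k → Adm k g → Good k g a →
  ∀ j : ℕ, DifferentiableOn ℂ (fun s => hh k g a j s + TT k a j s + RB k a j s) {s | 9 / 10 < s.re}

/-- HOL. On {sigma > 1 - 1/(8k)} intersected with a ball the terms are <= C_R j^(-1-e) (HHB,
Good.second, LOGB with sum over blk of p^(3/2 - 3 sigma) (sum over all primes of p^(-1.1) converges));
so the series converges locally uniformly: differentiableOn_tsum_of_summable_norm on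
{sigma > 1 - 1/(8k) + e, |s| < R}. (k >= 4, so 1 - 1/(8k) > 9/10; term j = 0 is 0 or handled
separately.) -/
def S_HOL : Prop := S_LIP → S_LIQ → S_CARD → S_MUB → S_HHB → S_LOGB → S_DIFF →
  ∀ (k : ℕ) (g : ℝ → ℝ) (a : ℕ → ℤ), 4 ≤ k → Adm k g → Good k g a →
    DifferentiableOn ℂ (HH k g a) {s | 1 - 1 / (8 * (k : ℝ)) < s.re} ∧
    ∀ s : ℂ, 1 - 1 / (8 * (k : ℝ)) < s.re →
      Summable (fun j : ℕ => hh k g a j s + TT k a j s + RB k a j s)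

/-- PART0. Partition of the primes in blocks: for every f, sum over blk's (j < J) = sum over the
primes <= J^(2k); sum over sqb's (j < J) = sum over the primes <= J^k. -/
def S_PART0 : Prop := ∀ (k J : ℕ) (f : ℕ → ℂ), 1 ≤ k → 1 ≤ J →
  ∑ j ∈ Finset.range J, ∑ p ∈ blk k j, f p =
    ∑ p ∈ (Finset.range (J ^ (2 * k) + 1)).filter Nat.Prime, f p ∧
  ∑ j ∈ Finset.range J, ∑ p ∈ sqb k j, f p =
    ∑ p ∈ (Finset.range (J ^ k + 1)).filter Nat.Prime, f p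

/-- PROD. For sigma > 3/2: -log eul = a_p p^(-s) - (1/2)p^(1-2s) + (1/2)(a_p^2-p)p^(-2s) + RR, so
by PART0 sum_(p <= J^(2k)) -log eul = sum_(j<J) (hh + TT + RB) + int_0^(w_J) e^(-(s-1)v) g dv +
(1/2) sum_(p <= J^k) p^(1-2s) - (1/2) sum_(p <= J^(2k)) p^(1-2s); let J -> infinity: the last two have
the same limit, the integral tends to the integral over (0, infinity) (|g| <= C e^(v/16)), the first sum
to HH (HOL).  -log eul is absolutely summable over the primes (LOGB: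
|eul - 1| <= 3/4 and <= 3 p^(1/2-sigma)), so the limit is the sum, and HasProd of the inverses
is exp of the sum (eul = exp(log eul)). -/
def S_PROD : Prop := S_LOGB → S_PART0 →
  (∀ (k : ℕ) (g : ℝ → ℝ) (a : ℕ → ℤ), 4 ≤ k → Adm k g → Good k g a →
    ∀ s : ℂ, 1 - 1 / (8 * (k : ℝ)) < s.re →
      Summable (fun j : ℕ => hh k g a j s + TT k a j s + RB k a j s)) →
  ∀ (k : ℕ) (g : ℝ → ℝ) (a : ℕ → ℤ), 4 ≤ k → Adm k g → Good k g a → ∀ s : ℂ, 3 / 2 < s.re →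
    HasProd (fun p : Nat.Primes => (eul a (p : ℕ) s)⁻¹)
      (Complex.exp ((∫ v in Set.Ioi (0 : ℝ), Complex.exp (-((s - 1) * v)) * (g v : ℂ)) +
        HH k g a s))

/-- MER. Dyadic blocks and primorial_le_4_pow: sum_(t<p<=2t) log p <= 2 t log 4, so
sum_(t<p<=2t) 1/p <= 2 log 4/log t; at most log_2 x + 1 dyadic blocks between x and x^2, each with
t >= x. -/
def S_MER : Prop := ∃ C : ℝ, ∀ x : ℕ, 2 ≤ x →
  ∑ p ∈ (Ioc x (x ^ 2)).filter Nat.Prime, (1 / (p : ℝ)) ≤ C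

/-- PART. At s = 1: eul a p 1 = (p + 1 - a_p)/p, a real number in (0, 2) (|eul - 1| <= 3/4), so
log PP = sum log eul = -[sum_(j<J)(hh+TT+RB)(1) + int_0^(w_J) g + (1/2) sum_(p<=J^k) 1/p -
(1/2) sum_(p<=J^(2k)) 1/p]; the first sum is bounded (Summable), the difference of the last two by MER. -/
def S_PART : Prop := S_LOGB → S_PART0 → S_MER →
  (∀ (k : ℕ) (g : ℝ → ℝ) (a : ℕ → ℤ), 4 ≤ k → Adm k g → Good k g a →
    ∀ s : ℂ, 1 - 1 / (8 * (k : ℝ)) < s.re →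
      Summable (fun j : ℕ => hh k g a j s + TT k a j s + RB k a j s)) →
  ∀ (k : ℕ) (g : ℝ → ℝ) (a : ℕ → ℤ), 4 ≤ k → Adm k g → Good k g a → ∃ B : ℝ, ∀ J : ℕ, 2 ≤ J →
    0 < PP a (J ^ (2 * k)) ∧
    |Real.log (PP a (J ^ (2 * k))) + ∫ v in (0 : ℝ)..(ww k J), g v| ≤ B

/-! ### C. the target function -/

/-- GADM. |CC k i v| <= 2 NN_i^2 <= 2 e^(v/(8k)) when VV k i <= v, at most v + 1 terms, |ph| <= 1,
v + 1 <= C e^(v/(8k)). Measurability: the sum over range(floor v + 1) is a countable gluing of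
measurable functions (or write it as a sum over all i of indicator functions, VV k i > i). -/
def S_GADM : Prop := ∀ k r : ℕ, 1 ≤ k → Adm k (gg k r)

/-- GFIN. VV k i > i (as 2^((i+1)^2+3) >= i), so the terms with i > floor v vanish. -/
def S_GFIN : Prop := ∀ (k r : ℕ) (v : ℝ) (I : ℕ), 1 ≤ k → 0 ≤ v → (∀ i : ℕ, I ≤ i → v < VV k i) →
  gg k r v = -ph v * (r + ∑ i ∈ Finset.range I, if VV k i ≤ v then CC k i v else 0)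

/-- OSC1. Two integrations by parts; ph' = -(1 - e^(-v) - v e^(-v))/v^2 is in [-1/v^2, 0], ph'' is in
[0, 2/v^3]. -/
def S_OSC1 : Prop := ∀ γ V U : ℝ, 0 < γ → 0 < V → V ≤ U →
  |(∫ v in V..U, 2 * Real.cos (γ * v) * ph v) -
    (2 * Real.sin (γ * U) * ph U / γ - 2 * Real.sin (γ * V) * ph V / γ)| ≤ 6 / (γ ^ 2 * V ^ 2)

/-- OSC2. gam * UU = 2 pi (m + phase): sin = 1 (i even) or -1 (i odd), so the first boundary terms add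
up to +-(1 - e^(-U)) (1/pi) sum_(N <= m < N^2) 1/(m + phase) = +-(1/pi) log N + O(1).  gam * VV =
pi (m + phase), sin = (-1)^m sin(pi phase): the alternating sum of 2 ph(V)/gam_m is at most its first
term, <= 2/(gam_N V) <= 1.  The errors: sum 6 U^2/(4 pi^2 m^2 V^2) <= C. -/
def S_OSC2 : Prop := S_OSC1 → ∃ C : ℝ, ∀ k i : ℕ, 1 ≤ k →
  |(∫ v in (VV k i)..(UU k i), CC k i v * ph v) -
    (if Even i then 1 else -1) * (1 / π) * Real.log (NN i)| ≤ C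

/-- OSC3. Each term is at most 4/(gam V) + 6/(gam^2 V^2); gam = 2 pi (m + phase)/(2 V); the sum over
m < N^2 of 1/m is <= 2 log N + 1. -/
def S_OSC3 : Prop := S_OSC1 → ∃ C : ℝ, ∀ (k i : ℕ) (U : ℝ), 1 ≤ k → VV k i ≤ U →
  |∫ v in (VV k i)..U, CC k i v * ph v| ≤ C * Real.log (NN i)

/-- GROW. By GFIN (UU k i < VV k (i+1)): -int_0^U gg = r int_0^U ph + sum_(l<=i) int_(VV l)^U CC ph,
U = UU k i; 0 <= int_0^U ph <= 1 + log U; the term l = i by OSC2, the terms l < i are at most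
C log NN_l by OSC3, sum_(l<i) log NN_l <= i 2^(i^2+3) log 2 = o(log NN_i), NN_i = 2^(2^((i+1)^2+3)). c = 1/(100 k). -/
def S_GROW : Prop := S_GFIN → S_OSC1 → S_OSC2 → S_OSC3 → ∀ k r : ℕ, 1 ≤ k → ∃ i₀ : ℕ, ∀ i : ℕ, i₀ ≤ i →
  (Even i → (1 / (200 * (k : ℝ))) * UU k i ≤ -∫ v in (0 : ℝ)..(UU k i), gg k r v) ∧
  (¬ Even i → (-∫ v in (0 : ℝ)..(UU k i), gg k r v) ≤ -((1 / (200 * (k : ℝ))) * UU k i))

/-- QQ2. Derivative of log: 1/z - 1/(z+1) - int_0^V e^(-zv) (1 - e^(-v)) dv =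
e^(-zV)/z - e^(-(z+1)V)/(z+1). The integral in QQ is entire in z (hasDerivAt_integral_of_dominated..,
ph is bounded by 1 and continuous on (0,V]). -/
def S_QQ2 : Prop := ∀ V : ℝ, 0 ≤ V → ∀ z : ℂ, -1 < z.re →
  DifferentiableAt ℂ (QQ V) z ∧ (QQ V z = 0 ↔ z = 0) ∧
  (z ≠ 0 → HasDerivAt (QQ V) (QQ V z * (Complex.exp (-(z * V)) / z -
    Complex.exp (-((z + 1) * V)) / (z + 1))) z)

/-- QQ1. Both sides of QQ V z * exp(+int_V^infinity e^(-zv) ph) = 1 : the left side has derivative 0 on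
Re z > 0 (QQ2 and differentiation under the integral), hence is constant there (convex open set), and
tends to 1 as z -> +infinity along the reals (int_0^V e^(-zv) ph and the tail both -> 0, z/(z+1) -> 1).
-/
def S_QQ1 : Prop := S_QQ2 → ∀ V : ℝ, 0 ≤ V → ∀ z : ℂ, 0 < z.re →
  QQ V z = Complex.exp (-∫ v in Set.Ioi V, Complex.exp (-(z * v)) * (ph v : ℂ))

/-- JJB. gam VV = pi (m + phase), so e^(i gam V) = (-1)^m e^(i pi phase); pair m = N, N+1; ...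
(N = NN i is even); |1/(w - i gam_m) - 1/(w - i gam_(m+1))| = (2 pi/U)/(..)(..) <= 8 pi/(U gam_m^2)
<= C U/m^2 when gam_m >= 2(R+2) (true for i >= i0(R)); |e^(-(s-1)V)| <= e^(V/(32k)) = N^(1/2); so
|JJ| <= C N^(1/2) U/N <= N^(-1/4). -/
def S_JJB : Prop := ∀ (k : ℕ) (R : ℝ), 1 ≤ k → ∃ i₀ : ℕ, ∀ (i : ℕ) (s : ℂ), i₀ ≤ i → ‖s‖ ≤ R →
  1 - 1 / (32 * (k : ℝ)) ≤ s.re →
    ‖JJ k i s‖ ≤ (NN i : ℝ) ^ (-(1 / 4) : ℝ) ∧ ∀ m ∈ ms i, R < gam k i m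

/-- FBD. Product rule (logarithmic derivative of a finite product) and QQ2. -/
def S_FBD : Prop := S_QQ2 → ∀ (k i : ℕ) (s : ℂ), 1 ≤ k → 0 < s.re →
  DifferentiableAt ℂ (FB k i) s ∧
  (FB k i s = 0 ↔ ∃ m ∈ ms i, s = 1 + Complex.I * gam k i m ∨ s = 1 - Complex.I * gam k i m) ∧
  (FB k i s ≠ 0 → HasDerivAt (FB k i) (FB k i s * JJ k i s) s)

/-- FBI. For sigma > 1: FB = exp(-int_V^infinity e^(-(s-1)v) CC ph dv) by QQ1 (finite sum); and at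
s = 2 the integral is at most 2 N^2 e^(-V), so |FB(2) - 1| <= N^(-1/4) for all large i. -/
def S_FBI : Prop := S_QQ1 → S_QQ2 → ∀ (k : ℕ), 1 ≤ k →
  (∀ (i : ℕ) (s : ℂ), 1 < s.re → FB k i s =
    Complex.exp (-∫ v in Set.Ioi (VV k i),
      Complex.exp (-((s - 1) * v)) * ((CC k i v * ph v : ℝ) : ℂ))) ∧
  ∃ i₀ : ℕ, ∀ i : ℕ, i₀ ≤ i → ‖FB k i 2 - 1‖ ≤ (NN i : ℝ) ^ (-(1 / 4) : ℝ)

/-- FBB. On the segment from 2 to s (convex region {|s| <= R, sigma >= 1 - 1/(32k)}; zeros of FB are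
outside since gam > R): f(t) = FB(2 + t(s-2)) satisfies f' = (s-2) f JJ, |JJ| <= e = N^(-1/4), so
|f(1) - f(0)| <= |f(0)| (e^(e|s-2|) - 1) (Gronwall, or f(t) exp(-int JJ) constant). -/
def S_FBB : Prop := S_QQ1 → S_QQ2 → S_JJB → S_FBD → S_FBI → ∀ (k : ℕ) (R : ℝ), 1 ≤ k → 3 ≤ R →
  ∃ (i₀ : ℕ) (C : ℝ), 0 < C ∧ ∀ (i : ℕ) (s : ℂ), i₀ ≤ i → ‖s‖ ≤ R → 1 - 1 / (32 * (k : ℝ)) ≤ s.re →
    ‖FB k i s - 1‖ ≤ C * (NN i : ℝ) ^ (-(1 / 4) : ℝ)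

/-- FFH. The infinite product converges locally uniformly (sum NN_i^(-1/4) converges), is holomorphic,
vanishes only where a factor vanishes (tprod_one_add_ne_zero_of_summable), FB(1) is not 0 (gam > 0);
QQ 0 z = z/(z+1). -/
def S_FFH : Prop := (∀ (k : ℕ) (R : ℝ), 1 ≤ k → 3 ≤ R →
  ∃ (i₀ : ℕ) (C : ℝ), 0 < C ∧ ∀ (i : ℕ) (s : ℂ), i₀ ≤ i → ‖s‖ ≤ R → 1 - 1 / (32 * (k : ℝ)) ≤ s.re →
    ‖FB k i s - 1‖ ≤ C * (NN i : ℝ) ^ (-(1 / 4) : ℝ)) → S_QQ2 → S_FBD → ∀ (k r : ℕ), 1 ≤ k →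
  DifferentiableOn ℂ (FF k r) {s | 1 - 1 / (32 * (k : ℝ)) < s.re} ∧
  (∀ s : ℂ, 1 - 1 / (32 * (k : ℝ)) < s.re → (FF k r s = 0 ↔
    (s = 1 ∧ r ≠ 0) ∨ ∃ i : ℕ, ∃ m ∈ ms i, s = 1 + Complex.I * gam k i m ∨
      s = 1 - Complex.I * gam k i m)) ∧
  analyticOrderAt (FF k r) 1 = r

/-- FFI. Product over i of FBI and QQ1 (V = 0): the sum over i of the tail integrals converges
absolutely for sigma > 1 (|..| <= 2 NN_i^2 e^(-(sigma-1) VV_i): for a general sigma > 1 use instead that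
the product converges (FBB) and dominated convergence for the partial sums: the partial sums over
i < I of the densities are dominated by C e^(v/(4k)) only, so first prove the formula for
sigma > 3/2, which is all that is stated). For sigma > 3/2: NN_i^2 e^(-8k log NN_i). -/
def S_FFI : Prop := S_QQ1 → S_QQ2 → S_FBI → S_GADM → S_GFIN → ∀ (k r : ℕ), 4 ≤ k →
  ∀ s : ℂ, 3 / 2 < s.re →
    FF k r s = Complex.exp (∫ v in Set.Ioi (0 : ℝ), Complex.exp (-((s - 1) * v)) * (gg k r v : ℂ))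

/-! ### D. main theorem -/

/-- the main statement with the factorization L = FF exp H -/
def MainK (k : ℕ) : Prop := ∀ r : ℕ, ∃ (a : ℕ → ℤ) (L H : ℂ → ℂ),
  (∀ p : ℕ, p.Prime → |(a p : ℝ)| ≤ 2 * √p) ∧ SatoTate a ∧
  (∀ s : ℂ, 3 / 2 < s.re → HasProd (fun p : Nat.Primes => (eul a (p : ℕ) s)⁻¹) (L s)) ∧
  DifferentiableOn ℂ L {s | 1 - 1 / (32 * (k : ℝ)) < s.re} ∧
  DifferentiableOn ℂ H {s | 1 - 1 / (32 * (k : ℝ)) < s.re} ∧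
  (∀ s : ℂ, L s = FF k r s * Complex.exp (H s)) ∧
  (∀ s : ℂ, 1 - 1 / (32 * (k : ℝ)) < s.re → L s = 0 → s.re = 1) ∧ analyticOrderAt L 1 = r ∧
  (∀ X : ℕ, ∃ x : ℕ, X ≤ x ∧ (x : ℝ) ^ (1 / (400 * (k : ℝ))) ≤ PP a x) ∧
  (∀ X : ℕ, ∃ x : ℕ, X ≤ x ∧ PP a x ≤ (x : ℝ) ^ (-(1 / (400 * (k : ℝ)))))

/-- ZC. Number of ordinates up to T.  If gam k i m <= T with m in ms i, then NN_i <= m <= T UU/(2 pi),
so NN_i <= C T log NN_i, log NN_i <= C log T (T >= 2); for each such i at most T UU k i/(2 pi) + 1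
values of m, and the sum over i of the UU k i (i <= the largest one) is at most 2 (largest UU). -/
def S_ZC : Prop := ∀ k : ℕ, 1 ≤ k → ∃ C : ℝ, ∀ T : ℝ, 2 ≤ T →
  {q : ℕ × ℕ | q.2 ∈ ms q.1 ∧ gam k q.1 q.2 ≤ T}.Finite ∧
  (({q : ℕ × ℕ | q.2 ∈ ms q.1 ∧ gam k q.1 q.2 ≤ T}.ncard : ℝ)) ≤ C * T * Real.log T

/-- SMP. The zeros of FF other than 1 are simple. The ordinates gam k i m ((i, m) with m in ms i) are
positive and distinct (NN_(i+1) >= NN_i^8, UU_(i+1) = log ratio times UU_i: 2 pi NN_i^2/UU_i <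
2 pi NN_(i+1)/UU_(i+1)).  At s0 = 1 +- i gam k i m: FF = (QQ 0 (s-1))^r * (FB k i s) * (product over
l other than i), the last factor and the first are holomorphic and nonzero at s0
(tprod_one_add_ne_zero..); in FB exactly one factor QQ V z vanishes, with derivative at z = 0 equal to
exp(..) (QQ V z = z * E(z), E(0) not 0). So deriv FF s0 is not 0. -/
def S_SMP : Prop := (∀ (k : ℕ) (R : ℝ), 1 ≤ k → 3 ≤ R →
  ∃ (i₀ : ℕ) (C : ℝ), 0 < C ∧ ∀ (i : ℕ) (s : ℂ), i₀ ≤ i → ‖s‖ ≤ R → 1 - 1 / (32 * (k : ℝ)) ≤ s.re →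
    ‖FB k i s - 1‖ ≤ C * (NN i : ℝ) ^ (-(1 / 4) : ℝ)) → S_QQ2 → S_FBD → ∀ (k r : ℕ), 1 ≤ k →
  ∀ s : ℂ, 1 - 1 / (32 * (k : ℝ)) < s.re → FF k r s = 0 → s ≠ 1 → deriv (FF k r) s ≠ 0

/-- FIN. Final assembly: L = FF * exp HH (exp never vanishes: zeros and order from FFH), HasProd by
PROD and FFI; PP at J = NN_i^16: ww k J = UU k i, J^(2k) = e^(UU); PART and GROW with i even / odd;
c = 1/(400 k) (UU k i/(200k) - B >= UU k i/(400k) for large i). H = HH k (gg k r) a, L = FF exp H. -/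
def S_FIN : Prop := ∀ k : ℕ, 4 ≤ k →
  (∀ r : ℕ, ∃ a : ℕ → ℤ, Good k (gg k r) a) →
  (∀ r : ℕ, Adm k (gg k r)) →
  (∀ (g : ℝ → ℝ) (a : ℕ → ℤ), Adm k g → Good k g a →
    DifferentiableOn ℂ (HH k g a) {s | 1 - 1 / (8 * (k : ℝ)) < s.re}) →
  (∀ (g : ℝ → ℝ) (a : ℕ → ℤ), Adm k g → Good k g a → ∀ s : ℂ, 3 / 2 < s.re →
    HasProd (fun p : Nat.Primes => (eul a (p : ℕ) s)⁻¹)
      (Complex.exp ((∫ v in Set.Ioi (0 : ℝ), Complex.exp (-((s - 1) * v)) * (g v : ℂ)) +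
        HH k g a s))) →
  (∀ (g : ℝ → ℝ) (a : ℕ → ℤ), Adm k g → Good k g a → ∃ B : ℝ, ∀ J : ℕ, 2 ≤ J →
    0 < PP a (J ^ (2 * k)) ∧
    |Real.log (PP a (J ^ (2 * k))) + ∫ v in (0 : ℝ)..(ww k J), g v| ≤ B) →
  (∀ r : ℕ, ∃ i₀ : ℕ, ∀ i : ℕ, i₀ ≤ i →
    (Even i → (1 / (200 * (k : ℝ))) * UU k i ≤ -∫ v in (0 : ℝ)..(UU k i), gg k r v) ∧
    (¬ Even i → (-∫ v in (0 : ℝ)..(UU k i), gg k r v) ≤ -((1 / (200 * (k : ℝ))) * UU k i))) →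
  (∀ r : ℕ, DifferentiableOn ℂ (FF k r) {s | 1 - 1 / (32 * (k : ℝ)) < s.re} ∧
    (∀ s : ℂ, 1 - 1 / (32 * (k : ℝ)) < s.re → (FF k r s = 0 ↔
      (s = 1 ∧ r ≠ 0) ∨ ∃ i : ℕ, ∃ m ∈ ms i, s = 1 + Complex.I * gam k i m ∨
        s = 1 - Complex.I * gam k i m)) ∧
    analyticOrderAt (FF k r) 1 = r) →
  (∀ (r : ℕ) (s : ℂ), 3 / 2 < s.re →
    FF k r s = Complex.exp (∫ v in Set.Ioi (0 : ℝ), Complex.exp (-((s - 1) * v)) * (gg k r v : ℂ))) →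
  MainK k

end

end H21RHB
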