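import Pool.Agent.H21.RHB.Stm

/-! Project RHB, part B: small perturbations c of a GIVEN sequence e (the a_p of an elliptic curve).
Everything is an adaptation of a proved file of part A (named in each docstring).
Theorem H21RHB.xxx : S_XXX in Pool/Agent/H21/RHB/XXX.lean, aux lemmas in namespace H21RHB.XXX. -/

set_option autoImplicit false

namespace H21RHB

open Real Finset MeasureTheory Filter Topology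

noncomputable section

/-- mass of the target on block j (no squares) -/
def muc (k : ℕ) (g : ℝ → ℝ) (j : ℕ) : ℝ := ∫ v in (ww k j)..(ww k (j + 1)), Real.exp v * g v

/-- what the perturbation c has to satisfy -/
structure GoodC (k : ℕ) (g : ℝ → ℝ) (P₀ : ℕ) (c : ℕ → ℤ) : Prop where
  size : ∀ p : ℕ, p.Prime → |(c p : ℝ)| ≤ (p : ℝ) ^ (1 / (2 * (k : ℝ)))
  small : ∀ p : ℕ, p.Prime → p < P₀ → c p = 0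
  first : ∃ C : ℝ, ∀ j : ℕ, 1 ≤ j → FirstB k j C (muc k g j) c

def hhc (k : ℕ) (g : ℝ → ℝ) (c : ℕ → ℤ) (j : ℕ) (s : ℂ) : ℂ :=
  ∑ p ∈ blk k j, (c p : ℂ) * (p : ℂ) ^ (-s) - II k g j s

/-- second order remainder of the quotient of the Euler factors -/
def RC (e c : ℕ → ℤ) (p : ℕ) (s : ℂ) : ℂ :=
  -Complex.log (eul (e + c) p s / eul e p s) - (c p : ℂ) * (p : ℂ) ^ (-s)

def RBC (k : ℕ) (e c : ℕ → ℤ) (j : ℕ) (s : ℂ) : ℂ := ∑ p ∈ blk k j, RC e c p s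

def HC (k : ℕ) (g : ℝ → ℝ) (e c : ℕ → ℤ) (s : ℂ) : ℂ :=
  ∑' j : ℕ, (hhc k g c j s + RBC k e c j s)

/-- HB2. As HB.lean, with k = max (max 4 k0) (..). -/
def S_HB2 : Prop := Hoh → ∀ k₀ : ℕ, ∃ (k : ℕ) (c : ℝ) (j₀ : ℕ), k₀ ≤ k ∧ 4 ≤ k ∧ Many k c j₀

/-- FOC. As FO.lean without b. -/
def S_FOC : Prop := S_LIP → S_CARD → ∀ (k : ℕ) (C₀ : ℝ), 4 ≤ k → ∃ (C : ℝ), 0 < C ∧
  ∀ (j : ℕ), 1 ≤ j → ∀ (m : ℝ) (c : ℕ → ℤ), DataC k j C₀ m c → FirstB k j C m c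

/-- GOODC. As GOODA.lean: c = cc_j on the blocks j >= j1 (DC with m = muc, |muc| <= int e^v |g|, MUB),
c = 0 on the others and j1^(2k) >= P0; |c_p| <= j < p^(1/(2k)) for p > j^(2k). -/
def S_GOODC : Prop := S_LIP → S_CARD → S_MUB → S_DC → S_FOC →
  ∀ (k : ℕ) (c : ℝ) (j₀ : ℕ), 4 ≤ k → Many k c j₀ → ∀ g : ℝ → ℝ, Adm k g → ∀ P₀ : ℕ,
    ∃ cc : ℕ → ℤ, GoodC k g P₀ cc

/-- EUL. If 1 - e p^(-s) + p^(1-2s) = 0 then z = p^s is a root of z^2 - e z + p = 0; as e^2 <= 4p the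
roots are (e +- i sqrt(4p - e^2))/2 of absolute value sqrt p, but |p^s| = p^(Re s) > sqrt p. -/
def S_EUL : Prop := ∀ e : ℕ → ℤ, (∀ p : ℕ, p.Prime → |(e p : ℝ)| ≤ 2 * √p) →
  ∀ (p : ℕ) (s : ℂ), p.Prime → 1 / 2 < s.re → eul e p s ≠ 0

/-- LOGC. If p < 10^6 then c_p = 0: the quotient is 1 (eul e p s is not 0) and RC = 0.  If p >= 10^6:
eul (e + c) = eul e - w, w = c_p p^(-s), |w| <= p^(1/8 - sigma), |eul e - 1| <= 3 p^(1/2 - sigma) <=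
1/10; u = w/eul e, |u| <= (10/9)|w|, quotient = 1 - u, -log(1-u) - w = (u - w) + O(u^2),
|u - w| <= 2|w| |eul e - 1| <= 6 p^(5/8 - 2 sigma), |u|^2 <= 2 p^(1/4 - 2 sigma). -/
def S_LOGC : Prop := ∃ C : ℝ, 0 < C ∧ ∀ (k : ℕ) (e c : ℕ → ℤ), 4 ≤ k →
  (∀ p : ℕ, p.Prime → |(e p : ℝ)| ≤ 2 * √p) →
  (∀ p : ℕ, p.Prime → |(c p : ℝ)| ≤ (p : ℝ) ^ (1 / (2 * (k : ℝ)))) →
  (∀ p : ℕ, p.Prime → p < 10 ^ 6 → c p = 0) →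
  ∀ (p : ℕ) (s : ℂ), p.Prime → 9 / 10 ≤ s.re → eul e p s ≠ 0 →
    ‖eul (e + c) p s / eul e p s - 1‖ ≤ 1 / 2 ∧
    ‖eul (e + c) p s / eul e p s - 1‖ ≤ 2 * (p : ℝ) ^ (1 / 8 - s.re) ∧
    ‖RC e c p s‖ ≤ C * (p : ℝ) ^ (5 / 8 - 2 * s.re)

/-- HHC. As HHB.lean without the sum over sqb. -/
def S_HHC : Prop := S_LIQ → S_CARD → S_MUB → ∀ (k : ℕ) (g : ℝ → ℝ) (P₀ : ℕ) (c : ℕ → ℤ), 4 ≤ k →
  Adm k g → GoodC k g P₀ c → ∃ C : ℝ, 0 < C ∧ ∀ (j : ℕ) (s : ℂ), 1 ≤ j → 1 / 2 ≤ s.re →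
    ‖hhc k g c j s‖ ≤ C * (1 + ‖s‖) * (j : ℝ) ^ (2 * k * (1 - s.re) - 3 / 2)

/-- DIFC. As DIFF.lean (quotient in the disc |q - 1| <= 1/2). -/
def S_DIFC : Prop := S_LOGC → S_EUL → ∀ (k : ℕ) (g : ℝ → ℝ) (P₀ : ℕ) (e c : ℕ → ℤ), 4 ≤ k →
  10 ^ 6 ≤ P₀ → (∀ p : ℕ, p.Prime → |(e p : ℝ)| ≤ 2 * √p) → Adm k g → GoodC k g P₀ c →
  ∀ j : ℕ, DifferentiableOn ℂ (fun s => hhc k g c j s + RBC k e c j s) {s | 9 / 10 < s.re}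

/-- HOLC. As HOL.lean: HHC, LOGC with the sum over blk of p^(5/8 - 2 sigma), sigma > 31/32. -/
def S_HOLC : Prop := S_LIQ → S_CARD → S_MUB → S_HHC → S_LOGC → S_EUL → S_DIFC →
  ∀ (k : ℕ) (g : ℝ → ℝ) (P₀ : ℕ) (e c : ℕ → ℤ), 4 ≤ k → 10 ^ 6 ≤ P₀ →
    (∀ p : ℕ, p.Prime → |(e p : ℝ)| ≤ 2 * √p) → Adm k g → GoodC k g P₀ c →
    DifferentiableOn ℂ (HC k g e c) {s | 1 - 1 / (8 * (k : ℝ)) < s.re} ∧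
    ∀ s : ℂ, 1 - 1 / (8 * (k : ℝ)) < s.re → Summable (fun j : ℕ => hhc k g c j s + RBC k e c j s)

/-- PRODC. As PROD.lean: -log(quotient) = c_p p^(-s) + RC; no sums of p^(1-2s). -/
def S_PRODC : Prop := S_LOGC → S_EUL → S_PART0 →
  ∀ (k : ℕ) (g : ℝ → ℝ) (P₀ : ℕ) (e c : ℕ → ℤ), 4 ≤ k → 10 ^ 6 ≤ P₀ →
    (∀ p : ℕ, p.Prime → |(e p : ℝ)| ≤ 2 * √p) → Adm k g → GoodC k g P₀ c →
    (∀ s : ℂ, 1 - 1 / (8 * (k : ℝ)) < s.re →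
      Summable (fun j : ℕ => hhc k g c j s + RBC k e c j s)) → ∀ s : ℂ, 3 / 2 < s.re →
    HasProd (fun p : Nat.Primes => eul e (p : ℕ) s / eul (e + c) (p : ℕ) s)
      (Complex.exp ((∫ v in Set.Ioi (0 : ℝ), Complex.exp (-((s - 1) * v)) * (g v : ℂ)) +
        HC k g e c s))

/-- PARTC. As PART.lean: at s = 1 the quotient is (p + 1 - e_p - c_p)/(p + 1 - e_p), real, in
[1/2, 3/2], and p + 1 - e_p >= (sqrt p - 1)^2 > 0. -/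
def S_PARTC : Prop := S_LOGC → S_EUL → S_PART0 →
  ∀ (k : ℕ) (g : ℝ → ℝ) (P₀ : ℕ) (e c : ℕ → ℤ), 4 ≤ k → 10 ^ 6 ≤ P₀ →
    (∀ p : ℕ, p.Prime → |(e p : ℝ)| ≤ 2 * √p) → Adm k g → GoodC k g P₀ c →
    (∀ s : ℂ, 1 - 1 / (8 * (k : ℝ)) < s.re →
      Summable (fun j : ℕ => hhc k g c j s + RBC k e c j s)) →
    ∃ B : ℝ, ∀ J : ℕ, 2 ≤ J →
      0 < PP e (J ^ (2 * k)) ∧ 0 < PP (e + c) (J ^ (2 * k)) ∧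
      |Real.log (PP (e + c) (J ^ (2 * k)) / PP e (J ^ (2 * k))) + ∫ v in (0 : ℝ)..(ww k J), g v| ≤ B

/-- conclusion of part B -/
def MainC (k : ℕ) : Prop := ∀ (r P₀ : ℕ) (e : ℕ → ℤ),
  (∀ p : ℕ, p.Prime → |(e p : ℝ)| ≤ 2 * √p) → ∃ (a : ℕ → ℤ) (R H : ℂ → ℂ),
  (∀ p : ℕ, p.Prime → |(a p : ℝ) - e p| ≤ (p : ℝ) ^ (1 / (2 * (k : ℝ)))) ∧
  (∀ p : ℕ, p.Prime → p < P₀ → a p = e p) ∧
  (∀ s : ℂ, 3 / 2 < s.re →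
    HasProd (fun p : Nat.Primes => eul e (p : ℕ) s / eul a (p : ℕ) s) (R s)) ∧
  DifferentiableOn ℂ R {s | 1 - 1 / (32 * (k : ℝ)) < s.re} ∧
  DifferentiableOn ℂ H {s | 1 - 1 / (32 * (k : ℝ)) < s.re} ∧
  (∀ s : ℂ, R s = FF k r s * Complex.exp (H s)) ∧
  (∀ s : ℂ, 1 - 1 / (32 * (k : ℝ)) < s.re → R s = 0 → s.re = 1) ∧ analyticOrderAt R 1 = r ∧
  (∀ X : ℕ, ∃ x : ℕ, X ≤ x ∧ 0 < PP e x ∧ (x : ℝ) ^ (1 / (400 * (k : ℝ))) ≤ PP a x / PP e x) ∧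
  (∀ X : ℕ, ∃ x : ℕ, X ≤ x ∧ 0 < PP e x ∧ 0 < PP a x ∧
    PP a x / PP e x ≤ (x : ℝ) ^ (-(1 / (400 * (k : ℝ)))))

/-- FINC. As FIN.lean, with g = gg k r, P = max P0 10^6, a = e + c, H = HC. -/
def S_FINC : Prop := ∀ k : ℕ, 4 ≤ k →
  (∀ r P₀ : ℕ, ∃ c : ℕ → ℤ, GoodC k (gg k r) P₀ c) →
  (∀ r : ℕ, Adm k (gg k r)) →
  (∀ (g : ℝ → ℝ) (P₀ : ℕ) (e c : ℕ → ℤ), 10 ^ 6 ≤ P₀ →
    (∀ p : ℕ, p.Prime → |(e p : ℝ)| ≤ 2 * √p) → Adm k g → GoodC k g P₀ c →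
    DifferentiableOn ℂ (HC k g e c) {s | 1 - 1 / (8 * (k : ℝ)) < s.re}) →
  (∀ (g : ℝ → ℝ) (P₀ : ℕ) (e c : ℕ → ℤ), 10 ^ 6 ≤ P₀ →
    (∀ p : ℕ, p.Prime → |(e p : ℝ)| ≤ 2 * √p) → Adm k g → GoodC k g P₀ c → ∀ s : ℂ, 3 / 2 < s.re →
    HasProd (fun p : Nat.Primes => eul e (p : ℕ) s / eul (e + c) (p : ℕ) s)
      (Complex.exp ((∫ v in Set.Ioi (0 : ℝ), Complex.exp (-((s - 1) * v)) * (g v : ℂ)) +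
        HC k g e c s))) →
  (∀ (g : ℝ → ℝ) (P₀ : ℕ) (e c : ℕ → ℤ), 10 ^ 6 ≤ P₀ →
    (∀ p : ℕ, p.Prime → |(e p : ℝ)| ≤ 2 * √p) → Adm k g → GoodC k g P₀ c → ∃ B : ℝ, ∀ J : ℕ, 2 ≤ J →
      0 < PP e (J ^ (2 * k)) ∧ 0 < PP (e + c) (J ^ (2 * k)) ∧
      |Real.log (PP (e + c) (J ^ (2 * k)) / PP e (J ^ (2 * k))) +
        ∫ v in (0 : ℝ)..(ww k J), g v| ≤ B) →
  (∀ r : ℕ, ∃ i₀ : ℕ, ∀ i : ℕ, i₀ ≤ i →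
    (Even i → (1 / (200 * (k : ℝ))) * UU k i ≤ -∫ v in (0 : ℝ)..(UU k i), gg k r v) ∧
    (¬ Even i → (-∫ v in (0 : ℝ)..(UU k i), gg k r v) ≤ -((1 / (200 * (k : ℝ))) * UU k i))) →
  (∀ r : ℕ, DifferentiableOn ℂ (FF k r) {s | 1 - 1 / (32 * (k : ℝ)) < s.re} ∧
    (∀ s : ℂ, 1 - 1 / (32 * (k : ℝ)) < s.re → (FF k r s = 0 ↔
      (s = 1 ∧ r ≠ 0) ∨ ∃ i : ℕ, ∃ m ∈ ms i, s = 1 + Complex.I * gam k i m ∨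
        s = 1 - Complex.I * gam k i m)) ∧
    analyticOrderAt (FF k r) 1 = r) →
  (∀ (r : ℕ) (s : ℂ), 3 / 2 < s.re →
    FF k r s = Complex.exp (∫ v in Set.Ioi (0 : ℝ), Complex.exp (-((s - 1) * v)) * (gg k r v : ℂ))) →
  MainC k

end

end H21RHB
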